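import Pool.Agent.Lib.MP_c2b80f_alD.CjDefs

/-!
# Invariance of genericity under conjugation (job CjA)
-/

open Matrix Polynomial

namespace WCn

variable {m : ℕ}

private theorem CjA_inv_mul (P : GL (Fin m) ℂ) : (P⁻¹).1 * P.1 = 1 := by
  rw [← Units.val_mul, inv_mul_cancel, Units.val_one]

private theorem CjA_mul_inv (P : GL (Fin m) ℂ) : P.1 * (P⁻¹).1 = 1 := by
  rw [← Units.val_mul, mul_inv_cancel, Units.val_one]

/-- `g = p diag(t) p⁻¹` iff `P g P⁻¹ = (P p) diag(t) (P p)⁻¹`. -/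
theorem diagBy_cj (P : GL (Fin m) ℂ) (g : SLC m) (p : GL (Fin m) ℂ) (t : Fin m → ℂˣ) : DiagBy (cj P g) p t ↔ DiagBy g (P⁻¹ * p) t := by
  have h0 : ((P⁻¹ * p)⁻¹).1 = (p⁻¹).1 * P.1 := by
    rw [_root_.mul_inv_rev, inv_inv]
    rfl
  have h1 : (P⁻¹ * p).1 = (P⁻¹).1 * p.1 := rfl
  have h2 : (cj P g).1 = P.1 * g.1 * (P⁻¹).1 := rfl
  unfold DiagBy
  rw [h0, h1, h2]
  constructor
  · intro h
    calc g.1 = ((P⁻¹).1 * P.1) * g.1 * ((P⁻¹).1 * P.1) := by rw [CjA_inv_mul, Matrix.one_mul, Matrix.mul_one]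
      _ = (P⁻¹).1 * (P.1 * g.1 * (P⁻¹).1) * P.1 := by simp only [Matrix.mul_assoc]
      _ = (P⁻¹).1 * (p.1 * Matrix.diagonal (fun i => (t i : ℂ)) * (p⁻¹).1) * P.1 := by rw [h]
      _ = _ := by simp only [Matrix.mul_assoc]
  · intro h
    calc P.1 * g.1 * (P⁻¹).1 = P.1 * ((P⁻¹).1 * p.1 * Matrix.diagonal (fun i => (t i : ℂ)) * ((p⁻¹).1 * P.1)) * (P⁻¹).1 := by rw [← h]
      _ = (P.1 * (P⁻¹).1) * (p.1 * Matrix.diagonal (fun i => (t i : ℂ)) * (p⁻¹).1) * (P.1 * (P⁻¹).1) := by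
        simp only [Matrix.mul_assoc]
      _ = _ := by rw [CjA_mul_inv, Matrix.one_mul, Matrix.mul_one]

theorem genEl_cj (P : GL (Fin m) ℂ) (r : ℕ) (A : Subring ℂ) (g : SLC m) (h : GenEl r A (cj P g)) : GenEl r A g := by
  obtain ⟨⟨p, t, hpt⟩, h2, h3⟩ := h
  refine ⟨⟨P⁻¹ * p, t, (diagBy_cj P g p t).1 hpt⟩, fun hfin => h2 ((cj P).toMonoidHom.isOfFinOrder hfin), ?_⟩
  intro q y hq
  refine h3 (P * q) y ((diagBy_cj P g (P * q) y).2 ?_)
  rw [inv_mul_cancel_left]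
  exact hq

theorem rankLe_cj (P : GL (Fin m) ℂ) (r : ℕ) (g : SLC m) (h : RankLe r g) : RankLe r (cj P g) := by
  intro p x hp
  exact h (P⁻¹ * p) x ((diagBy_cj P g p x).1 hp)

/-- The substitution `X ↦ P⁻¹ X P`. -/
private noncomputable def CjA_sub (P : GL (Fin m) ℂ) (Q : MvPolynomial (Fin m × Fin m) ℂ) : MvPolynomial (Fin m × Fin m) ℂ :=
  MvPolynomial.bind₁ (fun ij : Fin m × Fin m =>
    ∑ k, ∑ l, MvPolynomial.C ((P⁻¹).1 ij.1 k) * MvPolynomial.X (k, l) * MvPolynomial.C (P.1 l ij.2)) Q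

private theorem CjA_eval (P : GL (Fin m) ℂ) (Q : MvPolynomial (Fin m × Fin m) ℂ) (g : Matrix (Fin m) (Fin m) ℂ) :
    MvPolynomial.eval (fun ij : Fin m × Fin m => g ij.1 ij.2) (CjA_sub P Q) =
      MvPolynomial.eval (fun ij : Fin m × Fin m => ((P⁻¹).1 * g * P.1) ij.1 ij.2) Q := by
  have h1 : (fun ij : Fin m × Fin m => MvPolynomial.eval (fun ij : Fin m × Fin m => g ij.1 ij.2)
      (∑ k, ∑ l, MvPolynomial.C ((P⁻¹).1 ij.1 k) * MvPolynomial.X (k, l) * MvPolynomial.C (P.1 l ij.2))) =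
      fun ij : Fin m × Fin m => ((P⁻¹).1 * g * P.1) ij.1 ij.2 := by
    funext ij
    simp only [map_sum, map_mul, MvPolynomial.eval_C, MvPolynomial.eval_X]
    rw [Matrix.mul_apply, Finset.sum_comm]
    refine Finset.sum_congr rfl fun l _ => ?_
    rw [Matrix.mul_apply, Finset.sum_mul]
  rw [← h1]
  unfold CjA_sub
  rw [← MvPolynomial.coe_aeval_eq_eval, ← MvPolynomial.coe_aeval_eq_eval]
  exact MvPolynomial.aeval_bind₁ _ _ Q

/-- Compose polynomials in the entries with the linear substitution `X ↦ P X P⁻¹`. -/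
theorem zDenseIn_cj (P : GL (Fin m) ℂ) (G Γ : Subgroup (SLC m)) (h : ZDenseIn (G.map (cj P).toMonoidHom) Γ) : ZDenseIn G (Γ.map (cj P).symm.toMonoidHom) := by
  obtain ⟨hle, hz⟩ := h
  constructor
  · rintro _ ⟨γ, hγ, rfl⟩
    obtain ⟨g, hg, hgγ⟩ := hle hγ
    have h1 : (cj P).symm.toMonoidHom γ = g := by
      rw [← hgγ]
      exact (cj P).symm_apply_apply g
    rw [h1]
    exact hg
  · intro Q hQ g hg
    have h1 := hz (CjA_sub P Q) (fun γ hγ => by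
      have h2 := CjA_eval P Q γ.1
      rw [h2]
      exact hQ ((cj P).symm γ) ⟨γ, hγ, rfl⟩) (cj P g) ⟨g, hg, rfl⟩
    have h2 := CjA_eval P Q (cj P g).1
    rw [h2] at h1
    have h3 : (P⁻¹).1 * (cj P g).1 * P.1 = g.1 := by
      have h4 : (cj P g).1 = P.1 * g.1 * (P⁻¹).1 := rfl
      rw [h4]
      calc (P⁻¹).1 * (P.1 * g.1 * (P⁻¹).1) * P.1 = ((P⁻¹).1 * P.1) * g.1 * ((P⁻¹).1 * P.1) := by simp only [Matrix.mul_assoc]
        _ = g.1 := by rw [CjA_inv_mul, Matrix.one_mul, Matrix.mul_one]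
    rw [h3] at h1
    exact h1

private theorem CjA_genEl_mono {r : ℕ} {A A' : Subring ℂ} (hA : A ≤ A') {g : SLC m} (h : GenEl r A' g) : GenEl r A g :=
  ⟨h.1, h.2.1, fun q y hq n x hx => h.2.2 q y hq n x fun i => hA (hx i)⟩

/-- For `ψ : T → SL_m(ℂ)` with image Zariski dense in `P G P⁻¹` apply the hypothesis to `P⁻¹ ψ P` and the finite set `A₀` together with the entries of `P` and `P⁻¹`; `GenEl` for a larger ring implies `GenEl` for a smaller one. -/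
theorem hasGen_cj (P : GL (Fin m) ℂ) (r : ℕ) (G : Subgroup (SLC m)) (h : HasGen r G) : HasGen r (G.map (cj P).toMonoidHom) := by
  classical
  intro T _ _ _ ψ hψ hz A₀ hA₀ hT U hU hUN
  obtain ⟨A₁, hA₁⟩ : ∃ A₁ : Finset ℂ, A₁ = A₀ ∪ (Finset.univ.image (fun ij : Fin m × Fin m => P.1 ij.1 ij.2) ∪
    Finset.univ.image (fun ij : Fin m × Fin m => (P⁻¹).1 ij.1 ij.2)) := ⟨_, rfl⟩
  have h0 : Subring.closure (A₀ : Set ℂ) ≤ Subring.closure (A₁ : Set ℂ) := by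
    refine Subring.closure_mono ?_
    rw [hA₁]
    exact Finset.coe_subset.2 Finset.subset_union_left
  have hP : ∀ i j, P.1 i j ∈ Subring.closure (A₁ : Set ℂ) := by
    intro i j
    refine Subring.subset_closure ?_
    rw [hA₁]
    exact Finset.mem_coe.2 (Finset.mem_union_right _ (Finset.mem_union_left _
      (Finset.mem_image_of_mem (fun ij : Fin m × Fin m => P.1 ij.1 ij.2) (Finset.mem_univ (i, j)))))
  have hP' : ∀ i j, (P⁻¹).1 i j ∈ Subring.closure (A₁ : Set ℂ) := by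
    intro i j
    refine Subring.subset_closure ?_
    rw [hA₁]
    exact Finset.mem_coe.2 (Finset.mem_union_right _ (Finset.mem_union_right _
      (Finset.mem_image_of_mem (fun ij : Fin m × Fin m => (P⁻¹).1 ij.1 ij.2) (Finset.mem_univ (i, j)))))
  have hrange : ((cj P).symm.toMonoidHom.comp ψ).range = ψ.range.map (cj P).symm.toMonoidHom := MonoidHom.range_comp _ ψ
  obtain ⟨γ, hγ, h1⟩ := h T ((cj P).symm.toMonoidHom.comp ψ) ((cj P).symm.injective.comp hψ)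
    (by rw [hrange]; exact zDenseIn_cj P G ψ.range hz) A₁ (fun g i j => by
      have h2 : (((cj P).symm.toMonoidHom.comp ψ) g).1 = (P⁻¹).1 * (ψ g).1 * P.1 := rfl
      rw [h2, Matrix.mul_apply]
      refine Subring.sum_mem _ fun l _ => Subring.mul_mem _ ?_ (hP l j)
      rw [Matrix.mul_apply]
      exact Subring.sum_mem _ fun k _ => Subring.mul_mem _ (hP' i k) (h0 (hA₀ g k l))) hT U hU hUN
  refine ⟨γ, hγ, CjA_genEl_mono h0 (genEl_cj P⁻¹ r _ (ψ γ) ?_)⟩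
  have h2 : cj P⁻¹ (ψ γ) = ((cj P).symm.toMonoidHom.comp ψ) γ := by
    apply Subtype.ext
    show (P⁻¹).1 * (ψ γ).1 * (P⁻¹⁻¹).1 = (P⁻¹).1 * (ψ γ).1 * P.1
    rw [inv_inv]
  rw [h2]
  exact h1

end WCn
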