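import Pool.Agent.Lib.MP_c2b80f_alD.CjA

/-!
# Invariance of `Cls` under conjugation (job CjB)
-/

open Matrix Polynomial

namespace WCn

variable {m : ℕ}

theorem cjB_cancel (P : GL (Fin m) ℂ) (Y : Matrix (Fin m) (Fin m) ℂ) : (P⁻¹).1 * (P.1 * Y * (P⁻¹).1) * P.1 = Y := by
  have h : (P⁻¹).1 * P.1 = 1 := by rw [← Units.val_mul, inv_mul_cancel, Units.val_one]
  calc (P⁻¹).1 * (P.1 * Y * (P⁻¹).1) * P.1 = ((P⁻¹).1 * P.1) * Y * ((P⁻¹).1 * P.1) := by simp only [Matrix.mul_assoc]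
    _ = Y := by rw [h, Matrix.one_mul, Matrix.mul_one]

theorem cjB_cancel' (P : GL (Fin m) ℂ) (Y : Matrix (Fin m) (Fin m) ℂ) : P.1 * ((P⁻¹).1 * Y * P.1) * (P⁻¹).1 = Y := by
  have h : P.1 * (P⁻¹).1 = 1 := by rw [← Units.val_mul, mul_inv_cancel, Units.val_one]
  calc P.1 * ((P⁻¹).1 * Y * P.1) * (P⁻¹).1 = (P.1 * (P⁻¹).1) * Y * (P.1 * (P⁻¹).1) := by simp only [Matrix.mul_assoc]
    _ = Y := by rw [h, Matrix.one_mul, Matrix.mul_one]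

/-- All fields; `closed`: `cj P` is a homeomorphism; `pw`, `irr`: `zDenseIn_cj`; `lie`: `exp (P⁻¹ X P) = P⁻¹ exp X P` (`Matrix.exp_units_conj` or similar). -/
theorem cls_cj (P : GL (Fin m) ℂ) {r : ℕ} {G : Subgroup (SLC m)} {𝔤 : Submodule ℂ (Matrix (Fin m) (Fin m) ℂ)} (h : Cls r G 𝔤) :
    Cls r (G.map (cj P).toMonoidHom) (cjL P 𝔤) := by
  refine ⟨h.pos, ?_, ?_, hasGen_cj P r G h.gen, ?_, ?_, ?_⟩
  · have h1 : ((G.map (cj P).toMonoidHom : Subgroup (SLC m)) : Set (SLC m)) = (cj P).symm ⁻¹' (G : Set (SLC m)) := by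
      ext x
      exact Subgroup.mem_map_equiv
    rw [h1]
    refine h.closed.preimage ?_
    refine (Matrix.SpecialLinearGroup.isClosedEmbedding_val (n := Fin m) (R := ℂ)).isEmbedding.isInducing.continuous_iff.2 ?_
    change Continuous fun g : SLC m => (P⁻¹).1 * g.1 * P.1
    exact (continuous_const.mul (Matrix.SpecialLinearGroup.isClosedEmbedding_val (n := Fin m) (R := ℂ)).continuous).mul
      continuous_const
  · intro x hx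
    rw [Subgroup.mem_map_equiv] at hx
    have h1 := rankLe_cj P r _ (h.rank _ hx)
    rwa [MulEquiv.apply_symm_apply] at h1
  · intro Γ hΓ k hk
    obtain ⟨g, hg, hgk⟩ := h.pw _ (zDenseIn_cj P G Γ hΓ) k hk
    obtain ⟨g', hg', rfl⟩ := hg
    refine ⟨g', hg', fun h1 => hgk ?_⟩
    change ((cj P).symm g') ^ k = 1
    rw [← map_pow, h1, map_one]
  · intro Γ hΓ W hW hW0 hinv
    have h1 : cjL P⁻¹ W = 𝔤 := by
      refine h.irr _ (zDenseIn_cj P G Γ hΓ) (cjL P⁻¹ W) ?_ ?_ ?_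
      · intro Y hY
        have h2 : ((P⁻¹)⁻¹).1 * Y * (P⁻¹).1 ∈ W := hY
        rw [inv_inv] at h2
        have h3 : (P⁻¹).1 * (P.1 * Y * (P⁻¹).1) * P.1 ∈ 𝔤 := hW h2
        rwa [cjB_cancel] at h3
      · obtain ⟨X, hX, hX0⟩ := W.ne_bot_iff.1 hW0
        rw [Submodule.ne_bot_iff]
        refine ⟨(P⁻¹).1 * X * P.1, ?_, fun h2 => hX0 ?_⟩
        · change ((P⁻¹)⁻¹).1 * ((P⁻¹).1 * X * P.1) * (P⁻¹).1 ∈ W
          rw [inv_inv, cjB_cancel']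
          exact hX
        · rw [← cjB_cancel' P X, h2, Matrix.mul_zero, Matrix.zero_mul]
      · rintro g ⟨g', hg', rfl⟩ Y hY
        have h2 : ((P⁻¹)⁻¹).1 * Y * (P⁻¹).1 ∈ W := hY
        rw [inv_inv] at h2
        have h3 := hinv g' hg' _ h2
        have h4 : (((cj P).symm g')⁻¹).1 = (P⁻¹).1 * (g'⁻¹).1 * P.1 := by
          rw [← map_inv]
          rfl
        have h5 : ((cj P).symm g').1 = (P⁻¹).1 * g'.1 * P.1 := rfl
        change ((P⁻¹)⁻¹).1 * (((cj P).symm g').1 * Y * (((cj P).symm g')⁻¹).1) * (P⁻¹).1 ∈ W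
        rw [h4, h5, inv_inv]
        have h6 : P.1 * (P⁻¹).1 = 1 := by rw [← Units.val_mul, mul_inv_cancel, Units.val_one]
        have h7 : P.1 * ((P⁻¹).1 * g'.1 * P.1 * Y * ((P⁻¹).1 * (g'⁻¹).1 * P.1)) * (P⁻¹).1 =
            (P.1 * (P⁻¹).1) * g'.1 * (P.1 * Y * (P⁻¹).1) * (g'⁻¹).1 * (P.1 * (P⁻¹).1) := by
          simp only [Matrix.mul_assoc]
        rw [h7, h6, Matrix.one_mul, Matrix.mul_one]
        exact h3
    refine le_antisymm hW fun X hX => ?_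
    have h2 : (P⁻¹).1 * X * P.1 ∈ 𝔤 := hX
    rw [← h1] at h2
    have h3 : ((P⁻¹)⁻¹).1 * ((P⁻¹).1 * X * P.1) * (P⁻¹).1 ∈ W := h2
    rwa [inv_inv, cjB_cancel'] at h3
  · intro X hX
    change (P⁻¹).1 * X * P.1 ∈ 𝔤
    refine h.lie _ fun t => ?_
    obtain ⟨g, hg, hgt⟩ := hX t
    rw [Subgroup.mem_map_equiv] at hg
    refine ⟨(cj P).symm g, hg, ?_⟩
    change (P⁻¹).1 * g.1 * P.1 = _
    rw [hgt, ← Matrix.exp_units_conj', Matrix.mul_smul, Matrix.smul_mul]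

/-- If `Pᵀ J P = J'` then `G_J = P G_{J'} P⁻¹`. -/
theorem GJ_cj (P : GL (Fin m) ℂ) (J J' : Matrix (Fin m) (Fin m) ℂ) (h : P.1ᵀ * J * P.1 = J') : GJ J = (GJ J').map (cj P).toMonoidHom := by
  ext g
  rw [Subgroup.mem_map_equiv]
  have h1 : P.1 * (P⁻¹).1 = 1 := by rw [← Units.val_mul, mul_inv_cancel, Units.val_one]
  have h2 : (P⁻¹).1 * P.1 = 1 := by rw [← Units.val_mul, inv_mul_cancel, Units.val_one]
  have h3 : (P⁻¹).1ᵀ * P.1ᵀ = 1 := by rw [← Matrix.transpose_mul, h1, Matrix.transpose_one]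
  have h4 : P.1ᵀ * (P⁻¹).1ᵀ = 1 := by rw [← Matrix.transpose_mul, h2, Matrix.transpose_one]
  have h5 : ((P⁻¹).1 * g.1 * P.1)ᵀ * J' * ((P⁻¹).1 * g.1 * P.1) = P.1ᵀ * (g.1ᵀ * J * g.1) * P.1 := by
    rw [← h, Matrix.transpose_mul, Matrix.transpose_mul]
    calc P.1ᵀ * (g.1ᵀ * (P⁻¹).1ᵀ) * (P.1ᵀ * J * P.1) * ((P⁻¹).1 * g.1 * P.1) =
          P.1ᵀ * g.1ᵀ * ((P⁻¹).1ᵀ * P.1ᵀ) * J * (P.1 * (P⁻¹).1) * g.1 * P.1 := by simp only [Matrix.mul_assoc]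
      _ = P.1ᵀ * g.1ᵀ * J * g.1 * P.1 := by rw [h1, h3, Matrix.mul_one, Matrix.mul_one]
      _ = _ := by simp only [Matrix.mul_assoc]
  change g.1ᵀ * J * g.1 = J ↔ ((P⁻¹).1 * g.1 * P.1)ᵀ * J' * ((P⁻¹).1 * g.1 * P.1) = J'
  rw [h5, ← h]
  constructor
  · intro h6
    rw [h6]
  · intro h6
    have h7 : ∀ A : Matrix (Fin m) (Fin m) ℂ, (P⁻¹).1ᵀ * (P.1ᵀ * A * P.1) * (P⁻¹).1 = A := by
      intro A
      calc (P⁻¹).1ᵀ * (P.1ᵀ * A * P.1) * (P⁻¹).1 = ((P⁻¹).1ᵀ * P.1ᵀ) * A * (P.1 * (P⁻¹).1) := by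
            simp only [Matrix.mul_assoc]
        _ = A := by rw [h1, h3, Matrix.one_mul, Matrix.mul_one]
    rw [← h7 (g.1ᵀ * J * g.1), h6, h7]

end WCn
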