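import Pool.Agent.Lib.MP_c2b80f_alD.GDefs

/-!
# Conjugation by elements of `GL_m(ℂ)`: definitions
-/

open Matrix

namespace WCn

variable {m : ℕ}

/-- Conjugation by `P ∈ GL_m(ℂ)` as an automorphism of `SL_m(ℂ)`. -/
noncomputable def cj (P : GL (Fin m) ℂ) : SLC m ≃* SLC m where
  toFun g := ⟨P.1 * g.1 * (P⁻¹).1, by
    rw [Matrix.det_mul, Matrix.det_mul, g.2, mul_one, ← Matrix.det_mul, ← Units.val_mul, mul_inv_cancel, Units.val_one, Matrix.det_one]⟩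
  invFun g := ⟨(P⁻¹).1 * g.1 * P.1, by
    rw [Matrix.det_mul, Matrix.det_mul, g.2, mul_one, ← Matrix.det_mul, ← Units.val_mul, inv_mul_cancel, Units.val_one, Matrix.det_one]⟩
  left_inv g := by
    apply Subtype.ext
    show (P⁻¹).1 * (P.1 * g.1 * (P⁻¹).1) * P.1 = g.1
    have h : (P⁻¹).1 * P.1 = 1 := by rw [← Units.val_mul, inv_mul_cancel, Units.val_one]
    calc (P⁻¹).1 * (P.1 * g.1 * (P⁻¹).1) * P.1 = ((P⁻¹).1 * P.1) * g.1 * ((P⁻¹).1 * P.1) := by simp only [Matrix.mul_assoc]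
      _ = g.1 := by rw [h, Matrix.one_mul, Matrix.mul_one]
  right_inv g := by
    apply Subtype.ext
    show P.1 * ((P⁻¹).1 * g.1 * P.1) * (P⁻¹).1 = g.1
    have h : P.1 * (P⁻¹).1 = 1 := by rw [← Units.val_mul, mul_inv_cancel, Units.val_one]
    calc P.1 * ((P⁻¹).1 * g.1 * P.1) * (P⁻¹).1 = (P.1 * (P⁻¹).1) * g.1 * (P.1 * (P⁻¹).1) := by simp only [Matrix.mul_assoc]
      _ = g.1 := by rw [h, Matrix.one_mul, Matrix.mul_one]
  map_mul' g g' := by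
    apply Subtype.ext
    show P.1 * (g.1 * g'.1) * (P⁻¹).1 = (P.1 * g.1 * (P⁻¹).1) * (P.1 * g'.1 * (P⁻¹).1)
    have h : (P⁻¹).1 * P.1 = 1 := by rw [← Units.val_mul, inv_mul_cancel, Units.val_one]
    calc P.1 * (g.1 * g'.1) * (P⁻¹).1 = P.1 * g.1 * 1 * g'.1 * (P⁻¹).1 := by simp only [Matrix.mul_assoc, Matrix.mul_one]
      _ = P.1 * g.1 * ((P⁻¹).1 * P.1) * g'.1 * (P⁻¹).1 := by rw [h]
      _ = _ := by simp only [Matrix.mul_assoc]

/-- Conjugation on matrices. -/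
noncomputable def cjL (P : GL (Fin m) ℂ) (𝔤 : Submodule ℂ (Matrix (Fin m) (Fin m) ℂ)) : Submodule ℂ (Matrix (Fin m) (Fin m) ℂ) where
  carrier := {X | (P⁻¹).1 * X * P.1 ∈ 𝔤}
  add_mem' := by
    intro X Y hX hY
    show (P⁻¹).1 * (X + Y) * P.1 ∈ 𝔤
    rw [Matrix.mul_add, Matrix.add_mul]
    exact 𝔤.add_mem hX hY
  zero_mem' := by
    show (P⁻¹).1 * 0 * P.1 ∈ 𝔤
    rw [Matrix.mul_zero, Matrix.zero_mul]
    exact 𝔤.zero_mem
  smul_mem' := by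
    intro c X hX
    show (P⁻¹).1 * (c • X) * P.1 ∈ 𝔤
    rw [Matrix.mul_smul, Matrix.smul_mul]
    exact 𝔤.smul_mem c hX

end WCn
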