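import Pool.Agent.Lib.MP_c2b80f_alD.ClsA
import Pool.Agent.Lib.MP_c2b80f_alC.GenB
import Pool.Agent.Lib.MP_c2b80f_alC.AdP

/-!
# `SL_m` is a classical group of rank `m - 1` (job ClsB)
-/

open Matrix

namespace WCn

variable {m : ℕ}


open scoped Matrix.Norms.Operator in
private theorem ClsB_deriv (X : Matrix (Fin m) (Fin m) ℂ) (i j : Fin m) :
    HasDerivAt (fun t : ℝ => (NormedSpace.exp ((t : ℂ) • X)) i j) (X i j) 0 := by
  have h1 : HasDerivAt (fun t : ℂ => NormedSpace.exp (t • X)) (NormedSpace.exp ((0 : ℂ) • X) * X) 0 :=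
    hasDerivAt_exp_smul_const X (0 : ℂ)
  rw [zero_smul, NormedSpace.exp_zero, one_mul] at h1
  have h2 := ((Matrix.entryLinearMap ℂ ℂ i j).toContinuousLinearMap.hasFDerivAt
    (x := NormedSpace.exp ((0 : ℂ) • X))).comp_hasDerivAt (0 : ℂ) h1
  have h3 : HasDerivAt (fun t : ℂ => (NormedSpace.exp (t • X)) i j) (X i j) ((0 : ℝ) : ℂ) := h2
  exact h3.comp_ofReal

private theorem ClsB_deriv2 (X : Matrix (Fin m) (Fin m) ℂ) (i j : Fin m) :
    HasDerivAt (fun t : ℝ => (NormedSpace.exp ((t : ℂ) • X)) i j) (X i j) 0 :=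
  ClsB_deriv X i j

private theorem ClsB_det (F : ℝ → Matrix (Fin m) (Fin m) ℂ) (X : Matrix (Fin m) (Fin m) ℂ) (h0 : F 0 = 1)
    (h : ∀ i j, HasDerivAt (fun t => F t i j) (X i j) 0) :
    HasDerivAt (fun t => (F t).det) X.trace 0 := by
  have h1 : ∀ σ : Equiv.Perm (Fin m), HasDerivAt (fun t => ((Equiv.Perm.sign σ : ℤ) : ℂ) * ∏ i, F t (σ i) i)
      (((Equiv.Perm.sign σ : ℤ) : ℂ) * ∑ i, (∏ j ∈ Finset.univ.erase i, F 0 (σ j) j) • X (σ i) i) 0 := by
    intro σ
    exact (HasDerivAt.fun_finsetProd fun i _ => h (σ i) i).const_mul _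
  have h2 := HasDerivAt.fun_sum fun σ (_ : σ ∈ (Finset.univ : Finset (Equiv.Perm (Fin m)))) => h1 σ
  have h3 : (∑ σ : Equiv.Perm (Fin m), ((Equiv.Perm.sign σ : ℤ) : ℂ) *
      ∑ i, (∏ j ∈ Finset.univ.erase i, F 0 (σ j) j) • X (σ i) i) = X.trace := by
    rw [Finset.sum_eq_single 1]
    · simp only [Equiv.Perm.sign_one, Units.val_one, Int.cast_one, one_mul, Equiv.Perm.one_apply, h0,
        Matrix.one_apply_eq, Finset.prod_const_one, one_smul]
      rfl
    · intro σ _ hσ
      rw [Finset.sum_eq_zero, mul_zero]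
      intro i _
      obtain ⟨j, hji, hj⟩ : ∃ j, j ≠ i ∧ σ j ≠ j := by
        by_contra hcon
        push Not at hcon
        refine hσ (Equiv.ext fun j => ?_)
        by_cases hji : j = i
        · rw [hji, Equiv.Perm.one_apply]
          by_contra h4
          have h5 := hcon (σ i) h4
          exact h4 (σ.injective h5)
        · rw [hcon j hji, Equiv.Perm.one_apply]
      rw [Finset.prod_eq_zero (Finset.mem_erase.2 ⟨hji, Finset.mem_univ j⟩), zero_smul]
      rw [h0, Matrix.one_apply_ne hj]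
    · intro h4
      exact absurd (Finset.mem_univ _) h4
  rw [h3] at h2
  refine h2.congr_of_eventuallyEq (Filter.Eventually.of_forall fun t => ?_)
  exact Matrix.det_apply' _
/-- `Generic` implies `GenEl (m - 1)`: `S₀ = constS m`, `finrank_constS`, `constS_prod` with `diagBy_prod`, `irr_constS`, `schur_constS`. -/
theorem genEl_of_generic (hm : 2 ≤ m) (A : Subring ℂ) (γ : SLC m) (h : Generic A γ) : GenEl (m - 1) A γ := by

  refine ⟨h.1, h.2.1, fun q y hy n x hx =>
    ⟨constS m, ?_, fun d hd => constS_prod y (diagBy_prod hy) d hd, ?_, ?_⟩⟩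
  · rw [finrank_constS (by omega)]
    omega
  · exact irr_constS hm x y (h.2.2 q y hy n x hx)
  · exact schur_constS hm x y (h.2.2 q y hy n x hx)

/-- `exists_levels` for `levData_sl`, `P₀ = m + 2`, with `X 0` from `exists_type_one`, `X 1` from `exists_type_two`, `X 2 = 0`; then `generic_of_lev` and `genEl_of_generic`. -/
theorem hasGen_sl (hm : 2 ≤ m) : HasGen (m - 1) (⊤ : Subgroup (SLC m)) := by

  intro T _ _ _ ψ hψ hz A₀ hA h0 U hUo hU
  obtain ⟨A', hAA, hA', p, hp, σ, hP, hσ, hX⟩ :=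
    exists_levels (levData_sl hm) T ψ hψ hz A₀ hA h0 U hUo hU (m + 2)
  have hYex : ∀ i : Fin 3, ∃ Y : Matrix (Fin m) (Fin m) (ZMod (p i)), Y.trace = 0 ∧
      (i = 0 → Irreducible Y.charpoly) ∧
      (i = 1 → ∃ (c : ZMod (p i)) (h : Polynomial (ZMod (p i))),
        Y.charpoly = (Polynomial.X - Polynomial.C c) * h ∧ Irreducible h ∧ h.eval c ≠ 0) := by
    intro i
    have hi := hP i
    have hpi : ¬ p i ∣ m := fun h => by
      have h1 := Nat.le_of_dvd (by omega) h
      omega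
    by_cases h0 : i = 0
    · obtain ⟨M, hM, hM'⟩ := exists_type_one (p i) m (by omega) hpi
      refine ⟨M, hM, fun _ => hM', fun h1 => ?_⟩
      rw [h0] at h1
      exact absurd h1 (by decide)
    · obtain ⟨M, c, h, hM, hM', hh, hc⟩ := exists_type_two (p i) (by omega) m hm
      exact ⟨M, hM, fun h1 => absurd h1 h0, fun _ => ⟨c, h, hM', hh, hc⟩⟩
  choose Y hYt hY0 hY1 using hYex
  obtain ⟨k, hk, γ, hγU, hγ⟩ := hX Y fun i => LinearMap.mem_ker.2 (hYt i)
  obtain ⟨c, h, hYc, hh, hc⟩ := hY1 1 rfl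
  have hP0 := hP 0
  exact ⟨γ, hγU, genEl_of_generic hm _ _ (generic_of_lev hm ψ hψ _ A' hAA hA' (p 0) (p 1) (by omega)
    (σ 0) (hσ 0) (σ 1) (hσ 1) γ (k 0) (k 1) (hk 0) (hk 1) (Y 0) (hγ 0) (hY0 0 rfl) (Y 1) (hγ 1) c h hYc hh hc)⟩

/-- `rank`: the constant vector `1` is a relation (`diagBy_prod`), so the relation space has dimension at least one. `pw`: `exists_pow_ne_one`. `lie`: `det (exp (t X)) = exp (t tr X)` (`Matrix.det_exp`), so `exp (t tr X) = 1` for all real `t`, and `tr X = 0` (derivative at `0`). -/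
theorem cls_sl (hm : 2 ≤ m) : Cls (m - 1) (⊤ : Subgroup (SLC m)) (lieS m ℂ) := by

  refine ⟨by omega, ?_, ?_, hasGen_sl hm, ?_, adIrr_sl hm, ?_⟩
  · rw [Subgroup.coe_top]
    exact isClosed_univ
  · intro h _ p x hx k y
    have h1 : (fun _ => (1 : ℚ) : Fin m → ℚ) ∈
        (relQ x y).comap (LinearMap.inl ℚ (Fin m → ℚ) (Fin k → ℚ)) := by
      have h2 : MRel x y (fun _ => 1) (fun _ => 0) := by
        unfold MRel
        simp [diagBy_prod hx]
      have h3 := relQ_of_MRel x y _ _ h2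
      rw [Submodule.mem_comap]
      refine (congrArg (fun v => v ∈ relQ x y) ?_).mp h3
      refine Prod.ext (funext fun i => ?_) (funext fun j => ?_)
      · exact Int.cast_one
      · exact Int.cast_zero
    have h4 : (relQ x y).comap (LinearMap.inl ℚ (Fin m → ℚ) (Fin k → ℚ)) ≠ ⊥ := by
      intro h5
      rw [h5, Submodule.mem_bot] at h1
      exact one_ne_zero (congrFun h1 ⟨0, by omega⟩)
    have h6 := Submodule.one_le_finrank_iff.2 h4
    omega
  · intro Γ hz k hk
    exact exists_pow_ne_one hm Γ (fun P hP g => hz.2 P hP g (Subgroup.mem_top g)) k hk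
  · intro X hX
    refine LinearMap.mem_ker.2 ?_
    have h1 : HasDerivAt (fun t : ℝ => (NormedSpace.exp ((t : ℂ) • X)).det) X.trace 0 := by
      refine ClsB_det (fun t : ℝ => NormedSpace.exp ((t : ℂ) • X)) X ?_ (fun i j => ClsB_deriv2 X i j)
      change NormedSpace.exp (((0 : ℝ) : ℂ) • X) = 1
      rw [Complex.ofReal_zero, zero_smul, NormedSpace.exp_zero]
    have h2 : (fun t : ℝ => (NormedSpace.exp ((t : ℂ) • X)).det) = fun _ => (1 : ℂ) := by
      funext t
      obtain ⟨g, _, hg⟩ := hX t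
      rw [← hg]
      exact g.2
    rw [h2] at h1
    exact h1.unique (hasDerivAt_const (0 : ℝ) (1 : ℂ))

end WCn
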