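import Pool.Agent.Lib.MP_c2b80f_alD.GDefs

/-!
# Classification of complex symmetric and alternating forms (job FoA)
-/

open Matrix

namespace WCn

private theorem FoA_diag {m : ℕ} (J : Matrix (Fin m) (Fin m) ℂ) (hJ : Jᵀ = J) :
    ∃ (P : GL (Fin m) ℂ) (d : Fin m → ℂ), P.1ᵀ * J * P.1 = Matrix.diagonal d := by
  have hB : LinearMap.IsSymm (Matrix.toBilin' J) := by
    rw [LinearMap.isSymm_def]
    intro x y
    rw [RingHom.id_apply, Matrix.toBilin'_apply', Matrix.toBilin'_apply']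
    calc x ⬝ᵥ J *ᵥ y = (x ᵥ* J) ⬝ᵥ y := Matrix.dotProduct_mulVec _ _ _
      _ = y ⬝ᵥ (x ᵥ* J) := dotProduct_comm _ _
      _ = y ⬝ᵥ (Jᵀ *ᵥ x) := by rw [Matrix.mulVec_transpose]
      _ = y ⬝ᵥ (J *ᵥ x) := by rw [hJ]
  have h2 : Invertible (2 : ℂ) := invertibleOfNonzero two_ne_zero
  obtain ⟨v₀, hv₀⟩ := LinearMap.BilinForm.exists_orthogonal_basis hB
  obtain ⟨v, hv⟩ : ∃ v : Module.Basis (Fin m) ℂ (Fin m → ℂ), ∀ i j, i ≠ j → v i ⬝ᵥ (J *ᵥ v j) = 0 := by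
    refine ⟨v₀.reindex (finCongr (Module.finrank_fin_fun ℂ)), fun i j hij => ?_⟩
    rw [Module.Basis.reindex_apply, Module.Basis.reindex_apply]
    have h3 : (finCongr (Module.finrank_fin_fun ℂ)).symm i ≠ (finCongr (Module.finrank_fin_fun ℂ)).symm j :=
      fun h => hij ((finCongr (Module.finrank_fin_fun ℂ)).symm.injective h)
    have h4 := (LinearMap.isOrthoᵢ_def.1 hv₀) _ _ h3
    rw [Matrix.toBilin'_apply'] at h4
    exact h4
  have hdet : (Matrix.of fun i j => v j i : Matrix (Fin m) (Fin m) ℂ).det ≠ 0 := by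
    have h3 := (Pi.basisFun ℂ (Fin m)).isUnit_det v
    rw [Module.Basis.det_apply] at h3
    have h4 : (Pi.basisFun ℂ (Fin m)).toMatrix ⇑v = Matrix.of fun i j => v j i := by
      ext i j
      rw [Module.Basis.toMatrix_apply, Pi.basisFun_repr, Matrix.of_apply]
    rw [h4] at h3
    exact h3.ne_zero
  refine ⟨Matrix.GeneralLinearGroup.mkOfDetNeZero _ hdet, fun i => v i ⬝ᵥ (J *ᵥ v i), ?_⟩
  have hP : (Matrix.GeneralLinearGroup.mkOfDetNeZero _ hdet).1 = (Matrix.of fun i j => v j i : Matrix (Fin m) (Fin m) ℂ) := rfl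
  rw [hP]
  have hval : ∀ i j, ((Matrix.of fun i j => v j i : Matrix (Fin m) (Fin m) ℂ)ᵀ * J * (Matrix.of fun i j => v j i)) i j =
      v i ⬝ᵥ (J *ᵥ v j) := by
    intro i j
    rw [Matrix.mul_assoc, Matrix.mul_apply]
    unfold dotProduct
    refine Finset.sum_congr rfl fun k _ => ?_
    rw [Matrix.transpose_apply, Matrix.of_apply, Matrix.mul_apply]
    rfl
  ext i j
  rw [hval]
  by_cases hij : i = j
  · subst hij
    rw [Matrix.diagonal_apply_eq]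
  · rw [Matrix.diagonal_apply_ne _ hij, hv i j hij]

/-- Over `ℂ` every nondegenerate symmetric form is equivalent to the identity (`QuadraticForm.equivalent_sum_squares`, or Gram-Schmidt by induction: a nondegenerate symmetric form has a vector `v` with `v · v = 1`, split off its orthogonal complement). -/
theorem exists_symm_one {m : ℕ} (J : Matrix (Fin m) (Fin m) ℂ) (hJ : Jᵀ = J) (hdet : J.det ≠ 0) : ∃ P : GL (Fin m) ℂ, P.1ᵀ * J * P.1 = 1 := by
  obtain ⟨P, d, hP⟩ := FoA_diag J hJ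
  have hPdet : P.1.det ≠ 0 := ((Matrix.isUnit_iff_isUnit_det _).1 P.isUnit).ne_zero
  have hd : ∀ i, d i ≠ 0 := by
    have h1 := congrArg Matrix.det hP
    rw [Matrix.det_mul, Matrix.det_mul, Matrix.det_transpose, Matrix.det_diagonal] at h1
    have h2 : ∏ i, d i ≠ 0 := by
      rw [← h1]
      exact mul_ne_zero (mul_ne_zero hPdet hdet) hPdet
    exact fun i => (Finset.prod_ne_zero_iff.1 h2) i (Finset.mem_univ i)
  have hs : ∀ i, ∃ s : ℂ, s * s = d i := fun i => by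
    obtain ⟨z, hz⟩ := IsAlgClosed.exists_eq_mul_self (d i)
    exact ⟨z, hz.symm⟩
  choose s hs using hs
  have hs0 : ∀ i, s i ≠ 0 := fun i h => hd i (by rw [← hs i, h, zero_mul])
  have hD : (Matrix.diagonal fun i => (s i)⁻¹).det ≠ 0 := by
    rw [Matrix.det_diagonal]
    exact Finset.prod_ne_zero_iff.2 fun i _ => inv_ne_zero (hs0 i)
  refine ⟨P * Matrix.GeneralLinearGroup.mkOfDetNeZero _ hD, ?_⟩
  have h1 : (P * Matrix.GeneralLinearGroup.mkOfDetNeZero _ hD).1 = P.1 * Matrix.diagonal fun i => (s i)⁻¹ := rfl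
  rw [h1, Matrix.transpose_mul, Matrix.diagonal_transpose]
  calc (Matrix.diagonal fun i => (s i)⁻¹) * P.1ᵀ * J * (P.1 * Matrix.diagonal fun i => (s i)⁻¹)
      = (Matrix.diagonal fun i => (s i)⁻¹) * (P.1ᵀ * J * P.1) * Matrix.diagonal fun i => (s i)⁻¹ := by
        simp only [Matrix.mul_assoc]
    _ = 1 := by
        rw [hP, Matrix.diagonal_mul_diagonal, Matrix.diagonal_mul_diagonal, ← Matrix.diagonal_one]
        congr 1
        ext i
        rw [← hs i]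
        have := hs0 i
        field_simp

/-- Consequence: two nondegenerate symmetric forms are equivalent. -/
theorem exists_symm_equiv {m : ℕ} (J J' : Matrix (Fin m) (Fin m) ℂ) (hJ : Jᵀ = J) (hdet : J.det ≠ 0) (hJ' : J'ᵀ = J') (hdet' : J'.det ≠ 0) :
    ∃ P : GL (Fin m) ℂ, P.1ᵀ * J * P.1 = J' := by
  obtain ⟨P, hP⟩ := exists_symm_one J hJ hdet
  obtain ⟨Q, hQ⟩ := exists_symm_one J' hJ' hdet'
  have h1 : Q.1 * (Q⁻¹).1 = 1 := by rw [← Units.val_mul, mul_inv_cancel, Units.val_one]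
  have h2 : (Q⁻¹).1ᵀ * Q.1ᵀ = 1 := by rw [← Matrix.transpose_mul, h1, Matrix.transpose_one]
  refine ⟨P * Q⁻¹, ?_⟩
  have h3 : (P * Q⁻¹).1 = P.1 * (Q⁻¹).1 := rfl
  rw [h3, Matrix.transpose_mul]
  calc (Q⁻¹).1ᵀ * P.1ᵀ * J * (P.1 * (Q⁻¹).1) = (Q⁻¹).1ᵀ * (P.1ᵀ * J * P.1) * (Q⁻¹).1 := by simp only [Matrix.mul_assoc]
    _ = (Q⁻¹).1ᵀ * (Q.1ᵀ * J' * Q.1) * (Q⁻¹).1 := by rw [hP, hQ]
    _ = ((Q⁻¹).1ᵀ * Q.1ᵀ) * J' * (Q.1 * (Q⁻¹).1) := by simp only [Matrix.mul_assoc]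
    _ = J' := by rw [h1, h2, Matrix.one_mul, Matrix.mul_one]

end WCn
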