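import Pool.Agent.Lib.MP_c2b80f_alD.JsA

/-!
# Classification of complex alternating forms (job FoB)
-/

open Matrix

namespace WCn

private theorem FoB_aux (n : ℕ) : ∀ (V : Type) [AddCommGroup V] [Module ℂ V] [FiniteDimensional ℂ V]
    (B : V →ₗ[ℂ] V →ₗ[ℂ] ℂ), Module.finrank ℂ V = n → (∀ v, B v v = 0) → (∀ v, (∀ w, B v w = 0) → v = 0) →
    ∃ (r : ℕ) (b : Module.Basis (Fin r ⊕ Fin r) ℂ V), (∀ i j, B (b (Sum.inl i)) (b (Sum.inr j)) = if i = j then 1 else 0) ∧
      (∀ i j, B (b (Sum.inl i)) (b (Sum.inl j)) = 0) ∧ ∀ i j, B (b (Sum.inr i)) (b (Sum.inr j)) = 0 := by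
  induction n using Nat.strong_induction_on with
  | _ n ih =>
  intro V _ _ _ B hn halt hnd
  have hskew : ∀ u v, B u v = -B v u := by
    intro u v
    have h := halt (u + v)
    simp only [map_add, LinearMap.add_apply, halt, zero_add, add_zero] at h
    linear_combination h
  by_cases hsub : Subsingleton V
  · haveI := hsub
    haveI : IsEmpty (Fin 0 ⊕ Fin 0) := inferInstance
    refine ⟨0, Module.Basis.empty V, fun i => i.elim0, fun i => i.elim0, fun i => i.elim0⟩
  · rw [not_subsingleton_iff_nontrivial] at hsub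
    obtain ⟨e, he⟩ := exists_ne (0 : V)
    obtain ⟨w, hw⟩ : ∃ w, B e w ≠ 0 := by
      by_contra hcon
      push Not at hcon
      exact he (hnd e hcon)
    set f : V := (B e w)⁻¹ • w with hf
    have hef : B e f = 1 := by
      rw [hf, map_smul, smul_eq_mul, inv_mul_cancel₀ hw]
    have hfe : B f e = -1 := by rw [hskew, hef]
    set W : Submodule ℂ V := LinearMap.ker (B e) ⊓ LinearMap.ker (B f) with hW
    have hWm : ∀ v, v ∈ W ↔ B e v = 0 ∧ B f v = 0 := by
      intro v
      rw [hW, Submodule.mem_inf, LinearMap.mem_ker, LinearMap.mem_ker]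
    have hlt : Module.finrank ℂ W < n := by
      rw [← hn]
      refine Submodule.finrank_lt fun htop => ?_
      have : e ∈ W := by rw [htop]; exact Submodule.mem_top
      rw [hWm, hfe] at this
      exact absurd this.2 (by norm_num)
    -- decomposition
    have hdec : ∀ u : V, ∃ w ∈ W, u = (-(B f u)) • e + (B e u) • f + w := by
      intro u
      refine ⟨u - ((-(B f u)) • e + (B e u) • f), ?_, by abel⟩
      rw [hWm]
      constructor
      · simp only [map_sub, map_add, map_smul, halt, hef, smul_eq_mul]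
        ring
      · simp only [map_sub, map_add, map_smul, halt, hfe, smul_eq_mul]
        ring
    -- the restricted form
    obtain ⟨r, b, h1, h2, h3⟩ := ih _ hlt W ((B.compl₁₂ W.subtype W.subtype)) rfl
      (fun v => halt v.1) (fun v hv => by
        apply Subtype.ext
        refine hnd v.1 fun u => ?_
        obtain ⟨w, hw, hu⟩ := hdec u
        have hvW := (hWm v.1).1 v.2
        have h4 : B v.1 w = 0 := hv ⟨w, hw⟩
        rw [hu]
        simp only [map_add, map_smul, smul_eq_mul, h4]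
        rw [hskew v.1 e, hskew v.1 f, hvW.1, hvW.2]
        ring)
    have h1' : ∀ i j, B (b (Sum.inl i)).1 (b (Sum.inr j)).1 = if i = j then 1 else 0 := h1
    have h2' : ∀ i j, B (b (Sum.inl i)).1 (b (Sum.inl j)).1 = 0 := h2
    have h3' : ∀ i j, B (b (Sum.inr i)).1 (b (Sum.inr j)).1 = 0 := h3
    have hbW : ∀ a, B e (b a).1 = 0 ∧ B f (b a).1 = 0 := fun a => (hWm _).1 (b a).2
    set v : Fin (r + 1) ⊕ Fin (r + 1) → V :=
      Sum.elim (Fin.cons e fun i => (b (Sum.inl i)).1) (Fin.cons f fun i => (b (Sum.inr i)).1) with hv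
    have vl0 : v (Sum.inl 0) = e := rfl
    have vr0 : v (Sum.inr 0) = f := rfl
    have vls : ∀ i : Fin r, v (Sum.inl i.succ) = (b (Sum.inl i)).1 := fun i => rfl
    have vrs : ∀ i : Fin r, v (Sum.inr i.succ) = (b (Sum.inr i)).1 := fun i => rfl
    have g1 : ∀ i j, B (v (Sum.inl i)) (v (Sum.inr j)) = if i = j then 1 else 0 := by
      intro i j
      refine Fin.cases ?_ (fun i => ?_) i <;> refine Fin.cases ?_ (fun j => ?_) j
      · rw [vl0, vr0, hef, if_pos rfl]
      · rw [vl0, vrs, (hbW _).1, if_neg (Fin.succ_ne_zero j).symm]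
      · rw [vls, vr0, hskew, (hbW _).2, neg_zero, if_neg (Fin.succ_ne_zero i)]
      · rw [vls, vrs, h1']
        simp only [Fin.succ_inj]
    have g2 : ∀ i j, B (v (Sum.inl i)) (v (Sum.inl j)) = 0 := by
      intro i j
      refine Fin.cases ?_ (fun i => ?_) i <;> refine Fin.cases ?_ (fun j => ?_) j
      · rw [vl0, halt]
      · rw [vl0, vls, (hbW _).1]
      · rw [vls, vl0, hskew, (hbW _).1, neg_zero]
      · rw [vls, vls, h2']
    have g3 : ∀ i j, B (v (Sum.inr i)) (v (Sum.inr j)) = 0 := by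
      intro i j
      refine Fin.cases ?_ (fun i => ?_) i <;> refine Fin.cases ?_ (fun j => ?_) j
      · rw [vr0, halt]
      · rw [vr0, vrs, (hbW _).2]
      · rw [vrs, vr0, hskew, (hbW _).2, neg_zero]
      · rw [vrs, vrs, h3']
    have hli : LinearIndependent ℂ v := by
      rw [Fintype.linearIndependent_iff]
      intro g hg a
      rcases a with j | j
      · have h5 := congrArg (fun z => B z (v (Sum.inr j))) hg
        simp only [map_add, LinearMap.add_apply, map_sum, map_smul, LinearMap.sum_apply, LinearMap.smul_apply,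
          smul_eq_mul, map_zero, LinearMap.zero_apply, Fintype.sum_sum_type, g1, g3, mul_ite, mul_one, mul_zero,
          Finset.sum_const_zero, add_zero, Finset.sum_ite_eq', Finset.mem_univ, if_true] at h5
        exact h5
      · have h5 := congrArg (fun z => B (v (Sum.inl j)) z) hg
        simp only [map_add, map_sum, map_smul, smul_eq_mul, map_zero, Fintype.sum_sum_type, g1, g2, mul_ite,
          mul_one, mul_zero, Finset.sum_const_zero, zero_add, Finset.sum_ite_eq, Finset.mem_univ,
          if_true] at h5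
        exact h5
    have hspan : ⊤ ≤ Submodule.span ℂ (Set.range v) := by
      intro u _
      obtain ⟨w, hw, hu⟩ := hdec u
      have hws : w ∈ Submodule.span ℂ (Set.range v) := by
        have h6 : (⟨w, hw⟩ : W) = ∑ a, b.repr ⟨w, hw⟩ a • b a := (b.sum_repr _).symm
        have h7 : w = ∑ a, b.repr ⟨w, hw⟩ a • (b a).1 := by
          have h8 := congrArg W.subtype h6
          rw [map_sum] at h8
          exact h8
        rw [h7]
        refine Submodule.sum_mem _ fun a _ => Submodule.smul_mem _ _ (Submodule.subset_span ?_)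
        rcases a with i | i
        · exact ⟨Sum.inl i.succ, vls i⟩
        · exact ⟨Sum.inr i.succ, vrs i⟩
      rw [hu]
      refine Submodule.add_mem _ (Submodule.add_mem _ (Submodule.smul_mem _ _ ?_) (Submodule.smul_mem _ _ ?_)) hws
      · exact Submodule.subset_span ⟨Sum.inl 0, vl0⟩
      · exact Submodule.subset_span ⟨Sum.inr 0, vr0⟩
    refine ⟨r + 1, Module.Basis.mk hli hspan, ?_, ?_, ?_⟩
    · intro i j
      rw [Module.Basis.mk_apply, Module.Basis.mk_apply]
      exact g1 i j
    · intro i j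
      rw [Module.Basis.mk_apply, Module.Basis.mk_apply]
      exact g2 i j
    · intro i j
      rw [Module.Basis.mk_apply, Module.Basis.mk_apply]
      exact g3 i j

/-- A nondegenerate alternating form on `ℂ^m` has a symplectic basis. Coordinate free version: for a finite dimensional complex space `V` and a nondegenerate alternating bilinear form `B` there are `r` and a basis `b : Basis (Fin r ⊕ Fin r) ℂ V` with `B (b (inl i)) (b (inr j)) = δ_ij`, `B (b (inl i)) (b (inl j)) = 0`,
`B (b (inr i)) (b (inr j)) = 0`. Proof: induction on the dimension: choose `e` nonzero, `f` with `B e f = 1`; `V = ⟨e, f⟩ ⊕ ⟨e, f⟩^⊥`. -/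
theorem exists_symp_basis {V : Type} [AddCommGroup V] [Module ℂ V] [FiniteDimensional ℂ V] (B : V →ₗ[ℂ] V →ₗ[ℂ] ℂ)
    (halt : ∀ v, B v v = 0) (hnd : ∀ v, (∀ w, B v w = 0) → v = 0) :
    ∃ (r : ℕ) (b : Module.Basis (Fin r ⊕ Fin r) ℂ V), (∀ i j, B (b (Sum.inl i)) (b (Sum.inr j)) = if i = j then 1 else 0) ∧
      (∀ i j, B (b (Sum.inl i)) (b (Sum.inl j)) = 0) ∧ ∀ i j, B (b (Sum.inr i)) (b (Sum.inr j)) = 0 :=
  FoB_aux _ V B rfl halt hnd

/-- Hence `m = r + (r + 0)` and `Pᵀ J P` is the standard form `JR ℂ (-1) r 0` (columns of `P` = basis vectors in the order given by `eJ r 0`). -/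
theorem exists_symp_equiv {m : ℕ} (J : Matrix (Fin m) (Fin m) ℂ) (hJ : Jᵀ = -J) (hdet : J.det ≠ 0) :
    ∃ r : ℕ, ∃ hm : m = r + (r + 0), ∃ P : GL (Fin (r + (r + 0))) ℂ, P.1ᵀ * (Matrix.reindex (finCongr hm) (finCongr hm) J) * P.1 = JR ℂ (-1) r 0 := by
  have hB : ∀ u v : Fin m → ℂ, Matrix.toLinearMap₂' ℂ J u v = u ⬝ᵥ (J *ᵥ v) := by
    intro u v
    rw [Matrix.toLinearMap₂'_apply']
  have hsk : ∀ u v : Fin m → ℂ, u ⬝ᵥ (J *ᵥ v) = -(v ⬝ᵥ (J *ᵥ u)) := by
    intro u v
    rw [Matrix.dotProduct_mulVec, ← Matrix.mulVec_transpose, hJ, Matrix.neg_mulVec, neg_dotProduct,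
      dotProduct_comm]
  obtain ⟨r, b, h1, h2, h3⟩ := exists_symp_basis (Matrix.toLinearMap₂' ℂ J)
    (fun v => by
      rw [hB]
      have h := hsk v v
      linear_combination h / 2)
    (fun v hv => by
      have h5 : v ᵥ* J = 0 := by
        funext i
        have h6 := hv (Pi.single i 1)
        rw [hB, Matrix.dotProduct_mulVec] at h6
        simpa using h6
      by_contra hne
      exact hdet (Matrix.exists_vecMul_eq_zero_iff.1 ⟨v, hne, h5⟩))
  have hm : m = r + (r + 0) := by
    have h := Module.finrank_eq_card_basis b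
    rw [Module.finrank_fin_fun, Fintype.card_sum, Fintype.card_fin] at h
    exact h
  subst hm
  simp only [hB] at h1 h2 h3
  let φ : Fin r ⊕ (Fin r ⊕ Fin 0) → Fin r ⊕ Fin r := Sum.elim Sum.inl (Sum.elim Sum.inr fun z => z.elim0)
  let P : Matrix (Fin (r + (r + 0))) (Fin (r + (r + 0))) ℂ := Matrix.of fun i c => b (φ ((eJ r 0).symm c)) i
  have hent : ∀ c c', (Pᵀ * J * P) c c' = b (φ ((eJ r 0).symm c)) ⬝ᵥ (J *ᵥ b (φ ((eJ r 0).symm c'))) := by
    intro c c'
    rw [Matrix.mul_assoc, Matrix.mul_apply]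
    simp only [dotProduct, Matrix.mulVec, Matrix.mul_apply, Matrix.transpose_apply]
    rfl
  have hP : Pᵀ * J * P = JR ℂ (-1) r 0 := by
    ext c c'
    obtain ⟨a, rfl⟩ := (eJ r 0).surjective c
    obtain ⟨a', rfl⟩ := (eJ r 0).surjective c'
    rw [hent, Equiv.symm_apply_apply, Equiv.symm_apply_apply]
    have hJR : JR ℂ (-1) r 0 (eJ r 0 a) (eJ r 0 a') = ((JS (-1) r 0 a a' : ℤ) : ℂ) := by
      unfold JR
      rw [Matrix.map_apply, JI_apply]
      rfl
    rw [hJR]
    rcases a with i | i | z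
    · rcases a' with j | j | z'
      · have e1 : JS (-1) r 0 (Sum.inl i) (Sum.inl j) = 0 := rfl
        rw [e1, Int.cast_zero]
        exact h2 i j
      · have e1 : JS (-1) r 0 (Sum.inl i) (Sum.inr (Sum.inl j)) = (1 : Matrix (Fin r) (Fin r) ℤ) i j := rfl
        rw [e1, Matrix.one_apply]
        have h4 := h1 i j
        change b (Sum.inl i) ⬝ᵥ (J *ᵥ b (Sum.inr j)) = _
        rw [h4]
        split_ifs <;> simp
      · exact z'.elim0
    · rcases a' with j | j | z'
      · have e1 : JS (-1) r 0 (Sum.inr (Sum.inl i)) (Sum.inl j) = ((-1 : ℤ) • (1 : Matrix (Fin r) (Fin r) ℤ)) i j := rfl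
        rw [e1, Matrix.smul_apply, Matrix.one_apply]
        have h4 := h1 j i
        change b (Sum.inr i) ⬝ᵥ (J *ᵥ b (Sum.inl j)) = _
        rw [hsk, h4]
        by_cases hij : i = j
        · subst hij
          simp
        · rw [if_neg hij, if_neg (Ne.symm hij)]
          simp
      · have e1 : JS (-1) r 0 (Sum.inr (Sum.inl i)) (Sum.inr (Sum.inl j)) = 0 := rfl
        rw [e1, Int.cast_zero]
        exact h3 i j
      · exact z'.elim0
    · exact z.elim0
  have hdetP : P.det ≠ 0 := by
    obtain ⟨J', hJ', _⟩ := JR_inv ℂ (-1) r 0 (Or.inr rfl)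
    intro h0
    have h := congrArg Matrix.det hJ'
    rw [← hP, Matrix.det_mul, Matrix.det_mul, h0, mul_zero, zero_mul, Matrix.det_one] at h
    exact zero_ne_one h
  refine ⟨r, rfl, Matrix.GeneralLinearGroup.mkOfDetNeZero P hdetP, ?_⟩
  exact hP

end WCn
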