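import Pool.Agent.Lib.MP_c2b80f_alD.ClJ
import Pool.Agent.Lib.MP_c2b80f_alD.ClsB
import Pool.Agent.Lib.MP_c2b80f_alD.CjB
import Pool.Agent.Lib.MP_c2b80f_alD.FoA
import Pool.Agent.Lib.MP_c2b80f_alD.FoB

/-!
# All classical groups (job ClF)
-/

open Matrix

namespace WCn

/-- The classical groups: `SL_m` (`m ≥ 2`), the symplectic groups (`m ≥ 4`) and the special orthogonal groups (`m ≥ 5`) of nondegenerate alternating and symmetric forms. -/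
def Classical (m : ℕ) (G : Subgroup (SLC m)) : Prop :=
  (2 ≤ m ∧ G = ⊤) ∨ (4 ≤ m ∧ ∃ J : Matrix (Fin m) (Fin m) ℂ, Jᵀ = -J ∧ J.det ≠ 0 ∧ G = GJ J) ∨
    (5 ≤ m ∧ ∃ J : Matrix (Fin m) (Fin m) ℂ, Jᵀ = J ∧ J.det ≠ 0 ∧ G = GJ J)

/-- `cls_sl`, `cls_J` with `cls_cj`, `GJ_cj`, `exists_symm_equiv` (`m = r + (r + δ)`, `δ = m % 2`, `r = m / 2`; `JR ℂ 1 r δ` is symmetric and invertible, `JR_transpose`, `JR_inv`), `exists_symp_equiv`. (Substitute `m` by `r + (r + δ)`.) -/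
theorem cls_of_classical {m : ℕ} {G : Subgroup (SLC m)} (h : Classical m G) : ∃ (r : ℕ) (𝔤 : Submodule ℂ (Matrix (Fin m) (Fin m) ℂ)), Cls r G 𝔤 := by
  rcases h with ⟨hm, rfl⟩ | ⟨hm4, J, hJ, hdet, rfl⟩ | ⟨hm5, J, hJ, hdet, rfl⟩
  · exact ⟨m - 1, lieS m ℂ, cls_sl hm⟩
  · obtain ⟨r, hm, P, hP⟩ := exists_symp_equiv J hJ hdet
    subst hm
    have hre : Matrix.reindex (finCongr rfl) (finCongr rfl) J = J := by
      ext i j
      rfl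
    rw [hre] at hP
    have hok : OkTy (-1) r 0 := Or.inl ⟨rfl, rfl, by omega⟩
    rw [GJ_cj P J (JR ℂ (-1) r 0) hP]
    exact ⟨r, _, cls_cj P (cls_J hok)⟩
  · obtain ⟨r, δ, hm, hok⟩ : ∃ r δ : ℕ, m = r + (r + δ) ∧ OkTy 1 r δ := by
      refine ⟨m / 2, m % 2, by omega, ?_⟩
      rcases Nat.mod_two_eq_zero_or_one m with h0 | h1
      · exact Or.inr (Or.inr ⟨rfl, h0, by omega⟩)
      · exact Or.inr (Or.inl ⟨rfl, h1, by omega⟩)
    subst hm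
    have hT : (JR ℂ 1 r δ)ᵀ = JR ℂ 1 r δ := by
      rw [JR_transpose ℂ 1 r δ (Or.inl rfl), Int.cast_one, one_smul]
    obtain ⟨J', hJ1, _⟩ := JR_inv ℂ 1 r δ (Or.inl rfl)
    have hdJ : (JR ℂ 1 r δ).det ≠ 0 := by
      intro h0
      have h1 := congrArg Matrix.det hJ1
      rw [Matrix.det_mul, h0, zero_mul, Matrix.det_one] at h1
      exact zero_ne_one h1
    obtain ⟨P, hP⟩ := exists_symm_equiv J (JR ℂ 1 r δ) hJ hdet hT hdJ
    rw [GJ_cj P J (JR ℂ 1 r δ) hP]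
    exact ⟨r, _, cls_cj P (cls_J hok)⟩

end WCn
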