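import Pool.Agent.Lib.MP_c2b80f_alC.RelA
import Pool.Agent.Lib.MP_c2b80f_alC.AdDefs

/-!
# Classical groups: definitions

`G` is a closed subgroup of `SL_m(ℂ)`: `SL_m` itself, or `G_J = {g | gᵀ J g = J}`.
-/

open Matrix Polynomial

namespace WCn

variable {n m : ℕ}

/-- `Γ` is a Zariski dense subgroup of `G`: `Γ ≤ G`, and a polynomial in the entries which vanishes on `Γ` vanishes on `G`. -/
def ZDenseIn (G Γ : Subgroup (SLC m)) : Prop :=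
  Γ ≤ G ∧ ∀ P : MvPolynomial (Fin m × Fin m) ℂ,
    (∀ g ∈ Γ, MvPolynomial.eval (fun ij : Fin m × Fin m => g.1 ij.1 ij.2) P = 0) →
    ∀ g ∈ G, MvPolynomial.eval (fun ij : Fin m × Fin m => g.1 ij.1 ij.2) P = 0

/-- The group `{g ∈ SL_m(ℂ) | gᵀ J g = J}`: for `Jᵀ = -J`, `det J ≠ 0` the symplectic group, for `Jᵀ = J`, `det J ≠ 0` the special
orthogonal group of `J`. -/
def GJ (J : Matrix (Fin m) (Fin m) ℂ) : Subgroup (SLC m) where
  carrier := {g | g.1ᵀ * J * g.1 = J}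
  mul_mem' := by
    intro g h hg hh
    have hg' : g.1ᵀ * J * g.1 = J := hg
    have hh' : h.1ᵀ * J * h.1 = J := hh
    show (g * h).1ᵀ * J * (g * h).1 = J
    rw [Matrix.SpecialLinearGroup.coe_mul, Matrix.transpose_mul]
    calc h.1ᵀ * g.1ᵀ * J * (g.1 * h.1) = h.1ᵀ * (g.1ᵀ * J * g.1) * h.1 := by simp only [Matrix.mul_assoc]
      _ = J := by rw [hg', hh']
  one_mem' := by
    show (1 : SLC m).1ᵀ * J * (1 : SLC m).1 = J
    simp
  inv_mem' := by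
    intro g hg
    have hg' : g.1ᵀ * J * g.1 = J := hg
    have h1 : g.1 * (g⁻¹).1 = 1 := by
      rw [← Matrix.SpecialLinearGroup.coe_mul, mul_inv_cancel]; rfl
    have h2 : (g⁻¹).1ᵀ * g.1ᵀ = 1 := by
      rw [← Matrix.transpose_mul, h1, Matrix.transpose_one]
    show (g⁻¹).1ᵀ * J * (g⁻¹).1 = J
    calc (g⁻¹).1ᵀ * J * (g⁻¹).1 = (g⁻¹).1ᵀ * (g.1ᵀ * J * g.1) * (g⁻¹).1 := by rw [hg']
      _ = ((g⁻¹).1ᵀ * g.1ᵀ) * J * (g.1 * (g⁻¹).1) := by simp only [Matrix.mul_assoc]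
      _ = J := by rw [h1, h2, Matrix.one_mul, Matrix.mul_one]

/-- The matrices `X` with `Xᵀ J + J X = 0` over a ring `R`. -/
def lieJ {R : Type*} [CommRing R] (J : Matrix (Fin m) (Fin m) R) : Submodule R (Matrix (Fin m) (Fin m) R) where
  carrier := {X | Xᵀ * J + J * X = 0}
  add_mem' := by
    intro X Y hX hY
    have hX' : Xᵀ * J + J * X = 0 := hX
    have hY' : Yᵀ * J + J * Y = 0 := hY
    show (X + Y)ᵀ * J + J * (X + Y) = 0
    rw [Matrix.transpose_add, Matrix.add_mul, Matrix.mul_add]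
    calc Xᵀ * J + Yᵀ * J + (J * X + J * Y) = (Xᵀ * J + J * X) + (Yᵀ * J + J * Y) := by abel
      _ = 0 := by rw [hX', hY', add_zero]
  zero_mem' := by
    show (0 : Matrix (Fin m) (Fin m) R)ᵀ * J + J * 0 = 0
    simp
  smul_mem' := by
    intro c X hX
    have hX' : Xᵀ * J + J * X = 0 := hX
    show (c • X)ᵀ * J + J * (c • X) = 0
    rw [Matrix.transpose_smul, Matrix.smul_mul, Matrix.mul_smul, ← smul_add, hX', smul_zero]

/-- The matrices of trace zero over a ring `R`. -/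
def lieS (m : ℕ) (R : Type*) [CommRing R] : Submodule R (Matrix (Fin m) (Fin m) R) :=
  LinearMap.ker (Matrix.traceLinearMap (Fin m) R R)

/-- Irreducibility of the symmetries modulo `S₀` (hypothesis `hIrr` of `rel_dim`). -/
def HIrr (x : Fin n → ℂˣ) (y : Fin m → ℂˣ) (S₀ : Submodule ℚ (Fin m → ℚ)) : Prop :=
  ∀ W : Submodule ℚ (Fin m → ℚ), S₀ ≤ W →
    (∀ π ρ, RelSym x y π ρ → ∀ d ∈ W, d ∘ ρ.symm ∈ W) → W = S₀ ∨ W = ⊤

/-- Schur's lemma for the symmetries (hypothesis `hSchur` of `rel_schur`). -/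
def HSchur (x : Fin n → ℂˣ) (y : Fin m → ℂˣ) (S₀ : Submodule ℚ (Fin m → ℚ)) : Prop :=
  ∀ D : Matrix (Fin m) (Fin m) ℚ, (∀ j l, D j l = D l j) →
    (∀ π ρ, RelSym x y π ρ → ∀ j l, D (ρ j) (ρ l) = D j l) → (∀ d ∈ S₀, D *ᵥ d = 0) →
    ∃ β : ℚ, ∀ w : Fin m → ℝ, (∀ d ∈ S₀, ∑ j, (d j : ℝ) * w j = 0) →
      ∑ j, ∑ l, (D j l : ℝ) * w j * w l = β * ∑ j, w j ^ 2

/-- `γ` is generic of rank `r` relative to the ring `A`: semisimple of infinite order, and for all `x` which are the roots of a monic polynomial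
over `A` there is a space `S₀` of dimension `m - r` of relations between the eigenvalues of `γ`, modulo which the symmetries are irreducible. -/
def GenEl (r : ℕ) (A : Subring ℂ) (γ : SLC m) : Prop :=
  IsSs γ ∧ ¬ IsOfFinOrder γ ∧ ∀ (q : GL (Fin m) ℂ) (y : Fin m → ℂˣ), DiagBy γ q y →
    ∀ (n : ℕ) (x : Fin n → ℂˣ), (∀ i, (∏ i, (X - C (x i : ℂ))).coeff i ∈ A) →
      ∃ S₀ : Submodule ℚ (Fin m → ℚ), Module.finrank ℚ S₀ + r = m ∧
        (∀ d : Fin m → ℤ, (fun j => (d j : ℚ)) ∈ S₀ → ∏ j, y j ^ d j = 1) ∧ HIrr x y S₀ ∧ HSchur x y S₀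

/-- The multiplicative group generated by the eigenvalues of `h` has rank at most `r`: the space of the relations between the `n` eigenvalues `x i`
has dimension at least `n - r`. (The `y` do not matter: `(c, 0)` is a relation between `x`, `y` if `c` is a relation between the `x i`.) -/
def RankLe (r : ℕ) (h : SLC n) : Prop :=
  ∀ (p : GL (Fin n) ℂ) (x : Fin n → ℂˣ), DiagBy h p x → ∀ (k : ℕ) (y : Fin k → ℂˣ),
    n ≤ Module.finrank ℚ ((relQ x y).comap (LinearMap.inl ℚ (Fin n → ℚ) (Fin k → ℚ))) + r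

/-- Existence of generic elements for Zariski dense subgroups `T → G` (`T` with any group topology which is not too fine), in every open set `U` which meets all
subgroups of finite index. -/
def HasGen (r : ℕ) (G : Subgroup (SLC m)) : Prop :=
  ∀ (T : Type) [Group T] [TopologicalSpace T] [IsTopologicalGroup T] (ψ : T →* SLC m), Function.Injective ψ →
    ZDenseIn G ψ.range → ∀ A₀ : Finset ℂ, (∀ g i j, (ψ g).1 i j ∈ Subring.closure (A₀ : Set ℂ)) →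
    (∀ s : ℕ, 0 < s → ∃ γ₀ : T, γ₀ ^ s ≠ 1 ∧ ∀ N : Subgroup T, N.FiniteIndex → γ₀ ∈ closure (N : Set T)) →
    ∀ U : Set T, IsOpen U → (∀ N : Subgroup T, N.FiniteIndex → ∃ δ ∈ U, δ ∈ N) →
      ∃ γ ∈ U, GenEl r (Subring.closure (A₀ : Set ℂ)) (ψ γ)

/-- Zariski dense subgroups of `G` act irreducibly on `𝔤` by conjugation. -/
def AdIrr (G : Subgroup (SLC m)) (𝔤 : Submodule ℂ (Matrix (Fin m) (Fin m) ℂ)) : Prop :=
  ∀ Γ : Subgroup (SLC m), ZDenseIn G Γ → ∀ W : Submodule ℂ (Matrix (Fin m) (Fin m) ℂ), W ≤ 𝔤 → W ≠ ⊥ →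
    (∀ g ∈ Γ, ∀ Y ∈ W, g.1 * Y * (g⁻¹).1 ∈ W) → W = 𝔤

/-- What is needed of a classical group `G` of rank `r` with Lie algebra `𝔤`. -/
structure Cls (r : ℕ) (G : Subgroup (SLC m)) (𝔤 : Submodule ℂ (Matrix (Fin m) (Fin m) ℂ)) : Prop where
  pos : 1 ≤ r
  closed : IsClosed (G : Set (SLC m))
  rank : ∀ h ∈ G, RankLe r h
  gen : HasGen r G
  pw : ∀ Γ, ZDenseIn G Γ → ∀ k : ℕ, 0 < k → ∃ g ∈ Γ, g ^ k ≠ 1
  irr : AdIrr G 𝔤
  lie : ∀ X : Matrix (Fin m) (Fin m) ℂ, (∀ t : ℝ, ∃ g ∈ G, g.1 = NormedSpace.exp ((t : ℂ) • X)) → X ∈ 𝔤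

/-! ### Standard forms -/

/-- `Fin r ⊕ (Fin r ⊕ Fin δ) ≃ Fin (r + (r + δ))`. -/
def eJ (r δ : ℕ) : Fin r ⊕ (Fin r ⊕ Fin δ) ≃ Fin (r + (r + δ)) :=
  (Equiv.sumCongr (Equiv.refl (Fin r)) finSumFinEquiv).trans finSumFinEquiv

/-- The standard form: basis `e i = inl i`, `f i = inr (inl i)`, and for `δ = 1` one more vector `e₀`; `e i · f i = 1`, `f i · e i = ε`, `e₀ · e₀ = 1`. -/
def JS (ε : ℤ) (r δ : ℕ) : Matrix (Fin r ⊕ (Fin r ⊕ Fin δ)) (Fin r ⊕ (Fin r ⊕ Fin δ)) ℤ :=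
  Matrix.fromBlocks 0 (Matrix.fromCols 1 0) (Matrix.fromRows (ε • 1) 0) (Matrix.fromBlocks 0 0 0 1)

/-- The standard form as a matrix with index set `Fin (r + (r + δ))`. -/
def JI (ε : ℤ) (r δ : ℕ) : Matrix (Fin (r + (r + δ))) (Fin (r + (r + δ))) ℤ :=
  Matrix.reindex (eJ r δ) (eJ r δ) (JS ε r δ)

/-- The standard form over a ring. -/
def JR (R : Type*) [CommRing R] (ε : ℤ) (r δ : ℕ) : Matrix (Fin (r + (r + δ))) (Fin (r + (r + δ))) R :=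
  (JI ε r δ).map (Int.castRingHom R)

/-- Types `C_r` (`r ≥ 2`), `B_r` (`r ≥ 2`), `D_r` (`r ≥ 3`). -/
def OkTy (ε : ℤ) (r δ : ℕ) : Prop :=
  (ε = -1 ∧ δ = 0 ∧ 2 ≤ r) ∨ (ε = 1 ∧ δ = 1 ∧ 2 ≤ r) ∨ (ε = 1 ∧ δ = 0 ∧ 3 ≤ r)

end WCn
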