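import Pool.Agent.Lib.MP_c2b80f_alD.RkA
import Pool.Agent.Lib.MP_c2b80f_alD.GDefs
import Pool.Agent.Lib.MP_c2b80f_alC.DiagB

/-!
# The rank of elements of `G_J` (job RkB)
-/

open Matrix Polynomial

namespace WCn

/-- Proof. Let `h = p diag(x) p⁻¹ ∈ G_J`. `h⁻¹ = J⁻¹ hᵀ J` has the same characteristic polynomial as `h`, and `h⁻¹ = p diag(1/x) p⁻¹`; so there is a permutation `σ` with `x (σ i) = 1 / x i` (multisets of the roots; `galP_perm` in `GalP`). So all `e_i + e_{σ i}` are in the relation space `R₁` (`relQ_of_MRel`, with `d = 0`). The orthogonal complement of `R₁` in `ℚ^n`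
(for `⟨v, w⟩ = ∑ v i w i`) consists of vectors `w` with `w i + w (σ i) = 0`, so it has dimension at most `m / 2 ≤ r` (`finrank_antisymm`), and `finrank R₁ = m - finrank R₁^⊥ ≥ m - r`. -/
theorem rankLe_GJ {m r : ℕ} (hm : m ≤ 2 * r + 1) (J : Matrix (Fin m) (Fin m) ℂ) (hJ : J.det ≠ 0) (h : SLC m) (hh : h ∈ GJ J) : RankLe r h := by
  classical
  intro p x hx k y
  have hh' : h.1ᵀ * J * h.1 = J := hh
  have hJu : IsUnit J.det := isUnit_iff_ne_zero.2 hJ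
  have hi1 : h.1 * (h⁻¹).1 = 1 := by
    rw [← Matrix.SpecialLinearGroup.coe_mul, mul_inv_cancel]
    rfl
  have hi2 : (h⁻¹).1 * h.1 = 1 := by
    rw [← Matrix.SpecialLinearGroup.coe_mul, inv_mul_cancel]
    rfl
  have hp1 : p.1 * (p⁻¹).1 = 1 := p.mul_inv
  have hp2 : (p⁻¹).1 * p.1 = 1 := p.inv_mul
  have hdx : h.1 = p.1 * Matrix.diagonal (fun i => (x i : ℂ)) * (p⁻¹).1 := hx
  -- the inverse, diagonalised by `p`
  have h1 : DiagBy h⁻¹ p (fun i => (x i)⁻¹) := by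
    have h2 : h.1 * (p.1 * Matrix.diagonal (fun i => (((x i)⁻¹ : ℂˣ) : ℂ)) * (p⁻¹).1) = 1 := by
      have h3 : Matrix.diagonal (fun i => (x i : ℂ)) * Matrix.diagonal (fun i => (((x i)⁻¹ : ℂˣ) : ℂ)) = 1 := by
        rw [Matrix.diagonal_mul_diagonal, ← Matrix.diagonal_one]
        refine congrArg Matrix.diagonal (funext fun i => ?_)
        exact (x i).mul_inv
      calc h.1 * (p.1 * Matrix.diagonal (fun i => (((x i)⁻¹ : ℂˣ) : ℂ)) * (p⁻¹).1)
          = p.1 * Matrix.diagonal (fun i => (x i : ℂ)) * ((p⁻¹).1 * p.1) *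
            Matrix.diagonal (fun i => (((x i)⁻¹ : ℂˣ) : ℂ)) * (p⁻¹).1 := by
            rw [hdx]
            simp only [Matrix.mul_assoc]
        _ = p.1 * (Matrix.diagonal (fun i => (x i : ℂ)) * Matrix.diagonal (fun i => (((x i)⁻¹ : ℂˣ) : ℂ))) *
            (p⁻¹).1 := by
            rw [hp2, Matrix.mul_one]
            simp only [Matrix.mul_assoc]
        _ = 1 := by rw [h3, Matrix.mul_one, hp1]
    exact left_inv_eq_right_inv hi2 h2
  -- the inverse, diagonalised by `J⁻¹ (p⁻¹)ᵀ`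
  obtain ⟨q, hq⟩ : ∃ q : GL (Fin m) ℂ, DiagBy h⁻¹ q x := by
    have e1 : J⁻¹ * (p⁻¹).1ᵀ * (p.1ᵀ * J) = 1 := by
      calc J⁻¹ * (p⁻¹).1ᵀ * (p.1ᵀ * J) = J⁻¹ * ((p⁻¹).1ᵀ * p.1ᵀ) * J := by simp only [Matrix.mul_assoc]
        _ = 1 := by rw [← Matrix.transpose_mul, hp1, Matrix.transpose_one, Matrix.mul_one, Matrix.nonsing_inv_mul J hJu]
    refine ⟨⟨J⁻¹ * (p⁻¹).1ᵀ, p.1ᵀ * J, e1, mul_eq_one_comm.1 e1⟩, ?_⟩
    change (h⁻¹).1 = J⁻¹ * (p⁻¹).1ᵀ * Matrix.diagonal (fun i => (x i : ℂ)) * (p.1ᵀ * J)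
    have e2 : h.1ᵀ = (p⁻¹).1ᵀ * Matrix.diagonal (fun i => (x i : ℂ)) * p.1ᵀ := by
      rw [hdx, Matrix.transpose_mul, Matrix.transpose_mul, Matrix.diagonal_transpose, Matrix.mul_assoc]
    have e3 : h.1ᵀ * J = J * (h⁻¹).1 := by
      calc h.1ᵀ * J = h.1ᵀ * J * (h.1 * (h⁻¹).1) := by rw [hi1, Matrix.mul_one]
        _ = h.1ᵀ * J * h.1 * (h⁻¹).1 := by simp only [Matrix.mul_assoc]
        _ = J * (h⁻¹).1 := by rw [hh']
    calc (h⁻¹).1 = J⁻¹ * (J * (h⁻¹).1) := by rw [← Matrix.mul_assoc, Matrix.nonsing_inv_mul J hJu, Matrix.one_mul]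
      _ = J⁻¹ * (((p⁻¹).1ᵀ * Matrix.diagonal (fun i => (x i : ℂ)) * p.1ᵀ) * J) := by rw [← e3, e2]
      _ = J⁻¹ * (p⁻¹).1ᵀ * Matrix.diagonal (fun i => (x i : ℂ)) * (p.1ᵀ * J) := by simp only [Matrix.mul_assoc]
  obtain ⟨σ, hσ⟩ := diagBy_perm h1 hq
  have hσ' : ∀ i, x i * x (σ i) = 1 := fun i => by
    rw [hσ i]
    exact inv_mul_cancel (x (σ i))
  -- the relations
  obtain ⟨R, hR⟩ : ∃ R : Submodule ℚ (Fin m → ℚ),
      R = (relQ x y).comap (LinearMap.inl ℚ (Fin m → ℚ) (Fin k → ℚ)) := ⟨_, rfl⟩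
  rw [← hR]
  have hrel : ∀ i, (Pi.single i (1 : ℚ) + Pi.single (σ i) 1 : Fin m → ℚ) ∈ R := by
    intro i
    rw [hR, Submodule.mem_comap]
    have h3 := relQ_of_MRel x y (Pi.single i 1 + Pi.single (σ i) 1) 0 (by
      unfold MRel
      have h4 : ∀ a : Fin m, ∏ j, x j ^ (Pi.single a (1 : ℤ) : Fin m → ℤ) j = x a := by
        intro a
        rw [Finset.prod_eq_single a]
        · rw [Pi.single_eq_same, zpow_one]
        · intro b _ hb
          rw [Pi.single_eq_of_ne hb, zpow_zero]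
        · intro ha
          exact absurd (Finset.mem_univ a) ha
      simp only [Pi.add_apply, _root_.zpow_add, Finset.prod_mul_distrib, h4, Pi.zero_apply, zpow_zero,
        Finset.prod_const_one, mul_one]
      exact hσ' i)
    have h5 : LinearMap.inl ℚ (Fin m → ℚ) (Fin k → ℚ) (Pi.single i (1 : ℚ) + Pi.single (σ i) 1) =
        ((fun j => (((Pi.single i 1 + Pi.single (σ i) 1 : Fin m → ℤ) j : ℤ) : ℚ)),
          (fun j => (((0 : Fin k → ℤ) j : ℤ) : ℚ))) := by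
      refine Prod.ext ?_ ?_
      · funext j
        rw [LinearMap.inl_apply]
        simp only [Pi.add_apply, Int.cast_add]
        rw [Pi.single_apply, Pi.single_apply, Pi.single_apply, Pi.single_apply]
        push_cast
        rfl
      · funext j
        rw [LinearMap.inl_apply]
        simp
    rw [h5]
    exact h3
  obtain ⟨e, he⟩ : ∃ e : Module.Dual ℚ (Fin m → ℚ) ≃ₗ[ℚ] (Fin m → ℚ), ∀ φ i, e φ i = φ (Pi.single i 1) := by
    refine ⟨((Pi.basisFun ℚ (Fin m)).constr ℚ).symm, fun φ i => ?_⟩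
    rw [← Pi.basisFun_apply ℚ (Fin m) i]
    conv_rhs => rw [← ((Pi.basisFun ℚ (Fin m)).constr ℚ).apply_symm_apply φ, Module.Basis.constr_basis]
  have hdim := Subspace.finrank_add_finrank_dualAnnihilator_eq R
  have h6 : Module.finrank ℚ (R.dualAnnihilator.map (e : Module.Dual ℚ (Fin m → ℚ) →ₗ[ℚ] (Fin m → ℚ))) =
      Module.finrank ℚ R.dualAnnihilator := LinearEquiv.finrank_map_eq e _
  have h7 := finrank_antisymm σ (R.dualAnnihilator.map (e : Module.Dual ℚ (Fin m → ℚ) →ₗ[ℚ] (Fin m → ℚ))) (by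
    rintro w ⟨φ, hφ, rfl⟩ i
    have h8 : φ (Pi.single i (1 : ℚ) + Pi.single (σ i) 1) = 0 :=
      (Submodule.mem_dualAnnihilator φ).1 hφ _ (hrel i)
    rw [map_add] at h8
    rw [LinearEquiv.coe_coe, he, he]
    exact eq_neg_of_add_eq_zero_right h8)
  rw [h6] at h7
  rw [Module.finrank_fin_fun] at hdim
  omega

end WCn
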