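import Pool.Agent.Lib.MP_c2b80f_alD.GjH
import Pool.Agent.Lib.MP_c2b80f_alD.RkB

/-!
# The standard symplectic and orthogonal groups are classical groups (job ClJ)
-/

open Matrix

namespace WCn

/-- `closed`: polynomial conditions on the entries. -/
theorem GJ_closed {m : ℕ} (J : Matrix (Fin m) (Fin m) ℂ) : IsClosed (GJ J : Set (SLC m)) := by
  have h1 : Continuous fun g : SLC m => g.1ᵀ * J * g.1 :=
    ((continuous_subtype_val.matrix_transpose).matrix_mul continuous_const).matrix_mul continuous_subtype_val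
  exact isClosed_eq h1 continuous_const

private theorem ClJ_deriv {𝔸 : Type*} [NormedRing 𝔸] [NormedAlgebra ℝ 𝔸] [CompleteSpace 𝔸] (X Y J : 𝔸)
    (h : ∀ t : ℝ, NormedSpace.exp (t • Y) * J * NormedSpace.exp (t • X) = J) : Y * J + J * X = 0 := by
  have hX := hasDerivAt_exp_smul_const (𝕂 := ℝ) X 0
  have hY := hasDerivAt_exp_smul_const (𝕂 := ℝ) Y 0
  have h1 := (hY.mul_const J).mul hX
  have h2 : (fun t : ℝ => NormedSpace.exp (t • Y) * J * NormedSpace.exp (t • X)) = fun _ => J := funext h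
  have h3 : HasDerivAt (fun t : ℝ => NormedSpace.exp (t • Y) * J * NormedSpace.exp (t • X)) 0 (0 : ℝ) := by
    rw [h2]
    exact hasDerivAt_const _ _
  have h4 := h1.unique h3
  simp only [zero_smul, NormedSpace.exp_zero, one_mul, mul_one] at h4
  exact h4

/-- Differentiate `exp (t X)ᵀ J exp (t X) = J` at `t = 0`. -/
theorem lie_GJ {m : ℕ} (J : Matrix (Fin m) (Fin m) ℂ) (X : Matrix (Fin m) (Fin m) ℂ)
    (h : ∀ t : ℝ, ∃ g ∈ GJ J, g.1 = NormedSpace.exp ((t : ℂ) • X)) : X ∈ lieJ J := by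
  let _ : NormedRing (Matrix (Fin m) (Fin m) ℂ) := Matrix.linftyOpNormedRing
  let _ : NormedAlgebra ℝ (Matrix (Fin m) (Fin m) ℂ) := Matrix.linftyOpNormedAlgebra
  show Xᵀ * J + J * X = 0
  refine ClJ_deriv X Xᵀ J fun t => ?_
  obtain ⟨g, hg, hgX⟩ := h t
  have h1 : g.1ᵀ * J * g.1 = J := hg
  have h2 : (t : ℂ) • X = t • X := by
    ext i j
    rw [Matrix.smul_apply, Matrix.smul_apply, Complex.real_smul, smul_eq_mul]
  rw [hgX, h2, ← Matrix.exp_transpose, Matrix.transpose_smul] at h1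
  exact h1

private theorem ClJ_pow {m : ℕ} {N : Matrix (Fin m) (Fin m) ℂ} (hN2 : N * N = 0) (k : ℕ) : (1 + N) ^ k = 1 + (k : ℂ) • N := by
  induction k with
  | zero => rw [pow_zero, Nat.cast_zero, zero_smul, add_zero]
  | succ k ih =>
    rw [pow_succ, ih, mul_add, mul_one, add_mul, one_mul, smul_mul_assoc, hN2, smul_zero, add_zero, Nat.cast_succ, add_smul,
      one_smul, add_assoc]

private theorem ClJ_ne {m : ℕ} {J N : Matrix (Fin m) (Fin m) ℂ} (hN : N ∈ lieJ J) (hN2 : N * N = 0) (hN0 : N ≠ 0) {k : ℕ} (hk : 0 < k) :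
    ∃ g ∈ GJ J, g ^ k ≠ 1 := by
  obtain ⟨g, hg, hg1, _⟩ := exists_one_add hN hN2
  refine ⟨g, hg, fun h => hN0 ?_⟩
  have h1 : g.1 ^ k = 1 := by
    rw [← Matrix.SpecialLinearGroup.coe_pow, h, Matrix.SpecialLinearGroup.coe_one]
  rw [hg1, ClJ_pow hN2] at h1
  have h2 : (k : ℂ) • N = 0 := by
    have h3 : (1 : Matrix (Fin m) (Fin m) ℂ) + (k : ℂ) • N = 1 + 0 := by rw [h1, add_zero]
    exact add_left_cancel h3
  have hk0 : (k : ℂ) ≠ 0 := by exact_mod_cast hk.ne'
  exact (smul_eq_zero.1 h2).resolve_left hk0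

private theorem ClJ_bs_ne {r δ : ℕ} (a : Fin r ⊕ (Fin r ⊕ Fin δ)) : bs r δ a ≠ 0 := by
  intro h
  have h1 := congrFun h (eJ r δ a)
  unfold bs at h1
  rw [Pi.single_eq_same] at h1
  exact one_ne_zero h1

/-- `rank`: `rankLe_GJ`; `gen`: `hasGen_J`; `pw`: `exists_pow_ne_one_in` with `g = 1 + N`, `N² = 0`, `N ≠ 0` (`exists_one_add`; type `C`: `symp_root`; `B`, `D`: `orth_root`), `g ^ k = 1 + k N`; `irr`: `adIrr_J`; `lie`: `lie_GJ`. -/
theorem cls_J {ε : ℤ} {r δ : ℕ} (h : OkTy ε r δ) : Cls r (GJ (JR ℂ ε r δ)) (lieJ (JR ℂ ε r δ)) := by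
  have hr : 2 ≤ r := by
    rcases h with h | h | h <;> omega
  have hδ : δ ≤ 1 := by
    rcases h with h | h | h <;> omega
  have hε : ε = 1 ∨ ε = -1 := by
    rcases h with h | h | h
    · exact Or.inr h.1
    · exact Or.inl h.1
    · exact Or.inl h.1
  obtain ⟨J', hJ', -⟩ := JR_inv ℂ ε r δ hε
  have hdet : (JR ℂ ε r δ).det ≠ 0 := by
    intro h0
    have h1 := congrArg Matrix.det hJ'
    rw [Matrix.det_mul, h0, zero_mul, Matrix.det_one] at h1
    exact zero_ne_one h1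
  have hG : ∀ k : ℕ, 0 < k → ∃ g ∈ GJ (JR ℂ ε r δ), g ^ k ≠ 1 := by
    intro k hk
    rcases h with ⟨h1, h2, h3⟩ | h
    · have hJ : (JR ℂ ε r δ)ᵀ = -(JR ℂ ε r δ) := by
        rw [JR_transpose ℂ ε r δ (Or.inr ⟨h1, h2⟩), h1]
        simp
      obtain ⟨hN, hN2, -⟩ := symp_root hJ (bs r δ (Sum.inl ⟨0, by omega⟩))
      refine ClJ_ne hN hN2 (fun h0 => ?_) hk
      have h4 := congrArg (fun M => M *ᵥ bs r δ (Sum.inr (Sum.inl ⟨0, by omega⟩))) h0
      simp only [Matrix.zero_mulVec] at h4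
      rw [← Matrix.mulVec_mulVec, Matrix.vecMulVec_mulVec] at h4
      have h5 := bil_ef ε r δ ⟨0, by omega⟩ ⟨0, by omega⟩
      unfold bil at h5
      rw [if_pos rfl] at h5
      rw [h5] at h4
      refine ClJ_bs_ne (r := r) (δ := δ) (Sum.inl ⟨0, by omega⟩) ?_
      simpa using h4
    · have hε1 : ε = 1 := by
        rcases h with h | h
        · exact h.1
        · exact h.1
      subst hε1
      have hJ : (JR ℂ 1 r δ)ᵀ = JR ℂ 1 r δ := by
        rw [JR_transpose ℂ 1 r δ (Or.inl rfl)]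
        simp
      have h01 : (⟨0, by omega⟩ : Fin r) ≠ ⟨1, by omega⟩ := by
        intro hh
        have := congrArg Fin.val hh
        simp at this
      obtain ⟨hN, hN2, -⟩ := orth_root hJ (bs r δ (Sum.inl ⟨0, by omega⟩)) (bs r δ (Sum.inl ⟨1, by omega⟩))
        (bil_ee 1 r δ _ _) (bil_ee 1 r δ _ _) (bil_ee 1 r δ _ _)
      refine ClJ_ne hN hN2 (fun h0 => ?_) hk
      have h4 := congrArg (fun M => M *ᵥ bs r δ (Sum.inr (Sum.inl ⟨1, by omega⟩))) h0
      simp only [Matrix.zero_mulVec] at h4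
      rw [XJ_mulVec, bil_ef, bil_ef, if_pos rfl, if_neg h01, mul_zero, zero_smul, sub_zero, one_smul] at h4
      exact ClJ_bs_ne _ h4
  exact
    { pos := by omega
      closed := GJ_closed _
      rank := fun g hg => rankLe_GJ (by omega) _ hdet g hg
      gen := hasGen_J h
      pw := fun Γ hz k hk => exists_pow_ne_one_in hz k (hG k hk)
      irr := adIrr_J h
      lie := fun X hX => lie_GJ _ X hX }

end WCn
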