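import Pool.Agent.Lib.MP_c2b80f_alD.LvE
import Pool.Agent.Lib.MP_c2b80f_alC.AdE
import Pool.Agent.Lib.MP_c2b80f_alC.ReachC

/-!
# Level data for `SL_m` (job ClsA)
-/

open Matrix

namespace WCn

variable {m : ℕ}

/-- The integral matrices `E_ij`, `i ≠ j`, and `E_ii - E_jj`. -/
noncomputable def SA (m : ℕ) : Finset (Matrix (Fin m) (Fin m) ℤ) :=
  (Finset.univ.filter fun ij : Fin m × Fin m => ij.1 ≠ ij.2).image (fun ij => Matrix.single ij.1 ij.2 1) ∪
  (Finset.univ.filter fun ij : Fin m × Fin m => ij.1 ≠ ij.2).image (fun ij => Matrix.single ij.1 ij.1 1 - Matrix.single ij.2 ij.2 1)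

private theorem ClsA_map {R : Type*} [CommRing R] (i j : Fin m) :
    (Matrix.single i j (1 : ℤ)).map (Int.castRingHom R) = Matrix.single i j (1 : R) := by
  ext a b
  rw [Matrix.map_apply, Matrix.single_apply, Matrix.single_apply]
  split_ifs
  · exact map_one _
  · exact map_zero _

private theorem ClsA_map_sub {R : Type*} [CommRing R] (i j : Fin m) :
    (Matrix.single i i (1 : ℤ) - Matrix.single j j 1).map (Int.castRingHom R) =
      Matrix.single i i (1 : R) - Matrix.single j j 1 := by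
  rw [Matrix.map_sub _ (map_sub _), ClsA_map, ClsA_map]

private theorem ClsA_mem {X : Matrix (Fin m) (Fin m) ℤ} : X ∈ SA m ↔
    (∃ i j, i ≠ j ∧ X = Matrix.single i j 1) ∨
      (∃ i j, i ≠ j ∧ X = Matrix.single i i 1 - Matrix.single j j 1) := by
  unfold SA
  rw [Finset.mem_union, Finset.mem_image, Finset.mem_image]
  constructor
  · rintro (⟨ij, h, rfl⟩ | ⟨ij, h, rfl⟩)
    · exact Or.inl ⟨ij.1, ij.2, (Finset.mem_filter.1 h).2, rfl⟩
    · exact Or.inr ⟨ij.1, ij.2, (Finset.mem_filter.1 h).2, rfl⟩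
  · rintro (⟨i, j, h, rfl⟩ | ⟨i, j, h, rfl⟩)
    · exact Or.inl ⟨(i, j), Finset.mem_filter.2 ⟨Finset.mem_univ _, h⟩, rfl⟩
    · exact Or.inr ⟨(i, j), Finset.mem_filter.2 ⟨Finset.mem_univ _, h⟩, rfl⟩

private theorem ClsA_toC {X : Matrix (Fin m) (Fin m) ℤ} (hX : X ∈ SA m) : toC X ∈ slSet m := by
  rcases ClsA_mem.1 hX with ⟨i, j, h, rfl⟩ | ⟨i, j, h, rfl⟩
  · exact Or.inl ⟨i, j, h, ClsA_map i j⟩
  · exact Or.inr ⟨i, j, h, ClsA_map_sub i j⟩

private theorem ClsA_toP (p : ℕ) : toP p '' (SA m : Set (Matrix (Fin m) (Fin m) ℤ)) = slSetP m p := by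
  ext X
  constructor
  · rintro ⟨X, hX, rfl⟩
    rcases ClsA_mem.1 (Finset.mem_coe.1 hX) with ⟨i, j, h, rfl⟩ | ⟨i, j, h, rfl⟩
    · exact Or.inl ⟨i, j, h, ClsA_map i j⟩
    · exact Or.inr ⟨i, j, h, ClsA_map_sub i j⟩
  · rintro (⟨i, j, h, rfl⟩ | ⟨i, j, h, rfl⟩)
    · exact ⟨_, Finset.mem_coe.2 (ClsA_mem.2 (Or.inl ⟨i, j, h, rfl⟩)), ClsA_map i j⟩
    · exact ⟨_, Finset.mem_coe.2 (ClsA_mem.2 (Or.inr ⟨i, j, h, rfl⟩)), ClsA_map_sub i j⟩

private theorem ClsA_trace {R : Type*} [CommRing R] {X : Matrix (Fin m) (Fin m) R} :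
    X ∈ lieS m R ↔ X.trace = 0 := by
  unfold lieS
  rw [LinearMap.mem_ker]
  rfl

private theorem ClsA_ne (hm : 2 ≤ m) (X : Matrix (Fin m) (Fin m) ℂ) (hX : X ≠ 0) (ht : X.trace = 0) :
    ∃ Z ∈ slSet m, (Z * X).trace ≠ 0 := by
  classical
  by_cases hd : ∃ i j, i ≠ j ∧ X i j ≠ 0
  · obtain ⟨i, j, hij, hX'⟩ := hd
    refine ⟨Matrix.single j i 1, Or.inl ⟨j, i, hij.symm, rfl⟩, ?_⟩
    rw [Matrix.trace_single_mul, one_smul]
    exact hX'
  · push Not at hd
    by_contra hcon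
    push Not at hcon
    have h1 : ∀ i j, X i i = X j j := by
      intro i j
      by_cases hij : i = j
      · rw [hij]
      · have h2 := hcon _ (Or.inr ⟨i, j, hij, rfl⟩)
        rw [sub_mul, Matrix.trace_sub, Matrix.trace_single_mul, Matrix.trace_single_mul, one_smul,
          one_smul] at h2
        exact sub_eq_zero.1 h2
    apply hX
    ext i j
    rw [Matrix.zero_apply]
    by_cases hij : i = j
    · subst hij
      have h3 : X.trace = m * X i i := by
        unfold Matrix.trace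
        have h4 : ∀ k ∈ (Finset.univ : Finset (Fin m)), X.diag k = X i i := fun k _ => h1 k i
        rw [Finset.sum_congr rfl h4, Finset.sum_const, Finset.card_univ, Fintype.card_fin,
          nsmul_eq_mul]
      rw [ht] at h3
      have h5 : (m : ℂ) ≠ 0 := by
        rw [Ne, Nat.cast_eq_zero]
        omega
      exact (mul_eq_zero.1 h3.symm).resolve_left h5
    · exact hd i j hij

private theorem ClsA_span (hm : 2 ≤ m) (X : Matrix (Fin m) (Fin m) ℂ) (ht : X.trace = 0) :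
    X ∈ Submodule.span ℂ (slSet m) := by
  classical
  obtain ⟨i₀, -⟩ : ∃ i₀ : Fin m, True := ⟨⟨0, by omega⟩, trivial⟩
  have h1 : X = ∑ i, ∑ j, if i = j then X i i • (Matrix.single i i (1 : ℂ) -
      Matrix.single i₀ i₀ 1) else X i j • Matrix.single i j (1 : ℂ) := by
    have h2 : ∀ i j, (if i = j then X i i • (Matrix.single i i (1 : ℂ) -
      Matrix.single i₀ i₀ 1) else X i j • Matrix.single i j (1 : ℂ)) =
      Matrix.single i j (X i j) - if i = j then X i i • Matrix.single i₀ i₀ (1 : ℂ) else 0 := by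
      intro i j
      by_cases hij : i = j
      · subst hij
        rw [if_pos rfl, if_pos rfl, smul_sub, Matrix.smul_single, smul_eq_mul, mul_one]
      · rw [if_neg hij, if_neg hij, sub_zero, Matrix.smul_single, smul_eq_mul, mul_one]
    simp only [h2, Finset.sum_sub_distrib, Finset.sum_ite_eq, Finset.mem_univ, if_true]
    rw [← Finset.sum_smul]
    have h3 : ∑ i, X i i = 0 := ht
    rw [h3, zero_smul, sub_zero]
    exact Matrix.matrix_eq_sum_single X
  rw [h1]
  refine Submodule.sum_mem _ fun i _ => Submodule.sum_mem _ fun j _ => ?_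
  by_cases hij : i = j
  · rw [if_pos hij]
    refine Submodule.smul_mem _ _ ?_
    by_cases hi : i = i₀
    · rw [hi, sub_self]
      exact Submodule.zero_mem _
    · exact Submodule.subset_span (Or.inr ⟨i, i₀, hi, rfl⟩)
  · rw [if_neg hij]
    exact Submodule.smul_mem _ _ (Submodule.subset_span (Or.inl ⟨i, j, hij, rfl⟩))

/-- `op`: `op_mem_AdS` (the operator `Op X Z` itself is in `AdS univ`). `span`: `mem_span_slSetP`. `pair`: `exists_slSetP_trace_ne` (`p > m`, `m ≥ 1`). `lev`: `Lev.trace`. (`toP p`, `toC` of the elements of `SA` are the elements of `slSetP m p`, `slSet m`.) -/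
theorem levData_sl (hm : 2 ≤ m) : LevData (⊤ : Subgroup (SLC m)) (SA m) (fun p => lieS m (ZMod p)) m := by
  refine ⟨fun X hX Z hZ => ⟨Op (toC X) (toC Z), ?_, fun Y _ => rfl⟩, fun p hp hpm => ?_, fun p hp hpm X hX h0 => ?_,
    fun T _ ψ _ A hA p _ σ hpm γ k X hk hL => ClsA_trace.2 (hL.trace hk)⟩
  · rw [Subgroup.coe_top]
    exact op_mem_AdS _ _ (ClsA_toC hX) (ClsA_toC hZ)
  · have hF : Fact p.Prime := ⟨hp⟩
    rw [ClsA_toP]
    refine le_antisymm (fun X hX => mem_span_slSetP p X (ClsA_trace.1 hX)) ?_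
    rw [Submodule.span_le]
    rintro X (⟨i, j, h, rfl⟩ | ⟨i, j, h, rfl⟩)
    · exact ClsA_trace.2 (Matrix.trace_single_eq_of_ne i j 1 h)
    · exact ClsA_trace.2 (by rw [Matrix.trace_sub, Matrix.trace_single_eq_same, Matrix.trace_single_eq_same, sub_self])
  · have hF : Fact p.Prime := ⟨hp⟩
    have hd : ¬ p ∣ m := fun hd => absurd (Nat.le_of_dvd (by omega) hd) (by omega)
    obtain ⟨Z, hZ, h1⟩ := exists_slSetP_trace_ne p hd X h0 (ClsA_trace.1 hX)
    rw [← ClsA_toP] at hZ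
    obtain ⟨Z', hZ', rfl⟩ := hZ
    exact ⟨Z', hZ', h1⟩

/-- `adIrr_of_op` for `slSet m`: the matrices of trace zero are spanned by `slSet m` (as `mem_span_slSetP`), the trace form is nondegenerate on them (as `exists_slSetP_trace_ne`), and `op_mem_AdS`. -/
theorem adIrr_sl (hm : 2 ≤ m) : AdIrr (⊤ : Subgroup (SLC m)) (lieS m ℂ) := by
  refine adIrr_of_op (slSet m) (fun X hX => ClsA_span hm X (ClsA_trace.1 hX))
    (fun Y hY h0 => ClsA_ne hm Y h0 (ClsA_trace.1 hY)) fun X hX Z hZ => ⟨Op X Z, ?_, fun Y _ => rfl⟩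
  rw [Subgroup.coe_top]
  exact op_mem_AdS X Z hX hZ

end WCn
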