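import Pool.Agent.Lib.MP_c2b80f_alC.CartA

/-!
# The tangent space of the closure of a subgroup of `SL_m(ℂ)` (job CtA)
-/

open Matrix

namespace WCn

variable {m : ℕ}

section CtA

attribute [local instance] Matrix.linftyOpNormedRing Matrix.linftyOpNormedAlgebra
  Matrix.linftyOpNormedAddCommGroup Matrix.linftyOpNormedSpace

private theorem CtA_main {m : ℕ} (hm : 0 < m) (S : Set (Matrix (Fin m) (Fin m) ℂ))
    (h1 : (1 : Matrix (Fin m) (Fin m) ℂ) ∈ S) (h2 : ∀ a ∈ S, ∀ b ∈ S, a * b ∈ S)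
    (h3 : ∀ a ∈ S, ∃ b ∈ S, a * b = 1 ∧ b * a = 1) (hc : IsClosed S) :
    ∃ V : Submodule ℝ (Matrix (Fin m) (Fin m) ℂ), (∀ X, X ∈ V ↔ ∀ t : ℝ, NormedSpace.exp (t • X) ∈ S) ∧
    ∃ ε : ℝ, 0 < ε ∧ ∀ g ∈ S, (∀ i j, ‖(g - 1) i j‖ < ε) →
      ∃ Y ∈ V, g = NormedSpace.exp Y := by
  have : Nonempty (Fin m) := ⟨⟨0, hm⟩⟩
  have hS : IsUnitGroup S := ⟨h1, h2, h3⟩
  refine ⟨{ carrier := tang S
            add_mem' := fun hX hY => tang_add S hS hc hX hY
            zero_mem' := tang_zero S hS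
            smul_mem' := fun c X hX => tang_smul S c hX }, fun X => Iff.rfl, ?_⟩
  have hm' : (0 : ℝ) < m := by exact_mod_cast hm
  obtain ⟨ε, hε, h⟩ := exists_tang (𝔸 := Matrix (Fin m) (Fin m) ℂ) S hS hc
  refine ⟨ε / m, by positivity, fun g hg hg1 => ?_⟩
  obtain ⟨Y, hY, hgY⟩ := h g hg (cartA_norm_lt hm hε _ hg1)
  exact ⟨Y, hY, hgY⟩

end CtA

/-- Proof. The case `m = 0` is trivial. `𝔸` = complex `m × m` matrices with the norm `Matrix.linftyOpNormedRing` (local instances as in `MP_c2b80f_alC/CartA.lean`; the topology is the product topology), `S` = the set of the matrices of the elements of the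
closure of `Γ`, a closed `IsUnitGroup`. `V` = `tang S`, a real subspace by `tang_add`, `tang_smul`, `tang_zero`; the last statement is `exists_tang`. -/
theorem exists_tangent (Γ : Subgroup (SLC m)) : ∃ V : Submodule ℝ (Matrix (Fin m) (Fin m) ℂ),
    (∀ X, X ∈ V ↔ ∀ t : ℝ, ∃ g ∈ Γ.topologicalClosure, g.1 = NormedSpace.exp ((t : ℂ) • X)) ∧
    ∃ ε : ℝ, 0 < ε ∧ ∀ g ∈ Γ.topologicalClosure, Near ε g → ∃ Y ∈ V, g.1 = NormedSpace.exp Y := by
  rcases Nat.eq_zero_or_pos m with rfl | hm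
  · refine ⟨⊤, fun X => ⟨fun _ t => ⟨1, one_mem _, Subsingleton.elim _ _⟩, fun _ => trivial⟩, 1, one_pos,
      fun g _ _ => ⟨0, trivial, Subsingleton.elim _ _⟩⟩
  · obtain ⟨H, hHd⟩ : ∃ H : Subgroup (SLC m), H = Γ.topologicalClosure := ⟨_, rfl⟩
    have hH : IsClosed (H : Set (SLC m)) := by
      rw [hHd]
      exact Γ.isClosed_topologicalClosure
    rw [← hHd]
    obtain ⟨S, hSd⟩ : ∃ S : Set (Matrix (Fin m) (Fin m) ℂ),
        S = (Subtype.val : SLC m → Matrix (Fin m) (Fin m) ℂ) '' (H : Set (SLC m)) := ⟨_, rfl⟩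
    have s1 : (1 : Matrix (Fin m) (Fin m) ℂ) ∈ S := by
      rw [hSd]
      exact ⟨(1 : SLC m), H.one_mem, rfl⟩
    have s2 : ∀ a ∈ S, ∀ b ∈ S, a * b ∈ S := by
      rw [hSd]
      rintro _ ⟨(a : SLC m), ha, rfl⟩ _ ⟨(b : SLC m), hb, rfl⟩
      exact ⟨(a * b : SLC m), H.mul_mem ha hb, rfl⟩
    have s3 : ∀ a ∈ S, ∃ b ∈ S, a * b = 1 ∧ b * a = 1 := by
      rw [hSd]
      rintro _ ⟨(a : SLC m), ha, rfl⟩
      exact ⟨(a⁻¹ : SLC m).1, ⟨(a⁻¹ : SLC m), H.inv_mem ha, rfl⟩,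
        congrArg Subtype.val (mul_inv_cancel a), congrArg Subtype.val (inv_mul_cancel a)⟩
    have hc : IsClosed S := by
      have h1 : IsClosed {A : Matrix (Fin m) (Fin m) ℂ | A.det = 1} :=
        isClosed_eq (continuous_id.matrix_det) continuous_const
      rw [hSd]
      exact h1.isClosedEmbedding_subtypeVal.isClosedMap _ hH
    obtain ⟨V, hV, ε, hε, h⟩ := CtA_main hm S s1 s2 s3 hc
    have hsm : ∀ (t : ℝ) (X : Matrix (Fin m) (Fin m) ℂ), (t : ℂ) • X = t • X := by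
      intro t X
      ext i j
      simp
    refine ⟨V, fun X => ?_, ε, hε, fun g hg hn => ?_⟩
    · refine (hV X).trans ⟨fun h1 t => ?_, fun h1 t => ?_⟩
      · have h2 := h1 t
        rw [hSd] at h2
        obtain ⟨g, hg, hg'⟩ := h2
        refine ⟨g, hg, ?_⟩
        rw [hsm]
        exact hg'
      · obtain ⟨g, hg, hg'⟩ := h1 t
        rw [hsm] at hg'
        rw [hSd]
        exact ⟨g, hg, hg'⟩
    · exact h g.1 (by rw [hSd]; exact ⟨g, hg, rfl⟩) fun i j => hn i j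

end WCn
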