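import Pool.Agent.Lib.MP_c2b80f_alD.GDefs
import Pool.Agent.Lib.MP_c2b80f_alC.CartN

/-!
# Properties of the tangent space (job CtB)
-/

open Matrix

namespace WCn

variable {m : ℕ}

/-- `exp (t g X g⁻¹) = g exp (t X) g⁻¹`. -/
theorem tangent_conj (Γ : Subgroup (SLC m)) (V : Submodule ℝ (Matrix (Fin m) (Fin m) ℂ))
    (hV : ∀ X, X ∈ V ↔ ∀ t : ℝ, ∃ g ∈ Γ.topologicalClosure, g.1 = NormedSpace.exp ((t : ℂ) • X)) (g : SLC m) (hg : g ∈ Γ)
    (X : Matrix (Fin m) (Fin m) ℂ) (hX : X ∈ V) : g.1 * X * (g⁻¹).1 ∈ V := by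
  rw [hV] at hX ⊢
  intro t
  obtain ⟨h, hh, hh1⟩ := hX t
  refine ⟨g * h * g⁻¹, mul_mem (mul_mem (Γ.le_topologicalClosure hg) hh) (inv_mem (Γ.le_topologicalClosure hg)), ?_⟩
  have hg2 : (g⁻¹).1 = (g.1)⁻¹ := by
    have h1 : (g⁻¹).1 * g.1 = 1 := by
      rw [← Matrix.SpecialLinearGroup.coe_mul, inv_mul_cancel]
      rfl
    exact (Matrix.inv_eq_left_inv h1).symm
  have hu : IsUnit g.1 := by
    rw [Matrix.isUnit_iff_isUnit_det, g.2]
    exact isUnit_one
  have h2 : (g * h * g⁻¹).1 = g.1 * h.1 * (g⁻¹).1 := by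
    rw [Matrix.SpecialLinearGroup.coe_mul, Matrix.SpecialLinearGroup.coe_mul]
  rw [h2, hh1, hg2, ← Matrix.exp_conj _ _ hu, Matrix.mul_smul, Matrix.smul_mul]

/-- If `Γ` is not discrete there are nontrivial elements of `Γ` arbitrarily close to `1`; they are of the form `exp Y`, `Y ∈ V`, `Y ≠ 0`. -/
theorem tangent_ne_bot (Γ : Subgroup (SLC m)) (V : Submodule ℝ (Matrix (Fin m) (Fin m) ℂ))
    (hV : ∃ ε : ℝ, 0 < ε ∧ ∀ g ∈ Γ.topologicalClosure, Near ε g → ∃ Y ∈ V, g.1 = NormedSpace.exp Y)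
    (hnd : ¬ DiscreteTopology Γ) : ∃ Y ∈ V, Y ≠ 0 := by
  obtain ⟨ε, hε, h1⟩ := hV
  obtain ⟨g, hg, hg1, hg2⟩ := exists_near_of_not_discrete Γ hnd ε hε
  obtain ⟨Y, hY, hY1⟩ := h1 g (Γ.le_topologicalClosure hg) hg2
  refine ⟨Y, hY, fun h0 => hg1 ?_⟩
  rw [h0, NormedSpace.exp_zero] at hY1
  exact Subtype.ext hY1

/-- `V ⊆ 𝔤`: the closure of `Γ` is contained in the closed group `G`; `Cls.lie`. -/
theorem tangent_le {r : ℕ} {G : Subgroup (SLC m)} {𝔤 : Submodule ℂ (Matrix (Fin m) (Fin m) ℂ)} (hG : Cls r G 𝔤)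
    (Γ : Subgroup (SLC m)) (hΓ : Γ ≤ G) (V : Submodule ℝ (Matrix (Fin m) (Fin m) ℂ))
    (hV : ∀ X, X ∈ V ↔ ∀ t : ℝ, ∃ g ∈ Γ.topologicalClosure, g.1 = NormedSpace.exp ((t : ℂ) • X)) : ∀ X ∈ V, X ∈ 𝔤 := by
  intro X hX
  refine hG.lie X fun t => ?_
  obtain ⟨g, hg, hg1⟩ := (hV X).1 hX t
  exact ⟨g, Subgroup.topologicalClosure_minimal Γ hΓ hG.closed hg, hg1⟩

section ctB

attribute [local instance] Matrix.linftyOpNormedRing Matrix.linftyOpNormedAlgebra
  Matrix.linftyOpNormedAddCommGroup Matrix.linftyOpNormedSpace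

theorem ctB_deriv (hm : 0 < m) (H : Matrix (Fin m) (Fin m) ℂ) (hne : H ≠ -H) (X : Matrix (Fin m) (Fin m) ℂ)
    (hall : ∀ t : ℝ, (NormedSpace.exp (t • X))ᴴ * H * NormedSpace.exp (t • X) = H ∨
      (NormedSpace.exp (t • X))ᴴ * H * NormedSpace.exp (t • X) = -H) : Xᴴ * H + H * X = 0 := by
  have : Nonempty (Fin m) := ⟨⟨0, hm⟩⟩
  have hd1 : ∀ Y : Matrix (Fin m) (Fin m) ℂ, HasDerivAt (fun t : ℝ => NormedSpace.exp (t • Y)) Y 0 := by
    intro Y
    have h1 := hasDerivAt_exp_smul_const (𝕂 := ℝ) Y (0 : ℝ)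
    rw [zero_smul, NormedSpace.exp_zero, one_mul] at h1
    exact h1
  have hstar : ∀ t : ℝ, (NormedSpace.exp (t • X))ᴴ = NormedSpace.exp (t • Xᴴ) := by
    intro t
    rw [← Matrix.exp_conjTranspose, Matrix.conjTranspose_smul, star_trivial]
  have hcx : Continuous fun t : ℝ => NormedSpace.exp (t • X) :=
    NormedSpace.exp_continuous.comp (continuous_id.smul continuous_const)
  have hcx' : Continuous fun t : ℝ => NormedSpace.exp (t • Xᴴ) :=
    NormedSpace.exp_continuous.comp (continuous_id.smul continuous_const)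
  obtain ⟨F, hF⟩ : ∃ F : ℝ → Matrix (Fin m) (Fin m) ℂ, ∀ t, F t = NormedSpace.exp (t • Xᴴ) * H * NormedSpace.exp (t • X) :=
    ⟨_, fun _ => rfl⟩
  have hFe : F = fun t => NormedSpace.exp (t • Xᴴ) * H * NormedSpace.exp (t • X) := funext hF
  have hFc : Continuous F := by
    rw [hFe]
    exact (hcx'.mul continuous_const).mul hcx
  have hF2 : ∀ t, F t = H ∨ F t = -H := by
    intro t
    have h1 := hall t
    rw [hstar, ← hF] at h1
    exact h1
  have hF0 : F 0 = H := by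
    rw [hF, zero_smul, zero_smul, NormedSpace.exp_zero, one_mul, mul_one]
  have hcl1 : IsClosed {t : ℝ | F t = H} := isClosed_eq hFc continuous_const
  have hcl2 : IsClosed {t : ℝ | F t = -H} := isClosed_eq hFc continuous_const
  have hcompl : {t : ℝ | F t = H}ᶜ = {t : ℝ | F t = -H} := by
    ext t
    constructor
    · intro h1
      exact (hF2 t).resolve_left h1
    · intro h1 h2
      exact hne (h2.symm.trans h1)
  have hclop : IsClopen {t : ℝ | F t = H} := by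
    refine ⟨hcl1, ?_⟩
    rw [← isClosed_compl_iff, hcompl]
    exact hcl2
  have huniv : {t : ℝ | F t = H} = Set.univ := hclop.eq_univ ⟨0, hF0⟩
  have hconst : F = fun _ => H := by
    funext t
    have h1 : t ∈ {t : ℝ | F t = H} := by
      rw [huniv]
      exact Set.mem_univ t
    exact h1
  have hder : HasDerivAt F (Xᴴ * H + H * X) 0 := by
    have h1 := ((hd1 Xᴴ).mul_const H).mul (hd1 X)
    rw [zero_smul, zero_smul, NormedSpace.exp_zero, one_mul, mul_one] at h1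
    rw [hFe]
    exact h1
  rw [hconst] at hder
  exact hder.unique (hasDerivAt_const (0 : ℝ) H)

end ctB

/-- If every `g ∈ Γ` satisfies `g* H g = H` or `g* H g = -H`, `det H ≠ 0`, then `X* H + H X = 0` for `X ∈ V`. (The condition is closed, so it holds on the closure. `c(t) = ±1` with `exp (t X)* H exp (t X) = c(t) H` is continuous, `c(0) = 1`, so `c = 1`; differentiate at
`t = 0`. If `m = 0` everything is trivial.) -/
theorem tangent_herm (Γ : Subgroup (SLC m)) (V : Submodule ℝ (Matrix (Fin m) (Fin m) ℂ))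
    (hV : ∀ X, X ∈ V ↔ ∀ t : ℝ, ∃ g ∈ Γ.topologicalClosure, g.1 = NormedSpace.exp ((t : ℂ) • X))
    (H : Matrix (Fin m) (Fin m) ℂ) (hH : H.det ≠ 0) (hΓ : ∀ g ∈ Γ, g.1ᴴ * H * g.1 = H ∨ g.1ᴴ * H * g.1 = -H) :
    ∀ X ∈ V, Xᴴ * H + H * X = 0 := by
  intro X hX
  rcases Nat.eq_zero_or_pos m with rfl | hm
  · ext i
    exact i.elim0
  have hcl : ∀ g ∈ Γ.topologicalClosure, g.1ᴴ * H * g.1 = H ∨ g.1ᴴ * H * g.1 = -H := by
    intro g hg
    have hc : Continuous fun g : SLC m => g.1ᴴ * H * g.1 :=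
      (continuous_subtype_val.matrix_conjTranspose.matrix_mul continuous_const).matrix_mul continuous_subtype_val
    have h1 : IsClosed {g : SLC m | g.1ᴴ * H * g.1 = H ∨ g.1ᴴ * H * g.1 = -H} :=
      (isClosed_eq hc continuous_const).union (isClosed_eq hc continuous_const)
    exact closure_minimal hΓ h1 hg
  have hall : ∀ t : ℝ, (NormedSpace.exp (t • X))ᴴ * H * NormedSpace.exp (t • X) = H ∨
      (NormedSpace.exp (t • X))ᴴ * H * NormedSpace.exp (t • X) = -H := by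
    intro t
    obtain ⟨g, hg, hg1⟩ := (hV X).1 hX t
    have h1 := hcl g hg
    rw [hg1, Complex.coe_smul] at h1
    exact h1
  have hne : H ≠ -H := by
    intro h
    have h1 : H = 0 := by
      ext i j
      have h2 := congrFun (congrFun h i) j
      rw [Matrix.neg_apply] at h2
      rw [Matrix.zero_apply]
      exact self_eq_neg.1 h2
    apply hH
    have : Nonempty (Fin m) := ⟨⟨0, hm⟩⟩
    rw [h1, Matrix.det_zero]
  exact ctB_deriv hm H hne X hall

end WCn
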