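import Pool.Agent.Lib.MP_c2b80f_alD.GDefs

/-!
# The tangent space is the Lie algebra of the real form (job CtC)
-/

open Matrix

namespace WCn

variable {m : ℕ}

/-- Proof. The complex span `W` of `V` is a nonzero subspace of `𝔤` stable under conjugation by `Γ`, so `W = 𝔤` (`AdIrr`). Let `X ∈ 𝔤` with `X* H + H X = 0`. Write `X = ∑ c_j v_j`, `v_j ∈ V`, `c_j = a_j + i b_j`: `X = a + i b` with `a, b ∈ V`
(the set `{a + i b | a, b ∈ V}` is a complex subspace containing `V`). Then `i b = X - a` satisfies `(i b)* H + H (i b) = 0`, that is `-i b* H + i H b = 0`, and `b* H + H b = 0`; so `2 i H b = 0`, `b = 0` and `X = a ∈ V`. -/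
theorem mem_tangent {G Γ : Subgroup (SLC m)} {𝔤 : Submodule ℂ (Matrix (Fin m) (Fin m) ℂ)} (hG : AdIrr G 𝔤) (hz : ZDenseIn G Γ)
    (V : Submodule ℝ (Matrix (Fin m) (Fin m) ℂ)) (hne : ∃ Y ∈ V, Y ≠ 0) (hle : ∀ X ∈ V, X ∈ 𝔤)
    (hconj : ∀ g ∈ Γ, ∀ X ∈ V, g.1 * X * (g⁻¹).1 ∈ V)
    (H : Matrix (Fin m) (Fin m) ℂ) (hH : H.det ≠ 0) (hherm : ∀ X ∈ V, Xᴴ * H + H * X = 0)
    (X : Matrix (Fin m) (Fin m) ℂ) (hX : X ∈ 𝔤) (hXH : Xᴴ * H + H * X = 0) : X ∈ V := by
  let W : Submodule ℂ (Matrix (Fin m) (Fin m) ℂ) :=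
    { carrier := {Z | ∃ a ∈ V, ∃ b ∈ V, Z = a + Complex.I • b}
      add_mem' := by
        rintro _ _ ⟨a, ha, b, hb, rfl⟩ ⟨a', ha', b', hb', rfl⟩
        refine ⟨a + a', V.add_mem ha ha', b + b', V.add_mem hb hb', ?_⟩
        rw [smul_add]
        abel
      zero_mem' := ⟨0, V.zero_mem, 0, V.zero_mem, by rw [smul_zero, add_zero]⟩
      smul_mem' := by
        rintro c _ ⟨a, ha, b, hb, rfl⟩
        refine ⟨c.re • a - c.im • b, V.sub_mem (V.smul_mem _ ha) (V.smul_mem _ hb),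
          c.re • b + c.im • a, V.add_mem (V.smul_mem _ hb) (V.smul_mem _ ha), ?_⟩
        ext i j
        have hc : (c.re : ℂ) + (c.im : ℂ) * Complex.I = c := Complex.re_add_im c
        have hI : Complex.I * Complex.I = -1 := Complex.I_mul_I
        simp only [Matrix.smul_apply, Matrix.add_apply, Matrix.sub_apply, smul_eq_mul, Complex.real_smul]
        linear_combination (-(a i j + Complex.I * b i j)) * hc + (c.im : ℂ) * b i j * hI }
  have hVW : ∀ a ∈ V, a ∈ W := fun a ha => ⟨a, ha, 0, V.zero_mem, by rw [smul_zero, add_zero]⟩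
  have hW : W = 𝔤 := by
    refine hG Γ hz W ?_ ?_ ?_
    · rintro _ ⟨a, ha, b, hb, rfl⟩
      exact 𝔤.add_mem (hle a ha) (𝔤.smul_mem _ (hle b hb))
    · intro h0
      obtain ⟨Y, hY, hY0⟩ := hne
      apply hY0
      have h1 := hVW Y hY
      rw [h0] at h1
      exact (Submodule.mem_bot ℂ).1 h1
    · rintro g hg _ ⟨a, ha, b, hb, rfl⟩
      refine ⟨_, hconj g hg a ha, _, hconj g hg b hb, ?_⟩
      rw [Matrix.mul_add, Matrix.add_mul, Matrix.mul_smul, Matrix.smul_mul]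
  rw [← hW] at hX
  obtain ⟨a, ha, b, hb, hab⟩ := hX
  have h1 := hherm a ha
  have h2 := hherm b hb
  have h3 : -(Complex.I • (bᴴ * H)) + Complex.I • (H * b) = 0 := by
    have h4 : Xᴴ = aᴴ + -(Complex.I • bᴴ) := by
      rw [hab, Matrix.conjTranspose_add, Matrix.conjTranspose_smul]
      congr 1
      rw [← neg_smul]
      congr 1
      exact Complex.conj_I
    rw [h4, hab, Matrix.add_mul, Matrix.mul_add, Matrix.neg_mul, Matrix.smul_mul, Matrix.mul_smul] at hXH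
    calc -(Complex.I • (bᴴ * H)) + Complex.I • (H * b)
        = (aᴴ * H + -(Complex.I • (bᴴ * H)) + (H * a + Complex.I • (H * b))) - (aᴴ * H + H * a) := by abel
      _ = 0 := by rw [hXH, h1, sub_zero]
  have h5 : bᴴ * H = -(H * b) := eq_neg_of_add_eq_zero_left h2
  rw [h5, smul_neg, neg_neg, ← two_smul ℂ, smul_smul] at h3
  have h6 : H * b = 0 := by
    rcases smul_eq_zero.1 h3 with h7 | h7
    · exfalso
      have h8 : (2 : ℂ) * Complex.I ≠ 0 := mul_ne_zero two_ne_zero Complex.I_ne_zero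
      exact h8 h7
    · exact h7
  have h9 : b = 0 := by
    have h10 : H⁻¹ * H = 1 := Matrix.nonsing_inv_mul H (Ne.isUnit hH)
    calc b = (H⁻¹ * H) * b := by rw [h10, Matrix.one_mul]
      _ = H⁻¹ * (H * b) := Matrix.mul_assoc _ _ _
      _ = 0 := by rw [h6, Matrix.mul_zero]
  rw [hab, h9, smul_zero, add_zero]
  exact ha

end WCn
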