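import Pool.Agent.Lib.MP_c2b80f_alC.CartB

/-!
# One-parameter groups in the closure (job CtD)
-/

open Matrix

namespace WCn

variable {m : ℕ}

/-- If `exp (t X)` is in the closure of `Γ` for all real `t`, then every `g` with `g = exp X` is in the closure of every subgroup `N ≤ Γ` of finite index: `t ↦ exp (t X)`, `t ∈ [0, 1]`, is a path in the closure `S` of `Γ`, so `exp X` is in the connected
component of `1` in `S`; the closure of `N` is closed of finite index in `S`, so open and closed in `S` (compare the proof of `near_mem_closure` in `MP_c2b80f_alC/CartB.lean`). -/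
theorem exp_mem_closure (Γ : Subgroup (SLC m)) (X : Matrix (Fin m) (Fin m) ℂ)
    (hX : ∀ t : ℝ, ∃ g ∈ Γ.topologicalClosure, g.1 = NormedSpace.exp ((t : ℂ) • X)) (g : SLC m) (hg : g.1 = NormedSpace.exp X)
    (N : Subgroup (SLC m)) (hN : N ≤ Γ) (hfi : N.relIndex Γ ≠ 0) : g ∈ closure (N : Set (SLC m)) := by
  have hgH : g ∈ Γ.topologicalClosure := by
    obtain ⟨g', h1, h2⟩ := hX 1
    have h3 : g' = g := by
      apply Subtype.ext
      change g'.1 = g.1
      rw [h2, hg, Complex.ofReal_one, one_smul]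
    rwa [h3] at h1
  choose p hp1 hp2 using hX
  let P : ℝ → Γ.topologicalClosure := fun t => ⟨p t, hp1 t⟩
  have hPc : Continuous P := by
    refine Continuous.subtype_mk ?_ _
    have h4 : Continuous fun t : ℝ => NormedSpace.exp ((t : ℂ) • X) := by
      let _ : NormedRing (Matrix (Fin m) (Fin m) ℂ) := Matrix.linftyOpNormedRing
      let _ : NormedAlgebra ℂ (Matrix (Fin m) (Fin m) ℂ) := Matrix.linftyOpNormedAlgebra
      let _ : NormedAlgebra ℚ (Matrix (Fin m) (Fin m) ℂ) := NormedAlgebra.restrictScalars ℚ ℂ _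
      exact NormedSpace.exp_continuous.comp (Complex.continuous_ofReal.smul continuous_const)
    have h5 : (Subtype.val ∘ fun t : ℝ => p t) = fun t : ℝ => NormedSpace.exp ((t : ℂ) • X) := by
      funext t
      exact hp2 t
    refine (Matrix.SpecialLinearGroup.isClosedEmbedding_val (n := Fin m) (R := ℂ)).isEmbedding.isInducing.continuous_iff.2 ?_
    rw [h5]
    exact h4
  have hP0 : P 0 = 1 := by
    apply Subtype.ext
    apply Subtype.ext
    change (p 0).1 = (1 : Matrix (Fin m) (Fin m) ℂ)
    rw [hp2, Complex.ofReal_zero, zero_smul, NormedSpace.exp_zero]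
  have hP1 : P 1 = ⟨g, hgH⟩ := by
    apply Subtype.ext
    apply Subtype.ext
    change (p 1).1 = g.1
    rw [hp2, hg, Complex.ofReal_one, one_smul]
  have h2 : (⟨g, hgH⟩ : Γ.topologicalClosure) ∈ connectedComponent (1 : Γ.topologicalClosure) := by
    have h6 : IsPreconnected (Set.range P) := isPreconnected_range hPc
    exact h6.subset_connectedComponent ⟨0, hP0⟩ ⟨1, hP1⟩
  let S : Subgroup Γ.topologicalClosure := N.topologicalClosure.subgroupOf Γ.topologicalClosure
  have hScl : IsClosed (S : Set Γ.topologicalClosure) :=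
    N.isClosed_topologicalClosure.preimage continuous_subtype_val
  have hfi' : (N.subgroupOf Γ).FiniteIndex := ⟨hfi⟩
  have hfin : Finite (Γ ⧸ N.subgroupOf Γ) := Subgroup.finite_quotient_of_finiteIndex
  have hcov : (Γ.topologicalClosure : Set (SLC m)) ⊆
      ⋃ q : Γ ⧸ N.subgroupOf Γ, {x | ((Quotient.out q : Γ) : SLC m)⁻¹ * x ∈ N.topologicalClosure} := by
    rw [Subgroup.topologicalClosure_coe]
    refine closure_minimal ?_ (isClosed_iUnion_of_finite fun q => ?_)
    · intro γ hγ
      refine Set.mem_iUnion.2 ⟨QuotientGroup.mk (⟨γ, hγ⟩ : Γ), ?_⟩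
      have h3 : (QuotientGroup.mk (Quotient.out (QuotientGroup.mk (⟨γ, hγ⟩ : Γ) : Γ ⧸ N.subgroupOf Γ)) :
          Γ ⧸ N.subgroupOf Γ) = QuotientGroup.mk ⟨γ, hγ⟩ := QuotientGroup.out_eq' _
      rw [QuotientGroup.eq] at h3
      exact N.le_topologicalClosure h3
    · exact N.isClosed_topologicalClosure.preimage (continuous_const.mul continuous_id)
  have hSfin : Finite (Γ.topologicalClosure ⧸ S) := by
    let f : Γ ⧸ N.subgroupOf Γ → Γ.topologicalClosure ⧸ S := fun q =>
      QuotientGroup.mk ⟨((Quotient.out q : Γ) : SLC m), Γ.le_topologicalClosure (Quotient.out q : Γ).2⟩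
    refine Finite.of_surjective f ?_
    intro y
    obtain ⟨x, rfl⟩ := QuotientGroup.mk_surjective y
    obtain ⟨q, hq⟩ := Set.mem_iUnion.1 (hcov x.2)
    refine ⟨q, QuotientGroup.eq.2 ?_⟩
    exact hq
  have hSfi : S.FiniteIndex := Subgroup.finiteIndex_of_finite_quotient
  have hSo : IsOpen (S : Set Γ.topologicalClosure) := S.isOpen_of_isClosed_of_finiteIndex hScl
  have h3 : connectedComponent (1 : Γ.topologicalClosure) ⊆ (S : Set Γ.topologicalClosure) :=
    IsClopen.connectedComponent_subset ⟨hScl, hSo⟩ S.one_mem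
  exact h3 h2

end WCn
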