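import Pool.Agent.Lib.MP_c2b80f_alC.Defs

/-!
# Elements near a regular elliptic element of a unitary group (job CtE)
-/

open Matrix Polynomial

namespace WCn

variable {m : ℕ}

/-- Roots depend continuously on the matrix, the case of different roots. Let `charpoly g₀ = ∏ (X - z j)` with different `z j` and `η > 0`. For `g` close to `g₀` and `charpoly g = ∏ (X - w j)` there is a permutation `π` with `‖w (π j) - z j‖ < η` for all `j`.
Proof. We may take `η` smaller than half of all distances `|z i - z j|`. `∏_i (z j - w i) = charpoly g (z j)` is small if `g` is close to `g₀` (continuity of the coefficients of `charpoly`, or of the determinant `det (z j - g)`), so for every `j` there is `i = π j` with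
`|z j - w i| < η` (otherwise the product is at least `η ^ m`); `π` is injective by the choice of `η`. -/
theorem eig_perturb (g₀ : SLC m) (z : Fin m → ℂ) (hz : g₀.1.charpoly = ∏ j, (X - C (z j))) (hinj : Function.Injective z) (η : ℝ) (hη : 0 < η) :
    ∃ ε : ℝ, 0 < ε ∧ ∀ g : SLC m, (∀ i j, ‖g.1 i j - g₀.1 i j‖ < ε) → ∀ w : Fin m → ℂ, g.1.charpoly = ∏ j, (X - C (w j)) →
      ∃ π : Equiv.Perm (Fin m), ∀ j, ‖w (π j) - z j‖ < η := by
  -- choice of `δ`
  obtain ⟨δ, hδ0, hδη, hδ⟩ : ∃ δ : ℝ, 0 < δ ∧ δ ≤ η ∧ ∀ i j, i ≠ j → 2 * δ < ‖z i - z j‖ := by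
    have h1 : ∀ᶠ δ : ℝ in nhdsWithin 0 (Set.Ioi 0), δ ≤ η := by
      apply mem_nhdsWithin_of_mem_nhds
      have h0 : Set.Iio η ∈ nhds (0 : ℝ) := isOpen_Iio.mem_nhds hη
      refine Filter.mem_of_superset h0 ?_
      intro x hx
      have hx' : x < η := hx
      exact hx'.le
    have h2 : ∀ᶠ δ : ℝ in nhdsWithin 0 (Set.Ioi 0), ∀ i j, i ≠ j → 2 * δ < ‖z i - z j‖ := by
      rw [Filter.eventually_all]
      intro i
      rw [Filter.eventually_all]
      intro j
      by_cases hij : i = j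
      · exact Filter.Eventually.of_forall fun δ h => absurd hij h
      · have hpos : 0 < ‖z i - z j‖ := norm_pos_iff.2 (sub_ne_zero.2 fun h => hij (hinj h))
        apply mem_nhdsWithin_of_mem_nhds
        have h3 : Set.Iio (‖z i - z j‖ / 2) ∈ nhds (0 : ℝ) := isOpen_Iio.mem_nhds (by
          show (0 : ℝ) < ‖z i - z j‖ / 2
          linarith)
        refine Filter.mem_of_superset h3 ?_
        intro x hx _
        have hx' : x < ‖z i - z j‖ / 2 := hx
        linarith
    have h3 : ∀ᶠ δ : ℝ in nhdsWithin 0 (Set.Ioi 0), (0 : ℝ) < δ := self_mem_nhdsWithin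
    obtain ⟨δ, hδ⟩ := (h3.and (h1.and h2)).exists
    exact ⟨δ, hδ.1, hδ.2.1, hδ.2.2⟩
  -- continuity of the determinants
  have hcont : ∀ j : Fin m, ∃ ε : ℝ, 0 < ε ∧ ∀ A : Fin m → Fin m → ℂ, (∀ k l, ‖A k l - g₀.1 k l‖ < ε) →
      ‖(Matrix.scalar (Fin m) (z j) - Matrix.of A).det‖ < δ ^ m := by
    intro j
    have hc : Continuous fun A : Fin m → Fin m → ℂ => (Matrix.scalar (Fin m) (z j) - Matrix.of A).det := by
      apply Continuous.matrix_det
      exact continuous_const.sub continuous_id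
    have h0 : (Matrix.scalar (Fin m) (z j) - Matrix.of (fun k l => g₀.1 k l)).det = 0 := by
      have h1 : (Matrix.scalar (Fin m) (z j) - g₀.1).det = 0 := by
        rw [← Matrix.eval_charpoly, hz, Polynomial.eval_prod]
        exact Finset.prod_eq_zero (Finset.mem_univ j) (by simp)
      exact h1
    have h2 := Metric.continuous_iff.1 hc (fun k l => g₀.1 k l) (δ ^ m) (pow_pos hδ0 m)
    obtain ⟨ε, hε, h⟩ := h2
    refine ⟨ε, hε, fun A hA => ?_⟩
    have h3 := h A (by
      rw [dist_pi_lt_iff hε]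
      intro k
      rw [dist_pi_lt_iff hε]
      intro l
      rw [dist_eq_norm]
      exact hA k l)
    rw [h0, dist_zero_right] at h3
    exact h3
  choose ε hε hdet using hcont
  -- a common `ε`
  obtain ⟨ε', hε', hle⟩ : ∃ ε' : ℝ, 0 < ε' ∧ ∀ j, ε' ≤ ε j := by
    by_cases hm : Nonempty (Fin m)
    · obtain ⟨j, hj⟩ := Finite.exists_min ε
      exact ⟨ε j, hε j, hj⟩
    · rw [not_nonempty_iff] at hm
      exact ⟨1, one_pos, fun j => (hm.false j).elim⟩
  refine ⟨ε', hε', fun g hg w hw => ?_⟩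
  have hex : ∀ j : Fin m, ∃ i : Fin m, ‖w i - z j‖ < δ := by
    intro j
    by_contra hcon
    push Not at hcon
    have h1 : (Matrix.scalar (Fin m) (z j) - g.1).det = ∏ i, (z j - w i) := by
      rw [← Matrix.eval_charpoly, hw, Polynomial.eval_prod]
      simp
    have h2 : ‖(Matrix.scalar (Fin m) (z j) - g.1).det‖ < δ ^ m :=
      hdet j g.1 fun k l => lt_of_lt_of_le (hg k l) (hle j)
    rw [h1, norm_prod] at h2
    have h3 : δ ^ m ≤ ∏ i, ‖z j - w i‖ := by
      calc δ ^ m = ∏ _i : Fin m, δ := by simp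
        _ ≤ ∏ i, ‖z j - w i‖ := Finset.prod_le_prod (fun _ _ => hδ0.le) fun i _ => by
          rw [norm_sub_rev]; exact hcon i
    linarith
  choose π hπ using hex
  have hπi : Function.Injective π := by
    intro i j hij
    by_contra hne
    have h1 := hδ i j hne
    have h2 : ‖z i - z j‖ ≤ ‖w (π i) - z i‖ + ‖w (π j) - z j‖ := by
      calc ‖z i - z j‖ = ‖(w (π j) - z j) - (w (π i) - z i)‖ := by
            rw [hij]
            congr 1
            ring
        _ ≤ ‖w (π j) - z j‖ + ‖w (π i) - z i‖ := norm_sub_le _ _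
        _ = _ := add_comm _ _
    have h3 := hπ i
    have h4 := hπ j
    linarith
  refine ⟨Equiv.ofBijective π (Finite.injective_iff_bijective.1 hπi), fun j => ?_⟩
  exact lt_of_lt_of_le (hπ j) hδη

/-- If `g* H g = ± H`, `det H ≠ 0`, the spectrum of `g` is stable under `z ↦ 1 / conj z` with the sign: if `w` is an eigenvalue of `g` then so is `± (conj w)⁻¹`. (`g = ± H⁻¹ (g*)⁻¹ H`.) -/
theorem eig_herm (g : SLC m) (H : Matrix (Fin m) (Fin m) ℂ) (hH : H.det ≠ 0) (s : ℂ) (hs : s = 1 ∨ s = -1) (hg : g.1ᴴ * H * g.1 = s • H)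
    (w : ℂ) (hw : g.1.charpoly.IsRoot w) : g.1.charpoly.IsRoot (s * (starRingEnd ℂ w)⁻¹) := by
  have hw1 : (Matrix.scalar (Fin m) w - g.1).det = 0 := by
    rw [← Matrix.eval_charpoly]; exact hw
  obtain ⟨v, hv, hgv⟩ := Matrix.exists_mulVec_eq_zero_iff.2 hw1
  have hgv' : g.1 *ᵥ v = w • v := by
    rw [Matrix.sub_mulVec, sub_eq_zero] at hgv
    rw [← hgv]
    simp [Matrix.scalar_apply]
  have hw0 : w ≠ 0 := by
    rintro rfl
    have h1 : g.1.det = 0 := Matrix.exists_mulVec_eq_zero_iff.1 ⟨v, hv, by rw [hgv', zero_smul]⟩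
    rw [g.2] at h1
    exact one_ne_zero h1
  -- `g* (H v) = (s / w) (H v)`
  have h1 : g.1ᴴ *ᵥ (H *ᵥ v) = (s * w⁻¹) • (H *ᵥ v) := by
    have h2 : (g.1ᴴ * H * g.1) *ᵥ v = w • (g.1ᴴ *ᵥ (H *ᵥ v)) := by
      rw [← Matrix.mulVec_mulVec, hgv', Matrix.mulVec_smul, ← Matrix.mulVec_mulVec]
    rw [hg, Matrix.smul_mulVec] at h2
    calc g.1ᴴ *ᵥ (H *ᵥ v) = w⁻¹ • (w • (g.1ᴴ *ᵥ (H *ᵥ v))) := by
          rw [smul_smul, inv_mul_cancel₀ hw0, one_smul]
      _ = (s * w⁻¹) • (H *ᵥ v) := by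
          rw [← h2, smul_smul, mul_comm]
  have hHv : H *ᵥ v ≠ 0 := by
    intro h0
    exact hH (Matrix.exists_mulVec_eq_zero_iff.1 ⟨v, hv, h0⟩)
  have h3 : (Matrix.scalar (Fin m) (s * w⁻¹) - g.1ᴴ).det = 0 := by
    apply Matrix.exists_mulVec_eq_zero_iff.1
    refine ⟨H *ᵥ v, hHv, ?_⟩
    rw [Matrix.sub_mulVec, h1, sub_eq_zero]
    ext i
    simp [Matrix.scalar_apply, Matrix.mulVec_diagonal]
  have h4 : (Matrix.scalar (Fin m) (starRingEnd ℂ (s * w⁻¹)) - g.1).det = 0 := by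
    have h5 : (Matrix.scalar (Fin m) (starRingEnd ℂ (s * w⁻¹)) - g.1) = (Matrix.scalar (Fin m) (s * w⁻¹) - g.1ᴴ)ᴴ := by
      rw [Matrix.conjTranspose_sub, Matrix.conjTranspose_conjTranspose]
      congr 1
      ext i j
      simp only [Matrix.scalar_apply, Matrix.diagonal_apply, Matrix.conjTranspose_apply]
      by_cases hij : i = j
      · simp [hij]
      · simp [hij, Ne.symm hij]
    rw [h5, Matrix.det_conjTranspose, h3, star_zero]
  have hss : starRingEnd ℂ s = s := by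
    rcases hs with rfl | rfl <;> simp
  rw [Polynomial.IsRoot, Matrix.eval_charpoly]
  rw [map_mul, hss, map_inv₀] at h4
  exact h4

end WCn
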