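import Pool.Agent.Lib.MP_c2b80f_alD.CtE
import Pool.Agent.Lib.MP_c2b80f_alC.SpecD

/-!
# Elements near a regular elliptic element are elliptic (job CtF)
-/

open Matrix Polynomial

namespace WCn

variable {m : ℕ}

/-- a separation constant -/
private theorem ctF_sep (z : Fin m → ℂ) (hinj : Function.Injective z) :
    ∃ η : ℝ, 0 < η ∧ η ≤ 1 / 4 ∧ ∀ i j, i ≠ j → 2 * η ≤ ‖z i - z j‖ := by
  have h : ∀ s : Finset (Fin m × Fin m), (∀ q ∈ s, q.1 ≠ q.2) →
      ∃ η : ℝ, 0 < η ∧ η ≤ 1 / 4 ∧ ∀ q ∈ s, 2 * η ≤ ‖z q.1 - z q.2‖ := by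
    intro s
    induction s using Finset.induction_on with
    | empty =>
      intro _
      exact ⟨1 / 4, by norm_num, le_rfl, fun q hq => absurd hq (Finset.notMem_empty q)⟩
    | insert a s ha ih =>
      intro hs
      obtain ⟨η, h1, h2, h3⟩ := ih (fun q hq => hs q (Finset.mem_insert_of_mem hq))
      have hpos : 0 < ‖z a.1 - z a.2‖ := by
        rw [norm_pos_iff, sub_ne_zero]
        exact fun h => hs a (Finset.mem_insert_self a s) (hinj h)
      refine ⟨min η (‖z a.1 - z a.2‖ / 2), lt_min h1 (by linarith), (min_le_left _ _).trans h2, ?_⟩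
      intro q hq
      rcases Finset.mem_insert.mp hq with h4 | h4
      · rw [h4]
        have := min_le_right η (‖z a.1 - z a.2‖ / 2)
        linarith
      · have := min_le_left η (‖z a.1 - z a.2‖ / 2)
        have := h3 q h4
        linarith
  obtain ⟨η, h1, h2, h3⟩ := h (Finset.univ.filter fun q : Fin m × Fin m => q.1 ≠ q.2)
    (fun q hq => (Finset.mem_filter.mp hq).2)
  exact ⟨η, h1, h2, fun i j hij => h3 (i, j) (Finset.mem_filter.mpr ⟨Finset.mem_univ _, hij⟩)⟩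

/-- the sign is one close to `g₀` -/
private theorem ctF_sign (g₀ : SLC m) (H : Matrix (Fin m) (Fin m) ℂ) (hH : H ≠ 0) (hg₀ : g₀.1ᴴ * H * g₀.1 = H) :
    ∃ ε : ℝ, 0 < ε ∧ ∀ g : SLC m, (∀ i j, ‖g.1 i j - g₀.1 i j‖ < ε) → g.1ᴴ * H * g.1 ≠ -H := by
  obtain ⟨a, b, hab⟩ : ∃ a b, H a b ≠ 0 := by
    by_contra hcon
    push Not at hcon
    exact hH (by ext a b; exact hcon a b)
  have hcont : Continuous (fun M : Fin m → Fin m → ℂ => ((Matrix.of M)ᴴ * H * Matrix.of M) a b) := by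
    have h1 : Continuous (fun M : Fin m → Fin m → ℂ => (Matrix.of M : Matrix (Fin m) (Fin m) ℂ)) := continuous_id
    have h2 : Continuous (fun M : Fin m → Fin m → ℂ => (Matrix.of M)ᴴ * H * Matrix.of M) :=
      (h1.matrix_conjTranspose.matrix_mul continuous_const).matrix_mul h1
    exact h2.matrix_elem a b
  have hpos : 0 < ‖H a b‖ := norm_pos_iff.mpr hab
  obtain ⟨ε, hε, h1⟩ := Metric.continuous_iff.mp hcont (fun i j => g₀.1 i j) ‖H a b‖ hpos
  refine ⟨ε, hε, fun g hg hcon => ?_⟩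
  have h2 := h1 (fun i j => g.1 i j) (by
    rw [dist_pi_lt_iff hε]
    intro i
    rw [dist_pi_lt_iff hε]
    intro j
    rw [dist_eq_norm]
    exact hg i j)
  have h3 : ((Matrix.of fun i j => g.1 i j)ᴴ * H * Matrix.of fun i j => g.1 i j) a b = -(H a b) := by
    change (g.1ᴴ * H * g.1) a b = -(H a b)
    rw [hcon, Matrix.neg_apply]
  have h4 : ((Matrix.of fun i j => g₀.1 i j)ᴴ * H * Matrix.of fun i j => g₀.1 i j) a b = H a b := by
    change (g₀.1ᴴ * H * g₀.1) a b = H a b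
    rw [hg₀]
  rw [h3, h4, dist_eq_norm, ← neg_add', norm_neg, ← two_mul, norm_mul, Complex.norm_two] at h2
  linarith

private theorem ctF_inv {w z : ℂ} {η : ℝ} (hη : 0 < η) (hη4 : η ≤ 1 / 4) (hz : ‖z‖ = 1) (hw : ‖w - z‖ < η / 2) :
    ‖1 * (starRingEnd ℂ w)⁻¹ - z‖ < η := by
  have hw1 : 7 / 8 ≤ ‖w‖ := by
    have h1 : ‖z‖ ≤ ‖w‖ + ‖w - z‖ := by
      have := norm_sub_le w (w - z)
      rwa [sub_sub_cancel] at this
    rw [hz] at h1
    linarith
  have hw0 : w ≠ 0 := by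
    intro h
    rw [h, norm_zero] at hw1
    linarith
  have hz0 : z ≠ 0 := by
    intro h
    rw [h, norm_zero] at hz
    norm_num at hz
  have hcw : starRingEnd ℂ w ≠ 0 := fun h => hw0 ((map_eq_zero _).mp h)
  have hzz : z * starRingEnd ℂ z = 1 := by
    rw [Complex.mul_conj, Complex.normSq_eq_norm_sq, hz]
    norm_num
  have h2 : 1 * (starRingEnd ℂ w)⁻¹ - z = (starRingEnd ℂ w)⁻¹ * (z * starRingEnd ℂ (z - w)) := by
    rw [map_sub, mul_sub, hzz, mul_sub, mul_one, one_mul, mul_comm z, ← mul_assoc, inv_mul_cancel₀ hcw, one_mul]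
  rw [h2, norm_mul, norm_mul, norm_inv, RCLike.norm_conj, RCLike.norm_conj, hz, one_mul, norm_sub_rev]
  have hwpos : 0 < ‖w‖ := by linarith
  rw [inv_mul_lt_iff₀ hwpos]
  have : 7 / 8 * η ≤ ‖w‖ * η := mul_le_mul_of_nonneg_right hw1 hη.le
  linarith

/-- Proof. `g₀ = exp X₀` satisfies `g₀* H g₀ = H` (`exp (X₀)* H exp (X₀)`: from `X₀* H = - H X₀`; given here as the hypothesis `hg₀`). Its eigenvalues `z j` are different and have absolute value one. Take `η` smaller than half of all `|z i - z j|` and than `1/4`, and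
`ε` from `eig_perturb` for a small `η' ≤ η / 4`. Let `g` be close to `g₀`, `g* H g = s H`, `s = ± 1`. By continuity `s = 1` if `g` is close enough to `g₀` (`H ≠ 0` if `m ≥ 1`; compare a nonzero entry of `H`; `m = 0` is trivial). Let `w` be an eigenvalue of `g`, close to `z j`. Then `(conj w)⁻¹` is an
eigenvalue of `g` (`eig_herm`) and close to `(conj z j)⁻¹ = z j`; only one of the eigenvalues (with multiplicity) is within `η` of `z j`, so `(conj w)⁻¹ = w` and `|w| = 1`. -/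
theorem eig_norm_one (g₀ : SLC m) (H : Matrix (Fin m) (Fin m) ℂ) (hH : H.det ≠ 0) (hg₀ : g₀.1ᴴ * H * g₀.1 = H) (z : Fin m → ℂ)
    (hz : g₀.1.charpoly = ∏ j, (X - C (z j))) (hinj : Function.Injective z) (hz1 : ∀ j, ‖z j‖ = 1) :
    ∃ ε : ℝ, 0 < ε ∧ ∀ g : SLC m, (∀ i j, ‖g.1 i j - g₀.1 i j‖ < ε) → (g.1ᴴ * H * g.1 = H ∨ g.1ᴴ * H * g.1 = -H) →
      ∀ (p : GL (Fin m) ℂ) (t : Fin m → ℂˣ), DiagBy g p t → ∀ j, ‖(t j : ℂ)‖ = 1 := by
  rcases Nat.eq_zero_or_pos m with hm | hm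
  · subst hm
    exact ⟨1, one_pos, fun g _ _ p t _ j => j.elim0⟩
  have hH0 : H ≠ 0 := by
    intro h
    apply hH
    have : Nonempty (Fin m) := ⟨⟨0, hm⟩⟩
    rw [h, Matrix.det_zero]
  obtain ⟨η, hη, hη4, hsep⟩ := ctF_sep z hinj
  obtain ⟨ε₁, hε₁, h1⟩ := ctF_sign g₀ H hH0 hg₀
  obtain ⟨ε₂, hε₂, h2⟩ := eig_perturb g₀ z hz hinj (η / 2) (by linarith)
  refine ⟨min ε₁ ε₂, lt_min hε₁ hε₂, fun g hg hgH p t hd j => ?_⟩
  have hgH' : g.1ᴴ * H * g.1 = (1 : ℂ) • H := by
    rw [one_smul]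
    rcases hgH with h3 | h3
    · exact h3
    · exact absurd h3 (h1 g fun a b => (hg a b).trans_le (min_le_left _ _))
  have hcp := diagBy_charpoly hd
  obtain ⟨π, hπ⟩ := h2 g (fun a b => (hg a b).trans_le (min_le_right _ _)) (fun i => (t i : ℂ)) hcp
  have hroot : g.1.charpoly.IsRoot (t j : ℂ) := by
    rw [hcp, Polynomial.IsRoot.def, Polynomial.eval_prod]
    apply Finset.prod_eq_zero (Finset.mem_univ j)
    rw [Polynomial.eval_sub, Polynomial.eval_X, Polynomial.eval_C, sub_self]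
  have hroot' := eig_herm g H hH 1 (Or.inl rfl) hgH' _ hroot
  rw [hcp, Polynomial.IsRoot.def, Polynomial.eval_prod, Finset.prod_eq_zero_iff] at hroot'
  obtain ⟨k, -, hk⟩ := hroot'
  rw [Polynomial.eval_sub, Polynomial.eval_X, Polynomial.eval_C, sub_eq_zero] at hk
  have h3 := hπ (π.symm j)
  rw [Equiv.apply_symm_apply] at h3
  have h4 := hπ (π.symm k)
  rw [Equiv.apply_symm_apply, ← hk] at h4
  have h5 := ctF_inv hη hη4 (hz1 (π.symm j)) h3
  have h6 : ‖z (π.symm j) - z (π.symm k)‖ < 2 * η := by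
    have h7 : z (π.symm j) - z (π.symm k) =
        (1 * (starRingEnd ℂ (t j : ℂ))⁻¹ - z (π.symm k)) - (1 * (starRingEnd ℂ (t j : ℂ))⁻¹ - z (π.symm j)) := by ring
    rw [h7]
    refine (norm_sub_le _ _).trans_lt ?_
    linarith
  have h8 : π.symm j = π.symm k := by
    by_contra hne
    exact absurd (hsep _ _ hne) (not_le.mpr h6)
  have h9 : j = k := π.symm.injective h8
  rw [← h9, one_mul] at hk
  have h10 : (t j : ℂ) ≠ 0 := (t j).ne_zero
  have h11 : (t j : ℂ) * starRingEnd ℂ (t j : ℂ) = 1 := by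
    have hc : starRingEnd ℂ (t j : ℂ) ≠ 0 := fun h => h10 ((map_eq_zero _).mp h)
    nth_rewrite 1 [← hk]
    exact inv_mul_cancel₀ hc
  rw [Complex.mul_conj, Complex.normSq_eq_norm_sq] at h11
  have h12 : ‖(t j : ℂ)‖ ^ 2 = 1 := by exact_mod_cast h11
  have h13 : 0 ≤ ‖(t j : ℂ)‖ := norm_nonneg _
  nlinarith [h12, h13]

/-- A semisimple element of infinite order whose eigenvalues have absolute value one is not in a discrete group: its powers are bounded (`diagBy_size_pow`), so they have a convergent subsequence in `SL_m(ℂ)`, and the quotients `h ^ (k' - k) ≠ 1` of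
different powers come arbitrarily close to `1`. -/
theorem not_discrete_of_norm_one (Γ : Subgroup (SLC m)) (hd : DiscreteTopology Γ) (h : SLC m) (hh : h ∈ Γ) (p : GL (Fin m) ℂ) (t : Fin m → ℂˣ)
    (hdi : DiagBy h p t) (ht : ∀ j, ‖(t j : ℂ)‖ = 1) : IsOfFinOrder h := by
  rcases Nat.eq_zero_or_pos m with hm | hm
  · subst hm
    have h1 : h = 1 := by
      apply Subtype.ext
      ext i j
      exact i.elim0
    rw [h1]
    exact IsOfFinOrder.one
  obtain ⟨c, hc, hck⟩ := diagBy_size_pow hm hdi 1 (fun j => (ht j).le)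
  by_contra hinf
  have hinj := injective_pow_iff_not_isOfFinOrder.mpr hinf
  -- the compact set
  have hK : IsCompact {M : Fin m → Fin m → ℂ | ∀ i j, ‖M i j‖ ≤ c} := by
    have h1 : {M : Fin m → Fin m → ℂ | ∀ i j, ‖M i j‖ ≤ c} =
        Set.pi Set.univ (fun _ : Fin m => Set.pi Set.univ (fun _ : Fin m => Metric.closedBall (0 : ℂ) c)) := by
      ext M
      simp only [Set.mem_ofPred_eq, Set.mem_pi, Set.mem_univ, true_implies, mem_closedBall_zero_iff]
    rw [h1]
    exact isCompact_univ_pi fun _ => isCompact_univ_pi fun _ => isCompact_closedBall _ _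
  have hK2 : IsCompact ((fun g : SLC m => (g.1 : Matrix (Fin m) (Fin m) ℂ)) ⁻¹' {M : Fin m → Fin m → ℂ | ∀ i j, ‖M i j‖ ≤ c}) :=
    Matrix.SpecialLinearGroup.isClosedEmbedding_val.isCompact_preimage hK
  have hcl : IsClosed (Γ : Set (SLC m)) := Subgroup.isClosed_of_discrete
  have hdis : IsDiscrete (Γ : Set (SLC m)) := isDiscrete_iff_discreteTopology.mpr hd
  have hfin := (hK2.inter_right hcl).finite (hdis.mono Set.inter_subset_right)
  have hmem : ∀ k : ℕ, h ^ k ∈ ((fun g : SLC m => (g.1 : Matrix (Fin m) (Fin m) ℂ)) ⁻¹'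
      {M : Fin m → Fin m → ℂ | ∀ i j, ‖M i j‖ ≤ c}) ∩ (Γ : Set (SLC m)) := by
    intro k
    refine ⟨fun i j => ?_, Γ.pow_mem hh k⟩
    have h1 := hck k
    rw [one_pow, mul_one] at h1
    refine le_trans ?_ h1
    unfold size
    calc ‖(h ^ k).1 i j‖ ≤ ∑ b, ‖(h ^ k).1 i b‖ :=
          Finset.single_le_sum (f := fun b => ‖(h ^ k).1 i b‖) (fun _ _ => norm_nonneg _) (Finset.mem_univ j)
      _ ≤ ∑ a, ∑ b, ‖(h ^ k).1 a b‖ :=
          Finset.single_le_sum (f := fun a => ∑ b, ‖(h ^ k).1 a b‖)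
            (fun _ _ => Finset.sum_nonneg fun _ _ => norm_nonneg _) (Finset.mem_univ i)
  exact Set.infinite_of_injective_forall_mem hinj hmem hfin

end WCn
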