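import Pool.Agent.Lib.MP_c2b80f_alC.Defs

/-!
# Small multiples of a regular elliptic element (job CtX)
-/

open Matrix Polynomial

namespace WCn

variable {m : ℕ}

/-- `X₀` has different purely imaginary eigenvalues `i θ j`. For small `t ≠ 0` the matrix `exp (t X₀)` has the different eigenvalues `exp (i t θ j)` of absolute value one: `X₀` is diagonalisable (different eigenvalues), `X₀ = p D p⁻¹`, `exp (t X₀) = p exp (t D) p⁻¹`
(`Matrix.exp_conj`, `Matrix.exp_diagonal`). Take `t` with `t |θ i - θ j| < 2 π` for all `i`, `j`. -/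
theorem exists_regular_exp (X₀ : Matrix (Fin m) (Fin m) ℂ) (θ : Fin m → ℝ) (hθ : Function.Injective θ)
    (hX₀ : X₀.charpoly = ∏ j, (X - C (Complex.I * (θ j : ℂ)))) :
    ∃ (t : ℝ) (z : Fin m → ℂ), (NormedSpace.exp ((t : ℂ) • X₀)).charpoly = ∏ j, (X - C (z j)) ∧ Function.Injective z ∧ ∀ j, ‖z j‖ = 1 := by
  classical
  -- eigenvectors
  have hev : ∀ j, ∃ v : Fin m → ℂ, v ≠ 0 ∧ X₀ *ᵥ v = (Complex.I * (θ j : ℂ)) • v := by
    intro j
    have h1 : (Matrix.scalar (Fin m) (Complex.I * (θ j : ℂ)) - X₀).det = 0 := by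
      rw [← Matrix.eval_charpoly, hX₀, Polynomial.eval_prod]
      refine Finset.prod_eq_zero (Finset.mem_univ j) ?_
      rw [Polynomial.eval_sub, Polynomial.eval_X, Polynomial.eval_C, sub_self]
    obtain ⟨v, hv, hv2⟩ := Matrix.exists_mulVec_eq_zero_iff.2 h1
    refine ⟨v, hv, ?_⟩
    rw [Matrix.sub_mulVec, sub_eq_zero, Matrix.scalar_apply, ← Matrix.smul_one_eq_diagonal, Matrix.smul_mulVec,
      Matrix.one_mulVec] at hv2
    exact hv2.symm
  choose v hv0 hv using hev
  have hinj : Function.Injective (fun j => Complex.I * (θ j : ℂ)) := by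
    intro i j hij
    have h1 : (θ i : ℂ) = (θ j : ℂ) := mul_left_cancel₀ Complex.I_ne_zero hij
    exact hθ (Complex.ofReal_injective h1)
  have hli : LinearIndependent ℂ v := by
    refine Module.End.eigenvectors_linearIndependent' (Matrix.toLin' X₀) _ hinj v fun j => ?_
    refine ⟨Module.End.mem_eigenspace_iff.2 ?_, hv0 j⟩
    rw [Matrix.toLin'_apply]
    exact hv j
  have hP : IsUnit (Matrix.of fun i j => v j i) := by
    rw [← Matrix.linearIndependent_cols_iff_isUnit]
    exact hli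
  obtain ⟨P, hP⟩ := hP
  have hXP : X₀ * P.1 = P.1 * Matrix.diagonal (fun j => Complex.I * (θ j : ℂ)) := by
    rw [hP]
    ext i j
    rw [Matrix.mul_diagonal]
    have h1 := congrFun (hv j) i
    rw [Pi.smul_apply, smul_eq_mul] at h1
    show ∑ k, X₀ i k * v j k = v j i * (Complex.I * (θ j : ℂ))
    rw [mul_comm (v j i), ← h1]
    rfl
  have hX : X₀ = P.1 * Matrix.diagonal (fun j => Complex.I * (θ j : ℂ)) * (P⁻¹).1 := by
    rw [← hXP, Matrix.mul_assoc, ← Units.val_mul, mul_inv_cancel, Units.val_one, Matrix.mul_one]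
  -- the time
  have hS0 : 0 ≤ ∑ j, |θ j| := Finset.sum_nonneg fun j _ => abs_nonneg _
  obtain ⟨t, ht⟩ : ∃ t : ℝ, t = 1 / (1 + ∑ j, |θ j|) := ⟨_, rfl⟩
  have ht0 : 0 < t := by
    rw [ht]
    positivity
  have htθ : ∀ j, |t * θ j| ≤ 1 := by
    intro j
    rw [abs_mul, abs_of_pos ht0, ht, one_div, inv_mul_le_iff₀ (by positivity), mul_one]
    have h1 : |θ j| ≤ ∑ j, |θ j| := Finset.single_le_sum (f := fun j => |θ j|) (fun j _ => abs_nonneg _) (Finset.mem_univ j)
    linarith
  refine ⟨t, fun j => Complex.exp (((t * θ j : ℝ) : ℂ) * Complex.I), ?_, ?_, ?_⟩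
  · have h1 : ((t : ℂ) • X₀) = P.1 * Matrix.diagonal (fun j => ((t * θ j : ℝ) : ℂ) * Complex.I) * (P⁻¹).1 := by
      have h2 : Matrix.diagonal (fun j => ((t * θ j : ℝ) : ℂ) * Complex.I) =
          (t : ℂ) • Matrix.diagonal (fun j => Complex.I * (θ j : ℂ)) := by
        rw [← Matrix.diagonal_smul]
        congr 1
        funext j
        simp only [Pi.smul_apply, smul_eq_mul, Complex.ofReal_mul]
        ring
      rw [h2, Matrix.mul_smul, Matrix.smul_mul, ← hX]
    rw [h1, Matrix.exp_units_conj, Matrix.coe_units_inv, Matrix.charpoly_units_conj, Matrix.exp_diagonal, Matrix.charpoly_diagonal]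
    refine Finset.prod_congr rfl fun j _ => ?_
    rw [Pi.coe_exp, ← Complex.exp_eq_exp_ℂ]
  · intro i j hij
    obtain ⟨n, hn⟩ := Complex.exp_eq_exp_iff_exists_int.1 hij
    have h1 : t * θ i = t * θ j + n * (2 * Real.pi) := by
      have h2 := congrArg Complex.im hn
      simpa using h2
    have hn0 : n = 0 := by
      by_contra hne
      have h2 : (1 : ℝ) ≤ |(n : ℝ)| := by
        rw [← Int.cast_abs]
        exact_mod_cast Int.one_le_abs hne
      have h3 : |(n : ℝ) * (2 * Real.pi)| ≤ 2 := by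
        have h4 : (n : ℝ) * (2 * Real.pi) = t * θ i - t * θ j := by linarith
        rw [h4]
        have h5 := abs_sub (t * θ i) (t * θ j)
        have h6 := htθ i
        have h7 := htθ j
        linarith
      rw [abs_mul, abs_of_pos (by positivity : (0 : ℝ) < 2 * Real.pi)] at h3
      have h8 := Real.pi_gt_three
      nlinarith
    rw [hn0, Int.cast_zero, zero_mul, add_zero] at h1
    exact hθ (mul_left_cancel₀ ht0.ne' h1)
  · intro j
    exact Complex.norm_exp_ofReal_mul_I _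

/-- `exp (X)* H exp (X) = H` if `X* H + H X = 0`. (`X* H = - H X` gives `exp (X*) H = H exp (- X)`: conjugate by `H` when `H` is invertible.) -/
theorem exp_herm (X : Matrix (Fin m) (Fin m) ℂ) (H : Matrix (Fin m) (Fin m) ℂ) (hH : H.det ≠ 0) (hX : Xᴴ * H + H * X = 0) :
    (NormedSpace.exp X)ᴴ * H * NormedSpace.exp X = H := by
  have hu : IsUnit H := (Matrix.isUnit_iff_isUnit_det H).2 (isUnit_iff_ne_zero.2 hH)
  have hHH : H * H⁻¹ = 1 := Matrix.mul_nonsing_inv H (isUnit_iff_ne_zero.2 hH)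
  have hHH' : H⁻¹ * H = 1 := Matrix.nonsing_inv_mul H (isUnit_iff_ne_zero.2 hH)
  have h1 : Xᴴ = H * (-X) * H⁻¹ := by
    have h2 : Xᴴ * H = -(H * X) := eq_neg_of_add_eq_zero_left hX
    calc Xᴴ = Xᴴ * (H * H⁻¹) := by rw [hHH, Matrix.mul_one]
      _ = (Xᴴ * H) * H⁻¹ := (Matrix.mul_assoc _ _ _).symm
      _ = H * (-X) * H⁻¹ := by rw [h2, Matrix.mul_neg]
  rw [← Matrix.exp_conjTranspose, h1, Matrix.exp_conj _ _ hu]
  calc H * NormedSpace.exp (-X) * H⁻¹ * H * NormedSpace.exp X
      = H * NormedSpace.exp (-X) * (H⁻¹ * H) * NormedSpace.exp X := by simp only [Matrix.mul_assoc]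
    _ = H * (NormedSpace.exp (-X) * NormedSpace.exp X) := by rw [hHH', Matrix.mul_one, Matrix.mul_assoc]
    _ = H := by
      rw [← Matrix.exp_add_of_commute (-X) X (Commute.neg_left (Commute.refl X)), neg_add_cancel,
        NormedSpace.exp_zero, Matrix.mul_one]

end WCn
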