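import Pool.Agent.Lib.MP_c2b80f_alD.GDefs
import Pool.Agent.Lib.MP_c2b80f_alC.CartB
import Pool.Agent.Lib.MP_c2b80f_alC.CartN

/-!
# Existence of generic elements (job ExG)
-/

open Matrix Polynomial

namespace WCn

variable {m : ℕ}

/-- `HasGen` for `T = Γ` with the indiscrete topology and `U = univ` (`closure N = univ`; `Cls.pw`). Compare `exists_generic` in `MP_c2b80f_alC/GenB.lean`. -/
theorem exists_genG {r : ℕ} {G : Subgroup (SLC m)} {𝔤 : Submodule ℂ (Matrix (Fin m) (Fin m) ℂ)} (hG : Cls r G 𝔤)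
    (Γ : Subgroup (SLC m)) (hz : ZDenseIn G Γ) (A₀ : Finset ℂ) (hA : ∀ g ∈ Γ, ∀ i j, g.1 i j ∈ Subring.closure (A₀ : Set ℂ)) :
    ∃ γ ∈ Γ, GenEl r (Subring.closure (A₀ : Set ℂ)) γ := by
  have htop : @IsTopologicalGroup Γ ⊤ _ := by
    let _ : TopologicalSpace Γ := ⊤
    exact { continuous_mul := continuous_top, continuous_inv := continuous_top }
  have hcl : ∀ (γ₀ : Γ) (N : Subgroup Γ), γ₀ ∈ @closure Γ ⊤ (N : Set Γ) := fun γ₀ N => by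
    let _ : TopologicalSpace Γ := ⊤
    rw [mem_closure_iff_nhds]
    intro t ht
    rw [nhds_top, Filter.mem_top] at ht
    exact ⟨1, by rw [ht]; exact Set.mem_univ _, N.one_mem⟩
  have hgen := hG.gen
  unfold HasGen at hgen
  obtain ⟨γ, -, hγ⟩ := @hgen Γ _ ⊤ htop Γ.subtype Γ.subtype_injective
    (by rw [Subgroup.range_subtype]; exact hz) A₀ (fun g i j => hA g.1 g.2 i j)
    (fun s hs => by
      obtain ⟨g, hg, hgs⟩ := hG.pw Γ hz s hs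
      refine ⟨⟨g, hg⟩, fun h => hgs ?_, fun N _ => hcl _ N⟩
      exact congrArg Subtype.val h) Set.univ (@isOpen_univ Γ ⊤)
    (fun N _ => ⟨1, Set.mem_univ _, N.one_mem⟩)
  exact ⟨γ.1, γ.2, hγ⟩

/-- `HasGen` for `T = Γ` with the induced topology. For `h0`: given `s`, let `ε` be the minimum of the numbers of `near_mem_closure` and `near_pow_ne_one s`, and `γ₀ ∈ Γ`, `γ₀ ≠ 1`, `Near ε γ₀`
(`exists_near_of_not_discrete`). Compare `exists_generic_near` in `MP_c2b80f_alC/GenC.lean`. `V` is an open subset of `SL_m(ℂ)` which meets all subgroups of finite index of `Γ`. -/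
theorem exists_genG_open {r : ℕ} {G : Subgroup (SLC m)} {𝔤 : Submodule ℂ (Matrix (Fin m) (Fin m) ℂ)} (hG : Cls r G 𝔤)
    (Γ : Subgroup (SLC m)) (hz : ZDenseIn G Γ) (hnd : ¬ DiscreteTopology Γ) (A₀ : Finset ℂ)
    (hA : ∀ g ∈ Γ, ∀ i j, g.1 i j ∈ Subring.closure (A₀ : Set ℂ)) (V : Set (SLC m)) (hV : IsOpen V)
    (hN : ∀ N : Subgroup (SLC m), N ≤ Γ → N.relIndex Γ ≠ 0 → ∃ δ ∈ V, δ ∈ N) :
    ∃ γ ∈ Γ, γ ∈ V ∧ GenEl r (Subring.closure (A₀ : Set ℂ)) γ := by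
  classical
  have hU : IsOpen {g : Γ | (g : SLC m) ∈ V} := hV.preimage continuous_subtype_val
  have hmap : ∀ N : Subgroup Γ, N.FiniteIndex → N.map Γ.subtype ≤ Γ ∧ (N.map Γ.subtype).relIndex Γ ≠ 0 := by
    intro N hN'
    refine ⟨Subgroup.map_subtype_le N, ?_⟩
    have h3 : (N.map Γ.subtype).subgroupOf Γ = N :=
      Subgroup.comap_map_eq_self_of_injective Γ.subtype_injective N
    rw [Subgroup.relIndex, h3]
    exact hN'.index_ne_zero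
  have h0 : ∀ s : ℕ, 0 < s → ∃ γ₀ : Γ, γ₀ ^ s ≠ 1 ∧ ∀ N : Subgroup Γ, N.FiniteIndex → γ₀ ∈ closure (N : Set Γ) := by
    intro s hs
    obtain ⟨ε₁, hε₁, h1⟩ := near_mem_closure Γ
    obtain ⟨ε₂, hε₂, h2⟩ := near_pow_ne_one (m := m) s hs
    obtain ⟨γ₀, hγ₀, hne, hnear⟩ := exists_near_of_not_discrete Γ hnd (min ε₁ ε₂) (lt_min hε₁ hε₂)
    have hn1 : Near ε₁ γ₀ := fun i j => lt_of_lt_of_le (hnear i j) (min_le_left _ _)
    have hn2 : Near ε₂ γ₀ := fun i j => lt_of_lt_of_le (hnear i j) (min_le_right _ _)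
    refine ⟨⟨γ₀, hγ₀⟩, ?_, ?_⟩
    · intro h
      exact h2 γ₀ hn2 hne (congrArg Subtype.val h)
    · intro N hN'
      have h4 := h1 γ₀ hγ₀ hn1 (N.map Γ.subtype) (hmap N hN').1 (hmap N hN').2
      rw [closure_subtype]
      exact h4
  obtain ⟨γ, hγU, hγ⟩ := hG.gen Γ Γ.subtype Γ.subtype_injective
    (by rw [Subgroup.range_subtype]; exact hz) A₀ (fun g i j => hA g.1 g.2 i j) h0 _ hU
    (fun N hN' => by
      obtain ⟨δ, hδV, hδN⟩ := hN (N.map Γ.subtype) (hmap N hN').1 (hmap N hN').2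
      obtain ⟨x, hx, rfl⟩ := Subgroup.mem_map.1 hδN
      exact ⟨x, hδV, hx⟩)
  exact ⟨γ.1, γ.2, hγU, hγ⟩

/-- The special case `V = {g | Near ε g}` (it contains an open neighbourhood of `1`, `mem_nhds_one_iff`). -/
theorem exists_genG_near {r : ℕ} {G : Subgroup (SLC m)} {𝔤 : Submodule ℂ (Matrix (Fin m) (Fin m) ℂ)} (hG : Cls r G 𝔤)
    (Γ : Subgroup (SLC m)) (hz : ZDenseIn G Γ) (hnd : ¬ DiscreteTopology Γ) (A₀ : Finset ℂ)
    (hA : ∀ g ∈ Γ, ∀ i j, g.1 i j ∈ Subring.closure (A₀ : Set ℂ)) (ε : ℝ) (hε : 0 < ε) :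
    ∃ γ ∈ Γ, Near ε γ ∧ GenEl r (Subring.closure (A₀ : Set ℂ)) γ := by
  have h1 : {g : SLC m | Near ε g} ∈ nhds (1 : SLC m) :=
    (mem_nhds_one_iff _).mpr ⟨ε, hε, fun g hg => hg⟩
  obtain ⟨W, hW, hWo, hW1⟩ := mem_nhds_iff.1 h1
  obtain ⟨γ, hγ, hγW, hgen⟩ := exists_genG_open hG Γ hz hnd A₀ hA W hWo
    (fun N _ _ => ⟨1, hW1, N.one_mem⟩)
  exact ⟨γ, hγ, hW hγW, hgen⟩

end WCn
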