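import Pool.Agent.Lib.MP_c2b80f_alD.RankEq
import Pool.Agent.Lib.MP_c2b80f_alD.CtA
import Pool.Agent.Lib.MP_c2b80f_alD.CtB
import Pool.Agent.Lib.MP_c2b80f_alD.CtC
import Pool.Agent.Lib.MP_c2b80f_alD.CtD
import Pool.Agent.Lib.MP_c2b80f_alD.CtF
import Pool.Agent.Lib.MP_c2b80f_alD.CtX
import Pool.Agent.Lib.MP_c2b80f_alC.TransB

/-!
# Main theorem, groups with compact tori (job MainC)
-/

open Matrix Polynomial

namespace WCn

variable {n m : ℕ}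

/-- Proof. Suppose `Γ₂` is not discrete. Let `A₀` be a finite set such that the entries of `Γ₁` and `Γ₂` are in `Subring.closure A₀` (`exists_entries` twice). `r₁ ≤ r₂` by `rank_le`. Let `V` be the tangent space (`exists_tangent`); by `tangent_conj`,
`tangent_ne_bot`, `tangent_le`, `tangent_herm`, `mem_tangent` it contains `X₀`. Take `t`, `z` from `exists_regular_exp`, and `g₀ = exp (t X₀)`, an element of the closure of `Γ₂`; `exp_mem_closure` (for `X = t X₀`) shows that `g₀` is in the closure of every subgroup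
of finite index. Take `ε` from `eig_norm_one` (`exp_herm`); the set `V' = {g | all |g i j - g₀ i j| < ε}` is open and contains `g₀`, so `exists_genG_open` gives a generic `γ ∈ Γ₂ ∩ V'`; its eigenvalues `y j` have absolute value one. Let
`h ∈ Γ₁` be weakly commensurable to it, with eigenvalues `x i`. By `pairG` and `compat_log` for the usual absolute value (`absOn_norm ⊤`, `K = ⊤`) `∑ (log ‖x i‖)² = β ∑ (log ‖y j‖)² = 0`, so `‖x i‖ = 1`. By `not_discrete_of_norm_one` `h` has finite order: contradiction. -/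
theorem main_cpt {r₁ r₂ : ℕ} (G₁ : Subgroup (SLC n)) (G₂ : Subgroup (SLC m)) {𝔤₁ : Submodule ℂ (Matrix (Fin n) (Fin n) ℂ)}
    {𝔤₂ : Submodule ℂ (Matrix (Fin m) (Fin m) ℂ)} (hG₁ : Cls r₁ G₁ 𝔤₁) (hG₂ : Cls r₂ G₂ 𝔤₂)
    (Γ₁ : Subgroup (SLC n)) (Γ₂ : Subgroup (SLC m))
    (h₁ : Γ₁.FG) (hd : DiscreteTopology Γ₁) (hz₁ : ZDenseIn G₁ Γ₁) (h₂ : Γ₂.FG) (hz₂ : ZDenseIn G₂ Γ₂)
    (H : Matrix (Fin m) (Fin m) ℂ) (hH : H.det ≠ 0) (hΓ₂ : ∀ g ∈ Γ₂, g.1ᴴ * H * g.1 = H ∨ g.1ᴴ * H * g.1 = -H)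
    (X₀ : Matrix (Fin m) (Fin m) ℂ) (hX₀ : X₀ ∈ 𝔤₂) (hX₀H : X₀ᴴ * H + H * X₀ = 0) (θ : Fin m → ℝ) (hθ : Function.Injective θ)
    (hX₀θ : X₀.charpoly = ∏ j, (X - C (Complex.I * (θ j : ℂ))))
    (hwc₁ : ∀ g ∈ Γ₁, IsSs g → ¬ IsOfFinOrder g → ∃ h ∈ Γ₂, IsSs h ∧ ¬ IsOfFinOrder h ∧ WComm g h)
    (hwc₂ : ∀ g ∈ Γ₂, IsSs g → ¬ IsOfFinOrder g → ∃ h ∈ Γ₁, IsSs h ∧ ¬ IsOfFinOrder h ∧ WComm g h) :
    DiscreteTopology Γ₂ := by
  classical
  by_contra hnd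
  obtain ⟨A₁, hA₁⟩ := exists_entries Γ₁ h₁
  obtain ⟨A₂, hA₂⟩ := exists_entries Γ₂ h₂
  have he1 : ∀ g ∈ Γ₁, ∀ i j, g.1 i j ∈ Subring.closure ((A₁ ∪ A₂ : Finset ℂ) : Set ℂ) := by
    intro g hg i j
    refine Subring.closure_mono ?_ (hA₁ g hg i j)
    intro w hw
    exact Finset.mem_coe.2 (Finset.mem_union_left _ (Finset.mem_coe.1 hw))
  have he2 : ∀ g ∈ Γ₂, ∀ i j, g.1 i j ∈ Subring.closure ((A₁ ∪ A₂ : Finset ℂ) : Set ℂ) := by
    intro g hg i j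
    refine Subring.closure_mono ?_ (hA₂ g hg i j)
    intro w hw
    exact Finset.mem_coe.2 (Finset.mem_union_right _ (Finset.mem_coe.1 hw))
  -- the ranks
  have hr : r₁ ≤ r₂ := rank_le hG₁ G₂ hG₂.rank Γ₁ hz₁ Γ₂ hz₂.1 (A₁ ∪ A₂) he1 he2 hwc₁
  -- the tangent space
  obtain ⟨V, hV, hV2⟩ := exists_tangent Γ₂
  have hconj := tangent_conj Γ₂ V hV
  have hne := tangent_ne_bot Γ₂ V hV2 hnd
  have hle := tangent_le hG₂ Γ₂ hz₂.1 V hV
  have hherm := tangent_herm Γ₂ V hV H hH hΓ₂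
  have hX₀V : X₀ ∈ V := mem_tangent hG₂.irr hz₂ V hne hle (fun g hg X hX => hconj g hg X hX) H hH hherm X₀ hX₀ hX₀H
  obtain ⟨t, z, hchar, hinj, hz1⟩ := exists_regular_exp X₀ θ hθ hX₀θ
  obtain ⟨g₀, hg₀, hg₀e⟩ := (hV X₀).1 hX₀V t
  have htX : ((t : ℂ) • X₀)ᴴ * H + H * ((t : ℂ) • X₀) = 0 := by
    rw [Matrix.conjTranspose_smul, Complex.star_def, Complex.conj_ofReal, Matrix.smul_mul, Matrix.mul_smul,
      ← smul_add, hX₀H, smul_zero]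
  have hg₀H : g₀.1ᴴ * H * g₀.1 = H := by
    rw [hg₀e]
    exact exp_herm ((t : ℂ) • X₀) H hH htX
  obtain ⟨ε, hε, hnorm⟩ := eig_norm_one g₀ H hH hg₀H z (by rw [hg₀e]; exact hchar) hinj hz1
  -- the neighbourhood
  have hopen : IsOpen {g : SLC m | ∀ i j, ‖g.1 i j - g₀.1 i j‖ < ε} := by
    simp only [Set.ofPred_forall]
    refine isOpen_iInter_of_finite fun i => isOpen_iInter_of_finite fun j => ?_
    have hc : Continuous fun g : SLC m => ‖g.1 i j - g₀.1 i j‖ :=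
      ((continuous_subtype_val.matrix_elem i j).sub continuous_const).norm
    exact isOpen_lt hc continuous_const
  have hexp : ∀ s : ℝ, ∃ g ∈ Γ₂.topologicalClosure, g.1 = NormedSpace.exp ((s : ℂ) • ((t : ℂ) • X₀)) := by
    intro s
    obtain ⟨g, hg, hge⟩ := (hV X₀).1 hX₀V (s * t)
    refine ⟨g, hg, ?_⟩
    rw [hge, smul_smul, Complex.ofReal_mul]
  obtain ⟨γ, hγ, hγV, hgen⟩ := exists_genG_open hG₂ Γ₂ hz₂ hnd (A₁ ∪ A₂) he2
    {g : SLC m | ∀ i j, ‖g.1 i j - g₀.1 i j‖ < ε} hopen (fun N hN hfi => by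
      have hcl := exp_mem_closure Γ₂ ((t : ℂ) • X₀) hexp g₀ hg₀e N hN hfi
      rw [mem_closure_iff] at hcl
      obtain ⟨δ, hδ1, hδ2⟩ := hcl _ hopen (by
        intro i j
        rw [sub_self, norm_zero]
        exact hε)
      exact ⟨δ, hδ1, hδ2⟩)
  obtain ⟨h, hh, _, hinf, hw⟩ := hwc₂ γ hγ hgen.1 hgen.2.1
  obtain ⟨p, y, q, x, a, b, hd1, hd2, hab, hne1⟩ := hw
  have hy1 : ∀ j, ‖(y j : ℂ)‖ = 1 := hnorm γ hγV (hΓ₂ γ hγ) p y hd1
  obtain ⟨β, hβ, hid⟩ := (pairG hG₂.pos (Subring.closure ((A₁ ∪ A₂ : Finset ℂ) : Set ℂ)) γ hgen h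
    (hG₁.rank h (hz₁.1 hh)) (fun i => charpoly_coeff_mem _ h.1 (he1 h hh) i) q x p y hd2 hd1 b a hab.symm
    (fun h1 => hne1 (hab.trans h1))).2 hr
  have hcomp := compat_log (absOn_norm ⊤) x y (fun i => Subfield.mem_top _) (fun j => Subfield.mem_top _)
  have hsum := hid _ _ hcomp
  have hzero : ∑ i, Real.log ‖(x i : ℂ)‖ ^ 2 = 0 := by
    have h1 : ∑ j, Real.log ‖(y j : ℂ)‖ ^ 2 = 0 := by
      refine Finset.sum_eq_zero fun j _ => ?_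
      rw [hy1 j, Real.log_one]
      norm_num
    calc ∑ i, Real.log ‖(x i : ℂ)‖ ^ 2 = β * ∑ j, Real.log ‖(y j : ℂ)‖ ^ 2 := hsum
      _ = 0 := by rw [h1, mul_zero]
  have hx1 : ∀ i, ‖(x i : ℂ)‖ = 1 := by
    intro i
    have h1 := (Finset.sum_eq_zero_iff_of_nonneg (fun i _ => sq_nonneg (Real.log ‖(x i : ℂ)‖))).1 hzero i
      (Finset.mem_univ i)
    have h2 : Real.log ‖(x i : ℂ)‖ = 0 := by simpa using h1
    have h3 : 0 < ‖(x i : ℂ)‖ := norm_pos_iff.2 (x i).ne_zero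
    rcases Real.log_eq_zero.1 h2 with h4 | h4 | h4
    · linarith
    · exact h4
    · linarith
  exact hinf (not_discrete_of_norm_one Γ₁ hd h hh q x hd2 hx1)

end WCn
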