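import Pool.Agent.Lib.MP_c2b80f_alD.ClF
import Pool.Agent.Lib.MP_c2b80f_alD.MainL
import Pool.Agent.Lib.MP_c2b80f_alD.MainC
import Pool.Agent.Lib.MP_c2b80f_alC.FormA
import Pool.Agent.Lib.MP_c2b80f_alC.FormB

/-!
# The main theorems for central quotients (job FnA)
-/

open Matrix Polynomial

namespace WCn

/-- If `Γ` is discrete in `SL_n / μ_d` its preimage is discrete (`0 < d`: the kernel is finite; an open neighbourhood of `1` in the quotient meeting `Γ` only in `1` has an open preimage which meets `up Γ` in a finite set). -/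
theorem up_discrete {n d : ℕ} (hd : 0 < d) (Γ : Subgroup (Pts n d)) (h : DiscreteTopology Γ) : DiscreteTopology (up Γ) := by
  have hfin : (muS n d : Set (SLC n)).Finite := by
    have := muS_finite (n := n) hd
    exact Set.toFinite _
  have h1 : IsOpen ({1} : Set Γ) := isOpen_discrete _
  obtain ⟨U, hU, hUe⟩ := isOpen_induced_iff.mp h1
  have h1U : (1 : Pts n d) ∈ U := by
    have : (1 : Γ) ∈ Subtype.val ⁻¹' U := by rw [hUe]; exact Set.mem_singleton _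
    exact this
  apply discreteTopology_of_isOpen_singleton_one
  rw [isOpen_induced_iff]
  refine ⟨(QuotientGroup.mk : SLC n → Pts n d) ⁻¹' U \ ((muS n d : Set (SLC n)) \ {1}), ?_, ?_⟩
  · exact (hU.preimage continuous_quotient_mk').sdiff (hfin.subset Set.sdiff_subset).isClosed
  · apply Set.eq_singleton_iff_unique_mem.mpr
    constructor
    · exact ⟨h1U, fun h2 => h2.2 rfl⟩
    · rintro ⟨g, hg⟩ ⟨hgU, hgm⟩
      have h2 : (⟨QuotientGroup.mk g, hg⟩ : Γ) ∈ Subtype.val ⁻¹' U := hgU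
      rw [hUe, Set.mem_singleton_iff] at h2
      have h3 : (QuotientGroup.mk g : Pts n d) = 1 := congrArg Subtype.val h2
      have h4 : g ∈ muS n d := (QuotientGroup.eq_one_iff g).1 h3
      by_contra hne
      exact hgm ⟨h4, fun h5 => hne (Subtype.ext h5)⟩

/-- The weak commensurability hypotheses for the preimages. -/
private theorem FnA_lift {n m d e : ℕ} (hd : 0 < d) (Γ₁ : Subgroup (Pts n d)) (Γ₂ : Subgroup (Pts m e))
    (hwc : ∀ x ∈ Γ₁, IsSsP x → ¬ IsOfFinOrder x → ∃ y ∈ Γ₂, IsSsP y ∧ ¬ IsOfFinOrder y ∧ WCommP x y) :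
    ∀ g ∈ up Γ₁, IsSs g → ¬ IsOfFinOrder g → ∃ h ∈ up Γ₂, IsSs h ∧ ¬ IsOfFinOrder h ∧ WComm g h := by
  intro g hg hs hf
  obtain ⟨y, hy, hys, hyf, hw⟩ := hwc (QuotientGroup.mk g) hg (isSsP_mk g hs)
    (fun h => hf (finOrder_of_mk hd g h))
  obtain ⟨h, rfl⟩ := QuotientGroup.mk_surjective y
  exact ⟨h, hy, isSs_lift h hys, fun h' => hyf (finOrder_mk h h'), wComm_lift g h hw⟩

/-- Take preimages (`wComm_lift`, `isSs_lift`, `isSsP_mk`, `finOrder_of_mk`, `finOrder_mk`, `up_fg`, `discrete_of_up`) and apply `main_log` with `cls_of_classical`; compare `main_forms` in `MP_c2b80f_alC/Forms.lean`. -/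
theorem final_log (n m d e : ℕ) (hd : 0 < d) (he : 0 < e) (G₁ : Subgroup (SLC n)) (G₂ : Subgroup (SLC m)) (hG₁ : Classical n G₁) (hG₂ : Classical m G₂)
    (Γ₁ : Subgroup (Pts n d)) (Γ₂ : Subgroup (Pts m e))
    (h₁ : ∃ Λ : Subgroup (SLC n), up Γ₁ ≤ Λ ∧ LogExpr Λ) (hz₁ : ZDenseIn G₁ (up Γ₁)) (h₂ : Γ₂.FG) (hz₂ : ZDenseIn G₂ (up Γ₂))
    (hwc₁ : ∀ x ∈ Γ₁, IsSsP x → ¬ IsOfFinOrder x → ∃ y ∈ Γ₂, IsSsP y ∧ ¬ IsOfFinOrder y ∧ WCommP x y)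
    (hwc₂ : ∀ y ∈ Γ₂, IsSsP y → ¬ IsOfFinOrder y → ∃ x ∈ Γ₁, IsSsP x ∧ ¬ IsOfFinOrder x ∧ WCommP y x) :
    DiscreteTopology Γ₂ := by
  obtain ⟨r₁, 𝔤₁, hC₁⟩ := cls_of_classical hG₁
  obtain ⟨r₂, 𝔤₂, hC₂⟩ := cls_of_classical hG₂
  exact discrete_of_up Γ₂ (main_log G₁ G₂ hC₁ hC₂ (up Γ₁) (up Γ₂) h₁ hz₁ (up_fg he Γ₂ h₂) hz₂
    (FnA_lift hd Γ₁ Γ₂ hwc₁) (FnA_lift he Γ₂ Γ₁ hwc₂))

open scoped Matrix.Norms.Operator in
/-- Differentiation at `0` of a one parameter group of isometries of a hermitian form. -/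
private theorem FnA_deriv {m : ℕ} (H X₀ : Matrix (Fin m) (Fin m) ℂ)
    (h : ∀ t : ℝ, (NormedSpace.exp ((t : ℂ) • X₀))ᴴ * H * NormedSpace.exp ((t : ℂ) • X₀) = H) :
    X₀ᴴ * H + H * X₀ = 0 := by
  have h1 : ∀ t : ℝ, NormedSpace.exp (t • X₀ᴴ) * H = H * NormedSpace.exp (t • (-X₀)) := by
    intro t
    have h2 := h t
    have h3 : (t : ℂ) • X₀ = t • X₀ := by
      ext i j
      simp
    have h4 : (NormedSpace.exp (t • X₀))ᴴ = NormedSpace.exp (t • X₀ᴴ) := by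
      rw [← Matrix.exp_conjTranspose]
      congr 1
      ext i j
      simp
    have h5 : NormedSpace.exp (t • X₀) * NormedSpace.exp (t • (-X₀)) = 1 := by
      rw [smul_neg, Matrix.exp_neg, Matrix.mul_nonsing_inv]
      exact (Matrix.isUnit_iff_isUnit_det _).1 (Matrix.isUnit_exp _)
    rw [h3, h4] at h2
    calc NormedSpace.exp (t • X₀ᴴ) * H = NormedSpace.exp (t • X₀ᴴ) * H * (NormedSpace.exp (t • X₀) * NormedSpace.exp (t • (-X₀))) := by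
          rw [h5, Matrix.mul_one]
      _ = (NormedSpace.exp (t • X₀ᴴ) * H * NormedSpace.exp (t • X₀)) * NormedSpace.exp (t • (-X₀)) := by
          simp only [Matrix.mul_assoc]
      _ = _ := by rw [h2]
  have h2 : HasDerivAt (fun t : ℝ => NormedSpace.exp (t • X₀ᴴ) * H) (X₀ᴴ * H) 0 := by
    have h3 := (hasDerivAt_exp_smul_const (𝕂 := ℝ) X₀ᴴ (0 : ℝ)).mul_const H
    rw [zero_smul, NormedSpace.exp_zero, one_mul] at h3
    exact h3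
  have h3 : HasDerivAt (fun t : ℝ => H * NormedSpace.exp (t • (-X₀))) (H * (-X₀)) 0 := by
    have h4 := (hasDerivAt_exp_smul_const (𝕂 := ℝ) (-X₀) (0 : ℝ)).const_mul H
    rw [zero_smul, NormedSpace.exp_zero, one_mul] at h4
    exact h4
  have h4 : X₀ᴴ * H = H * (-X₀) := by
    have h5 : (fun t : ℝ => NormedSpace.exp (t • X₀ᴴ) * H) = fun t : ℝ => H * NormedSpace.exp (t • (-X₀)) := funext h1
    rw [h5] at h2
    exact h2.unique h3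
  rw [h4, Matrix.mul_neg, neg_add_cancel]

/-- Take preimages and apply `main_cpt`; `X₀ ∈ 𝔤₂` by `Cls.lie` and `hX₀`. `X₀* H + H X₀ = 0` follows from `hX₀` by differentiation at `t = 0`. -/
theorem final_cpt (n m d e : ℕ) (hd : 0 < d) (he : 0 < e) (G₁ : Subgroup (SLC n)) (G₂ : Subgroup (SLC m)) (hG₁ : Classical n G₁) (hG₂ : Classical m G₂)
    (Γ₁ : Subgroup (Pts n d)) (Γ₂ : Subgroup (Pts m e))
    (h₁ : Γ₁.FG) (hd₁ : DiscreteTopology Γ₁) (hz₁ : ZDenseIn G₁ (up Γ₁)) (h₂ : Γ₂.FG) (hz₂ : ZDenseIn G₂ (up Γ₂))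
    (H : Matrix (Fin m) (Fin m) ℂ) (hH : H.det ≠ 0) (hΓ₂ : ∀ g ∈ up Γ₂, g.1ᴴ * H * g.1 = H ∨ g.1ᴴ * H * g.1 = -H)
    (X₀ : Matrix (Fin m) (Fin m) ℂ) (hX₀ : ∀ t : ℝ, ∃ g ∈ G₂, g.1 = NormedSpace.exp ((t : ℂ) • X₀) ∧ g.1ᴴ * H * g.1 = H)
    (θ : Fin m → ℝ) (hθ : Function.Injective θ) (hX₀θ : X₀.charpoly = ∏ j, (X - C (Complex.I * (θ j : ℂ))))
    (hwc₁ : ∀ x ∈ Γ₁, IsSsP x → ¬ IsOfFinOrder x → ∃ y ∈ Γ₂, IsSsP y ∧ ¬ IsOfFinOrder y ∧ WCommP x y)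
    (hwc₂ : ∀ y ∈ Γ₂, IsSsP y → ¬ IsOfFinOrder y → ∃ x ∈ Γ₁, IsSsP x ∧ ¬ IsOfFinOrder x ∧ WCommP y x) :
    DiscreteTopology Γ₂ := by
  obtain ⟨r₁, 𝔤₁, hC₁⟩ := cls_of_classical hG₁
  obtain ⟨r₂, 𝔤₂, hC₂⟩ := cls_of_classical hG₂
  refine discrete_of_up Γ₂ (main_cpt G₁ G₂ hC₁ hC₂ (up Γ₁) (up Γ₂) (up_fg hd Γ₁ h₁) (up_discrete hd Γ₁ hd₁) hz₁ (up_fg he Γ₂ h₂) hz₂
    H hH hΓ₂ X₀ (hC₂.lie X₀ fun t => ?_) (FnA_deriv H X₀ fun t => ?_) θ hθ hX₀θ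
    (FnA_lift hd Γ₁ Γ₂ hwc₁) (FnA_lift he Γ₂ Γ₁ hwc₂))
  · obtain ⟨g, hg, hge, -⟩ := hX₀ t
    exact ⟨g, hg, hge⟩
  · obtain ⟨g, -, hge, hgH⟩ := hX₀ t
    rw [← hge]
    exact hgH

end WCn
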