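import Mathlib

/-!
# Automorphisms inverting some roots (job GaF)
-/

open Polynomial

namespace WCn

/-- equal products of linear factors: the roots agree up to a permutation -/
private theorem GaF_perm {R : Type*} [CommRing R] [IsDomain R] {r : ℕ} (f g : Fin r → R)
    (h : ∏ i, (X - C (f i)) = ∏ i, (X - C (g i))) : ∃ e : Equiv.Perm (Fin r), ∀ i, f i = g (e i) := by
  classical
  have h1 : (Finset.univ.val.map f) = (Finset.univ.val.map g) := by
    have a := Polynomial.roots_multiset_prod_X_sub_C (Finset.univ.val.map f)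
    have b := Polynomial.roots_multiset_prod_X_sub_C (Finset.univ.val.map g)
    rw [Multiset.map_map] at a b
    rw [← a, ← b]
    exact congrArg Polynomial.roots h
  have h2 : ∀ c, Nonempty ({a // f a = c} ≃ {b // g b = c}) := by
    intro c
    have h3 := congrArg (Multiset.count c) h1
    rw [Multiset.count_map, Multiset.count_map] at h3
    apply Fintype.card_eq.1
    rw [Fintype.card_subtype, Fintype.card_subtype]
    have e1 : ∀ f : Fin r → R, (Finset.univ.filter fun a => f a = c).card =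
        Multiset.card (Multiset.filter (fun a => c = f a) Finset.univ.val) := by
      intro f
      rw [Finset.card_def, Finset.filter_val]
      exact congrArg Multiset.card (Multiset.filter_congr fun a _ => eq_comm)
    rw [e1 f, e1 g]
    exact h3
  exact ⟨Equiv.ofFiberEquiv (fun c => (h2 c).some), fun i => (Equiv.ofFiberEquiv_map _ i).symm⟩

/-- an automorphism changing the sign of a square root -/
private theorem GaF_neg {K : Type*} [Field K] (s : AlgebraicClosure K) (d : K)
    (hd : ¬ IsSquare d) (hs : s ^ 2 = algebraMap K (AlgebraicClosure K) d) :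
    ∃ φ : AlgebraicClosure K ≃ₐ[K] AlgebraicClosure K, φ s = - s := by
  have hirr : Irreducible (X ^ 2 - C d : K[X]) := by
    refine X_pow_sub_C_irreducible_of_prime Nat.prime_two ?_
    intro b hb
    exact hd ⟨b, by rw [← hb, sq]⟩
  have hmon : (X ^ 2 - C d : K[X]).Monic := monic_X_pow_sub_C d two_ne_zero
  have m1 : (X ^ 2 - C d : K[X]) = minpoly K s := by
    refine minpoly.eq_of_irreducible_of_monic hirr ?_ hmon
    simp [hs]
  have m2 : (X ^ 2 - C d : K[X]) = minpoly K (-s) := by
    refine minpoly.eq_of_irreducible_of_monic hirr ?_ hmon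
    simp [hs]
  have hc : IsConjRoot K (-s) s := m2.symm.trans m1
  exact isConjRoot_iff_exists_algEquiv.1 hc

/-- Let `L` be the algebraic closure of `k` in `ℂ`, `κ : k → K'` an embedding in a field, `y i ∈ L` nonzero, and suppose that `c = ∏ (X - (y i + 1 / y i))` has coefficients in `k` and is `∏ (X - T i)` over `K'`. `I` = the set of all `i` such that `T i ^ 2 - 4` is not a square in `K'`; suppose that the products
`(T i ^ 2 - 4) (T i' ^ 2 - 4)`, `i, i' ∈ I`, are squares, and `I ≠ ∅`. Then (up to a permutation `e` of the indices) there is an automorphism of `L` over `k` with `y i ↦ 1 / y i` for `e i ∈ I` and `y i ↦ y i` for `e i ∉ I`.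
Proof. Let `Ω` be an algebraic closure of `K'`; `κ` extends to `κ' : L → Ω` (`IsAlgClosed.lift`, with `Ω` a `k`-algebra by `κ`). Comparing `c` over `Ω` there is a permutation `e` with `κ' (y i + 1 / y i) = T (e i)`. `η i = κ' (y i)` is a root of `X ^ 2 - T (e i) X + 1`, so
`(2 η i - T (e i)) ^ 2 = T (e i) ^ 2 - 4 =: D`. If `D` is a square in `K'` then `η i ∈ K'` (`2 ≠ 0`: characteristic zero). Let `i₀` with `e i₀ ∈ I`, `s = 2 η i₀ - T (e i₀)`, `s ^ 2 = D₀` not a square in `K'`; there is `φ ∈ Gal(Ω / K')` with `φ s = - s` (`X ^ 2 - D₀` is irreducible over `K'`). For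
`e i ∈ I`: `s_i = 2 η i - T (e i)` satisfies `(s s_i) ^ 2 = D₀ D_i = d ^ 2`, `d ∈ K'`, so `s s_i = ± d ∈ K'`, `s_i = ± d / s` (`s ≠ 0`), hence `φ s_i = - s_i`, and `φ (η i) = T (e i) - η i = 1 / η i` (product of the roots is one). For `e i ∉ I` `φ (η i) = η i`. Finally `φ ∘ κ'` and `κ'` are two embeddings of the normal
extension `L` of `k`, so `φ ∘ κ' = κ' ∘ τ` for an automorphism `τ` (`Normal.algHomEquivAut` or `AlgHom.restrictNormal`-like lemmas, or show directly that `κ' L` is stable under `φ`), and `κ'` is injective. -/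
theorem exists_flip (k : Subfield ℂ) (K' : Type) [Field K'] [CharZero K'] (κ : k →+* K') {r : ℕ} (y : Fin r → algebraicClosure k ℂ)
    (hy : ∀ i, y i ≠ 0) (c : k[X]) (hc : c.map (algebraMap k ℂ) = ∏ i, (X - C ((y i : ℂ) + (y i : ℂ)⁻¹))) (T : Fin r → K')
    (hT : c.map κ = ∏ i, (X - C (T i))) (i₀ : Fin r) (hi₀ : ¬ IsSquare (T i₀ ^ 2 - 4))
    (hsq : ∀ i i', ¬ IsSquare (T i ^ 2 - 4) → ¬ IsSquare (T i' ^ 2 - 4) → IsSquare ((T i ^ 2 - 4) * (T i' ^ 2 - 4))) :
    ∃ (e : Equiv.Perm (Fin r)) (τ : algebraicClosure k ℂ ≃ₐ[k] algebraicClosure k ℂ), ∀ i,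
      (¬ IsSquare (T (e i) ^ 2 - 4) → τ (y i) = (y i)⁻¹) ∧ (IsSquare (T (e i) ^ 2 - 4) → τ (y i) = y i) := by
  let _ : Algebra k K' := κ.toAlgebra
  have hk : ∀ x : k, algebraMap k (AlgebraicClosure K') x = algebraMap K' (AlgebraicClosure K') (κ x) := fun x =>
    IsScalarTower.algebraMap_apply k K' (AlgebraicClosure K') x
  let κ' : algebraicClosure k ℂ →ₐ[k] AlgebraicClosure K' := IsAlgClosed.lift
  let _ : Algebra (algebraicClosure k ℂ) (AlgebraicClosure K') := κ'.toRingHom.toAlgebra
  have _ : IsScalarTower k (algebraicClosure k ℂ) (AlgebraicClosure K') :=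
    IsScalarTower.of_algebraMap_eq fun x => (κ'.commutes x).symm
  have hκ : ∀ x, algebraMap (algebraicClosure k ℂ) (AlgebraicClosure K') x = κ' x := fun x => rfl
  have hinj : Function.Injective κ' := κ'.toRingHom.injective
  have _ : CharZero (AlgebraicClosure K') := charZero_of_injective_algebraMap (algebraMap K' (AlgebraicClosure K')).injective
  -- comparison of the polynomials
  have h1 : c.map (algebraMap k (algebraicClosure k ℂ)) = ∏ i, (X - C (y i + (y i)⁻¹)) := by
    apply Polynomial.map_injective (algebraMap (algebraicClosure k ℂ) ℂ) (algebraMap (algebraicClosure k ℂ) ℂ).injective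
    rw [Polynomial.map_map, ← IsScalarTower.algebraMap_eq k (algebraicClosure k ℂ) ℂ, hc, Polynomial.map_prod]
    refine Finset.prod_congr rfl fun i _ => ?_
    have e1 : algebraMap (algebraicClosure k ℂ) ℂ (y i + (y i)⁻¹) = (y i : ℂ) + (y i : ℂ)⁻¹ := by
      rw [map_add, map_inv₀]
      rfl
    rw [Polynomial.map_sub, Polynomial.map_X, Polynomial.map_C, e1]
  have h2 : c.map (algebraMap k (AlgebraicClosure K')) = ∏ i, (X - C (κ' (y i) + (κ' (y i))⁻¹)) := by
    rw [IsScalarTower.algebraMap_eq k (algebraicClosure k ℂ) (AlgebraicClosure K'), ← Polynomial.map_map, h1,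
      Polynomial.map_prod]
    refine Finset.prod_congr rfl fun i _ => ?_
    have e1 : algebraMap (algebraicClosure k ℂ) (AlgebraicClosure K') (y i + (y i)⁻¹) = κ' (y i) + (κ' (y i))⁻¹ := by
      rw [hκ, map_add, map_inv₀]
    rw [Polynomial.map_sub, Polynomial.map_X, Polynomial.map_C, e1]
  have h3 : c.map (algebraMap k (AlgebraicClosure K')) = ∏ i, (X - C (algebraMap K' (AlgebraicClosure K') (T i))) := by
    have e0 : algebraMap k (AlgebraicClosure K') = (algebraMap K' (AlgebraicClosure K')).comp κ := RingHom.ext hk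
    rw [e0, ← Polynomial.map_map, hT, Polynomial.map_prod]
    refine Finset.prod_congr rfl fun i _ => ?_
    rw [Polynomial.map_sub, Polynomial.map_X, Polynomial.map_C]
  obtain ⟨e, he⟩ := GaF_perm _ _ (h2.symm.trans h3)
  have hη0 : ∀ i, κ' (y i) ≠ 0 := fun i h0 => hy i (hinj (by rw [h0, map_zero]))
  have hquad : ∀ i, (2 * κ' (y i) - algebraMap K' (AlgebraicClosure K') (T (e i))) ^ 2 =
      algebraMap K' (AlgebraicClosure K') (T (e i) ^ 2 - 4) := by
    intro i
    have h4 := hη0 i
    rw [map_sub, map_pow, ← he i]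
    have h5 : (κ' (y i)) * (κ' (y i))⁻¹ = 1 := mul_inv_cancel₀ h4
    have h6 : (algebraMap K' (AlgebraicClosure K')) 4 = 4 := map_ofNat _ 4
    rw [h6]
    linear_combination (-4 : AlgebraicClosure K') * h5
  -- the automorphism of the algebraic closure of `K'`
  obtain ⟨j₀, hj₀⟩ : ∃ j₀, e j₀ = i₀ := ⟨e.symm i₀, e.apply_symm_apply i₀⟩
  obtain ⟨φ, hφ⟩ := GaF_neg (2 * κ' (y j₀) - algebraMap K' (AlgebraicClosure K') (T (e j₀)))
    (T (e j₀) ^ 2 - 4) (by rw [hj₀]; exact hi₀) (hquad j₀)
  have hs0 : 2 * κ' (y j₀) - algebraMap K' (AlgebraicClosure K') (T (e j₀)) ≠ 0 := by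
    intro h0
    have h4 := hquad j₀
    rw [h0, zero_pow two_ne_zero] at h4
    have h5 : T (e j₀) ^ 2 - 4 = 0 := (algebraMap K' (AlgebraicClosure K')).injective (by rw [← h4, map_zero])
    rw [hj₀] at h5
    exact hi₀ (by rw [h5]; exact ⟨0, by ring⟩)
  have hflip : ∀ i, ¬ IsSquare (T (e i) ^ 2 - 4) → φ (κ' (y i)) = (κ' (y i))⁻¹ := by
    intro i hi
    obtain ⟨d, hd⟩ := hsq (e j₀) (e i) (by rw [hj₀]; exact hi₀) hi
    obtain ⟨s, hs⟩ : ∃ s, s = 2 * κ' (y j₀) - algebraMap K' (AlgebraicClosure K') (T (e j₀)) := ⟨_, rfl⟩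
    obtain ⟨t, ht⟩ : ∃ t, t = 2 * κ' (y i) - algebraMap K' (AlgebraicClosure K') (T (e i)) := ⟨_, rfl⟩
    have q1 := hquad j₀
    have q2 := hquad i
    rw [← hs] at q1 hφ hs0
    rw [← ht] at q2
    have q3 : (s * t) ^ 2 = (algebraMap K' (AlgebraicClosure K') d) ^ 2 := by
      rw [mul_pow, q1, q2, ← map_mul, hd, map_mul, sq]
    have q4 : φ (s * t) = s * t := by
      rcases sq_eq_sq_iff_eq_or_eq_neg.1 q3 with h | h
      · rw [h, φ.commutes]
      · rw [h, map_neg, φ.commutes]
    have q5 : φ t = - t := by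
      rw [map_mul, hφ] at q4
      have : s * (φ t + t) = 0 := by linear_combination (-1 : AlgebraicClosure K') * q4
      rcases mul_eq_zero.1 this with h | h
      · exact absurd h hs0
      · exact eq_neg_of_add_eq_zero_left h
    have q6 : φ t = 2 * φ (κ' (y i)) - algebraMap K' (AlgebraicClosure K') (T (e i)) := by
      rw [ht, map_sub, map_mul, φ.commutes, map_ofNat]
    have q7 : (2 : AlgebraicClosure K') ≠ 0 := two_ne_zero
    apply mul_left_cancel₀ q7
    have q8 := he i
    linear_combination (-1 : AlgebraicClosure K') * q6 + q5 - ht - (2 : AlgebraicClosure K') * q8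
  have hfix : ∀ i, IsSquare (T (e i) ^ 2 - 4) → φ (κ' (y i)) = κ' (y i) := by
    rintro i ⟨d, hd⟩
    obtain ⟨t, ht⟩ : ∃ t, t = 2 * κ' (y i) - algebraMap K' (AlgebraicClosure K') (T (e i)) := ⟨_, rfl⟩
    have q2 := hquad i
    rw [← ht] at q2
    have q3 : t ^ 2 = (algebraMap K' (AlgebraicClosure K') d) ^ 2 := by
      rw [q2, hd, map_mul, sq]
    have q5 : φ t = t := by
      rcases sq_eq_sq_iff_eq_or_eq_neg.1 q3 with h | h
      · rw [h, φ.commutes]
      · rw [h, map_neg, φ.commutes]
    have q6 : φ t = 2 * φ (κ' (y i)) - algebraMap K' (AlgebraicClosure K') (T (e i)) := by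
      rw [ht, map_sub, map_mul, φ.commutes, map_ofNat]
    have q7 : (2 : AlgebraicClosure K') ≠ 0 := two_ne_zero
    apply mul_left_cancel₀ q7
    linear_combination (-1 : AlgebraicClosure K') * q6 + q5 + ht
  -- the restriction to `L`
  have hres : ∀ x, κ' (((φ.restrictScalars k).restrictNormal (algebraicClosure k ℂ)) x) = φ (κ' x) := fun x =>
    (φ.restrictScalars k).restrictNormal_commutes (algebraicClosure k ℂ) x
  refine ⟨e, (φ.restrictScalars k).restrictNormal (algebraicClosure k ℂ), fun i => ⟨fun hi => ?_, fun hi => ?_⟩⟩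
  · apply hinj
    rw [hres, hflip i hi, map_inv₀]
  · apply hinj
    rw [hres, hfix i hi]

end WCn
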