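import Pool.Agent.Lib.MP_c2b80f_alD.PaA
import Pool.Agent.Lib.MP_c2b80f_alD.GDefs

/-!
# Labels of the eigenvalues (job GaL)
-/

open Polynomial

namespace WCn

/-- Two families with the same multiset of values differ by a bijection of the index sets. -/
private theorem gaL_equiv {α γ β : Type*} [Fintype α] [Fintype γ] (f : α → β) (g : γ → β)
    (h : (Finset.univ.val : Multiset α).map f = (Finset.univ.val : Multiset γ).map g) : ∃ e : α ≃ γ, ∀ i, f i = g (e i) := by
  classical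
  have hc : ∀ (f : α → β) (y : β), Fintype.card {i // f i = y} = Multiset.count y (Finset.univ.val.map f) :=
    fun f y => by
      rw [Multiset.count_map, Fintype.card_subtype]
      refine congrArg Multiset.card (Multiset.filter_congr fun i _ => ?_)
      exact eq_comm
  have hc' : ∀ (f : γ → β) (y : β), Fintype.card {i // f i = y} = Multiset.count y (Finset.univ.val.map f) :=
    fun f y => by
      rw [Multiset.count_map, Fintype.card_subtype]
      refine congrArg Multiset.card (Multiset.filter_congr fun i _ => ?_)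
      exact eq_comm
  have he : ∀ y, Nonempty ({i // f i = y} ≃ {i // g i = y}) := fun y =>
    ⟨Fintype.equivOfCardEq (by rw [hc, hc', h])⟩
  have e := fun y => (he y).some
  refine ⟨(Equiv.sigmaFiberEquiv f).symm.trans ((Equiv.sigmaCongrRight fun y => e y).trans
    (Equiv.sigmaFiberEquiv g)), fun i => ?_⟩
  exact ((e (f i)) ⟨i, rfl⟩).2.symm

private theorem gaL_roots (c : ℂ[X]) (hc : c.Monic) (r : ℕ) (hr : c.natDegree = r) :
    ∃ t : Fin r → ℂ, c = ∏ i, (X - C (t i)) := by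
  have hs : c.Splits := IsAlgClosed.splits c
  obtain ⟨l, hl⟩ : ∃ l : List ℂ, (l : Multiset ℂ) = c.roots := ⟨c.roots.toList, Multiset.coe_toList _⟩
  have hlen : l.length = r := by
    rw [← Multiset.coe_card, hl, ← hr]
    exact hs.natDegree_eq_card_roots.symm
  subst hlen
  refine ⟨fun i => l.get i, ?_⟩
  have h1 := hs.eq_prod_roots_of_monic hc
  rw [← hl, Multiset.map_coe, Multiset.prod_coe] at h1
  rw [h1, ← List.prod_ofFn]
  congr 1
  refine List.ext_get (by simp) fun n h1 h2 => ?_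
  simp

private theorem gaL_quad (t : ℂ) : ∃ z : ℂ, z ≠ 0 ∧ z + z⁻¹ = t := by
  obtain ⟨s, hs⟩ := IsAlgClosed.exists_pow_nat_eq (t ^ 2 - 4) (n := 2) (by norm_num)
  have h1 : ((t + s) / 2) * (t - (t + s) / 2) = 1 := by
    have : ((t + s) / 2) * (t - (t + s) / 2) = (t ^ 2 - s ^ 2) / 4 := by ring
    rw [this, hs]
    ring
  have h0 : (t + s) / 2 ≠ 0 := by
    intro h
    rw [h] at h1
    simp at h1
  refine ⟨(t + s) / 2, h0, ?_⟩
  have h2 : ((t + s) / 2)⁻¹ = t - (t + s) / 2 := by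
    rw [← mul_right_inj' h0, h1, mul_inv_cancel₀ h0]
  rw [h2]
  ring

/-- Proof. `c = ∏ (X - t i)` over `ℂ`, so `∏ (X - y j) = (X - 1) ^ δ ∏ (X ^ 2 - t i X + 1)` (`pal_prod`), and `X ^ 2 - t i X + 1 = (X - z i) (X - 1 / z i)` with `z i ≠ 0`, `z i + 1 / z i = t i`. So the family `y` and the family `(z, 1 / z, 1)` on `Fin r ⊕ (Fin r ⊕ Fin δ)` have the same multiset of values, hence
`y ∘ e = (z, 1 / z, 1)` for a bijection `e` (compare the private lemma `galP_perm` in `MP_c2b80f_alC/GalP.lean`). -/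
theorem exists_labels {r δ : ℕ} (y : Fin (r + (r + δ)) → ℂˣ) (c : ℂ[X]) (hc : c.Monic) (hr : c.natDegree = r)
    (hF : ∏ j, (X - C (y j : ℂ)) = (X - 1) ^ δ * pal r c) :
    ∃ e : Fin r ⊕ (Fin r ⊕ Fin δ) ≃ Fin (r + (r + δ)),
      c = ∏ i, (X - C ((y (e (Sum.inl i)) : ℂ) + (y (e (Sum.inl i)) : ℂ)⁻¹)) ∧
      (∀ i, y (e (Sum.inr (Sum.inl i))) = (y (e (Sum.inl i)))⁻¹) ∧ ∀ i, y (e (Sum.inr (Sum.inr i))) = 1 := by
  obtain ⟨t, ht⟩ := gaL_roots c hc r hr
  choose z hz0 hz using fun i => gaL_quad (t i)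
  have hpal : pal r c = ∏ i, ((X - C (z i)) * (X - C ((z i)⁻¹))) := by
    rw [ht, pal_prod]
    refine Finset.prod_congr rfl fun i _ => ?_
    have h1 : C (z i) * C ((z i)⁻¹) = (1 : ℂ[X]) := by
      rw [← C_mul, mul_inv_cancel₀ (hz0 i), C_1]
    rw [← hz i, C_add]
    linear_combination (-1 : ℂ[X]) * h1
  let g : Fin r ⊕ (Fin r ⊕ Fin δ) → ℂ := Sum.elim z (Sum.elim (fun i => (z i)⁻¹) (fun _ => 1))
  have hg : ∏ s, (X - C (g s)) = ∏ j, (X - C (y j : ℂ)) := by
    rw [hF, hpal, Fintype.prod_sum_type, Fintype.prod_sum_type, Finset.prod_mul_distrib]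
    simp only [g, Sum.elim_inl, Sum.elim_inr, Finset.prod_const, Finset.card_univ, Fintype.card_fin, C_1]
    ring
  have hroots : ∀ {α : Type} [Fintype α] (f : α → ℂ), (∏ s, (X - C (f s))).roots = (Finset.univ.val : Multiset α).map f := by
    intro α _ f
    have h1 : ∏ s, (X - C (f s)) = (((Finset.univ.val : Multiset α).map f).map fun a => X - C a).prod := by
      rw [Multiset.map_map]
      rfl
    rw [h1, roots_multiset_prod_X_sub_C]
  obtain ⟨e, he⟩ := gaL_equiv g (fun j => (y j : ℂ)) (by rw [← hroots, ← hroots, hg])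
  have h1 : ∀ i, (y (e (Sum.inl i)) : ℂ) = z i := fun i => (he (Sum.inl i)).symm
  have h2 : ∀ i, (y (e (Sum.inr (Sum.inl i))) : ℂ) = (z i)⁻¹ := fun i => (he (Sum.inr (Sum.inl i))).symm
  have h3 : ∀ i, (y (e (Sum.inr (Sum.inr i))) : ℂ) = 1 := fun i => (he (Sum.inr (Sum.inr i))).symm
  refine ⟨e, ?_, fun i => ?_, fun i => ?_⟩
  · rw [ht]
    refine Finset.prod_congr rfl fun i _ => ?_
    rw [h1, hz]
  · apply Units.ext
    rw [h2, Units.val_inv_eq_inv_val, h1]
  · apply Units.ext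
    rw [h3, Units.val_one]

/-- If moreover the `y i + 1 / y i` are different and not `± 2` then `y` is injective (`δ ≤ 1`). -/
theorem labels_injective {r δ : ℕ} (hδ : δ ≤ 1) (y : Fin (r + (r + δ)) → ℂˣ) (e : Fin r ⊕ (Fin r ⊕ Fin δ) ≃ Fin (r + (r + δ)))
    (h1 : ∀ i, y (e (Sum.inr (Sum.inl i))) = (y (e (Sum.inl i)))⁻¹) (h2 : ∀ i, y (e (Sum.inr (Sum.inr i))) = 1)
    (h3 : Function.Injective fun i => (y (e (Sum.inl i)) : ℂ) + (y (e (Sum.inl i)) : ℂ)⁻¹)
    (h4 : ∀ i, (y (e (Sum.inl i)) : ℂ) + (y (e (Sum.inl i)) : ℂ)⁻¹ ≠ 2 ∧ (y (e (Sum.inl i)) : ℂ) + (y (e (Sum.inl i)) : ℂ)⁻¹ ≠ -2) :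
    Function.Injective y := by
  set w : Fin r → ℂˣ := fun i => y (e (Sum.inl i)) with hw
  have hone : ∀ i, w i ≠ 1 := by
    intro i h
    apply (h4 i).1
    have h' : (y (e (Sum.inl i)) : ℂ) = 1 := by
      have := congrArg (fun u : ℂˣ => (u : ℂ)) h
      simpa [hw] using this
    rw [h']
    norm_num
  have hsq : ∀ i, w i ≠ (w i)⁻¹ := by
    intro i h
    have h5 : (y (e (Sum.inl i)) : ℂ) = (y (e (Sum.inl i)) : ℂ)⁻¹ := by
      have := congrArg (fun u : ℂˣ => (u : ℂ)) h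
      simpa [hw] using this
    have h6 : (y (e (Sum.inl i)) : ℂ) * (y (e (Sum.inl i)) : ℂ) = 1 := by
      nth_rewrite 2 [h5]
      exact mul_inv_cancel₀ (Units.ne_zero _)
    rcases mul_self_eq_one_iff.1 h6 with h7 | h7
    · apply (h4 i).1
      rw [h7]; norm_num
    · apply (h4 i).2
      rw [h7]; norm_num
  have hinv : ∀ i j, w i = (w j)⁻¹ → False := by
    intro i j h
    have hij : i = j := by
      apply h3
      show (y (e (Sum.inl i)) : ℂ) + (y (e (Sum.inl i)) : ℂ)⁻¹ = (y (e (Sum.inl j)) : ℂ) + (y (e (Sum.inl j)) : ℂ)⁻¹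
      have h5 : (y (e (Sum.inl i)) : ℂ) = (y (e (Sum.inl j)) : ℂ)⁻¹ := by
        have := congrArg (fun u : ℂˣ => (u : ℂ)) h
        simpa [hw] using this
      rw [h5, inv_inv, add_comm]
    subst hij
    exact hsq i h
  have hinj : ∀ i j, w i = w j → i = j := by
    intro i j h
    apply h3
    show (y (e (Sum.inl i)) : ℂ) + (y (e (Sum.inl i)) : ℂ)⁻¹ = (y (e (Sum.inl j)) : ℂ) + (y (e (Sum.inl j)) : ℂ)⁻¹
    have h5 : (y (e (Sum.inl i)) : ℂ) = (y (e (Sum.inl j)) : ℂ) := congrArg (fun u : ℂˣ => (u : ℂ)) h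
    rw [h5]
  intro a b hab
  obtain ⟨s, rfl⟩ := e.surjective a
  obtain ⟨s', rfl⟩ := e.surjective b
  have h1' : ∀ i, y (e (Sum.inr (Sum.inl i))) = (w i)⁻¹ := h1
  have h0' : ∀ i, y (e (Sum.inl i)) = w i := fun _ => rfl
  rcases s with i | i | i <;> rcases s' with j | j | j
  · rw [h0', h0'] at hab
    rw [hinj i j hab]
  · rw [h0', h1'] at hab
    exact (hinv i j hab).elim
  · rw [h0', h2] at hab
    exact (hone i hab).elim
  · rw [h0', h1'] at hab
    exact (hinv j i hab.symm).elim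
  · rw [h1', h1'] at hab
    rw [hinj i j (inv_injective hab)]
  · rw [h1', h2] at hab
    exact (hone i (inv_eq_one.1 hab)).elim
  · rw [h0', h2] at hab
    exact (hone j hab.symm).elim
  · rw [h1', h2] at hab
    exact (hone j (inv_eq_one.1 hab.symm)).elim
  · have : i = j := by
      apply Fin.ext
      have := i.2
      have := j.2
      omega
    rw [this]

end WCn
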