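import Pool.Agent.Lib.MP_c2b80f_alC.GalT
import Pool.Agent.Lib.MP_c2b80f_alC.GalP

/-!
# Automorphisms acting on two roots (job GaT)
-/

open Polynomial

namespace WCn

variable {n m : ℕ}

/-- The first half of the proof of `twoTrans_of_conj` in `MP_c2b80f_alC/GalA.lean`. -/
theorem exists_aut_pair (k : Subfield ℂ) (F : k[X]) (hF : F.Monic) (hFi : Irreducible F)
    (h2 : ∀ z w w' : ℂ, aeval z F = 0 → aeval w F = 0 → aeval w' F = 0 → w ≠ z → w' ≠ z →
      minpoly (IntermediateField.adjoin k {z}) w = minpoly (IntermediateField.adjoin k {z}) w')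
    (a a' b b' : algebraicClosure k ℂ) (ha : aeval (a : ℂ) F = 0) (ha' : aeval (a' : ℂ) F = 0) (hb : aeval (b : ℂ) F = 0)
    (hb' : aeval (b' : ℂ) F = 0) (haa : a ≠ a') (hbb : b ≠ b') :
    ∃ τ : algebraicClosure k ℂ ≃ₐ[k] algebraicClosure k ℂ, τ a = b ∧ τ a' = b' := by
  obtain ⟨τ₁, h3⟩ := exists_aut_one k F hF hFi a b ha hb
  have hw0 : aeval ((τ₁ a' : algebraicClosure k ℂ) : ℂ) F = 0 := by
    have h4 : aeval a' F = 0 := by
      apply (algebraMap (algebraicClosure k ℂ) ℂ).injective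
      rw [map_zero, ← aeval_algebraMap_apply]
      exact ha'
    have h5 : aeval (τ₁ a') F = 0 := by
      have h6 := Polynomial.aeval_algHom_apply (τ₁ : algebraicClosure k ℂ →ₐ[k] algebraicClosure k ℂ) a' F
      rw [h4, map_zero] at h6
      exact h6
    have h7 := Polynomial.aeval_algebraMap_apply (A := algebraicClosure k ℂ) ℂ (τ₁ a') F
    rw [h5, map_zero] at h7
    exact h7
  have hwb : ((τ₁ a' : algebraicClosure k ℂ) : ℂ) ≠ (b : ℂ) := by
    intro h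
    apply haa
    apply τ₁.injective
    rw [h3]
    exact (Subtype.ext h).symm
  have hbb' : (b' : ℂ) ≠ (b : ℂ) := fun h => hbb (Subtype.ext h).symm
  have hmin := h2 (b : ℂ) ((τ₁ a' : algebraicClosure k ℂ) : ℂ) (b' : ℂ) hb hw0 hb' hwb hbb'
  obtain ⟨τ₂, h7, h8⟩ := exists_aut_two k b (τ₁ a') b' hmin
  refine ⟨τ₁.trans τ₂, ?_, ?_⟩
  · rw [AlgEquiv.trans_apply, h3, h7]
  · rw [AlgEquiv.trans_apply, h8]

/-- Every automorphism gives a symmetry of `(x, y)` (`exists_perm` twice, `relSym_of_aut`). -/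
theorem exists_relSym (k : Subfield ℂ) (F G : k[X]) (hF : F.Monic) (hG : G.Monic) (x : Fin n → ℂˣ)
    (hx : G.map (algebraMap k ℂ) = ∏ i, (X - C (x i : ℂ))) (y : Fin m → ℂˣ) (hy : F.map (algebraMap k ℂ) = ∏ j, (X - C (y j : ℂ)))
    (hyL : ∀ j, (y j : ℂ) ∈ algebraicClosure k ℂ) (τ : algebraicClosure k ℂ ≃ₐ[k] algebraicClosure k ℂ) :
    ∃ (π : Equiv.Perm (Fin n)) (ρ : Equiv.Perm (Fin m)), RelSym x y π ρ ∧
      ∀ j, ((τ ⟨y j, hyL j⟩ : algebraicClosure k ℂ) : ℂ) = y (ρ j) := by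
  have hxL := root_mem_closure k G hG x hx
  obtain ⟨π, hπ⟩ := exists_perm k G hG x hx hxL τ
  obtain ⟨ρ, hρ⟩ := exists_perm k F hF y hy hyL τ
  exact ⟨π, ρ, relSym_of_aut k x y hxL hyL τ π hπ ρ hρ, hρ⟩

end WCn
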