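import Pool.Agent.Lib.MP_c2b80f_alD.GDefs

/-!
# Labelled eigenvalues: definitions
-/

namespace WCn

variable {n : ℕ}

/-- `e` labels the eigenvalues `y j` of an element of a symplectic or orthogonal group: `y (e (inl i))` and `y (e (inr (inl i)))` are inverse to each other (block `i`), `y (e (inr (inr i))) = 1`. -/
structure Lbl {r δ : ℕ} (e : Fin r ⊕ (Fin r ⊕ Fin δ) ≃ Fin (r + (r + δ))) (y : Fin (r + (r + δ)) → ℂˣ) : Prop where
  inj : Function.Injective y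
  inv : ∀ i, y (e (Sum.inr (Sum.inl i))) = (y (e (Sum.inl i)))⁻¹
  one : ∀ i, y (e (Sum.inr (Sum.inr i))) = 1

/-- The relations which hold for all elements of the torus: `d` takes the same value at the two elements of a block. -/
def SL {r δ : ℕ} (e : Fin r ⊕ (Fin r ⊕ Fin δ) ≃ Fin (r + (r + δ))) : Submodule ℚ (Fin (r + (r + δ)) → ℚ) where
  carrier := {d | ∀ i : Fin r, d (e (Sum.inl i)) = d (e (Sum.inr (Sum.inl i)))}
  add_mem' := by
    intro a b ha hb i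
    show a _ + b _ = a _ + b _
    rw [ha i, hb i]
  zero_mem' := fun _ => rfl
  smul_mem' := by
    intro c a ha i
    show c • a _ = c • a _
    rw [ha i]

/-- The symmetries are transitive on the blocks. -/
def T1 {r δ : ℕ} (e : Fin r ⊕ (Fin r ⊕ Fin δ) ≃ Fin (r + (r + δ))) (x : Fin n → ℂˣ) (y : Fin (r + (r + δ)) → ℂˣ) : Prop :=
  ∀ i l : Fin r, ∃ π ρ, RelSym x y π ρ ∧ (ρ (e (Sum.inl i)) = e (Sum.inl l) ∨ ρ (e (Sum.inl i)) = e (Sum.inr (Sum.inl l)))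

/-- The symmetries are two-transitive on the blocks. -/
def T2 {r δ : ℕ} (e : Fin r ⊕ (Fin r ⊕ Fin δ) ≃ Fin (r + (r + δ))) (x : Fin n → ℂˣ) (y : Fin (r + (r + δ)) → ℂˣ) : Prop :=
  ∀ i i' l l' : Fin r, i ≠ i' → l ≠ l' → ∃ π ρ, RelSym x y π ρ ∧
    (ρ (e (Sum.inl i)) = e (Sum.inl l) ∨ ρ (e (Sum.inl i)) = e (Sum.inr (Sum.inl l))) ∧
    (ρ (e (Sum.inl i')) = e (Sum.inl l') ∨ ρ (e (Sum.inl i')) = e (Sum.inr (Sum.inl l')))

/-- Sign changes: for `i ≠ l` there is a symmetry which fixes all blocks, exchanges the two elements of block `i` and fixes those of block `l`. -/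
def Fl {r δ : ℕ} (e : Fin r ⊕ (Fin r ⊕ Fin δ) ≃ Fin (r + (r + δ))) (x : Fin n → ℂˣ) (y : Fin (r + (r + δ)) → ℂˣ) : Prop :=
  ∀ i l : Fin r, i ≠ l → ∃ π ρ, RelSym x y π ρ ∧ ρ (e (Sum.inl i)) = e (Sum.inr (Sum.inl i)) ∧ ρ (e (Sum.inl l)) = e (Sum.inl l) ∧
    ∀ i' : Fin r, ρ (e (Sum.inl i')) = e (Sum.inl i') ∨ ρ (e (Sum.inl i')) = e (Sum.inr (Sum.inl i'))

end WCn
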