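import Pool.Agent.Lib.MP_c2b80f_alD.GaL
import Pool.Agent.Lib.MP_c2b80f_alD.GaT
import Pool.Agent.Lib.MP_c2b80f_alD.GaF
import Pool.Agent.Lib.MP_c2b80f_alD.RjDefs
import Pool.Agent.Lib.MP_c2b80f_alC.GalM
import Pool.Agent.Lib.MP_c2b80f_alC.GalB

/-!
# From the Galois group to labelled symmetries (job GjI)

Common situation: `A` is a subring of `ℂ`, `k = Subfield.closure A`, `c` a monic polynomial of degree `r` over `A`, `y` a family of `m = r + (r + δ)` nonzero complex numbers with `∏ (X - y j) = (X - 1) ^ δ pal r c`, and `G` a monic polynomial over `A` with roots `x i`. `ιC : A → k → ℂ`.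
-/

open Matrix Polynomial

namespace WCn

/-- A polynomial over `A` considered over the field generated by `A`. -/
noncomputable def toK (A : Subring ℂ) (c : A[X]) : (Subfield.closure (A : Set ℂ))[X] :=
  c.map ((Subfield.closure (A : Set ℂ)).toSubring.subtype.codRestrict (Subfield.closure (A : Set ℂ)) (fun z => z.2) |>.comp
    (Subring.inclusion (show A ≤ (Subfield.closure (A : Set ℂ)).toSubring from Subfield.subset_closure)))

theorem gjI_toK_eq (A : Subring ℂ) (c : A[X]) : toK A c = c.map (galB_emb A) := rfl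

theorem toK_map (A : Subring ℂ) (c : A[X]) : (toK A c).map (algebraMap (Subfield.closure (A : Set ℂ)) ℂ) = c.map A.subtype := by
  rw [toK, Polynomial.map_map]
  rfl

/-- If `κ` extends `σ` then `(toK A c).map κ = c.map σ`. -/
theorem toK_map_ext (A : Subring ℂ) (c : A[X]) (L : Type) [Field L] (σ : A →+* L) (κ : Subfield.closure (A : Set ℂ) →+* L)
    (h : ∀ a : A, κ ⟨a, Subfield.subset_closure a.2⟩ = σ a) : (toK A c).map κ = c.map σ := by
  rw [toK, Polynomial.map_map]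
  exact congrArg (fun f => c.map f) (RingHom.ext h)

private theorem gjI_sum (k : Subfield ℂ) (τ : algebraicClosure k ℂ ≃ₐ[k] algebraicClosure k ℂ) (u w : ℂˣ) (hu : (u : ℂ) ∈ algebraicClosure k ℂ)
    (hw : ((τ ⟨u, hu⟩ : algebraicClosure k ℂ) : ℂ) = w) (ht : (u : ℂ) + (u : ℂ)⁻¹ ∈ algebraicClosure k ℂ) :
    ((τ ⟨(u : ℂ) + (u : ℂ)⁻¹, ht⟩ : algebraicClosure k ℂ) : ℂ) = w + (w : ℂ)⁻¹ := by
  have h1 : (⟨(u : ℂ) + (u : ℂ)⁻¹, ht⟩ : algebraicClosure k ℂ) = ⟨u, hu⟩ + (⟨u, hu⟩ : algebraicClosure k ℂ)⁻¹ := Subtype.ext rfl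
  rw [h1, map_add, map_inv₀]
  change ((τ ⟨u, hu⟩ : algebraicClosure k ℂ) : ℂ) + ((τ ⟨u, hu⟩ : algebraicClosure k ℂ) : ℂ)⁻¹ = _
  rw [hw]

private theorem gjI_two (w z : ℂˣ) (h : (w : ℂ) + (w : ℂ)⁻¹ = z + (z : ℂ)⁻¹) : w = z ∨ w = z⁻¹ := by
  have hw : (w : ℂ) ≠ 0 := w.ne_zero
  have hz : (z : ℂ) ≠ 0 := z.ne_zero
  have h1 : ((w : ℂ) - z) * ((w : ℂ) * z - 1) = 0 := by
    have h2 : (w : ℂ) * z * ((w : ℂ) + (w : ℂ)⁻¹) = (w : ℂ) * z * (z + (z : ℂ)⁻¹) := by rw [h]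
    have h3 : (w : ℂ) * z * ((w : ℂ) + (w : ℂ)⁻¹) = (w : ℂ) * w * z + z := by
      field_simp
    have h4 : (w : ℂ) * z * (z + (z : ℂ)⁻¹) = (w : ℂ) * (z * z) + w := by
      field_simp
    rw [h3, h4] at h2
    linear_combination h2
  rcases mul_eq_zero.1 h1 with h2 | h2
  · exact Or.inl (Units.ext (sub_eq_zero.1 h2))
  · right
    apply Units.ext
    rw [Units.val_inv_eq_inv_val]
    exact eq_inv_of_mul_eq_one_left (sub_eq_zero.1 h2)

private theorem gjI_F (A : Subring ℂ) {r δ : ℕ} (c : A[X]) (hc : c.Monic) (hr : c.natDegree = r) :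
    (toK A ((X - 1) ^ δ * pal r c)).Monic := by
  rw [gjI_toK_eq]
  refine Monic.map _ (Monic.mul (Monic.pow ?_ _) (pal_monic hc hr).1)
  have h : (X - 1 : A[X]) = X - C 1 := by rw [C_1]
  rw [h]
  exact monic_X_sub_C 1

private theorem gjI_root (A : Subring ℂ) {r : ℕ} (c : A[X]) (t : Fin r → ℂ) (hce : c.map A.subtype = ∏ i, (X - C (t i))) (i : Fin r) :
    aeval (t i) (toK A c) = 0 := by
  rw [aeval_def, ← eval_map, toK_map, hce, eval_prod]
  refine Finset.prod_eq_zero (Finset.mem_univ i) ?_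
  rw [eval_sub, eval_X, eval_C, sub_self]

private theorem gjI_mem (A : Subring ℂ) {r : ℕ} (c : A[X]) (hc : c.Monic) (t : Fin r → ℂ) (hce : c.map A.subtype = ∏ i, (X - C (t i))) (i : Fin r) :
    t i ∈ algebraicClosure (Subfield.closure (A : Set ℂ)) ℂ := by
  refine mem_algebraicClosure_iff.2 ⟨toK A c, ?_, gjI_root A c t hce i⟩
  rw [gjI_toK_eq]
  exact (hc.map _).ne_zero

private theorem gjI_inj (A : Subring ℂ) {r : ℕ} (c : A[X]) (hirr : Irreducible (toK A c)) (t : Fin r → ℂ)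
    (hce : c.map A.subtype = ∏ i, (X - C (t i))) : Function.Injective t := by
  have h1 : ((toK A c).map (algebraMap (Subfield.closure (A : Set ℂ)) ℂ)).Separable := (hirr.separable).map
  rw [toK_map, hce] at h1
  exact separable_prod_X_sub_C_iff.1 h1

/-- If `c` is irreducible over `k` (`2 ≤ r`), the labels of `exists_labels` satisfy `Lbl` and `T1`.
Proof. Take `e` from `exists_labels`. `c` is irreducible over `k`, hence separable, so the `t i = y + 1/y` are different; `t i ≠ ± 2` because an irreducible polynomial of degree `≥ 2` has no root in `k`. `labels_injective`. `T1`: `exists_aut_one` for `t i`, `t l ∈ L` gives `τ` with `τ (t i) = t l`, so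
`τ (y (e (inl i)))` is `y (e (inl l))` or its inverse; `exists_relSym` (`F` = `(X - 1) ^ δ pal r c` over `k`). -/
theorem lbl_T1 {r δ n : ℕ} (hδ : δ ≤ 1) (hr2 : 2 ≤ r) (A : Subring ℂ) (c : A[X]) (hc : c.Monic) (hr : c.natDegree = r)
    (hirr : Irreducible (toK A c)) (y : Fin (r + (r + δ)) → ℂˣ) (hy : ∏ j, (X - C (y j : ℂ)) = ((X - 1) ^ δ * pal r c).map A.subtype)
    (G : A[X]) (hG : G.Monic) (x : Fin n → ℂˣ) (hx : G.map A.subtype = ∏ i, (X - C (x i : ℂ))) :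
    ∃ e : Fin r ⊕ (Fin r ⊕ Fin δ) ≃ Fin (r + (r + δ)), Lbl e y ∧ c.map A.subtype = ∏ i, (X - C ((y (e (Sum.inl i)) : ℂ) + (y (e (Sum.inl i)) : ℂ)⁻¹)) ∧
      T1 e x y := by
  have hcm : (c.map A.subtype).Monic := hc.map _
  have hcd : (c.map A.subtype).natDegree = r := by
    rw [hc.natDegree_map, hr]
  have hF : ∏ j, (X - C (y j : ℂ)) = (X - 1) ^ δ * pal r (c.map A.subtype) := by
    rw [hy, Polynomial.map_mul, Polynomial.map_pow, Polynomial.map_sub, Polynomial.map_X, Polynomial.map_one, pal_map]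
  obtain ⟨e, h1, h2, h3⟩ := exists_labels y (c.map A.subtype) hcm hcd hF
  have hinj := gjI_inj A c hirr _ h1
  have h4 : ∀ (i : Fin r) (s : Subfield.closure (A : Set ℂ)), (y (e (Sum.inl i)) : ℂ) + (y (e (Sum.inl i)) : ℂ)⁻¹ ≠ s := by
    intro i s hs
    have h5 : aeval ((y (e (Sum.inl i)) : ℂ) + (y (e (Sum.inl i)) : ℂ)⁻¹) (toK A c) = 0 := gjI_root A c _ h1 i
    rw [hs] at h5
    have h6 : (toK A c).IsRoot s := by
      rw [IsRoot.def]
      apply (algebraMap (Subfield.closure (A : Set ℂ)) ℂ).injective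
      rw [map_zero, ← aeval_algebraMap_apply_eq_algebraMap_eval]
      exact h5
    have h7 := degree_eq_one_of_irreducible_of_root hirr h6
    have h8 : (toK A c).natDegree = 1 := natDegree_eq_of_degree_eq_some h7
    rw [gjI_toK_eq, hc.natDegree_map, hr] at h8
    omega
  have hlbl : Lbl e y := by
    refine ⟨labels_injective hδ y e h2 h3 hinj fun i => ⟨?_, ?_⟩, h2, h3⟩
    · have h5 := h4 i 2
      exact h5
    · have h5 := h4 i (-2)
      exact h5
  refine ⟨e, hlbl, h1, ?_⟩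
  intro i l
  have hFm := gjI_F (δ := δ) A c hc hr
  have hy' : (toK A ((X - 1) ^ δ * pal r c)).map (algebraMap (Subfield.closure (A : Set ℂ)) ℂ) = ∏ j, (X - C (y j : ℂ)) := by
    rw [toK_map, hy]
  have hGm : (toK A G).Monic := by
    rw [gjI_toK_eq]
    exact hG.map _
  have hx' : (toK A G).map (algebraMap (Subfield.closure (A : Set ℂ)) ℂ) = ∏ i, (X - C (x i : ℂ)) := by
    rw [toK_map, hx]
  have hcm' : (toK A c).Monic := by
    rw [gjI_toK_eq]
    exact hc.map _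
  have hyL := root_mem_closure _ _ hFm y hy'
  have ht := gjI_mem A c hc _ h1
  obtain ⟨τ, hτ⟩ := exists_aut_one (Subfield.closure (A : Set ℂ)) (toK A c) hcm' hirr ⟨_, ht i⟩ ⟨_, ht l⟩ (gjI_root A c _ h1 i)
    (gjI_root A c _ h1 l)
  obtain ⟨π, ρ, hs, hρ⟩ := exists_relSym _ _ _ hFm hGm x hx' y hy' hyL τ
  refine ⟨π, ρ, hs, ?_⟩
  have h5 := gjI_sum _ τ (y (e (Sum.inl i))) (y (ρ (e (Sum.inl i)))) (hyL _) (hρ _) (ht i)
  rw [hτ] at h5
  rcases gjI_two _ _ h5.symm with h6 | h6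
  · exact Or.inl (hlbl.inj h6)
  · right
    rw [← h2] at h6
    exact hlbl.inj h6

/-- `T2` from two-transitivity on the `t i` (`exists_aut_pair`), the hypothesis `h2` being the conclusion of `minpoly_eq_of_embedding` for `F = toK A c`. -/
theorem lbl_T2 {r δ n : ℕ} (hr2 : 2 ≤ r) (A : Subring ℂ) (c : A[X]) (hc : c.Monic) (hr : c.natDegree = r)
    (hirr : Irreducible (toK A c)) (y : Fin (r + (r + δ)) → ℂˣ) (hy : ∏ j, (X - C (y j : ℂ)) = ((X - 1) ^ δ * pal r c).map A.subtype)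
    (G : A[X]) (hG : G.Monic) (x : Fin n → ℂˣ) (hx : G.map A.subtype = ∏ i, (X - C (x i : ℂ)))
    (e : Fin r ⊕ (Fin r ⊕ Fin δ) ≃ Fin (r + (r + δ))) (he : Lbl e y)
    (hce : c.map A.subtype = ∏ i, (X - C ((y (e (Sum.inl i)) : ℂ) + (y (e (Sum.inl i)) : ℂ)⁻¹)))
    (h2 : ∀ z w w' : ℂ, aeval z (toK A c) = 0 → aeval w (toK A c) = 0 → aeval w' (toK A c) = 0 → w ≠ z → w' ≠ z →
      minpoly (IntermediateField.adjoin (Subfield.closure (A : Set ℂ)) {z}) w =
        minpoly (IntermediateField.adjoin (Subfield.closure (A : Set ℂ)) {z}) w') :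
    T2 e x y := by
  intro i i' l l' hii hll
  have hFm := gjI_F (δ := δ) A c hc hr
  have hy' : (toK A ((X - 1) ^ δ * pal r c)).map (algebraMap (Subfield.closure (A : Set ℂ)) ℂ) = ∏ j, (X - C (y j : ℂ)) := by
    rw [toK_map, hy]
  have hGm : (toK A G).Monic := by
    rw [gjI_toK_eq]
    exact hG.map _
  have hx' : (toK A G).map (algebraMap (Subfield.closure (A : Set ℂ)) ℂ) = ∏ i, (X - C (x i : ℂ)) := by
    rw [toK_map, hx]
  have hcm' : (toK A c).Monic := by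
    rw [gjI_toK_eq]
    exact hc.map _
  have hyL := root_mem_closure _ _ hFm y hy'
  have ht := gjI_mem A c hc _ hce
  have hinj := gjI_inj A c hirr _ hce
  obtain ⟨τ, hτ, hτ'⟩ := exists_aut_pair (Subfield.closure (A : Set ℂ)) (toK A c) hcm' hirr h2 ⟨_, ht i⟩ ⟨_, ht i'⟩ ⟨_, ht l⟩ ⟨_, ht l'⟩
    (gjI_root A c _ hce i) (gjI_root A c _ hce i') (gjI_root A c _ hce l) (gjI_root A c _ hce l')
    (fun h => hii (hinj (congrArg Subtype.val h))) (fun h => hll (hinj (congrArg Subtype.val h)))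
  obtain ⟨π, ρ, hs, hρ⟩ := exists_relSym _ _ _ hFm hGm x hx' y hy' hyL τ
  refine ⟨π, ρ, hs, ?_, ?_⟩
  · have h5 := gjI_sum _ τ (y (e (Sum.inl i))) (y (ρ (e (Sum.inl i)))) (hyL _) (hρ _) (ht i)
    rw [hτ] at h5
    rcases gjI_two _ _ h5.symm with h6 | h6
    · exact Or.inl (he.inj h6)
    · right
      rw [← he.inv] at h6
      exact he.inj h6
  · have h5 := gjI_sum _ τ (y (e (Sum.inl i'))) (y (ρ (e (Sum.inl i')))) (hyL _) (hρ _) (ht i')
    rw [hτ'] at h5
    rcases gjI_two _ _ h5.symm with h6 | h6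
    · exact Or.inl (he.inj h6)
    · right
      rw [← he.inv] at h6
      exact he.inj h6

/-- Flips: `exists_flip` for `K' = ℚ_s`, `κ` an extension of `σ` (`extend_to_field` in `GalB`), and `exists_relSym`. The symmetry exchanges the elements of the blocks `i` with `e' i ∈ I` and fixes the `e (inl i)` of the others, where `I` is the set of the indices of the nonsquares and `e'` a permutation. -/
theorem lbl_flip {r δ n : ℕ} (A : Subring ℂ) (c : A[X]) (hc : c.Monic) (hr : c.natDegree = r)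
    (y : Fin (r + (r + δ)) → ℂˣ) (hy : ∏ j, (X - C (y j : ℂ)) = ((X - 1) ^ δ * pal r c).map A.subtype)
    (G : A[X]) (hG : G.Monic) (x : Fin n → ℂˣ) (hx : G.map A.subtype = ∏ i, (X - C (x i : ℂ)))
    (e : Fin r ⊕ (Fin r ⊕ Fin δ) ≃ Fin (r + (r + δ))) (he : Lbl e y)
    (hce : c.map A.subtype = ∏ i, (X - C ((y (e (Sum.inl i)) : ℂ) + (y (e (Sum.inl i)) : ℂ)⁻¹)))
    (K' : Type) [Field K'] [CharZero K'] (σ : A →+* K') (hσ : Function.Injective σ) (t : Fin r → K') (ht : c.map σ = ∏ i, (X - C (t i)))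
    (i₀ : Fin r) (hi₀ : ¬ IsSquare (t i₀ ^ 2 - 4))
    (hsq : ∀ i i', ¬ IsSquare (t i ^ 2 - 4) → ¬ IsSquare (t i' ^ 2 - 4) → IsSquare ((t i ^ 2 - 4) * (t i' ^ 2 - 4))) :
    ∃ (e' : Equiv.Perm (Fin r)) (π : Equiv.Perm (Fin n)) (ρ : Equiv.Perm (Fin (r + (r + δ)))), RelSym x y π ρ ∧ ∀ i,
      (¬ IsSquare (t (e' i) ^ 2 - 4) → ρ (e (Sum.inl i)) = e (Sum.inr (Sum.inl i))) ∧
      (IsSquare (t (e' i) ^ 2 - 4) → ρ (e (Sum.inl i)) = e (Sum.inl i)) := by
  obtain ⟨κ, hκ⟩ := extend_to_field A K' σ hσ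
  have hFm := gjI_F (δ := δ) A c hc hr
  have hy' : (toK A ((X - 1) ^ δ * pal r c)).map (algebraMap (Subfield.closure (A : Set ℂ)) ℂ) = ∏ j, (X - C (y j : ℂ)) := by
    rw [toK_map, hy]
  have hGm : (toK A G).Monic := by
    rw [gjI_toK_eq]
    exact hG.map _
  have hx' : (toK A G).map (algebraMap (Subfield.closure (A : Set ℂ)) ℂ) = ∏ i, (X - C (x i : ℂ)) := by
    rw [toK_map, hx]
  have hyL := root_mem_closure _ _ hFm y hy'
  obtain ⟨e', τ, hτ⟩ := exists_flip (Subfield.closure (A : Set ℂ)) K' κ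
    (fun i => (⟨y (e (Sum.inl i)), hyL _⟩ : algebraicClosure (Subfield.closure (A : Set ℂ)) ℂ))
    (fun i h => (y (e (Sum.inl i))).ne_zero (congrArg Subtype.val h)) (toK A c) (by rw [toK_map, hce]) t
    (by rw [toK_map_ext A c K' σ κ hκ, ht]) i₀ hi₀ hsq
  obtain ⟨π, ρ, hs, hρ⟩ := exists_relSym _ _ _ hFm hGm x hx' y hy' hyL τ
  refine ⟨e', π, ρ, hs, fun i => ⟨fun h => ?_, fun h => ?_⟩⟩
  · have h1 := hρ (e (Sum.inl i))
    rw [(hτ i).1 h] at h1
    apply he.inj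
    rw [he.inv]
    apply Units.ext
    rw [Units.val_inv_eq_inv_val, ← h1]
    rfl
  · have h1 := hρ (e (Sum.inl i))
    rw [(hτ i).2 h] at h1
    apply he.inj
    apply Units.ext
    rw [← h1]

end WCn
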