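import Mathlib

/-!
# Irreducibility, roots and splitting from the reduction (job PaI)
-/

open Polynomial

namespace WCn

variable {p : ℕ} [Fact p.Prime]

private theorem paI_pk (k : ℕ) : ((p : ℚ_[p]) ^ k) ≠ 0 :=
  pow_ne_zero _ (Nat.cast_ne_zero.mpr (Fact.out (p := p.Prime)).ne_zero)

/-- the norm of a `p`-adic integer with zero reduction -/
private theorem paI_norm_lt {x : ℤ_[p]} (hx : PadicInt.toZMod x = 0) : ‖x‖ < 1 := by
  have h1 : x ∈ RingHom.ker (PadicInt.toZMod : ℤ_[p] →+* ZMod p) := hx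
  rw [PadicInt.ker_toZMod] at h1
  exact PadicInt.mem_nonunits.mp ((IsLocalRing.mem_maximalIdeal _).mp h1)

private theorem paI_norm_eq {x : ℤ_[p]} (hx : PadicInt.toZMod x ≠ 0) : ‖x‖ = 1 := by
  by_contra hne
  have hlt : ‖x‖ < 1 := lt_of_le_of_ne (PadicInt.norm_le_one x) hne
  apply hx
  have h1 : x ∈ RingHom.ker (PadicInt.toZMod : ℤ_[p] →+* ZMod p) := by
    rw [PadicInt.ker_toZMod]
    exact (IsLocalRing.mem_maximalIdeal _).mpr (PadicInt.mem_nonunits.mpr hlt)
  exact h1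

private theorem paI_toZMod_eq_zero {x : ℤ_[p]} (hx : ‖x‖ < 1) : PadicInt.toZMod x = 0 := by
  by_contra h
  rw [paI_norm_eq h] at hx
  exact lt_irrefl _ hx

private theorem paI_comp_iff {K : Type*} [Field K] (f : K[X]) (b c : K) (hc : c ≠ 0) :
    Irreducible (f.comp (C b + C c * X)) ↔ Irreducible f := by
  let _ : Invertible c := invertibleOfNonzero hc
  have h : f.comp (C b + C c * X) = algEquivCMulXAddC c b f := by
    rw [algEquivCMulXAddC_apply, comp_eq_aeval, add_comm]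
  rw [h]
  exact MulEquiv.irreducible_iff (algEquivCMulXAddC c b)

/-- If `f (b + c S) = a (S - θ₀) H (S)` with `a ≠ 0`, `H` irreducible, then `b + c θ₀` is a root of `f` and `f / (X - (b + c θ₀))` is irreducible. -/
private theorem paI_root_comp {K : Type*} [Field K] (f : K[X]) (b c a : K) (hc : c ≠ 0) (ha : a ≠ 0)
    (θ₀ : K) (H : K[X]) (hH : Irreducible H) (h : f.comp (C b + C c * X) = C a * ((X - C θ₀) * H)) :
    f.IsRoot (b + c * θ₀) ∧ Irreducible (f /ₘ (X - C (b + c * θ₀))) := by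
  have hroot : f.IsRoot (b + c * θ₀) := by
    have h1 := congrArg (Polynomial.eval θ₀) h
    rw [eval_comp, eval_add, eval_C, eval_mul, eval_C, eval_X, eval_mul, eval_mul, eval_sub, eval_X, eval_C,
      eval_C, sub_self, zero_mul, mul_zero] at h1
    exact h1
  refine ⟨hroot, ?_⟩
  obtain ⟨g, hg⟩ : ∃ g, g = f /ₘ (X - C (b + c * θ₀)) := ⟨_, rfl⟩
  have h2 : (X - C (b + c * θ₀)) * g = f := by
    rw [hg]
    exact mul_divByMonic_eq_iff_isRoot.2 hroot
  rw [← hg]
  have h3 : C c * ((X - C θ₀) * g.comp (C b + C c * X)) = C a * ((X - C θ₀) * H) := by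
    rw [← h, ← h2, mul_comp, sub_comp, X_comp, C_comp]
    have h4 : (C b : K[X]) + C c * X - C (b + c * θ₀) = C c * (X - C θ₀) := by
      rw [C_add, C_mul]
      ring
    rw [h4]
    ring
  have h5 : (X - C θ₀) ≠ 0 := X_sub_C_ne_zero θ₀
  have h6 : C c * g.comp (C b + C c * X) = C a * H := by
    apply mul_left_cancel₀ h5
    calc (X - C θ₀) * (C c * g.comp (C b + C c * X)) = C c * ((X - C θ₀) * g.comp (C b + C c * X)) := by ring
      _ = C a * ((X - C θ₀) * H) := h3
      _ = _ := by ring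
  have hcu : IsUnit (C c : K[X]) := isUnit_C.2 (isUnit_iff_ne_zero.2 hc)
  have hau : IsUnit (C a : K[X]) := isUnit_C.2 (isUnit_iff_ne_zero.2 ha)
  rw [← paI_comp_iff g b c hc, ← irreducible_isUnit_mul hcu, h6, irreducible_isUnit_mul hau]
  exact hH

/-- the substitution over `ℚ_p` -/
private theorem paI_map (c Q : ℤ_[p][X]) (e f : ℕ)
    (h : c.comp (C 2 + C ((p : ℤ_[p]) ^ e) * X) = C ((p : ℤ_[p]) ^ f) * Q) :
    (c.map (algebraMap ℤ_[p] ℚ_[p])).comp (C 2 + C ((p : ℚ_[p]) ^ e) * X) =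
      C ((p : ℚ_[p]) ^ f) * Q.map (algebraMap ℤ_[p] ℚ_[p]) := by
  have hp : ∀ k : ℕ, algebraMap ℤ_[p] ℚ_[p] ((p : ℤ_[p]) ^ k) = (p : ℚ_[p]) ^ k := by
    intro k
    rw [map_pow, map_natCast]
  have h1 := congrArg (Polynomial.map (algebraMap ℤ_[p] ℚ_[p])) h
  rw [Polynomial.map_comp, Polynomial.map_add, Polynomial.map_mul, Polynomial.map_mul, Polynomial.map_C,
    Polynomial.map_C, Polynomial.map_C, Polynomial.map_X, hp, hp, map_ofNat] at h1
  exact h1

/-- `Q` is irreducible over `ℤ_p` and over `ℚ_p` (Gauss; compare `irreducible_of_lev` in `MP_c2b80f_alC/PolyA.lean`), and `c` is obtained from it by an affine substitution over `ℚ_p`. -/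
theorem irr_of_red (c Q : ℤ_[p][X]) (e f : ℕ) (hQ : Q.Monic)
    (h : c.comp (C 2 + C ((p : ℤ_[p]) ^ e) * X) = C ((p : ℤ_[p]) ^ f) * Q) (hirr : Irreducible (Q.map PadicInt.toZMod)) :
    Irreducible (c.map (algebraMap ℤ_[p] ℚ_[p])) := by
  have h1 : Irreducible Q := Monic.irreducible_of_irreducible_map (PadicInt.toZMod) _ hQ hirr
  have h2 : Irreducible (Q.map (algebraMap ℤ_[p] ℚ_[p])) :=
    (hQ.irreducible_iff_irreducible_map_fraction_map (K := ℚ_[p])).mp h1
  rw [← paI_comp_iff _ 2 _ (paI_pk (p := p) e), paI_map c Q e f h, irreducible_isUnit_mul]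
  · exact h2
  · exact (Polynomial.isUnit_C).mpr (IsUnit.mk0 _ (paI_pk f))

/-- Hensel's lemma for the simple root `a` of the reduction of `Q`; compare `root_of_lev` in `MP_c2b80f_alC/PolyA.lean` and `root_comp` in `PolyS.lean`. -/
theorem root_of_red (c Q : ℤ_[p][X]) (e f : ℕ) (hc : c.Monic) (hQ : Q.Monic)
    (h : c.comp (C 2 + C ((p : ℤ_[p]) ^ e) * X) = C ((p : ℤ_[p]) ^ f) * Q) (a : ZMod p) (H : (ZMod p)[X])
    (hQa : Q.map PadicInt.toZMod = (X - C a) * H) (hH : Irreducible H) (ha : H.eval a ≠ 0) :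
    ∃ θ : ℚ_[p], (c.map (algebraMap ℤ_[p] ℚ_[p])).IsRoot θ ∧ Irreducible (c.map (algebraMap ℤ_[p] ℚ_[p]) /ₘ (X - C θ)) := by
  obtain ⟨b, hb⟩ : ∃ b : ℤ_[p], PadicInt.toZMod b = a :=
    ZMod.ringHom_surjective (PadicInt.toZMod : ℤ_[p] →+* ZMod p) a
  have hev : ∀ (P : ℤ_[p][X]) (x : ℤ_[p]), PadicInt.toZMod (P.eval x) =
      (P.map PadicInt.toZMod).eval (PadicInt.toZMod x) := by
    intro P x
    rw [Polynomial.eval_map, Polynomial.eval₂_at_apply]
  have h1 : PadicInt.toZMod (Q.eval b) = 0 := by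
    rw [hev, hQa, hb, Polynomial.eval_mul, Polynomial.eval_sub, Polynomial.eval_X,
      Polynomial.eval_C, sub_self, zero_mul]
  have h2 : PadicInt.toZMod (Q.derivative.eval b) ≠ 0 := by
    rw [hev, ← Polynomial.derivative_map, hQa, hb, Polynomial.derivative_mul,
      Polynomial.derivative_sub, Polynomial.derivative_X, Polynomial.derivative_C,
      Polynomial.eval_add, Polynomial.eval_mul, Polynomial.eval_mul, Polynomial.eval_sub,
      Polynomial.eval_sub, Polynomial.eval_one, Polynomial.eval_zero, Polynomial.eval_X,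
      Polynomial.eval_C, sub_self, zero_mul, sub_zero, one_mul, add_zero]
    exact ha
  have hd : ‖Polynomial.aeval b (Q.derivative)‖ = 1 := by
    rw [Polynomial.coe_aeval_eq_eval]
    exact paI_norm_eq h2
  have hhen : ‖Polynomial.aeval b Q‖ < ‖Polynomial.aeval b (Q.derivative)‖ ^ 2 := by
    rw [hd, one_pow, Polynomial.coe_aeval_eq_eval]
    exact paI_norm_lt h1
  obtain ⟨z, hz0, hza, -, -⟩ := hensels_lemma hhen
  rw [hd] at hza
  have hzc : PadicInt.toZMod z = a := by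
    have := paI_toZMod_eq_zero hza
    rw [map_sub, sub_eq_zero] at this
    rw [this, hb]
  rw [Polynomial.coe_aeval_eq_eval] at hz0
  obtain ⟨G, hG⟩ : (X - C z) ∣ Q := Polynomial.dvd_iff_isRoot.mpr hz0
  have hGmon : G.Monic := by
    rw [hG] at hQ
    exact (Polynomial.monic_X_sub_C z).of_mul_monic_left hQ
  have hGH : G.map PadicInt.toZMod = H := by
    have h3 : (X - C a) * G.map PadicInt.toZMod = (X - C a) * H := by
      rw [← hQa, hG, Polynomial.map_mul, Polynomial.map_sub, Polynomial.map_X,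
        Polynomial.map_C, hzc]
    exact mul_left_cancel₀ (Polynomial.X_sub_C_ne_zero a) h3
  have hGirr : Irreducible G := by
    refine Monic.irreducible_of_irreducible_map (PadicInt.toZMod) _ hGmon ?_
    rw [hGH]; exact hH
  have hGq : Irreducible (G.map (algebraMap ℤ_[p] ℚ_[p])) :=
    (hGmon.irreducible_iff_irreducible_map_fraction_map (K := ℚ_[p])).mp hGirr
  have hcomp := paI_map c Q e f h
  rw [hG, Polynomial.map_mul, Polynomial.map_sub, Polynomial.map_X, Polynomial.map_C] at hcomp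
  exact ⟨_, paI_root_comp _ 2 _ _ (paI_pk e) (paI_pk f) _ _ hGq hcomp⟩

end WCn
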