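import Mathlib

/-!
# Splitting from the reduction (job PaS)
-/

open Polynomial

namespace WCn

variable {p : ℕ} [Fact p.Prime]

theorem paS_norm_lt_iff (x : ℤ_[p]) : ‖x‖ < 1 ↔ PadicInt.toZMod x = 0 := by
  rw [← PadicInt.mem_nonunits, ← IsLocalRing.mem_maximalIdeal, ← PadicInt.ker_toZMod, RingHom.mem_ker]

theorem paS_norm_eq_one {x : ℤ_[p]} (hx : PadicInt.toZMod x ≠ 0) : ‖x‖ = 1 := by
  refine le_antisymm (PadicInt.norm_le_one x) ?_
  by_contra h
  exact hx ((paS_norm_lt_iff x).1 (not_le.1 h))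

theorem paS_lift (a : ZMod p) : ∃ y : ℤ_[p], PadicInt.toZMod y = a := by
  have hne : NeZero p := ⟨(Fact.out : p.Prime).ne_zero⟩
  refine ⟨((a.val : ℕ) : ℤ_[p]), ?_⟩
  rw [map_natCast, ZMod.natCast_zmod_val]

/-- Hensel's lemma for simple roots of the reduction. -/
theorem paS_hensel (F : ℤ_[p][X]) (a : ZMod p) (h1 : (F.map PadicInt.toZMod).eval a = 0)
    (h2 : (derivative (F.map PadicInt.toZMod)).eval a ≠ 0) : ∃ z : ℤ_[p], F.eval z = 0 ∧ PadicInt.toZMod z = a := by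
  obtain ⟨y, hy⟩ := paS_lift a
  have e1 : PadicInt.toZMod (F.eval y) = 0 := by
    rw [← h1, ← hy, Polynomial.eval_map_apply]
  have e2 : PadicInt.toZMod (F.derivative.eval y) ≠ 0 := by
    rw [Polynomial.derivative_map, ← hy, Polynomial.eval_map_apply] at h2
    exact h2
  have n1 := (paS_norm_lt_iff _).2 e1
  have n2 := paS_norm_eq_one e2
  have hn : ‖F.aeval y‖ < ‖F.derivative.aeval y‖ ^ 2 := by
    rw [Polynomial.coe_aeval_eq_eval, n2, one_pow]
    exact n1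
  obtain ⟨z, hz1, hz2, -, -⟩ := hensels_lemma hn
  rw [Polynomial.coe_aeval_eq_eval] at hz1
  rw [Polynomial.coe_aeval_eq_eval, n2] at hz2
  refine ⟨z, hz1, ?_⟩
  have h3 := (paS_norm_lt_iff _).1 hz2
  rw [map_sub, hy] at h3
  exact sub_eq_zero.1 h3

theorem paS_two (hp : p ≠ 2) : (2 : ZMod p) ≠ 0 := by
  intro h
  have h1 : ((2 : ℕ) : ZMod p) = 0 := by exact_mod_cast h
  rw [ZMod.natCast_eq_zero_iff] at h1
  exact hp ((Nat.prime_dvd_prime_iff_eq (Fact.out : p.Prime) Nat.prime_two).1 h1)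

theorem paS_mul_sq {F : Type*} [Field F] {b x : F} (hb : b ≠ 0) : IsSquare (b ^ 2 * x) ↔ IsSquare x := by
  constructor
  · rintro ⟨y, hy⟩
    refine ⟨y / b, ?_⟩
    rw [div_mul_div_comm, ← hy, eq_div_iff (mul_ne_zero hb hb)]
    ring
  · rintro ⟨y, rfl⟩
    exact ⟨b * y, by ring⟩

theorem paS_nonsq {a b : ZMod p} (ha : ¬ IsSquare a) (hb : ¬ IsSquare b) : IsSquare (a * b) := by
  have ha0 : a ≠ 0 := by
    rintro rfl
    exact ha (IsSquare.zero)
  have hb0 : b ≠ 0 := by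
    rintro rfl
    exact hb (IsSquare.zero)
  rw [← quadraticChar_one_iff_isSquare (mul_ne_zero ha0 hb0), map_mul,
    quadraticChar_neg_one_iff_not_isSquare.2 ha, quadraticChar_neg_one_iff_not_isSquare.2 hb]
  norm_num

/-- A unit `u` of `ℤ_p` (`p` odd) is a square in `ℚ_p` iff its reduction is a square (Hensel's lemma for `X ^ 2 - u`). -/
theorem isSquare_unit_iff (hp : p ≠ 2) (u : ℤ_[p]) (hu : PadicInt.toZMod u ≠ 0) :
    IsSquare ((u : ℤ_[p]) : ℚ_[p]) ↔ IsSquare (PadicInt.toZMod u) := by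
  constructor
  · rintro ⟨x, hx⟩
    have hu1 := paS_norm_eq_one hu
    have hx1 : ‖x‖ ≤ 1 := by
      have h1 : ‖x‖ * ‖x‖ = 1 := by
        rw [← norm_mul, ← hx]
        exact hu1
      by_contra h2
      push Not at h2
      nlinarith
    refine ⟨PadicInt.toZMod ⟨x, hx1⟩, ?_⟩
    rw [← map_mul]
    congr 1
    exact Subtype.ext hx
  · rintro ⟨a, ha⟩
    have ha0 : a ≠ 0 := by
      rintro rfl
      rw [mul_zero] at ha
      exact hu ha
    obtain ⟨z, hz, -⟩ := paS_hensel (X ^ 2 - C u) a (by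
      rw [Polynomial.map_sub, Polynomial.map_pow, Polynomial.map_X, Polynomial.map_C, eval_sub, eval_pow, eval_X, eval_C, ha]
      ring) (by
      rw [Polynomial.map_sub, Polynomial.map_pow, Polynomial.map_X, Polynomial.map_C, derivative_sub, derivative_C, sub_zero,
        derivative_X_pow, eval_mul, eval_C, eval_pow, eval_X]
      exact mul_ne_zero (by exact_mod_cast paS_two hp) (pow_ne_zero _ ha0))
    rw [eval_sub, eval_pow, eval_X, eval_C, sub_eq_zero] at hz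
    refine ⟨(z : ℚ_[p]), ?_⟩
    rw [← hz]
    push_cast
    ring

/-- Let the reduction of `Q` be `∏ (X - a i)` with different `a i ≠ 0`. By Hensel's lemma `Q = ∏ (X - ω i)`, `ω i ≡ a i`. So `c = ∏ (X - t i)` with `t i = 2 + p ^ (2 k) ω i`, and `t i ^ 2 - 4 = p ^ (2 k) ω i (4 + p ^ (2 k) ω i)` is a square iff the unit `ω i (4 + p ^ (2 k) ω i) ≡ 4 a i` is a square
(`k ≥ 1`). The product of two nonsquares of `ZMod p` is a square. -/
theorem split_of_red (hp : p ≠ 2) {r : ℕ} (c Q : ℤ_[p][X]) (k f : ℕ) (hk : 1 ≤ k) (hc : c.Monic) (hcr : c.natDegree = r) (hQ : Q.Monic)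
    (h : c.comp (C 2 + C ((p : ℤ_[p]) ^ (2 * k)) * X) = C ((p : ℤ_[p]) ^ f) * Q) (a : Fin r → ZMod p) (hinj : Function.Injective a)
    (ha : ∀ i, a i ≠ 0) (hQa : Q.map PadicInt.toZMod = ∏ i, (X - C (a i))) :
    ∃ t : Fin r → ℚ_[p], c.map (algebraMap ℤ_[p] ℚ_[p]) = ∏ i, (X - C (t i)) ∧ (∀ i, IsSquare (t i ^ 2 - 4) ↔ IsSquare (a i)) ∧
      ∀ i i', ¬ IsSquare (a i) → ¬ IsSquare (a i') → IsSquare ((t i ^ 2 - 4) * (t i' ^ 2 - 4)) := by
  classical
  have hne2 := paS_two hp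
  have hroot : ∀ i, ∃ ω : ℤ_[p], Q.eval ω = 0 ∧ PadicInt.toZMod ω = a i := by
    intro i
    refine paS_hensel Q (a i) ?_ ?_
    · rw [hQa, eval_prod]
      refine Finset.prod_eq_zero (Finset.mem_univ i) ?_
      rw [eval_sub, eval_X, eval_C, sub_self]
    · rw [hQa, derivative_prod_finset, eval_finsetSum]
      rw [Finset.sum_eq_single i]
      · rw [eval_mul, eval_prod, derivative_X_sub_C, eval_one, mul_one]
        refine Finset.prod_ne_zero_iff.2 fun j hj => ?_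
        rw [eval_sub, eval_X, eval_C, sub_ne_zero]
        exact fun h1 => (Finset.mem_erase.1 hj).1 (hinj h1.symm)
      · intro j _ hji
        rw [eval_mul, eval_prod]
        have h1 : ∏ l ∈ Finset.univ.erase j, eval (a i) (X - C (a l)) = 0 := by
          refine Finset.prod_eq_zero (Finset.mem_erase.2 ⟨hji.symm, Finset.mem_univ i⟩) ?_
          rw [eval_sub, eval_X, eval_C, sub_self]
        rw [h1, zero_mul]
      · intro h1
        exact absurd (Finset.mem_univ i) h1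
  choose ω hω1 hω2 using hroot
  have hp0 : (p : ℤ_[p]) ^ (2 * k) ≠ 0 := pow_ne_zero _ (by exact_mod_cast (Fact.out : p.Prime).ne_zero)
  obtain ⟨t, ht⟩ : ∃ t : Fin r → ℤ_[p], ∀ i, t i = 2 + (p : ℤ_[p]) ^ (2 * k) * ω i := ⟨_, fun _ => rfl⟩
  have hct : ∀ i, c.eval (t i) = 0 := by
    intro i
    have h1 := congrArg (eval (ω i)) h
    rw [eval_comp, eval_add, eval_mul, eval_mul, eval_C, eval_C, eval_C, eval_X, hω1, mul_zero, ← ht] at h1
    exact h1
  have htinj : Function.Injective t := by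
    intro i j hij
    rw [ht, ht] at hij
    have h1 := mul_left_cancel₀ hp0 (add_left_cancel hij)
    apply hinj
    rw [← hω2 i, ← hω2 j, h1]
  have hcprod : c = ∏ i, (X - C (t i)) := by
    have hPm : (∏ i, (X - C (t i))).Monic := monic_prod_of_monic _ _ fun i _ => monic_X_sub_C _
    have hPd : (∏ i, (X - C (t i))).natDegree = r := by
      rw [natDegree_prod_of_monic _ _ fun i _ => monic_X_sub_C _]
      simp
    refine eq_of_degree_sub_lt_of_eval_index_eq (s := Finset.univ) (v := t) htinj.injOn ?_ ?_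
    · rw [Finset.card_univ, Fintype.card_fin]
      have h1 : c.degree = (r : WithBot ℕ) := by
        rw [degree_eq_natDegree hc.ne_zero, hcr]
      have h2 : (∏ i, (X - C (t i))).degree = (r : WithBot ℕ) := by
        rw [degree_eq_natDegree hPm.ne_zero, hPd]
      rw [← h1]
      exact degree_sub_lt_left (h1.trans h2.symm) hc.ne_zero (by rw [hc.leadingCoeff, hPm.leadingCoeff])
    · intro i _
      rw [hct, eval_prod]
      refine (Finset.prod_eq_zero (Finset.mem_univ i) ?_).symm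
      rw [eval_sub, eval_X, eval_C, sub_self]
  obtain ⟨u, hu⟩ : ∃ u : Fin r → ℤ_[p], ∀ i, u i = ω i * (4 + (p : ℤ_[p]) ^ (2 * k) * ω i) := ⟨_, fun _ => rfl⟩
  have hured : ∀ i, PadicInt.toZMod (u i) = 2 ^ 2 * a i := by
    intro i
    have h1 : PadicInt.toZMod ((p : ℤ_[p]) ^ (2 * k)) = 0 := by
      rw [map_pow, map_natCast, ZMod.natCast_self, zero_pow (by omega)]
    rw [hu, map_mul, map_add, map_mul, h1, zero_mul, add_zero, hω2, map_ofNat]
    ring
  have hured0 : ∀ i, PadicInt.toZMod (u i) ≠ 0 := by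
    intro i
    rw [hured]
    exact mul_ne_zero (pow_ne_zero _ hne2) (ha i)
  have hb0 : ((p : ℚ_[p]) ^ k) ≠ 0 := pow_ne_zero _ (by exact_mod_cast (Fact.out : p.Prime).ne_zero)
  have htsq : ∀ i, ((t i : ℤ_[p]) : ℚ_[p]) ^ 2 - 4 = ((p : ℚ_[p]) ^ k) ^ 2 * (u i : ℤ_[p]) := by
    intro i
    have c2 : ((2 : ℤ_[p]) : ℚ_[p]) = 2 := map_ofNat (PadicInt.Coe.ringHom (p := p)) 2
    have c4 : ((4 : ℤ_[p]) : ℚ_[p]) = 4 := map_ofNat (PadicInt.Coe.ringHom (p := p)) 4
    rw [hu, ht]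
    push_cast
    rw [c2, c4]
    ring
  have hmapprod : c.map (algebraMap ℤ_[p] ℚ_[p]) = ∏ i, (X - C ((t i : ℤ_[p]) : ℚ_[p])) := by
    conv_lhs => rw [hcprod]
    rw [Polynomial.map_prod]
    refine Finset.prod_congr rfl fun i _ => ?_
    rw [Polynomial.map_sub, Polynomial.map_X, Polynomial.map_C]
    rfl
  refine ⟨fun i => ((t i : ℤ_[p]) : ℚ_[p]), hmapprod, fun i => ?_, fun i j hi hj => ?_⟩
  · show IsSquare (((t i : ℤ_[p]) : ℚ_[p]) ^ 2 - 4) ↔ IsSquare (a i)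
    rw [htsq, paS_mul_sq hb0, isSquare_unit_iff hp _ (hured0 i), hured, paS_mul_sq hne2]
  · show IsSquare ((((t i : ℤ_[p]) : ℚ_[p]) ^ 2 - 4) * (((t j : ℤ_[p]) : ℚ_[p]) ^ 2 - 4))
    have h1 : (((t i : ℤ_[p]) : ℚ_[p]) ^ 2 - 4) * (((t j : ℤ_[p]) : ℚ_[p]) ^ 2 - 4) =
        ((p : ℚ_[p]) ^ k * (p : ℚ_[p]) ^ k) ^ 2 * ((u i * u j : ℤ_[p]) : ℚ_[p]) := by
      rw [htsq, htsq]
      push_cast
      ring
    have h2 : PadicInt.toZMod (u i * u j) = (2 * 2) ^ 2 * (a i * a j) := by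
      rw [map_mul, hured, hured]
      ring
    rw [h1, paS_mul_sq (mul_ne_zero hb0 hb0), isSquare_unit_iff hp _ (by
      rw [map_mul]
      exact mul_ne_zero (hured0 i) (hured0 j)), h2, paS_mul_sq (mul_ne_zero hne2 hne2)]
    exact paS_nonsq hi hj

end WCn
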