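import Pool.Agent.Lib.MP_c2b80f_alD.RjA

/-!
# Irreducibility and Schur's lemma from sign changes (job RjB)
-/

open Matrix

namespace WCn

variable {n r δ : ℕ} {e : Fin r ⊕ (Fin r ⊕ Fin δ) ≃ Fin (r + (r + δ))}

/-- The difference of the values at the two elements of block `i`. -/
private def RjB_a (e : Fin r ⊕ (Fin r ⊕ Fin δ) ≃ Fin (r + (r + δ))) (i : Fin r) (d : Fin (r + (r + δ)) → ℚ) : ℚ :=
  d (e (Sum.inl i)) - d (e (Sum.inr (Sum.inl i)))

private theorem RjB_mem (d : Fin (r + (r + δ)) → ℚ) : d ∈ SL e ↔ ∀ i, RjB_a e i d = 0 := by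
  constructor
  · intro h i
    have h1 : d (e (Sum.inl i)) = d (e (Sum.inr (Sum.inl i))) := h i
    unfold RjB_a
    rw [h1, sub_self]
  · intro h i
    have h1 : d (e (Sum.inl i)) - d (e (Sum.inr (Sum.inl i))) = 0 := h i
    exact sub_eq_zero.1 h1

private theorem RjB_add (i : Fin r) (d d' : Fin (r + (r + δ)) → ℚ) : RjB_a e i (d + d') = RjB_a e i d + RjB_a e i d' := by
  unfold RjB_a
  simp only [Pi.add_apply]
  ring

private theorem RjB_sub (i : Fin r) (d d' : Fin (r + (r + δ)) → ℚ) : RjB_a e i (d - d') = RjB_a e i d - RjB_a e i d' := by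
  unfold RjB_a
  simp only [Pi.sub_apply]
  ring

private theorem RjB_smul (i : Fin r) (c : ℚ) (d : Fin (r + (r + δ)) → ℚ) : RjB_a e i (c • d) = c * RjB_a e i d := by
  unfold RjB_a
  simp only [Pi.smul_apply, smul_eq_mul]
  ring

private theorem RjB_sum {ι : Type*} (s : Finset ι) (i : Fin r) (f : ι → Fin (r + (r + δ)) → ℚ) :
    RjB_a e i (∑ l ∈ s, f l) = ∑ l ∈ s, RjB_a e i (f l) := by
  unfold RjB_a
  simp only [Finset.sum_apply, Finset.sum_sub_distrib]

/-- The vector with values `1`, `-1` on block `i`. -/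
private def RjB_u (e : Fin r ⊕ (Fin r ⊕ Fin δ) ≃ Fin (r + (r + δ))) (i : Fin r) : Fin (r + (r + δ)) → ℚ :=
  fun j => (if j = e (Sum.inl i) then 1 else 0) - if j = e (Sum.inr (Sum.inl i)) then 1 else 0

private theorem RjB_au (i l : Fin r) : RjB_a e l (RjB_u e i) = if l = i then 2 else 0 := by
  unfold RjB_a RjB_u
  have h1 : (e (Sum.inl l) = e (Sum.inl i)) ↔ l = i := by
    rw [e.apply_eq_iff_eq]; exact ⟨fun h => Sum.inl.inj h, fun h => by rw [h]⟩
  have h2 : ¬ (e (Sum.inl l) = e (Sum.inr (Sum.inl i))) := by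
    rw [e.apply_eq_iff_eq]; exact fun h => by cases h
  have h3 : ¬ (e (Sum.inr (Sum.inl l)) = e (Sum.inl i)) := by
    rw [e.apply_eq_iff_eq]; exact fun h => by cases h
  have h4 : (e (Sum.inr (Sum.inl l)) = e (Sum.inr (Sum.inl i))) ↔ l = i := by
    rw [e.apply_eq_iff_eq]; exact ⟨fun h => Sum.inl.inj (Sum.inr.inj h), fun h => by rw [h]⟩
  simp only [h1, h2, h3, h4, if_false]
  split_ifs <;> norm_num

private theorem RjB_symm {x : Fin n → ℂˣ} {y : Fin (r + (r + δ)) → ℂˣ} (h : Lbl e y) {π : Equiv.Perm (Fin n)}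
    {ρ : Equiv.Perm (Fin (r + (r + δ)))} (hs : RelSym x y π ρ) (i l : Fin r)
    (hρ : ρ (e (Sum.inl i)) = e (Sum.inl l) ∨ ρ (e (Sum.inl i)) = e (Sum.inr (Sum.inl l))) (d : Fin (r + (r + δ)) → ℚ) :
    (ρ (e (Sum.inl i)) = e (Sum.inl l) → RjB_a e l (d ∘ ρ.symm) = RjB_a e i d) ∧
    (ρ (e (Sum.inl i)) = e (Sum.inr (Sum.inl l)) → RjB_a e l (d ∘ ρ.symm) = -RjB_a e i d) := by
  have hb := relSym_block h hs i l
  constructor
  · intro h1
    have h2 := hb.1 h1
    unfold RjB_a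
    simp only [Function.comp_apply]
    rw [(Equiv.symm_apply_eq ρ).2 h1.symm, (Equiv.symm_apply_eq ρ).2 h2.symm]
  · intro h1
    have h2 := hb.2 h1
    unfold RjB_a
    simp only [Function.comp_apply]
    rw [(Equiv.symm_apply_eq ρ).2 h1.symm, (Equiv.symm_apply_eq ρ).2 h2.symm]
    ring

private theorem RjB_kill {x : Fin n → ℂˣ} {y : Fin (r + (r + δ)) → ℂˣ} (h : Lbl e y) (hF : Fl e x y)
    {W : Submodule ℚ (Fin (r + (r + δ)) → ℚ)}
    (hst : ∀ π ρ, RelSym x y π ρ → ∀ d ∈ W, d ∘ ρ.symm ∈ W) (i : Fin r) (L : Finset (Fin r)) :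
    i ∉ L → (∃ d ∈ W, RjB_a e i d ≠ 0) → ∃ d ∈ W, RjB_a e i d ≠ 0 ∧ ∀ l ∈ L, RjB_a e l d = 0 := by
  induction L using Finset.induction_on with
  | empty =>
    intro _ ⟨d, hd, h1⟩
    exact ⟨d, hd, h1, fun l hl => absurd hl (Finset.notMem_empty l)⟩
  | insert l L hl ih =>
    intro hi hd
    have hil : i ≠ l := fun h1 => hi (h1 ▸ Finset.mem_insert_self _ _)
    obtain ⟨d, hdW, h1, h2⟩ := ih (fun h3 => hi (Finset.mem_insert_of_mem h3)) hd
    obtain ⟨π, ρ, hs, h3, h4, h5⟩ := hF l i (Ne.symm hil)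
    refine ⟨d + d ∘ ρ.symm, W.add_mem hdW (hst π ρ hs d hdW), ?_, fun l' hl' => ?_⟩
    · rw [RjB_add, (RjB_symm h hs i i (Or.inl h4) d).1 h4]
      intro h6
      apply h1
      linarith
    · rw [RjB_add]
      rcases Finset.mem_insert.1 hl' with rfl | hl''
      · rw [(RjB_symm h hs l' l' (Or.inr h3) d).2 h3, add_neg_cancel]
      · have h6 := h2 l' hl''
        rcases h5 l' with h7 | h7
        · rw [(RjB_symm h hs l' l' (Or.inl h7) d).1 h7, h6, add_zero]
        · rw [(RjB_symm h hs l' l' (Or.inr h7) d).2 h7, h6, neg_zero, add_zero]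

private theorem RjB_unit {x : Fin n → ℂˣ} {y : Fin (r + (r + δ)) → ℂˣ} (h : Lbl e y) (hF : Fl e x y)
    {W : Submodule ℚ (Fin (r + (r + δ)) → ℚ)} (hSW : SL e ≤ W)
    (hst : ∀ π ρ, RelSym x y π ρ → ∀ d ∈ W, d ∘ ρ.symm ∈ W) (i : Fin r) (hd : ∃ d ∈ W, RjB_a e i d ≠ 0) :
    RjB_u e i ∈ W := by
  obtain ⟨d, hdW, h1, h2⟩ := RjB_kill h hF hst i (Finset.univ.erase i) (Finset.notMem_erase i _) hd
  have h3 : d - (RjB_a e i d / 2) • RjB_u e i ∈ SL e := by
    rw [RjB_mem]
    intro l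
    rw [RjB_sub, RjB_smul, RjB_au]
    by_cases hl : l = i
    · subst hl
      rw [if_pos rfl]
      ring
    · rw [if_neg hl, h2 l (Finset.mem_erase.2 ⟨hl, Finset.mem_univ l⟩)]
      ring
  have h4 : (RjB_a e i d / 2) • RjB_u e i ∈ W := by
    have h5 := W.sub_mem hdW (hSW h3)
    rwa [sub_sub_cancel] at h5
  have h5 : RjB_a e i d / 2 ≠ 0 := div_ne_zero h1 two_ne_zero
  exact (Submodule.smul_mem_iff W h5).1 h4

/-- Proof. Let `W ≥ SL e` be stable, `W ≠ SL e`. For `d ∈ W` let `d⁻` be its antisymmetric part (`d⁻` has values `± (d (e (inl i)) - d (e (inr (inl i)))) / 2` on block `i` and `0` on `e (inr (inr _))`); `d - d⁻ ∈ SL e`, so `d⁻ ∈ W`. Take `0 ≠ d ∈ W` antisymmetric with the smallest number of blocks in its support.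
If there are two blocks `i ≠ l` in the support, take `ρ` from `Fl` for `(i, l)`: `d - d ∘ ρ.symm ∈ W` is antisymmetric, vanishes on block `l` and outside the support of `d`, and is `2 d ≠ 0` on block `i`: contradiction. So the support is one block `i`, `e_{e (inl i)} - e_{e (inr (inl i))} ∈ W`, and by `T1` the
same for all blocks. So `W` contains all antisymmetric vectors and `SL e`, `W = ⊤`. -/
theorem hIrr_of_flips {x : Fin n → ℂˣ} {y : Fin (r + (r + δ)) → ℂˣ} (h : Lbl e y) (hT : T1 e x y) (hF : Fl e x y) : HIrr x y (SL e) := by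
  intro W hSW hst
  by_cases hW : ∀ d ∈ W, ∀ i, RjB_a e i d = 0
  · left
    exact le_antisymm (fun d hd => (RjB_mem d).2 (hW d hd)) hSW
  · right
    push Not at hW
    obtain ⟨d, hd, i, hi⟩ := hW
    have h1 : ∀ l, RjB_u e l ∈ W := by
      intro l
      obtain ⟨π, ρ, hs, hρ⟩ := hT i l
      refine RjB_unit h hF hSW hst l ⟨d ∘ ρ.symm, hst π ρ hs d hd, ?_⟩
      have h2 := RjB_symm h hs i l hρ d
      rcases hρ with h3 | h3
      · rw [h2.1 h3]; exact hi
      · rw [h2.2 h3]; exact neg_ne_zero.2 hi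
    rw [eq_top_iff]
    intro c _
    have h2 : c - ∑ l, (RjB_a e l c / 2) • RjB_u e l ∈ SL e := by
      rw [RjB_mem]
      intro l
      rw [RjB_sub, RjB_sum]
      have h3 : ∀ l' ∈ (Finset.univ : Finset (Fin r)), RjB_a e l ((RjB_a e l' c / 2) • RjB_u e l') =
          if l = l' then RjB_a e l c else 0 := by
        intro l' _
        rw [RjB_smul, RjB_au]
        by_cases hl : l = l'
        · subst hl
          rw [if_pos rfl, if_pos rfl]
          ring
        · rw [if_neg hl, if_neg hl, mul_zero]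
      rw [Finset.sum_congr rfl h3, Finset.sum_ite_eq, if_pos (Finset.mem_univ l), sub_self]
    have h3 : ∑ l, (RjB_a e l c / 2) • RjB_u e l ∈ W := W.sum_mem fun l _ => W.smul_mem _ (h1 l)
    have h4 := W.add_mem (hSW h2) h3
    rwa [sub_add_cancel] at h4

private theorem RjB_sumE {M : Type*} [AddCommMonoid M] (f : Fin (r + (r + δ)) → M) :
    ∑ j, f j = ∑ i, f (e (Sum.inl i)) + (∑ i, f (e (Sum.inr (Sum.inl i))) + ∑ i, f (e (Sum.inr (Sum.inr i)))) := by
  rw [← Equiv.sum_comp e, Fintype.sum_sum_type, Fintype.sum_sum_type]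

/-- Proof. `D d = 0` for `d = e_{e (inl l)} + e_{e (inr (inl l))}` and for `d = e_{e (inr (inr i))}` (all are in `SL e`): so `D j (e (inr (inl l))) = - D j (e (inl l))` and `D j (e (inr (inr i))) = 0`. For `i ≠ l` take `ρ` from `Fl` for `(l, i)`: `D (e (inl i)) (e (inl l)) = D (ρ ..) (ρ ..) = D (e (inl i)) (e (inr (inl l))) = - D (e (inl i)) (e (inl l))`, so it is `0`.
By `T1` (and `D (e (inr (inl l))) (e (inr (inl l))) = D (e (inl l)) (e (inl l))`, apply the antisymmetry twice) all `D (e (inl l)) (e (inl l)) = a`. If `w` is orthogonal to `SL e` then `w (e (inr (inl l))) = - w (e (inl l))`, `w (e (inr (inr i))) = 0`, and `∑ D j l w j w l = ∑_blocks (a w² - 2 (-a) w² + a w²)`: with `w_j = w (e (inl l))`: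
`D` on the block is `[[a, -a], [-a, a]]`, the contribution is `4 a w_j²`, and `∑ w² = ∑_blocks 2 w_j²`. So `β = 2 a`. -/
theorem hSchur_of_flips {x : Fin n → ℂˣ} {y : Fin (r + (r + δ)) → ℂˣ} (h : Lbl e y) (hT : T1 e x y) (hF : Fl e x y) : HSchur x y (SL e) := by
  intro D hsym hinv hker
  -- the vectors of `SL e`
  have hv1 : ∀ l : Fin r, (Pi.single (e (Sum.inl l)) 1 + Pi.single (e (Sum.inr (Sum.inl l))) 1 : Fin (r + (r + δ)) → ℚ) ∈ SL e := by
    intro l i
    simp only [Pi.add_apply, Pi.single_apply, e.apply_eq_iff_eq, Sum.inl.injEq, Sum.inr.injEq, reduceCtorEq, if_false,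
      add_zero, zero_add]
  have hv2 : ∀ i : Fin δ, (Pi.single (e (Sum.inr (Sum.inr i))) 1 : Fin (r + (r + δ)) → ℚ) ∈ SL e := by
    intro l i
    simp only [Pi.single_apply, e.apply_eq_iff_eq, Sum.inr.injEq, reduceCtorEq, if_false]
  have hB : ∀ j l, D j (e (Sum.inr (Sum.inl l))) = -D j (e (Sum.inl l)) := by
    intro j l
    have h1 := congrFun (hker _ (hv1 l)) j
    rw [Matrix.mulVec_add, Matrix.mulVec_single_one, Matrix.mulVec_single_one] at h1
    have h2 : D j (e (Sum.inl l)) + D j (e (Sum.inr (Sum.inl l))) = 0 := h1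
    linarith
  have hO : ∀ j i, D j (e (Sum.inr (Sum.inr i))) = 0 := by
    intro j i
    have h1 := congrFun (hker _ (hv2 i)) j
    rw [Matrix.mulVec_single_one] at h1
    exact h1
  have hoff : ∀ i l, i ≠ l → D (e (Sum.inl i)) (e (Sum.inl l)) = 0 := by
    intro i l hil
    obtain ⟨π, ρ, hs, h3, h4, -⟩ := hF l i (Ne.symm hil)
    have h5 := hinv π ρ hs (e (Sum.inl i)) (e (Sum.inl l))
    rw [h3, h4, hB] at h5
    linarith
  have hdiag : ∀ i l, D (e (Sum.inl i)) (e (Sum.inl i)) = D (e (Sum.inl l)) (e (Sum.inl l)) := by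
    intro i l
    obtain ⟨π, ρ, hs, h3⟩ := hT i l
    have h5 := hinv π ρ hs (e (Sum.inl i)) (e (Sum.inl i))
    rcases h3 with h3 | h3
    · rw [h3] at h5
      exact h5.symm
    · rw [h3, hB, hsym, hB, neg_neg] at h5
      exact h5.symm
  obtain ⟨a, ha⟩ : ∃ a : ℚ, ∀ i, D (e (Sum.inl i)) (e (Sum.inl i)) = a := by
    rcases isEmpty_or_nonempty (Fin r) with h0 | ⟨⟨i₀⟩⟩
    · exact ⟨0, fun i => (h0.false i).elim⟩
    · exact ⟨D (e (Sum.inl i₀)) (e (Sum.inl i₀)), fun i => hdiag i i₀⟩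
  have hAA : ∀ i l, D (e (Sum.inl i)) (e (Sum.inl l)) = if i = l then a else 0 := by
    intro i l
    by_cases hil : i = l
    · subst hil
      rw [if_pos rfl, ha]
    · rw [if_neg hil, hoff i l hil]
  refine ⟨2 * a, fun w hw => ?_⟩
  have hwB : ∀ l, w (e (Sum.inr (Sum.inl l))) = -w (e (Sum.inl l)) := by
    intro l
    have h1 := hw _ (hv1 l)
    have h2 : ∀ j, (((Pi.single (e (Sum.inl l)) 1 + Pi.single (e (Sum.inr (Sum.inl l))) 1 : Fin (r + (r + δ)) → ℚ) j : ℚ) : ℝ) * w j =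
        (if j = e (Sum.inl l) then w j else 0) + if j = e (Sum.inr (Sum.inl l)) then w j else 0 := by
      intro j
      simp only [Pi.add_apply, Pi.single_apply]
      push_cast
      rw [add_mul]
      split_ifs <;> simp
    rw [Finset.sum_congr rfl fun j _ => h2 j, Finset.sum_add_distrib, Finset.sum_ite_eq', Finset.sum_ite_eq',
      if_pos (Finset.mem_univ _), if_pos (Finset.mem_univ _)] at h1
    linarith
  have hwO : ∀ i, w (e (Sum.inr (Sum.inr i))) = 0 := by
    intro i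
    have h1 := hw _ (hv2 i)
    have h2 : ∀ j, (((Pi.single (e (Sum.inr (Sum.inr i))) 1 : Fin (r + (r + δ)) → ℚ) j : ℚ) : ℝ) * w j =
        if j = e (Sum.inr (Sum.inr i)) then w j else 0 := by
      intro j
      simp only [Pi.single_apply]
      split_ifs <;> simp
    rw [Finset.sum_congr rfl fun j _ => h2 j, Finset.sum_ite_eq', if_pos (Finset.mem_univ _)] at h1
    exact h1
  have hin : ∀ j, ∑ l, (D j l : ℝ) * w j * w l = ∑ l, 2 * ((D j (e (Sum.inl l)) : ℝ) * w j * w (e (Sum.inl l))) := by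
    intro j
    rw [RjB_sumE (e := e)]
    have h1 : ∀ l, (D j (e (Sum.inr (Sum.inl l))) : ℝ) * w j * w (e (Sum.inr (Sum.inl l))) =
        (D j (e (Sum.inl l)) : ℝ) * w j * w (e (Sum.inl l)) := by
      intro l
      rw [hB, hwB]
      push_cast
      ring
    have h2 : ∀ l, (D j (e (Sum.inr (Sum.inr l))) : ℝ) * w j * w (e (Sum.inr (Sum.inr l))) = 0 := by
      intro l
      rw [hwO, mul_zero]
    rw [Finset.sum_congr rfl fun l _ => h1 l, Finset.sum_congr rfl fun l _ => h2 l, Finset.sum_const_zero, add_zero,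
      ← Finset.sum_add_distrib]
    exact Finset.sum_congr rfl fun l _ => by ring
  rw [Finset.sum_congr rfl fun j _ => hin j, RjB_sumE (e := e), RjB_sumE (e := e) fun j => w j ^ 2]
  have hA : ∀ i, ∑ l, 2 * ((D (e (Sum.inl i)) (e (Sum.inl l)) : ℝ) * w (e (Sum.inl i)) * w (e (Sum.inl l))) =
      2 * a * w (e (Sum.inl i)) ^ 2 := by
    intro i
    rw [Finset.sum_eq_single i]
    · rw [hAA, if_pos rfl]
      ring
    · intro l _ hl
      rw [hAA, if_neg (Ne.symm hl)]
      push_cast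
      ring
    · intro h1
      exact absurd (Finset.mem_univ i) h1
  have hBs : ∀ i, ∑ l, 2 * ((D (e (Sum.inr (Sum.inl i))) (e (Sum.inl l)) : ℝ) * w (e (Sum.inr (Sum.inl i))) * w (e (Sum.inl l))) =
      2 * a * w (e (Sum.inl i)) ^ 2 := by
    intro i
    rw [← hA i]
    refine Finset.sum_congr rfl fun l _ => ?_
    rw [hsym (e (Sum.inr (Sum.inl i))), hB, hwB, hsym (e (Sum.inl l))]
    push_cast
    ring
  have hOs : ∀ i, ∑ l, 2 * ((D (e (Sum.inr (Sum.inr i))) (e (Sum.inl l)) : ℝ) * w (e (Sum.inr (Sum.inr i))) * w (e (Sum.inl l))) = 0 := by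
    intro i
    refine Finset.sum_eq_zero fun l _ => ?_
    rw [hwO]
    ring
  rw [Finset.sum_congr rfl fun i _ => hA i, Finset.sum_congr rfl fun i _ => hBs i, Finset.sum_congr rfl fun i _ => hOs i,
    Finset.sum_const_zero, add_zero]
  have h1 : ∀ i, w (e (Sum.inr (Sum.inl i))) ^ 2 = w (e (Sum.inl i)) ^ 2 := fun i => by rw [hwB]; ring
  have h2 : ∀ i, w (e (Sum.inr (Sum.inr i))) ^ 2 = 0 := fun i => by rw [hwO]; ring
  rw [Finset.sum_congr rfl fun i _ => h1 i, Finset.sum_congr rfl fun i _ => h2 i, Finset.sum_const_zero, add_zero,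
    ← Finset.mul_sum]
  push_cast
  ring

end WCn
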