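import Pool.Agent.Lib.MP_c2b80f_alD.RjA

/-!
# Sign changes from a single or a double flip (job RjC)
-/

namespace WCn

variable {n r δ : ℕ} {e : Fin r ⊕ (Fin r ⊕ Fin δ) ≃ Fin (r + (r + δ))}

/-- `ρ` moves block `a` to block `b`. -/
private def RjC_mv (e : Fin r ⊕ (Fin r ⊕ Fin δ) ≃ Fin (r + (r + δ))) (ρ : Equiv.Perm (Fin (r + (r + δ)))) (a b : Fin r) : Prop :=
  ρ (e (Sum.inl a)) = e (Sum.inl b) ∨ ρ (e (Sum.inl a)) = e (Sum.inr (Sum.inl b))

private theorem RjC_ai {α : Type*} (ρ : Equiv.Perm α) (a : α) : ρ (ρ⁻¹ a) = a := by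
  rw [← Equiv.Perm.mul_apply, mul_inv_cancel, Equiv.Perm.one_apply]

private theorem RjC_ia {α : Type*} (ρ : Equiv.Perm α) (a : α) : ρ⁻¹ (ρ a) = a := by
  rw [← Equiv.Perm.mul_apply, inv_mul_cancel, Equiv.Perm.one_apply]

private theorem RjC_mv_unique {ρ : Equiv.Perm (Fin (r + (r + δ)))} {a b b' : Fin r} (h : RjC_mv e ρ a b) (h' : RjC_mv e ρ a b') : b = b' := by
  rcases h with h | h <;> rcases h' with h' | h'
  · exact Sum.inl_injective (e.injective (h.symm.trans h'))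
  · exact absurd (e.injective (h.symm.trans h')) (by simp)
  · exact absurd (e.injective (h.symm.trans h')) (by simp)
  · exact Sum.inl_injective (Sum.inr_injective (e.injective (h.symm.trans h')))

private theorem RjC_mv_exists {x : Fin n → ℂˣ} {y : Fin (r + (r + δ)) → ℂˣ} (h : Lbl e y) {π : Equiv.Perm (Fin n)} {ρ : Equiv.Perm (Fin (r + (r + δ)))}
    (hs : RelSym x y π ρ) (b : Fin r) : ∃ a, RjC_mv e ρ a b := by
  have hi := relSym_inv x y hs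
  obtain ⟨a, ha | ha⟩ := relSym_inl h hi b
  · exact ⟨a, Or.inl (by rw [← ha, RjC_ai])⟩
  · have h1 := (relSym_block h hi b a).2 ha
    exact ⟨a, Or.inr (by rw [← h1, RjC_ai])⟩

private theorem RjC_flip {x : Fin n → ℂˣ} {y : Fin (r + (r + δ)) → ℂˣ} (h : Lbl e y) {π π₀ : Equiv.Perm (Fin n)} {ρ ρ₀ : Equiv.Perm (Fin (r + (r + δ)))}
    (hs : RelSym x y π ρ) (hs₀ : RelSym x y π₀ ρ₀) {a b : Fin r} (hm : RjC_mv e ρ a b) (h₀ : ρ₀ (e (Sum.inl a)) = e (Sum.inr (Sum.inl a))) :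
    (ρ * ρ₀ * ρ⁻¹) (e (Sum.inl b)) = e (Sum.inr (Sum.inl b)) := by
  rcases hm with hm | hm
  · have h1 : ρ⁻¹ (e (Sum.inl b)) = e (Sum.inl a) := by rw [← hm, RjC_ia]
    rw [Equiv.Perm.mul_apply, Equiv.Perm.mul_apply, h1, h₀]
    exact (relSym_block h hs a b).1 hm
  · have h2 := (relSym_block h hs a b).2 hm
    have h1 : ρ⁻¹ (e (Sum.inl b)) = e (Sum.inr (Sum.inl a)) := by rw [← h2, RjC_ia]
    rw [Equiv.Perm.mul_apply, Equiv.Perm.mul_apply, h1, (relSym_block h hs₀ a a).2 h₀]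
    exact hm

private theorem RjC_fix {x : Fin n → ℂˣ} {y : Fin (r + (r + δ)) → ℂˣ} (h : Lbl e y) {π π₀ : Equiv.Perm (Fin n)} {ρ ρ₀ : Equiv.Perm (Fin (r + (r + δ)))}
    (hs : RelSym x y π ρ) (hs₀ : RelSym x y π₀ ρ₀) {a b : Fin r} (hm : RjC_mv e ρ a b) (h₀ : ρ₀ (e (Sum.inl a)) = e (Sum.inl a)) :
    (ρ * ρ₀ * ρ⁻¹) (e (Sum.inl b)) = e (Sum.inl b) := by
  rcases hm with hm | hm
  · have h1 : ρ⁻¹ (e (Sum.inl b)) = e (Sum.inl a) := by rw [← hm, RjC_ia]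
    rw [Equiv.Perm.mul_apply, Equiv.Perm.mul_apply, h1, h₀]
    exact hm
  · have h2 := (relSym_block h hs a b).2 hm
    have h1 : ρ⁻¹ (e (Sum.inl b)) = e (Sum.inr (Sum.inl a)) := by rw [← h2, RjC_ia]
    rw [Equiv.Perm.mul_apply, Equiv.Perm.mul_apply, h1, (relSym_block h hs₀ a a).1 h₀]
    exact h2

private theorem RjC_other (a b : Fin r) (hr : 3 ≤ r) : ∃ c : Fin r, c ≠ a ∧ c ≠ b := by
  by_contra hc
  push Not at hc
  have h1 : (Finset.univ : Finset (Fin r)) ⊆ {a, b} := by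
    intro c _
    by_cases hca : c = a
    · simp [hca]
    · simp [hc c hca]
  have h2 := Finset.card_le_card h1
  have h3 : ({a, b} : Finset (Fin r)).card ≤ 2 := Finset.card_le_two
  rw [Finset.card_univ, Fintype.card_fin] at h2
  omega

/-- Types `B`, `C`. Let `ρ₀` exchange the two elements of block `i₀` and fix the other `e (inl i)`. Let `i ≠ l`; take `ρ` from `T1` moving block `i₀` to block `i`; then `ρ ρ₀ ρ⁻¹` (`relSym_mul`, `relSym_inv`, `relSym_block`) exchanges the elements of block `i` and fixes those of all other blocks. -/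
theorem fl_of_single {x : Fin n → ℂˣ} {y : Fin (r + (r + δ)) → ℂˣ} (h : Lbl e y) (hT : T1 e x y) (i₀ : Fin r)
    (h₀ : ∃ π ρ, RelSym x y π ρ ∧ ρ (e (Sum.inl i₀)) = e (Sum.inr (Sum.inl i₀)) ∧ ∀ i, i ≠ i₀ → ρ (e (Sum.inl i)) = e (Sum.inl i)) : Fl e x y := by
  intro i l hil
  obtain ⟨π₀, ρ₀, hs₀, hf, hx⟩ := h₀
  obtain ⟨π, ρ, hs, hm⟩ := hT i₀ i
  have hother : ∀ b, b ≠ i → (ρ * ρ₀ * ρ⁻¹) (e (Sum.inl b)) = e (Sum.inl b) := by
    intro b hb
    obtain ⟨a, ha⟩ := RjC_mv_exists h hs b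
    have hai : a ≠ i₀ := by
      rintro rfl
      exact hb (RjC_mv_unique ha hm)
    exact RjC_fix h hs hs₀ ha (hx a hai)
  have hflip := RjC_flip h hs hs₀ hm hf
  refine ⟨π * π₀ * π⁻¹, ρ * ρ₀ * ρ⁻¹, relSym_mul x y (relSym_mul x y hs hs₀) (relSym_inv x y hs), hflip, hother l (Ne.symm hil), ?_⟩
  intro i'
  by_cases hi' : i' = i
  · rw [hi']
    exact Or.inr hflip
  · exact Or.inl (hother i' hi')

/-- Type `D`. Let `ρ₀` exchange the elements of the two blocks `i₀ ≠ i₁` and fix the others. Let `i ≠ l`; choose `l' ≠ i, l` (`3 ≤ r`) and `ρ` from `T2` moving the blocks `(i₀, i₁)` to `(i, l')`; then `ρ ρ₀ ρ⁻¹` exchanges the elements of the blocks `i`, `l'` and fixes those of all other blocks, in particular of `l`. `T1` follows from `T2`. -/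
theorem fl_of_double (hr : 3 ≤ r) {x : Fin n → ℂˣ} {y : Fin (r + (r + δ)) → ℂˣ} (h : Lbl e y) (hT : T2 e x y) (i₀ i₁ : Fin r) (hne : i₀ ≠ i₁)
    (h₀ : ∃ π ρ, RelSym x y π ρ ∧ ρ (e (Sum.inl i₀)) = e (Sum.inr (Sum.inl i₀)) ∧ ρ (e (Sum.inl i₁)) = e (Sum.inr (Sum.inl i₁)) ∧
      ∀ i, i ≠ i₀ → i ≠ i₁ → ρ (e (Sum.inl i)) = e (Sum.inl i)) : T1 e x y ∧ Fl e x y := by
  constructor
  · intro i l
    obtain ⟨i', hi', -⟩ := RjC_other i i hr
    obtain ⟨l', hl', -⟩ := RjC_other l l hr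
    obtain ⟨π, ρ, hs, hm, -⟩ := hT i i' l l' (Ne.symm hi') (Ne.symm hl')
    exact ⟨π, ρ, hs, hm⟩
  · intro i l hil
    obtain ⟨π₀, ρ₀, hs₀, hf, hf', hx⟩ := h₀
    obtain ⟨l', hl'i, hl'l⟩ := RjC_other i l hr
    obtain ⟨π, ρ, hs, hm, hm'⟩ := hT i₀ i₁ i l' hne (Ne.symm hl'i)
    have hother : ∀ b, b ≠ i → b ≠ l' → (ρ * ρ₀ * ρ⁻¹) (e (Sum.inl b)) = e (Sum.inl b) := by
      intro b hb hb'
      obtain ⟨a, ha⟩ := RjC_mv_exists h hs b
      have hai : a ≠ i₀ := by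
        rintro rfl
        exact hb (RjC_mv_unique ha hm)
      have hai' : a ≠ i₁ := by
        rintro rfl
        exact hb' (RjC_mv_unique ha hm')
      exact RjC_fix h hs hs₀ ha (hx a hai hai')
    have hflip := RjC_flip h hs hs₀ hm hf
    have hflip' := RjC_flip h hs hs₀ hm' hf'
    refine ⟨π * π₀ * π⁻¹, ρ * ρ₀ * ρ⁻¹, relSym_mul x y (relSym_mul x y hs hs₀) (relSym_inv x y hs), hflip, hother l (Ne.symm hil) (Ne.symm hl'l), ?_⟩
    intro i'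
    by_cases hi' : i' = i
    · rw [hi']
      exact Or.inr hflip
    · by_cases hi'' : i' = l'
      · rw [hi'']
        exact Or.inr hflip'
      · exact Or.inl (hother i' hi' hi'')

end WCn
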