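import Pool.Agent.Lib.MP_c2b80f_alD.GjP
import Pool.Agent.Lib.MP_c2b80f_alD.GjI
import Pool.Agent.Lib.MP_c2b80f_alD.PaI
import Pool.Agent.Lib.MP_c2b80f_alD.PaS
import Pool.Agent.Lib.MP_c2b80f_alD.RjB
import Pool.Agent.Lib.MP_c2b80f_alD.RjC
import Pool.Agent.Lib.MP_c2b80f_alC.LevC
import Pool.Agent.Lib.MP_c2b80f_alC.DiagA
import Pool.Agent.Lib.MP_c2b80f_alC.SpecD

/-!
# Generic elements of symplectic and odd orthogonal groups from levels (job GjA)
-/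

open Matrix Polynomial

namespace WCn

/-- A semisimple criterion: `c` irreducible over `k`, `2 ≤ r`: all `m` eigenvalues of `ψ γ` are different, so `ψ γ` is semisimple (`exists_diagBy`), and `γ` has infinite order if it has a level `X₁ ≠ 0` at `p ≠ 2` (`Lev.pow_ne_one`).
(`charpoly` splits over `ℂ`: `y` = the family of its roots, nonzero because `det = 1`; `lbl_T1` with `n = 0`, `G = 1` gives injectivity.) -/
theorem isSs_of_irr {ε : ℤ} {r δ : ℕ} (h : OkTy ε r δ) {T : Type} [Group T] (ψ : T →* SLC (r + (r + δ))) (hψ : Function.Injective ψ)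
    (A : Subring ℂ) (hA : ∀ g i j, (ψ g).1 i j ∈ A) (γ : T) (c : A[X]) (hc : c.Monic) (hr : c.natDegree = r)
    (hch : (matA ψ A hA γ).charpoly = (X - 1) ^ δ * pal r c) (hirr : Irreducible (toK A c))
    (p : ℕ) [Fact p.Prime] (hp : p ≠ 2) (σ : A →+* ℤ_[p]) (k : ℕ) (hk : 1 ≤ k)
    (X₁ : Matrix (Fin (r + (r + δ))) (Fin (r + (r + δ))) (ZMod p)) (hX₁ : X₁ ≠ 0) (h₁ : Lev k (homZ ψ A hA p σ γ) X₁) :
    IsSs (ψ γ) ∧ ¬ IsOfFinOrder (ψ γ) := by
  have hδ : δ ≤ 1 := by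
    rcases h with ⟨-, h, -⟩ | ⟨-, h, -⟩ | ⟨-, h, -⟩ <;> omega
  have hr2 : 2 ≤ r := by
    rcases h with ⟨-, -, h⟩ | ⟨-, -, h⟩ | ⟨-, -, h⟩ <;> omega
  have h1 : (ψ γ).1.charpoly.Splits := IsAlgClosed.splits _
  have h2 : (ψ γ).1.charpoly.Monic := Matrix.charpoly_monic _
  have h3 : Multiset.card (ψ γ).1.charpoly.roots = r + (r + δ) := by
    rw [← h1.natDegree_eq_card_roots, Matrix.charpoly_natDegree_eq_dim, Fintype.card_fin]
  obtain ⟨y, hy⟩ := diagA_enum _ h3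
  have h4 : (ψ γ).1.charpoly = ∏ j, (X - C (y j)) := by
    have h5 := h1.eq_prod_roots_of_monic h2
    rw [← hy, Multiset.map_map] at h5
    exact h5
  have hy0 : ∀ j, y j ≠ 0 := by
    intro j h0
    have h5 : (ψ γ).1.charpoly.eval 0 = 0 := by
      rw [h4, eval_prod]
      refine Finset.prod_eq_zero (Finset.mem_univ j) ?_
      rw [eval_sub, eval_X, eval_C, h0, sub_zero]
    rw [Matrix.eval_charpoly, map_zero, zero_sub, Matrix.det_neg, (ψ γ).2, mul_one] at h5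
    exact pow_ne_zero _ (neg_ne_zero.2 one_ne_zero) h5
  obtain ⟨e, he, -, -⟩ := lbl_T1 hδ hr2 A c hc hr hirr (fun j => Units.mk0 (y j) (hy0 j))
    (by rw [← hch, matA_charpoly, h4]; rfl) (n := 0) 1 monic_one (fun i => i.elim0) (by rw [Polynomial.map_one]; rfl)
  have hyinj : Function.Injective y := by
    intro a b hab
    exact he.inj (Units.ext hab)
  obtain ⟨P, t, hP, -⟩ := exists_diagBy (ψ γ) y h4 hyinj
  refine ⟨⟨P, t, hP⟩, fun hfin => ?_⟩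
  obtain ⟨n, hn, hn1⟩ := isOfFinOrder_iff_pow_eq_one.1 hfin
  rw [← map_pow, map_eq_one_iff ψ hψ] at hn1
  refine Lev.pow_ne_one hp hk hX₁ h₁ n hn ?_
  rw [← map_pow, hn1, map_one]

/-- Types `C`, `B`: two primes `p`, `s`. Proof. `c` from `exists_cpoly`. At `p`: `cpoly_level`, `irr_of_red`, so `c` is irreducible over `ℚ_p`, hence over `k` (`extend_to_field`, `toK_map_ext`, `irreducible_of_map_field`). At `s`: `cpoly_level`, `split_of_red` (`t`, with exactly one nonsquare `t i₀ ^ 2 - 4`).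
`GenEl`: `isSs_of_irr` (`X₁ ≠ 0` since its characteristic polynomial is not `X ^ m`: `H` is irreducible of degree `r ≥ 2`); given `q`, `y`, `x`: `∏ (X - y j)` is the characteristic polynomial (`diagBy_charpoly`, `matA_charpoly`), `G` = the polynomial of the `x i` over `A'` (its coefficients are in `A ≤ A'`).
`lbl_T1`, `lbl_flip`, `fl_of_single` (block `e'⁻¹ i₀`), `hIrr_of_flips`, `hSchur_of_flips`, `finrank_SL`, `SL_prod`. -/
theorem genEl_CB {ε : ℤ} {r δ : ℕ} (hty : (ε = -1 ∧ δ = 0 ∧ 2 ≤ r) ∨ (ε = 1 ∧ δ = 1 ∧ 2 ≤ r)) {T : Type} [Group T] (ψ : T →* SLC (r + (r + δ)))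
    (hψ : Function.Injective ψ) (hG : ψ.range ≤ GJ (JR ℂ ε r δ)) (A A' : Subring ℂ) (hAA : A ≤ A') (hA : ∀ g i j, (ψ g).1 i j ∈ A')
    (p s : ℕ) [Fact p.Prime] [Fact s.Prime] (hp2 : p ≠ 2) (hs2 : s ≠ 2) (σ : A' →+* ℤ_[p]) (hσ : Function.Injective σ)
    (τ : A' →+* ℤ_[s]) (hτ : Function.Injective τ) (γ : T) (k l : ℕ) (hk : 1 ≤ k) (hl : 1 ≤ l)
    (X₁ : Matrix (Fin (r + (r + δ))) (Fin (r + (r + δ))) (ZMod p)) (h₁ : Lev k (homZ ψ A' hA p σ γ) X₁) (H : (ZMod p)[X])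
    (hH : Irreducible H) (hX₁ : X₁.charpoly = X ^ δ * H.comp (X ^ 2))
    (X₂ : Matrix (Fin (r + (r + δ))) (Fin (r + (r + δ))) (ZMod s)) (h₂ : Lev l (homZ ψ A' hA s τ γ) X₂) (a : Fin r → ZMod s) (i₀ : Fin r)
    (hX₂ : X₂.charpoly = X ^ δ * (∏ i, (X - C (a i))).comp (X ^ 2)) (hinj : Function.Injective a) (ha : ∀ i, a i ≠ 0)
    (hi₀ : ¬ IsSquare (a i₀)) (hi : ∀ i, i ≠ i₀ → IsSquare (a i)) :
    GenEl r A (ψ γ) := by
  have hOk : OkTy ε r δ := by
    rcases hty with h | h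
    · exact Or.inl h
    · exact Or.inr (Or.inl h)
  have hδ : δ ≤ 1 := by
    rcases hty with ⟨-, h, -⟩ | ⟨-, h, -⟩ <;> omega
  have hr2 : 2 ≤ r := by
    rcases hty with ⟨-, -, h⟩ | ⟨-, -, h⟩ <;> omega
  obtain ⟨c, hc, hr, hch⟩ := exists_cpoly hOk ψ hG A' hA γ
  obtain ⟨Q, hQm, hQd, hQc, hQr⟩ := cpoly_level hOk ψ A' hA γ c hc hr hch p σ k hk X₁ h₁ H hX₁
  have hirr0 := irr_of_red (c.map σ) Q (2 * k) (2 * k * r) hQm hQc (by rw [hQr]; exact hH)
  have hσi : Function.Injective ((algebraMap ℤ_[p] ℚ_[p]).comp σ) := (FaithfulSMul.algebraMap_injective ℤ_[p] ℚ_[p]).comp hσ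
  have hτi : Function.Injective ((algebraMap ℤ_[s] ℚ_[s]).comp τ) := (FaithfulSMul.algebraMap_injective ℤ_[s] ℚ_[s]).comp hτ
  obtain ⟨κ, hκ⟩ := extend_to_field A' ℚ_[p] _ hσi
  have hirr : Irreducible (toK A' c) := by
    refine irreducible_of_map_field κ _ ?_
    rw [toK_map_ext A' c ℚ_[p] _ κ hκ, ← Polynomial.map_map]
    exact hirr0
  have hHd : H.natDegree = r := by
    rw [← hQr, hQm.natDegree_map, hQd]
  have hX0 : X₁ ≠ 0 := by
    intro h0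
    rw [h0, Matrix.charpoly_zero, Fintype.card_fin] at hX₁
    have h1 : (X : (ZMod p)[X]) ^ δ * X ^ (2 * r) = X ^ δ * H.comp (X ^ 2) := by
      rw [← hX₁, ← pow_add]
      congr 1
      omega
    have h2 := mul_left_cancel₀ (pow_ne_zero δ X_ne_zero) h1
    have h3 := congrArg (fun q : (ZMod p)[X] => q.eval 0) h2
    simp only [eval_pow, eval_X, eval_comp] at h3
    rw [zero_pow (by omega), zero_pow (by omega)] at h3
    have h4 := degree_eq_one_of_irreducible_of_root hH (show H.IsRoot 0 from h3.symm)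
    have h5 : H.natDegree = 1 := natDegree_eq_of_degree_eq_some h4
    omega
  obtain ⟨hss, hfin⟩ := isSs_of_irr hOk ψ hψ A' hA γ c hc hr hch hirr p hp2 σ k hk X₁ hX0 h₁
  refine ⟨hss, hfin, fun q y hq n x hx => ?_⟩
  have hy : ∏ j, (X - C (y j : ℂ)) = ((X - 1) ^ δ * pal r c).map A'.subtype := by
    rw [← hch, matA_charpoly, diagBy_charpoly hq]
  obtain ⟨G, hG1, -, hGm⟩ := lifts_and_natDegree_eq_and_monic (f := A'.subtype) (p := ∏ i, (X - C (x i : ℂ)))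
    ((lifts_iff_coeff_lifts _).2 fun i => ⟨⟨_, hAA (hx i)⟩, rfl⟩) (monic_prod_of_monic _ _ fun i _ => monic_X_sub_C _)
  obtain ⟨e, he, hce, hT1⟩ := lbl_T1 hδ hr2 A' c hc hr hirr y hy G hGm x hG1
  obtain ⟨Q', hQm', hQd', hQc', hQr'⟩ := cpoly_level hOk ψ A' hA γ c hc hr hch s τ l hl X₂ h₂ (∏ i, (X - C (a i))) hX₂
  obtain ⟨t, ht, hti, htt⟩ := split_of_red hs2 (c.map τ) Q' l (2 * l * r) hl (hc.map _) (by rw [hc.natDegree_map, hr]) hQm' hQc'
    a hinj ha hQr'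
  obtain ⟨e', π, ρ, hs, hρ⟩ := lbl_flip A' c hc hr y hy G hGm x hG1 e he hce ℚ_[s] _ hτi t (by rw [← Polynomial.map_map]; exact ht) i₀
    (by rw [hti]; exact hi₀) (fun i i' h h' => htt i i' (by rw [← hti]; exact h) (by rw [← hti]; exact h'))
  have hF : Fl e x y := by
    refine fl_of_single he hT1 (e'.symm i₀) ⟨π, ρ, hs, (hρ _).1 ?_, fun i hne => (hρ i).2 ?_⟩
    · rw [e'.apply_symm_apply, hti]
      exact hi₀
    · rw [hti]
      refine hi _ fun h => hne ?_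
      rw [← h, e'.symm_apply_apply]
  exact ⟨SL e, finrank_SL e, fun d hd => SL_prod he d hd, hIrr_of_flips he hT1 hF, hSchur_of_flips he hT1 hF⟩

end WCn
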