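import Pool.Agent.Lib.MP_c2b80f_alD.GjA

/-!
# Generic elements of even orthogonal groups from levels (job GjD)
-/

open Matrix Polynomial

namespace WCn

/-- `X₁ ≠ 0` if the characteristic polynomial is `H(X ^ 2)` with `H` irreducible of degree `≥ 2`. -/
private theorem gjD_ne_zero {K : Type*} [Field K] {r : ℕ} (hr : 2 ≤ r) (X₁ : Matrix (Fin (r + (r + 0))) (Fin (r + (r + 0))) K)
    (H : K[X]) (hH : Irreducible H) (hX₁ : X₁.charpoly = X ^ 0 * H.comp (X ^ 2)) : X₁ ≠ 0 := by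
  intro h0
  rw [pow_zero, one_mul] at hX₁
  have h1 : X₁.charpoly.natDegree = r + (r + 0) := by
    rw [Matrix.charpoly_natDegree_eq_dim, Fintype.card_fin]
  have h2 : H.natDegree * 2 = r + (r + 0) := by
    rw [← h1, hX₁, natDegree_comp, natDegree_X_pow]
  have h3 : H.eval 0 = 0 := by
    have h4 : (H.comp (X ^ 2)).eval 0 = H.eval 0 := by
      rw [eval_comp, eval_pow, eval_X, zero_pow two_ne_zero]
    rw [← h4, ← hX₁, h0, Matrix.charpoly_zero, Fintype.card_fin, eval_pow, eval_X, zero_pow (by omega)]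
  have h5 := degree_eq_one_of_irreducible_of_root hH h3
  have h6 : H.natDegree = 1 := natDegree_eq_of_degree_eq_some h5
  omega

/-- Type `D`, `r ≥ 3`: three primes `p`, `q`, `s`. As `genEl_CB`; at `q`: `cpoly_level`, `root_of_red`, `extend_to_field`, `minpoly_eq_of_embedding` give the hypothesis `h2` of `lbl_T2`; at `s` there are exactly two nonsquares, and `fl_of_double` is used. -/
theorem genEl_D {r : ℕ} (hr3 : 3 ≤ r) {T : Type} [Group T] (ψ : T →* SLC (r + (r + 0)))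
    (hψ : Function.Injective ψ) (hG : ψ.range ≤ GJ (JR ℂ 1 r 0)) (A A' : Subring ℂ) (hAA : A ≤ A') (hA : ∀ g i j, (ψ g).1 i j ∈ A')
    (p q s : ℕ) [Fact p.Prime] [Fact q.Prime] [Fact s.Prime] (hp2 : p ≠ 2) (hs2 : s ≠ 2) (σ : A' →+* ℤ_[p]) (hσ : Function.Injective σ)
    (υ : A' →+* ℤ_[q]) (hυ : Function.Injective υ) (τ : A' →+* ℤ_[s]) (hτ : Function.Injective τ) (γ : T) (k k' l : ℕ) (hk : 1 ≤ k) (hk' : 1 ≤ k') (hl : 1 ≤ l)
    (X₁ : Matrix (Fin (r + (r + 0))) (Fin (r + (r + 0))) (ZMod p)) (h₁ : Lev k (homZ ψ A' hA p σ γ) X₁) (H : (ZMod p)[X])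
    (hH : Irreducible H) (hX₁ : X₁.charpoly = X ^ 0 * H.comp (X ^ 2))
    (X₃ : Matrix (Fin (r + (r + 0))) (Fin (r + (r + 0))) (ZMod q)) (h₃ : Lev k' (homZ ψ A' hA q υ γ) X₃) (b : ZMod q) (H' : (ZMod q)[X])
    (hH' : Irreducible H') (hb : H'.eval b ≠ 0) (hX₃ : X₃.charpoly = X ^ 0 * ((X - C b) * H').comp (X ^ 2))
    (X₂ : Matrix (Fin (r + (r + 0))) (Fin (r + (r + 0))) (ZMod s)) (h₂ : Lev l (homZ ψ A' hA s τ γ) X₂) (a : Fin r → ZMod s) (i₀ i₁ : Fin r)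
    (hne : i₀ ≠ i₁) (hX₂ : X₂.charpoly = X ^ 0 * (∏ i, (X - C (a i))).comp (X ^ 2)) (hinj : Function.Injective a) (ha : ∀ i, a i ≠ 0)
    (hi₀ : ¬ IsSquare (a i₀)) (hi₁ : ¬ IsSquare (a i₁)) (hi : ∀ i, i ≠ i₀ → i ≠ i₁ → IsSquare (a i)) :
    GenEl r A (ψ γ) := by
  have hty : OkTy 1 r 0 := Or.inr (Or.inr ⟨rfl, rfl, hr3⟩)
  obtain ⟨c, hc, hcr, hch⟩ := exists_cpoly hty ψ hG A' hA γ
  have hjp : Function.Injective ((algebraMap ℤ_[p] ℚ_[p]).comp σ) :=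
    (FaithfulSMul.algebraMap_injective ℤ_[p] ℚ_[p]).comp hσ
  have hjq : Function.Injective ((algebraMap ℤ_[q] ℚ_[q]).comp υ) :=
    (FaithfulSMul.algebraMap_injective ℤ_[q] ℚ_[q]).comp hυ
  have hjs : Function.Injective ((algebraMap ℤ_[s] ℚ_[s]).comp τ) :=
    (FaithfulSMul.algebraMap_injective ℤ_[s] ℚ_[s]).comp hτ
  -- irreducibility from `p`
  have hirr : Irreducible (toK A' c) := by
    obtain ⟨Q, hQ, -, hcQ, hQH⟩ := cpoly_level hty ψ A' hA γ c hc hcr hch p σ k hk X₁ h₁ H hX₁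
    have h5 := irr_of_red (c.map σ) Q (2 * k) (2 * k * r) hQ hcQ (by rw [hQH]; exact hH)
    obtain ⟨κ, hκ⟩ := extend_to_field A' ℚ_[p] _ hjp
    refine irreducible_of_map_field κ _ ?_
    rw [toK_map_ext A' c ℚ_[p] _ κ hκ, ← Polynomial.map_map]
    exact h5
  -- two-transitivity from `q`
  have h2 : ∀ z w w' : ℂ, aeval z (toK A' c) = 0 → aeval w (toK A' c) = 0 → aeval w' (toK A' c) = 0 → w ≠ z → w' ≠ z →
      minpoly (IntermediateField.adjoin (Subfield.closure (A' : Set ℂ)) {z}) w =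
        minpoly (IntermediateField.adjoin (Subfield.closure (A' : Set ℂ)) {z}) w' := by
    obtain ⟨Q, hQ, -, hcQ, hQH⟩ := cpoly_level hty ψ A' hA γ c hc hcr hch q υ k' hk' X₃ h₃ _ hX₃
    obtain ⟨θ, hθ, hθi⟩ := root_of_red (c.map υ) Q (2 * k') (2 * k' * r) (hc.map υ) hQ hcQ b H' hQH hH' hb
    obtain ⟨κ, hκ⟩ := extend_to_field A' ℚ_[q] _ hjq
    have e1 : (toK A' c).map κ = (c.map υ).map (algebraMap ℤ_[q] ℚ_[q]) := by
      rw [toK_map_ext A' c ℚ_[q] _ κ hκ, ← Polynomial.map_map]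
    have hcm : (toK A' c).Monic := by
      unfold toK
      exact hc.map _
    exact minpoly_eq_of_embedding _ _ hcm hirr ℚ_[q] κ θ (by rw [e1]; exact hθ) (by rw [e1]; exact hθi)
  -- the flip from `s`
  obtain ⟨t, ht, htsq, htt⟩ : ∃ t : Fin r → ℚ_[s], (c.map τ).map (algebraMap ℤ_[s] ℚ_[s]) = ∏ i, (X - C (t i)) ∧
      (∀ i, IsSquare (t i ^ 2 - 4) ↔ IsSquare (a i)) ∧
      ∀ i i', ¬ IsSquare (a i) → ¬ IsSquare (a i') → IsSquare ((t i ^ 2 - 4) * (t i' ^ 2 - 4)) := by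
    obtain ⟨Q, hQ, -, hcQ, hQH⟩ := cpoly_level hty ψ A' hA γ c hc hcr hch s τ l hl X₂ h₂ _ hX₂
    exact split_of_red hs2 (c.map τ) Q l (2 * l * r) hl (hc.map τ) (by rw [hc.natDegree_map, hcr]) hQ hcQ a hinj ha hQH
  obtain ⟨hss, hord⟩ := isSs_of_irr hty ψ hψ A' hA γ c hc hcr hch hirr p hp2 σ k hk X₁
    (gjD_ne_zero (by omega) X₁ H hH hX₁) h₁
  refine ⟨hss, hord, ?_⟩
  intro q' y hqy n x hx
  have hy : ∏ j, (X - C (y j : ℂ)) = ((X - 1) ^ 0 * pal r c).map A'.subtype := by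
    rw [← diagBy_charpoly hqy, ← matA_charpoly ψ A' hA γ, hch]
  have hcf : (↑(∏ i, (X - C (x i : ℂ))).coeffs : Set ℂ) ⊆ A' := by
    intro z hz
    rw [Finset.mem_coe, Polynomial.mem_coeffs_iff] at hz
    obtain ⟨i, -, rfl⟩ := hz
    exact hAA (hx i)
  obtain ⟨G, hGm, hGx⟩ : ∃ G : A'[X], G.Monic ∧ G.map A'.subtype = ∏ i, (X - C (x i : ℂ)) := by
    refine ⟨(∏ i, (X - C (x i : ℂ))).toSubring A' hcf, ?_, ?_⟩
    · rw [Polynomial.monic_toSubring]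
      exact monic_prod_of_monic _ _ fun i _ => monic_X_sub_C _
    · exact Polynomial.map_toSubring _ _ _
  obtain ⟨e, he, hce, -⟩ := lbl_T1 (Nat.zero_le 1) (by omega) A' c hc hcr hirr y hy G hGm x hGx
  have hT2 := lbl_T2 (by omega) A' c hc hcr hirr y hy G hGm x hGx e he hce h2
  obtain ⟨e', π, ρ, hrel, hρ⟩ := lbl_flip A' c hc hcr y hy G hGm x hGx e he hce ℚ_[s] _ hjs t
    (by rw [← Polynomial.map_map]; exact ht) i₀ (by rw [htsq]; exact hi₀)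
    (fun i i' h h' => htt i i' (by rw [← htsq]; exact h) (by rw [← htsq]; exact h'))
  obtain ⟨hT1, hF⟩ := fl_of_double hr3 he hT2 (e'.symm i₀) (e'.symm i₁) (fun h => hne (e'.symm.injective h))
    ⟨π, ρ, hrel, (hρ _).1 (by rw [Equiv.apply_symm_apply, htsq]; exact hi₀),
      (hρ _).1 (by rw [Equiv.apply_symm_apply, htsq]; exact hi₁), fun i hi0 hi1 => (hρ i).2 (by
        rw [htsq]
        refine hi _ (fun h => hi0 ?_) (fun h => hi1 ?_)
        · rw [← h, Equiv.symm_apply_apply]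
        · rw [← h, Equiv.symm_apply_apply])⟩
  exact ⟨SL e, finrank_SL e, fun d hd => SL_prod he d hd, hIrr_of_flips he hT1 hF, hSchur_of_flips he hT1 hF⟩

end WCn
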