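import Pool.Agent.Lib.MP_c2b80f_alD.GDefs
import Pool.Agent.Lib.MP_c2b80f_alC.HomZ
import Pool.Agent.Lib.MP_c2b80f_alC.ReachDefs

/-!
# Congruence levels for classical groups: definitions
-/

open Matrix

namespace WCn

variable {m : ℕ}

/-- An integral matrix as a complex matrix. -/
noncomputable def toC (X : Matrix (Fin m) (Fin m) ℤ) : Matrix (Fin m) (Fin m) ℂ := X.map (Int.castRingHom ℂ)

/-- An integral matrix modulo `p`. -/
def toP (p : ℕ) (X : Matrix (Fin m) (Fin m) ℤ) : Matrix (Fin m) (Fin m) (ZMod p) := X.map (Int.castRingHom (ZMod p))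

/-- Data for the congruence levels of `G`: a finite set `𝒮` of integral matrices in the Lie algebra of `G`, and the Lie algebras `𝔏 p` modulo the primes `p > N₀`.
`op`: conjugations span the operators `Y ↦ tr(Z Y) X`. `span`: the reductions of `𝒮` span `𝔏 p`. `pair`: the trace form is nondegenerate on `𝔏 p`. `lev`: levels of elements of `G` are in `𝔏 p`. -/
structure LevData (G : Subgroup (SLC m)) (𝒮 : Finset (Matrix (Fin m) (Fin m) ℤ))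
    (𝔏 : ∀ p : ℕ, Submodule (ZMod p) (Matrix (Fin m) (Fin m) (ZMod p))) (N₀ : ℕ) : Prop where
  op : ∀ X ∈ 𝒮, ∀ Z ∈ 𝒮, ∃ T ∈ AdS (G : Set (SLC m)), ∀ Y ∈ 𝒮, T (toC Y) = (toC Z * toC Y).trace • toC X
  span : ∀ p : ℕ, p.Prime → N₀ < p → 𝔏 p = Submodule.span (ZMod p) (toP p '' (𝒮 : Set (Matrix (Fin m) (Fin m) ℤ)))
  pair : ∀ p : ℕ, p.Prime → N₀ < p → ∀ X ∈ 𝔏 p, X ≠ 0 → ∃ Z ∈ 𝒮, (toP p Z * X).trace ≠ 0
  lev : ∀ (T : Type) [Group T] (ψ : T →* SLC m), ψ.range ≤ G → ∀ (A : Subring ℂ) (hA : ∀ g i j, (ψ g).1 i j ∈ A)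
    (p : ℕ) [Fact p.Prime] (σ : A →+* ℤ_[p]), N₀ < p → ∀ (γ : T) (k : ℕ) (X : Matrix (Fin m) (Fin m) (ZMod p)), 1 ≤ k →
      Lev k (homZ ψ A hA p σ γ) X → X ∈ 𝔏 p

/-- The conjugations by the reductions of the elements of `T` span the operators `Y ↦ tr(Z Y) X` on `𝔏`, for `X`, `Z` in the reduction of `𝒮`. -/
def SpanG {T : Type*} [Group T] {ι : Type*} (p : ι → ℕ) [hp : ∀ i, Fact (p i).Prime] (φ : ∀ i, T →* SLZ m (p i))
    (𝒮 : Finset (Matrix (Fin m) (Fin m) ℤ)) (i : ι) (𝔏 : Submodule (ZMod (p i)) (Matrix (Fin m) (Fin m) (ZMod (p i)))) : Prop :=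
  ∀ X ∈ 𝒮, ∀ Z ∈ 𝒮, ∃ (s : Finset T) (c : T → ZMod (p i)), ∀ Y ∈ 𝔏,
    ∑ γ ∈ s, c γ • ((red (φ i γ)).1 * Y * ((red (φ i γ))⁻¹).1) = (toP (p i) Z * Y).trace • toP (p i) X

end WCn
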