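import Pool.Agent.Lib.MP_c2b80f_alD.JsA
import Pool.Agent.Lib.MP_c2b80f_alD.LvDefs

/-!
# Linear algebra of the Lie algebras over fields; levels (job JaH)
-/

open Matrix

namespace WCn

private theorem JaH_ok {ε : ℤ} {r δ : ℕ} (h : OkTy ε r δ) : (ε = 1 ∨ (ε = -1 ∧ δ = 0)) ∧ (ε = 1 ∨ ε = -1) ∧ ε * ε = 1 := by
  rcases h with ⟨h1, h2, -⟩ | ⟨h1, -, -⟩ | ⟨h1, -, -⟩
  · exact ⟨Or.inr ⟨h1, h2⟩, Or.inr h1, by rw [h1]; norm_num⟩
  · exact ⟨Or.inl h1, Or.inl h1, by rw [h1]; norm_num⟩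
  · exact ⟨Or.inl h1, Or.inl h1, by rw [h1]; norm_num⟩

/-- The element of `SJ` over `R`. -/
private theorem JaH_map (R : Type*) [CommRing R] (ε : ℤ) (r δ : ℕ) (i j : Fin (r + (r + δ))) :
    ((Matrix.single i j 1 - ε • Matrix.single j i 1) * JI ε r δ).map (Int.castRingHom R) =
      (Matrix.single i j (1 : R) - (ε : R) • Matrix.single j i 1) * JR R ε r δ := by
  rw [Matrix.map_mul]
  have h1 : (Matrix.single i j (1 : ℤ) - ε • Matrix.single j i 1).map (Int.castRingHom R) =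
      Matrix.single i j (1 : R) - (ε : R) • Matrix.single j i 1 := by
    ext a b
    rw [Matrix.map_apply, Matrix.sub_apply, Matrix.sub_apply, Matrix.smul_apply, Matrix.smul_apply, map_sub, smul_eq_mul, smul_eq_mul,
      map_mul]
    rw [Matrix.single_apply, Matrix.single_apply, Matrix.single_apply, Matrix.single_apply]
    split_ifs <;> simp
  rw [h1]
  rfl

private theorem JaH_mem (R : Type*) [CommRing R] {ε : ℤ} {r δ : ℕ} (h : OkTy ε r δ) (i j : Fin (r + (r + δ))) :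
    (Matrix.single i j (1 : R) - (ε : R) • Matrix.single j i 1) * JR R ε r δ ∈ lieJ (JR R ε r δ) := by
  obtain ⟨h1, -, h3⟩ := JaH_ok h
  have hJ := JR_transpose R ε r δ h1
  have hε : (ε : R) * (ε : R) = 1 := by exact_mod_cast congrArg (Int.cast : ℤ → R) h3
  show ((Matrix.single i j (1 : R) - (ε : R) • Matrix.single j i 1) * JR R ε r δ)ᵀ * JR R ε r δ +
    JR R ε r δ * ((Matrix.single i j (1 : R) - (ε : R) • Matrix.single j i 1) * JR R ε r δ) = 0
  set N : Matrix (Fin (r + (r + δ))) (Fin (r + (r + δ))) R := Matrix.single i j (1 : R) - (ε : R) • Matrix.single j i 1 with hN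
  have hNt : Nᵀ = -((ε : R) • N) := by
    rw [hN, Matrix.transpose_sub, Matrix.transpose_smul, Matrix.transpose_single, Matrix.transpose_single, smul_sub, smul_smul, hε, one_smul]
    abel
  rw [Matrix.transpose_mul, hJ, hNt, Matrix.mul_neg, Matrix.smul_mul, Matrix.mul_smul, smul_smul, hε, one_smul, Matrix.neg_mul, Matrix.mul_assoc]
  abel

private theorem JaH_skew {K : Type*} [Field K] {ε : ℤ} {r δ : ℕ} (h : OkTy ε r δ) {X : Matrix (Fin (r + (r + δ))) (Fin (r + (r + δ))) K}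
    (hX : X ∈ lieJ (JR K ε r δ)) : (JR K ε r δ * X)ᵀ = -((ε : K) • (JR K ε r δ * X)) := by
  obtain ⟨h1, -, h3⟩ := JaH_ok h
  have hJ := JR_transpose K ε r δ h1
  have hX' : Xᵀ * JR K ε r δ + JR K ε r δ * X = 0 := hX
  rw [Matrix.transpose_mul, hJ, Matrix.mul_smul, eq_neg_of_add_eq_zero_left hX', smul_neg]

/-- Over a field `K` with `2 ≠ 0`: `X ∈ lieJ J` iff `X = M J` with `Mᵀ = -ε M` (`M = X J⁻¹ `), and `M = (1/2) ∑ M_ij (E_ij - ε E_ji)`. -/
theorem span_SJ (K : Type*) [Field K] (h2 : (2 : K) ≠ 0) {ε : ℤ} {r δ : ℕ} (h : OkTy ε r δ) :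
    lieJ (JR K ε r δ) = Submodule.span K ((fun X : Matrix (Fin (r + (r + δ))) (Fin (r + (r + δ))) ℤ => X.map (Int.castRingHom K)) ''
      (SJ ε r δ : Set (Matrix (Fin (r + (r + δ))) (Fin (r + (r + δ))) ℤ))) := by
  obtain ⟨h1, h1', h3⟩ := JaH_ok h
  have hJ := JR_transpose K ε r δ h1
  have hε : (ε : K) * (ε : K) = 1 := by exact_mod_cast congrArg (Int.cast : ℤ → K) h3
  apply le_antisymm
  · intro X hX
    obtain ⟨J', hJJ', hJ'J⟩ := JR_inv K ε r δ h1'
    have hX' : Xᵀ * JR K ε r δ + JR K ε r δ * X = 0 := hX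
    have hXM : X = (X * J') * JR K ε r δ := by rw [Matrix.mul_assoc, hJ'J, Matrix.mul_one]
    set M := X * J' with hM
    have hMt : Mᵀ = -((ε : K) • M) := by
      have h4 : JR K ε r δ * ((ε : K) • Mᵀ + M) * JR K ε r δ = 0 := by
        calc JR K ε r δ * ((ε : K) • Mᵀ + M) * JR K ε r δ
            = ((ε : K) • JR K ε r δ) * Mᵀ * JR K ε r δ + JR K ε r δ * (M * JR K ε r δ) := by
              rw [Matrix.mul_add, Matrix.add_mul, Matrix.mul_smul, Matrix.smul_mul, Matrix.smul_mul, Matrix.smul_mul, Matrix.mul_assoc _ M]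
          _ = Xᵀ * JR K ε r δ + JR K ε r δ * X := by
              rw [← hJ, ← Matrix.transpose_mul, ← hXM]
          _ = 0 := hX'
      have h5 : (ε : K) • Mᵀ + M = 0 := by
        have h6 := congrArg (fun Y => J' * Y * J') h4
        simp only [Matrix.mul_zero, Matrix.zero_mul] at h6
        calc (ε : K) • Mᵀ + M = (J' * JR K ε r δ) * ((ε : K) • Mᵀ + M) * (JR K ε r δ * J') := by
              rw [hJJ', hJ'J, Matrix.one_mul, Matrix.mul_one]
          _ = J' * (JR K ε r δ * ((ε : K) • Mᵀ + M) * JR K ε r δ) * J' := by simp only [Matrix.mul_assoc]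
          _ = 0 := h6
      have h7 : (ε : K) • ((ε : K) • Mᵀ + M) = 0 := by rw [h5, smul_zero]
      rw [smul_add, smul_smul, hε, one_smul] at h7
      exact eq_neg_of_add_eq_zero_left h7
    have hsum : ∑ i, ∑ j, M i j • (Matrix.single i j (1 : K) - (ε : K) • Matrix.single j i 1) = (2 : K) • M := by
      have h8 : ∑ i, ∑ j, M i j • Matrix.single i j (1 : K) = M := by
        conv_rhs => rw [Matrix.matrix_eq_sum_single M]
        refine Finset.sum_congr rfl fun i _ => Finset.sum_congr rfl fun j _ => ?_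
        rw [Matrix.smul_single, smul_eq_mul, mul_one]
      have h9 : ∑ i, ∑ j, M i j • Matrix.single j i (1 : K) = Mᵀ := by
        conv_rhs => rw [← h8]
        rw [Matrix.transpose_sum]
        refine Finset.sum_congr rfl fun i _ => ?_
        rw [Matrix.transpose_sum]
        refine Finset.sum_congr rfl fun j _ => ?_
        rw [Matrix.transpose_smul, Matrix.transpose_single]
      calc ∑ i, ∑ j, M i j • (Matrix.single i j (1 : K) - (ε : K) • Matrix.single j i 1)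
          = ∑ i, ∑ j, (M i j • Matrix.single i j (1 : K) - (ε : K) • (M i j • Matrix.single j i (1 : K))) := by
            refine Finset.sum_congr rfl fun i _ => Finset.sum_congr rfl fun j _ => ?_
            rw [smul_sub, smul_comm (M i j) (ε : K)]
        _ = (∑ i, ∑ j, M i j • Matrix.single i j (1 : K)) - (ε : K) • ∑ i, ∑ j, M i j • Matrix.single j i (1 : K) := by
            simp only [Finset.sum_sub_distrib, Finset.smul_sum]
        _ = M - (ε : K) • Mᵀ := by rw [h8, h9]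
        _ = (2 : K) • M := by
            rw [hMt, smul_neg, smul_smul, hε, one_smul, sub_neg_eq_add, two_smul]
    have hXs : X = (2 : K)⁻¹ • ∑ i, ∑ j, M i j • ((Matrix.single i j (1 : K) - (ε : K) • Matrix.single j i 1) * JR K ε r δ) := by
      have h10 : ∑ i, ∑ j, M i j • ((Matrix.single i j (1 : K) - (ε : K) • Matrix.single j i 1) * JR K ε r δ) = (2 : K) • X := by
        conv_rhs => rw [hXM, ← Matrix.smul_mul, ← hsum]
        rw [Matrix.sum_mul]
        refine Finset.sum_congr rfl fun i _ => ?_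
        rw [Matrix.sum_mul]
        refine Finset.sum_congr rfl fun j _ => ?_
        rw [Matrix.smul_mul]
      rw [h10, smul_smul, inv_mul_cancel₀ h2, one_smul]
    rw [hXs]
    refine Submodule.smul_mem _ _ (Submodule.sum_mem _ fun i _ => Submodule.sum_mem _ fun j _ => Submodule.smul_mem _ _ (Submodule.subset_span ?_))
    refine ⟨(Matrix.single i j 1 - ε • Matrix.single j i 1) * JI ε r δ, ?_, JaH_map K ε r δ i j⟩
    rw [Finset.mem_coe]
    exact Finset.mem_image.2 ⟨(i, j), Finset.mem_univ _, rfl⟩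
  · rw [Submodule.span_le]
    rintro X ⟨Y, hY, rfl⟩
    rw [Finset.mem_coe] at hY
    obtain ⟨ij, -, rfl⟩ := Finset.mem_image.1 hY
    simp only [SetLike.mem_coe]
    rw [JaH_map]
    exact JaH_mem K h _ _

/-- `tr((E_ij - ε E_ji) J X) = (J X)_ji - ε (J X)_ij = 2 (J X)_ji`, and `J X ≠ 0`. -/
theorem pair_SJ (K : Type*) [Field K] (h2 : (2 : K) ≠ 0) {ε : ℤ} {r δ : ℕ} (h : OkTy ε r δ)
    (X : Matrix (Fin (r + (r + δ))) (Fin (r + (r + δ))) K) (hX : X ∈ lieJ (JR K ε r δ)) (hne : X ≠ 0) :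
    ∃ Z ∈ SJ ε r δ, (Z.map (Int.castRingHom K) * X).trace ≠ 0 := by
  obtain ⟨-, h1', h3⟩ := JaH_ok h
  have hε : (ε : K) * (ε : K) = 1 := by exact_mod_cast congrArg (Int.cast : ℤ → K) h3
  obtain ⟨J', hJJ', hJ'J⟩ := JR_inv K ε r δ h1'
  have hsk := JaH_skew h hX
  obtain ⟨j, i, hji⟩ : ∃ j i, (JR K ε r δ * X) j i ≠ 0 := by
    by_contra hc
    push Not at hc
    have h4 : JR K ε r δ * X = 0 := by
      ext j i
      exact hc j i
    apply hne
    calc X = (J' * JR K ε r δ) * X := by rw [hJ'J, Matrix.one_mul]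
      _ = J' * (JR K ε r δ * X) := Matrix.mul_assoc _ _ _
      _ = 0 := by rw [h4, Matrix.mul_zero]
  refine ⟨(Matrix.single i j 1 - ε • Matrix.single j i 1) * JI ε r δ, Finset.mem_image.2 ⟨(i, j), Finset.mem_univ _, rfl⟩, ?_⟩
  rw [JaH_map, Matrix.mul_assoc, Matrix.sub_mul, Matrix.trace_sub, Matrix.smul_mul, Matrix.trace_smul]
  have htr : ∀ (a b : Fin (r + (r + δ))) (Y : Matrix (Fin (r + (r + δ))) (Fin (r + (r + δ))) K),
      (Matrix.single a b (1 : K) * Y).trace = Y b a := by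
    intro a b Y
    rw [Matrix.trace, Finset.sum_eq_single a]
    · rw [Matrix.diag_apply, Matrix.single_mul_apply_same, one_mul]
    · intro c _ hc
      rw [Matrix.diag_apply, Matrix.single_mul_apply_of_ne _ _ _ _ _ hc]
    · intro hc
      exact absurd (Finset.mem_univ _) hc
  rw [htr, htr]
  have h5 : (JR K ε r δ * X) i j = -((ε : K) * (JR K ε r δ * X) j i) := by
    have h6 := congrFun (congrFun hsk j) i
    rw [Matrix.transpose_apply, Matrix.neg_apply, Matrix.smul_apply, smul_eq_mul] at h6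
    exact h6
  rw [h5, smul_eq_mul, mul_neg, ← mul_assoc, hε, one_mul, sub_neg_eq_add, ← two_mul]
  exact mul_ne_zero h2 hji

/-- The same for the matrix over `A`. -/
private theorem JaH_matA {ε : ℤ} {r δ : ℕ} {T : Type*} [Group T] (ψ : T →* SLC (r + (r + δ))) (hG : ψ.range ≤ GJ (JR ℂ ε r δ))
    (A : Subring ℂ) (hA : ∀ g i j, (ψ g).1 i j ∈ A) (γ : T) :
    (matA ψ A hA γ)ᵀ * JR A ε r δ * matA ψ A hA γ = JR A ε r δ := by
  have h1 : ψ γ ∈ GJ (JR ℂ ε r δ) := hG ⟨γ, rfl⟩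
  have h2 : (ψ γ).1ᵀ * JR ℂ ε r δ * (ψ γ).1 = JR ℂ ε r δ := h1
  have hJ : (JR A ε r δ).map A.subtype = JR ℂ ε r δ := by
    ext i j
    unfold JR
    rw [Matrix.map_apply, Matrix.map_apply, Matrix.map_apply]
    simp
  refine homZ_matA_inj (A := A) (M := (ψ γ).1ᵀ * JR ℂ ε r δ * (ψ γ).1) (N := JR ℂ ε r δ) ?_ hJ h2
  rw [Matrix.map_mul, Matrix.map_mul, Matrix.transpose_map, homZ_matA_map, hJ]

/-- The image of `G_J` in `SL_m(ℤ_p)` preserves `J`. -/
theorem homZ_isometry {ε : ℤ} {r δ : ℕ} {T : Type*} [Group T] (ψ : T →* SLC (r + (r + δ))) (hG : ψ.range ≤ GJ (JR ℂ ε r δ))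
    (A : Subring ℂ) (hA : ∀ g i j, (ψ g).1 i j ∈ A) (p : ℕ) [Fact p.Prime] (σ : A →+* ℤ_[p]) (γ : T) :
    (homZ ψ A hA p σ γ).1ᵀ * JR ℤ_[p] ε r δ * (homZ ψ A hA p σ γ).1 = JR ℤ_[p] ε r δ := by
  have h1 := JaH_matA ψ hG A hA γ
  have hJ : (JR A ε r δ).map σ = JR ℤ_[p] ε r δ := by
    ext i j
    unfold JR
    rw [Matrix.map_apply, Matrix.map_apply, Matrix.map_apply]
    simp
  have h2 := congrArg (fun M : Matrix (Fin (r + (r + δ))) (Fin (r + (r + δ))) A => M.map σ) h1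
  simp only [Matrix.map_mul, hJ] at h2
  exact h2

/-- The same for the matrix over `A`. -/
theorem matA_isometry {ε : ℤ} {r δ : ℕ} {T : Type*} [Group T] (ψ : T →* SLC (r + (r + δ))) (hG : ψ.range ≤ GJ (JR ℂ ε r δ))
    (A : Subring ℂ) (hA : ∀ g i j, (ψ g).1 i j ∈ A) (γ : T) :
    (matA ψ A hA γ)ᵀ * JR A ε r δ * matA ψ A hA γ = JR A ε r δ ∧ (matA ψ A hA γ).det = 1 :=
  ⟨JaH_matA ψ hG A hA γ, homZ_matA_det ψ A hA γ⟩

/-- If `g = 1 + p ^ k Y`, `k ≥ 1`, and `gᵀ J g = J`, then `Yᵀ J + J Y + p ^ k Yᵀ J Y = 0`. -/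
theorem lev_isometry {m p : ℕ} [Fact p.Prime] (J : Matrix (Fin m) (Fin m) ℤ) {g : SLZ m p}
    (hg : g.1ᵀ * J.map (Int.castRingHom ℤ_[p]) * g.1 = J.map (Int.castRingHom ℤ_[p])) {k : ℕ} (hk : 1 ≤ k)
    {X : Matrix (Fin m) (Fin m) (ZMod p)} (hX : Lev k g X) : X ∈ lieJ (J.map (Int.castRingHom (ZMod p))) := by
  obtain ⟨Y, hY, hYX⟩ := hX
  set J₁ := J.map (Int.castRingHom ℤ_[p]) with hJ₁
  have h1 : (p : ℤ_[p]) ^ k • (Yᵀ * J₁ + J₁ * Y + (p : ℤ_[p]) ^ k • (Yᵀ * J₁ * Y)) = 0 := by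
    rw [hY, Matrix.transpose_add, Matrix.transpose_one, Matrix.transpose_smul, Matrix.add_mul, Matrix.one_mul, Matrix.smul_mul,
      Matrix.mul_add, Matrix.mul_one, Matrix.mul_smul, Matrix.add_mul, Matrix.smul_mul] at hg
    have h2 : (p : ℤ_[p]) ^ k • (Yᵀ * J₁ + J₁ * Y + (p : ℤ_[p]) ^ k • (Yᵀ * J₁ * Y)) =
        (J₁ + (p : ℤ_[p]) ^ k • (Yᵀ * J₁) + (p : ℤ_[p]) ^ k • (J₁ * Y + (p : ℤ_[p]) ^ k • (Yᵀ * J₁ * Y))) - J₁ := by
      simp only [smul_add]
      abel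
    rw [h2, hg, sub_self]
  have hp : (p : ℤ_[p]) ^ k ≠ 0 :=
    pow_ne_zero _ (Nat.cast_ne_zero.mpr (Fact.out (p := p.Prime)).ne_zero)
  have h3 : Yᵀ * J₁ + J₁ * Y + (p : ℤ_[p]) ^ k • (Yᵀ * J₁ * Y) = 0 := by
    rcases smul_eq_zero.1 h1 with h4 | h4
    · exact absurd h4 hp
    · exact h4
  have h5 := congrArg (fun M : Matrix (Fin m) (Fin m) ℤ_[p] => M.map PadicInt.toZMod) h3
  have hJ₂ : J₁.map PadicInt.toZMod = J.map (Int.castRingHom (ZMod p)) := by
    ext i j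
    rw [hJ₁, Matrix.map_apply, Matrix.map_apply, Matrix.map_apply]
    simp
  show Xᵀ * J.map (Int.castRingHom (ZMod p)) + J.map (Int.castRingHom (ZMod p)) * X = 0
  have hp0 : (PadicInt.toZMod ((p : ℤ_[p]) ^ k) : ZMod p) = 0 := by
    rw [map_pow, map_natCast, CharP.cast_eq_zero, zero_pow (by omega)]
  have h6 : ((p : ℤ_[p]) ^ k • (Yᵀ * J₁ * Y)).map (PadicInt.toZMod : ℤ_[p] →+* ZMod p) = 0 := by
    ext i j
    rw [Matrix.map_apply, Matrix.smul_apply, smul_eq_mul, map_mul, hp0, zero_mul, Matrix.zero_apply]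
  rw [← hYX, ← hJ₂, ← Matrix.transpose_map, ← Matrix.map_mul, ← Matrix.map_mul]
  have h7 : (Yᵀ * J₁ + J₁ * Y + (p : ℤ_[p]) ^ k • (Yᵀ * J₁ * Y)).map (PadicInt.toZMod : ℤ_[p] →+* ZMod p) =
      (Yᵀ * J₁).map (PadicInt.toZMod : ℤ_[p] →+* ZMod p) + (J₁ * Y).map (PadicInt.toZMod : ℤ_[p] →+* ZMod p) +
        ((p : ℤ_[p]) ^ k • (Yᵀ * J₁ * Y)).map (PadicInt.toZMod : ℤ_[p] →+* ZMod p) := by
    ext i j
    simp only [Matrix.map_apply, Matrix.add_apply, map_add]
  have h8 : (0 : Matrix (Fin m) (Fin m) ℤ_[p]).map (PadicInt.toZMod : ℤ_[p] →+* ZMod p) = 0 := by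
    ext i j
    rw [Matrix.map_apply, Matrix.zero_apply, Matrix.zero_apply, map_zero]
  rw [h7, h6, h8, add_zero] at h5
  exact h5

end WCn
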