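import Pool.Agent.Lib.MP_c2b80f_alD.LvDefs
import Pool.Agent.Lib.MP_c2b80f_alC.AdB

/-!
# Zariski dense subgroups have the same span of conjugations (job LvAd)
-/

open Matrix

namespace WCn

variable {m : ℕ}

/-- As `AdS_of_zDense` (file `MP_c2b80f_alC/AdB.lean`, same proof with `exists_poly_of_functional`): a linear functional which vanishes on `AdS Γ` vanishes on `AdS G`. -/
theorem AdS_of_zDenseIn {G Γ : Subgroup (SLC m)} (hz : ZDenseIn G Γ) :
    AdS (Γ : Set (SLC m)) = AdS (G : Set (SLC m)) := by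

  refine le_antisymm (Submodule.span_mono (Set.image_mono hz.1)) ?_
  refine Submodule.span_le.2 ?_
  rintro _ ⟨g, hgG, rfl⟩
  by_contra hg
  obtain ⟨ℓ, hℓ, hle⟩ := Submodule.exists_le_ker_of_notMem hg
  obtain ⟨P, hP⟩ := exists_poly_of_functional ℓ
  refine hℓ ?_
  rw [hP]
  refine hz.2 P (fun γ hγ => ?_) g hgG
  rw [← hP]
  exact hle (Submodule.subset_span ⟨γ, hγ, rfl⟩)

/-- Zariski dense subgroups do not have finite exponent if `G` does not: otherwise the polynomials given by the entries of `g ^ k - 1` vanish on `Γ`, hence on `G` (compare `exists_pow_ne_one` in `MP_c2b80f_alC/AdP.lean`). -/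
theorem exists_pow_ne_one_in {G Γ : Subgroup (SLC m)} (hz : ZDenseIn G Γ) (k : ℕ) (hG : ∃ g ∈ G, g ^ k ≠ 1) :
    ∃ g ∈ Γ, g ^ k ≠ 1 := by

  by_contra hcon
  push Not at hcon
  obtain ⟨g, hgG, hgk⟩ := hG
  refine hgk (Subtype.ext ?_)
  ext i j
  let P : MvPolynomial (Fin m × Fin m) ℂ := ((Matrix.of fun a b => MvPolynomial.X (a, b) : Matrix (Fin m) (Fin m) (MvPolynomial (Fin m × Fin m) ℂ)) ^ k) i j -
    MvPolynomial.C ((1 : Matrix (Fin m) (Fin m) ℂ) i j)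
  have hP : ∀ g : SLC m, MvPolynomial.eval (fun ab : Fin m × Fin m => g.1 ab.1 ab.2) P = (g.1 ^ k) i j - (1 : Matrix (Fin m) (Fin m) ℂ) i j := by
    intro g
    have h1 := Matrix.map_pow (Matrix.of fun a b => MvPolynomial.X (a, b) : Matrix (Fin m) (Fin m) (MvPolynomial (Fin m × Fin m) ℂ))
      (MvPolynomial.eval (fun ab : Fin m × Fin m => g.1 ab.1 ab.2)) k
    have h2 : (Matrix.of fun a b => MvPolynomial.X (a, b) : Matrix (Fin m) (Fin m) (MvPolynomial (Fin m × Fin m) ℂ)).map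
        (MvPolynomial.eval (fun ab : Fin m × Fin m => g.1 ab.1 ab.2)) = g.1 := by
      ext a b
      simp
    rw [h2] at h1
    rw [← h1, map_sub, MvPolynomial.eval_C]
    rfl
  have hΓ : ∀ g ∈ Γ, MvPolynomial.eval (fun ab : Fin m × Fin m => g.1 ab.1 ab.2) P = 0 := by
    intro g hg
    have h1 := congrArg (fun t : SLC m => t.1 i j) (hcon g hg)
    change ((g ^ k : SLC m)).1 i j = (1 : Matrix (Fin m) (Fin m) ℂ) i j at h1
    rw [hP, ← h1, sub_eq_zero]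
    exact congrArg (fun M : Matrix (Fin m) (Fin m) ℂ => M i j) (Matrix.SpecialLinearGroup.coe_pow g k).symm
  have h3 := hz.2 P hΓ g hgG
  rw [hP, sub_eq_zero] at h3
  exact (congrArg (fun M : Matrix (Fin m) (Fin m) ℂ => M i j) (Matrix.SpecialLinearGroup.coe_pow g k)).trans h3

/-- Let `𝔤` be a space on which the operators `Y ↦ tr(Z Y) X`, `X Z ∈ 𝒮`, are in `AdS G`, where `𝒮 ⊆ 𝔤` spans `𝔤` and the trace form is nondegenerate: then Zariski dense subgroups act irreducibly.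
Proof. `W` is stable under all operators in `AdS Γ = AdS G`. Let `0 ≠ Y ∈ W`, `tr(Z Y) ≠ 0`; then `X ∈ W` for all `X ∈ 𝒮`. -/
theorem adIrr_of_op {G : Subgroup (SLC m)} {𝔤 : Submodule ℂ (Matrix (Fin m) (Fin m) ℂ)} (𝒮 : Set (Matrix (Fin m) (Fin m) ℂ))
    (hspan : 𝔤 ≤ Submodule.span ℂ 𝒮) (hpair : ∀ Y ∈ 𝔤, Y ≠ 0 → ∃ Z ∈ 𝒮, (Z * Y).trace ≠ 0)
    (hop : ∀ X ∈ 𝒮, ∀ Z ∈ 𝒮, ∃ T ∈ AdS (G : Set (SLC m)), ∀ Y ∈ 𝔤, T Y = (Z * Y).trace • X) : AdIrr G 𝔤 := by

  intro Γ hz W hW hW0 hst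
  have hall : ∀ T ∈ AdS (Γ : Set (SLC m)), ∀ Y ∈ W, T Y ∈ W := by
    intro T hT
    refine Submodule.span_induction (p := fun T _ => ∀ Y ∈ W, T Y ∈ W) ?_ ?_ ?_ ?_ hT
    · rintro _ ⟨g, hg, rfl⟩ Y hY
      exact hst g hg Y hY
    · intro Y _
      rw [LinearMap.zero_apply]
      exact W.zero_mem
    · intro T₁ T₂ _ _ h1 h2 Y hY
      rw [LinearMap.add_apply]
      exact W.add_mem (h1 Y hY) (h2 Y hY)
    · intro c T₁ _ h1 Y hY
      rw [LinearMap.smul_apply]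
      exact W.smul_mem c (h1 Y hY)
  obtain ⟨Y, hY, hY0⟩ := Submodule.exists_mem_ne_zero_of_ne_bot hW0
  obtain ⟨Z, hZ, hZY⟩ := hpair Y (hW hY) hY0
  refine le_antisymm hW (hspan.trans (Submodule.span_le.2 fun X hX => ?_))
  obtain ⟨T, hT, hTY⟩ := hop X hX Z hZ
  rw [← AdS_of_zDenseIn hz] at hT
  have h1 := hall T hT Y hY
  rw [hTY Y (hW hY)] at h1
  exact (Submodule.smul_mem_iff W hZY).1 h1

end WCn
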