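import Pool.Agent.Lib.MP_c2b80f_alD.JaG
import Pool.Agent.Lib.MP_c2b80f_alD.JaH
import Pool.Agent.Lib.MP_c2b80f_alD.LvAd

/-!
# Level data for the types `B`, `C`, `D` (job JaI)
-/

open Matrix

namespace WCn

/-- The complexifications of the elements of `SJ` are in the Lie algebra. -/
theorem toC_mem_lieJ {ε : ℤ} {r δ : ℕ} (h : OkTy ε r δ) {Y : Matrix (Fin (r + (r + δ))) (Fin (r + (r + δ))) ℤ}
    (hY : Y ∈ SJ ε r δ) : toC Y ∈ lieJ (JR ℂ ε r δ) := by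
  rw [span_SJ ℂ two_ne_zero h]
  exact Submodule.subset_span ⟨Y, hY, rfl⟩

/-- `2 ≠ 0` modulo a prime `p > 2`. -/
theorem two_ne_zero_ZMod {p : ℕ} (_ : p.Prime) (h2 : 2 < p) : (2 : ZMod p) ≠ 0 := by
  intro h0
  have h1 : ((2 : ℕ) : ZMod p) = 0 := by exact_mod_cast h0
  have h3 : p ∣ 2 := (ZMod.natCast_eq_zero_iff 2 p).1 h1
  have h4 : p ≤ 2 := Nat.le_of_dvd (by norm_num) h3
  omega

/-- Assembly of `op_J` (`toC Y ∈ lieJ J` for `Y ∈ SJ`, from `span_SJ` over `ℂ`), `span_SJ`, `pair_SJ` (`p > 2`), `homZ_isometry`, `lev_isometry`. -/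
theorem levData_J {ε : ℤ} {r δ : ℕ} (h : OkTy ε r δ) :
    LevData (GJ (JR ℂ ε r δ)) (SJ ε r δ) (fun p => lieJ (JR (ZMod p) ε r δ)) 2 where
  op := by
    intro X hX Z hZ
    obtain ⟨T, hT, hTY⟩ := op_J h X Z hX hZ
    exact ⟨T, hT, fun Y hY => hTY (toC Y) (toC_mem_lieJ h hY)⟩
  span := by
    intro p hp h2
    have : Fact p.Prime := ⟨hp⟩
    exact span_SJ (ZMod p) (two_ne_zero_ZMod hp h2) h
  pair := by
    intro p hp h2 X hX hne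
    have : Fact p.Prime := ⟨hp⟩
    exact pair_SJ (ZMod p) (two_ne_zero_ZMod hp h2) h X hX hne
  lev := by
    intro T _ ψ hG A hA p _ σ h2 γ k X hk hX
    exact lev_isometry (JI ε r δ) (homZ_isometry ψ hG A hA p σ γ) hk hX

/-- `adIrr_of_op`. -/
theorem adIrr_J {ε : ℤ} {r δ : ℕ} (h : OkTy ε r δ) : AdIrr (GJ (JR ℂ ε r δ)) (lieJ (JR ℂ ε r δ)) := by
  refine adIrr_of_op (toC '' (SJ ε r δ : Set (Matrix (Fin (r + (r + δ))) (Fin (r + (r + δ))) ℤ))) ?_ ?_ ?_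
  · exact le_of_eq (span_SJ ℂ two_ne_zero h)
  · intro Y hY hne
    obtain ⟨Z, hZ, hZY⟩ := pair_SJ ℂ two_ne_zero h Y hY hne
    exact ⟨toC Z, ⟨Z, hZ, rfl⟩, hZY⟩
  · rintro _ ⟨X, hX, rfl⟩ _ ⟨Z, hZ, rfl⟩
    exact op_J h X Z hX hZ

end WCn
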