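import Pool.Agent.Lib.MP_c2b80f_alD.GDefs

/-!
# Elements `diag(A, -Aᵀ, 0)` (job JxA)
-/

open Matrix Polynomial

namespace WCn

/-- The matrix `diag(A, -Aᵀ, 0)`. -/
def dA {K : Type*} [CommRing K] (r δ : ℕ) (A : Matrix (Fin r) (Fin r) K) : Matrix (Fin (r + (r + δ))) (Fin (r + (r + δ))) K :=
  Matrix.reindex (eJ r δ) (eJ r δ) (Matrix.fromBlocks A 0 0 (Matrix.fromBlocks (-Aᵀ) 0 0 0))

private theorem jxA_block {K : Type*} [CommRing K] (ε : ℤ) (r δ : ℕ) (A : Matrix (Fin r) (Fin r) K) :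
    (Matrix.fromBlocks A 0 0 (Matrix.fromBlocks (-Aᵀ) 0 0 0) : Matrix (Fin r ⊕ (Fin r ⊕ Fin δ)) _ K)ᵀ *
        (JS ε r δ).map (Int.castRingHom K) +
      (JS ε r δ).map (Int.castRingHom K) *
        (Matrix.fromBlocks A 0 0 (Matrix.fromBlocks (-Aᵀ) 0 0 0) : Matrix (Fin r ⊕ (Fin r ⊕ Fin δ)) _ K) = 0 := by
  ext i j
  rcases i with i | i | i <;> rcases j with j | j | j <;>
    simp [JS, Matrix.add_apply, Matrix.mul_apply, Matrix.one_apply, Matrix.intCast_apply, Fintype.sum_sum_type,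
      Matrix.fromCols_apply_inl, Matrix.fromRows_apply_inl, mul_comm]

theorem dA_mem {K : Type*} [CommRing K] (ε : ℤ) (r δ : ℕ) (A : Matrix (Fin r) (Fin r) K) : dA r δ A ∈ lieJ (JR K ε r δ) := by
  show (dA r δ A)ᵀ * JR K ε r δ + JR K ε r δ * dA r δ A = 0
  have h1 : JR K ε r δ = Matrix.reindex (eJ r δ) (eJ r δ) ((JS ε r δ).map (Int.castRingHom K)) := rfl
  rw [h1, dA, Matrix.transpose_reindex]
  simp only [Matrix.reindex_apply, Matrix.submatrix_mul_equiv]
  exact congrArg (fun M : Matrix (Fin r ⊕ (Fin r ⊕ Fin δ)) (Fin r ⊕ (Fin r ⊕ Fin δ)) K =>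
    M.submatrix (eJ r δ).symm (eJ r δ).symm) (jxA_block (K := K) ε r δ A)

/-- `charpoly = U ^ δ χ_A(U) χ_{-Aᵀ}(U)` and `χ_A(U) χ_{-A}(U) = det (U - A) det (U + A) = det (U ^ 2 - A ^ 2) = χ_{A ^ 2}(U ^ 2)`. -/
theorem dA_charpoly {K : Type*} [Field K] (r δ : ℕ) (A : Matrix (Fin r) (Fin r) K) :
    (dA r δ A).charpoly = X ^ δ * ((A * A).charpoly).comp (X ^ 2) := by
  rw [dA, Matrix.charpoly_reindex, Matrix.charpoly_fromBlocks_zero₁₂, Matrix.charpoly_fromBlocks_zero₁₂,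
    Matrix.charpoly_zero, Fintype.card_fin, ← Matrix.transpose_neg, Matrix.charpoly_transpose]
  have h1 : A.charpoly * (-A).charpoly = ((A * A).charpoly).comp (X ^ 2) := by
    rw [Matrix.charpoly, Matrix.charpoly, ← Matrix.det_mul, Matrix.charpoly,
      ← Polynomial.coe_compRingHom_apply, RingHom.map_det]
    congr 1
    have h2 : A.charmatrix = (X : K[X]) • (1 : Matrix (Fin r) (Fin r) K[X]) - A.map C := by
      rw [Matrix.charmatrix, Matrix.scalar_apply, Matrix.smul_one_eq_diagonal]; rfl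
    have h3 : (-A).charmatrix = (X : K[X]) • (1 : Matrix (Fin r) (Fin r) K[X]) + A.map C := by
      rw [Matrix.charmatrix, Matrix.scalar_apply, Matrix.smul_one_eq_diagonal, map_neg, sub_neg_eq_add]; rfl
    have h4 : (compRingHom (X ^ 2 : K[X])).mapMatrix (A * A).charmatrix =
        ((X : K[X]) ^ 2) • (1 : Matrix (Fin r) (Fin r) K[X]) - (A * A).map C := by
      ext i j : 2
      rw [RingHom.mapMatrix_apply, Matrix.map_apply, Matrix.charmatrix_apply, Polynomial.coe_compRingHom_apply,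
        Polynomial.sub_comp, Polynomial.C_comp, Matrix.sub_apply, Matrix.smul_apply, Matrix.map_apply,
        Matrix.diagonal_apply, Matrix.one_apply]
      split_ifs with h
      · rw [Polynomial.X_comp, smul_eq_mul, mul_one]
      · rw [Polynomial.zero_comp, smul_zero]
    rw [h2, h3, h4]
    have h5 : (A * A).map (C : K → K[X]) = A.map C * A.map C := by
      rw [Matrix.map_mul]
    rw [h5, Matrix.sub_mul, Matrix.mul_add, Matrix.mul_add, Matrix.smul_mul, Matrix.smul_mul, Matrix.one_mul,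
      Matrix.one_mul, Matrix.mul_smul, Matrix.mul_one, smul_smul, pow_two]
    abel
  rw [← h1]
  ring

end WCn
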