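import Mathlib

/-!
# Matrices over finite fields whose square has irreducible characteristic polynomial (job JxB)
-/

open Matrix Polynomial

namespace WCn

private theorem jxB_adjoin_eq_top (p : ℕ) [Fact p.Prime] (hp : p ≠ 2) (r : ℕ) (hr : 1 ≤ r) :
    ∃ x : GaloisField p r, (minpoly (ZMod p) x).natDegree = r ∧ ∃ z : GaloisField p r, x = z * z := by
  classical
  have hr0 : r ≠ 0 := by omega
  have : Fintype (GaloisField p r) := Fintype.ofFinite _
  have hcard : Fintype.card (GaloisField p r) = p ^ r := by
    rw [← Nat.card_eq_fintype_card]; exact GaloisField.card p r hr0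
  obtain ⟨g, hg⟩ := IsCyclic.exists_generator (α := (GaloisField p r)ˣ)
  have hord : orderOf g = p ^ r - 1 := by
    rw [orderOf_eq_card_of_forall_mem_zpowers hg, Nat.card_eq_fintype_card,
      Fintype.card_units, hcard]
  set x : GaloisField p r := (g : GaloisField p r) * (g : GaloisField p r) with hx
  refine ⟨x, ?_, ⟨(g : GaloisField p r), rfl⟩⟩
  have hint : IsIntegral (ZMod p) x := Algebra.IsIntegral.isIntegral x
  rw [← IntermediateField.adjoin.finrank hint]
  have hle : Module.finrank (ZMod p) (IntermediateField.adjoin (ZMod p) ({x} : Set (GaloisField p r))) ≤ r := by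
    have h1 := Submodule.finrank_le (Subalgebra.toSubmodule
      (IntermediateField.adjoin (ZMod p) ({x} : Set (GaloisField p r))).toSubalgebra)
    rw [GaloisField.finrank p hr0] at h1
    exact h1
  by_contra hne
  set L := IntermediateField.adjoin (ZMod p) ({x} : Set (GaloisField p r)) with hL
  set d := Module.finrank (ZMod p) L with hd
  have hdr : d < r := lt_of_le_of_ne hle hne
  have : Fintype L := Fintype.ofFinite _
  have hcardL : Fintype.card L = p ^ d := by
    have h2 := Module.card_eq_pow_finrank (K := ZMod p) (V := L)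
    rw [ZMod.card] at h2
    exact h2
  have hxL : x ∈ L := IntermediateField.mem_adjoin_simple_self (ZMod p) x
  have hx0 : x ≠ 0 := mul_ne_zero g.ne_zero g.ne_zero
  have hy0 : (⟨x, hxL⟩ : L) ≠ 0 := by
    intro h
    apply hx0
    have := congrArg Subtype.val h
    simpa using this
  have h3 : (⟨x, hxL⟩ : L) ^ (p ^ d - 1) = 1 := by
    rw [← hcardL]
    exact FiniteField.pow_card_sub_one_eq_one _ hy0
  have h4 : x ^ (p ^ d - 1) = 1 := by
    have := congrArg Subtype.val h3
    simpa using this
  have h5 : g ^ (2 * (p ^ d - 1)) = 1 := by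
    apply Units.ext
    rw [Units.val_pow_eq_pow_val, Units.val_one, pow_mul, pow_two]
    exact h4
  have h6 : p ^ r - 1 ∣ 2 * (p ^ d - 1) := by
    rw [← hord]; exact orderOf_dvd_of_pow_eq_one h5
  have hp2 : 2 ≤ p := (Fact.out : p.Prime).two_le
  have hp3 : 3 ≤ p := by omega
  have hd0 : 0 < d := by
    rw [hd]; exact Module.finrank_pos
  have hpd : 2 ≤ p ^ d := le_trans hp2 (Nat.le_self_pow (by omega) p)
  have h7 : p ^ r - 1 ≤ 2 * (p ^ d - 1) := Nat.le_of_dvd (by omega) h6
  have h8 : p ^ d ≤ p ^ (r - 1) := Nat.pow_le_pow_right (by omega) (by omega)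
  have h9 : p ^ r = p ^ (r - 1) * p := by
    rw [← pow_succ]; congr 1; omega
  have h10 : p ^ (r - 1) * 3 ≤ p ^ r := by
    rw [h9]; exact Nat.mul_le_mul_left _ hp3
  omega

/-- Proof. Let `F` be the field with `p ^ r` elements (`GaloisField p r`), `ζ` a generator of its multiplicative group, `A` the matrix of multiplication by `ζ` over `ZMod p` (`Algebra.leftMulMatrix` for a basis indexed by `Fin r`). `A²` is the matrix of multiplication by `ζ²`; its characteristic
polynomial is irreducible if `ζ²` generates the field `F` (its minimal polynomial then has degree `r` and divides the characteristic polynomial, which is monic of degree `r`). If `ζ²` were in a proper subfield with `p ^ d` elements, `d < r`, then the order of `ζ²`, which is `(p ^ r - 1) / 2`, would be at most `p ^ d - 1`: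
impossible for `p ≥ 3` (`p ^ r - 1 ≤ 2 p ^ (r - 1) - 2`). -/
theorem exists_sq_irreducible (p : ℕ) [Fact p.Prime] (hp : p ≠ 2) (r : ℕ) (hr : 1 ≤ r) :
    ∃ A : Matrix (Fin r) (Fin r) (ZMod p), Irreducible (A * A).charpoly := by
  have hr0 : r ≠ 0 := by omega
  obtain ⟨x, hx, z, hz⟩ := jxB_adjoin_eq_top p hp r hr
  have hfin : Module.finrank (ZMod p) (GaloisField p r) = r := GaloisField.finrank p hr0
  let b : Module.Basis (Fin r) (ZMod p) (GaloisField p r) := Module.finBasisOfFinrankEq _ _ hfin
  refine ⟨Algebra.leftMulMatrix b z, ?_⟩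
  rw [← map_mul, ← hz]
  have hint : IsIntegral (ZMod p) x := Algebra.IsIntegral.isIntegral x
  have hmin : minpoly (ZMod p) (Algebra.leftMulMatrix b x) = minpoly (ZMod p) x :=
    minpoly.algHom_eq _ (Algebra.leftMulMatrix_injective b) x
  have hdvd : minpoly (ZMod p) x ∣ (Algebra.leftMulMatrix b x).charpoly := by
    rw [← hmin]
    exact Matrix.minpoly_dvd_charpoly _
  have hdeg : (Algebra.leftMulMatrix b x).charpoly.natDegree = r := by
    rw [Matrix.charpoly_natDegree_eq_dim, Fintype.card_fin]
  have heq : (Algebra.leftMulMatrix b x).charpoly = minpoly (ZMod p) x := by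
    refine (Polynomial.eq_of_monic_of_dvd_of_natDegree_le (minpoly.monic hint)
      (Matrix.charpoly_monic _) hdvd ?_)
    rw [hdeg, hx]
  rw [heq]
  exact minpoly.irreducible hint

/-- The block diagonal matrix with the blocks `(1)` and a matrix of size `r - 1 ≥ 2` as above (an irreducible polynomial of degree `≥ 2` has no root). -/
theorem exists_sq_root_irreducible (p : ℕ) [Fact p.Prime] (hp : p ≠ 2) (r : ℕ) (hr : 3 ≤ r) :
    ∃ (A : Matrix (Fin r) (Fin r) (ZMod p)) (a : ZMod p) (H : (ZMod p)[X]), (A * A).charpoly = (X - C a) * H ∧ Irreducible H ∧ H.eval a ≠ 0 := by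
  obtain ⟨s, rfl⟩ : ∃ s, r = 1 + s := ⟨r - 1, by omega⟩
  obtain ⟨A, hA⟩ := exists_sq_irreducible p hp s (by omega)
  let e : Fin 1 ⊕ Fin s ≃ Fin (1 + s) := finSumFinEquiv
  let B : Matrix (Fin 1 ⊕ Fin s) (Fin 1 ⊕ Fin s) (ZMod p) := Matrix.fromBlocks 1 0 0 A
  refine ⟨Matrix.reindex e e B, 1, (A * A).charpoly, ?_, hA, ?_⟩
  · have h1 : Matrix.reindex e e B * Matrix.reindex e e B = Matrix.reindex e e (B * B) := by
      simp only [Matrix.reindex_apply]
      rw [Matrix.submatrix_mul_equiv]
    rw [h1, Matrix.charpoly_reindex]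
    have h2 : B * B = Matrix.fromBlocks 1 0 0 (A * A) := by
      simp only [B, Matrix.fromBlocks_multiply]
      simp
    rw [h2, Matrix.charpoly_fromBlocks_zero₂₁]
    congr 1
    simp [Matrix.charpoly, Matrix.charmatrix]
  · intro h0
    have h1 := Polynomial.degree_eq_one_of_irreducible_of_root hA h0
    rw [Matrix.charpoly_degree_eq_dim, Fintype.card_fin] at h1
    have h2 : (s : WithBot ℕ) = ((1 : ℕ) : WithBot ℕ) := by exact_mod_cast h1
    have h3 : s = 1 := by exact_mod_cast h2
    omega

end WCn
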