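import Pool.Agent.Lib.MP_c2b80f_alD.GDefs

/-!
# Elements with one nonsquare, types `C` and `B` (job JxC)
-/

open Matrix Polynomial

namespace WCn

/-- the matrix of the docstring below, `i₀` the distinguished index -/
private def JxC_Y {K : Type*} [CommRing K] (r δ : ℕ) (i₀ : Fin r) (s : Fin r → K) (β γ b c : K) :
    Matrix (Fin r ⊕ (Fin r ⊕ Fin δ)) (Fin r ⊕ (Fin r ⊕ Fin δ)) K :=
  Matrix.of fun x y => match x, y with
    | Sum.inl i, Sum.inl j => if i = j then s i else 0
    | Sum.inl i, Sum.inr (Sum.inl j) => if i = i₀ ∧ j = i₀ then β else 0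
    | Sum.inl i, Sum.inr (Sum.inr _) => if i = i₀ then b else 0
    | Sum.inr (Sum.inl i), Sum.inl j => if i = i₀ ∧ j = i₀ then γ else 0
    | Sum.inr (Sum.inl i), Sum.inr (Sum.inl j) => if i = j then - s i else 0
    | Sum.inr (Sum.inl i), Sum.inr (Sum.inr _) => if i = i₀ then c else 0
    | Sum.inr (Sum.inr _), Sum.inl j => if j = i₀ then - c else 0
    | Sum.inr (Sum.inr _), Sum.inr (Sum.inl j) => if j = i₀ then - b else 0
    | Sum.inr (Sum.inr _), Sum.inr (Sum.inr _) => 0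

private theorem JxC_mem {K : Type*} [CommRing K] {ε : ℤ} {r δ : ℕ} (i₀ : Fin r) (s : Fin r → K) (β γ b c : K)
    (h : (ε = -1 ∧ δ = 0) ∨ (ε = 1 ∧ δ = 1 ∧ β = 0 ∧ γ = 0)) :
    Matrix.reindex (eJ r δ) (eJ r δ) (JxC_Y r δ i₀ s β γ b c) ∈ lieJ (JR K ε r δ) := by
  show (Matrix.reindex (eJ r δ) (eJ r δ) (JxC_Y r δ i₀ s β γ b c))ᵀ * JR K ε r δ +
    JR K ε r δ * (Matrix.reindex (eJ r δ) (eJ r δ) (JxC_Y r δ i₀ s β γ b c)) = 0
  have hJ : JR K ε r δ = Matrix.reindex (eJ r δ) (eJ r δ) ((JS ε r δ).map (Int.castRingHom K)) := by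
    rw [JR, JI]; rfl
  have key : (JxC_Y r δ i₀ s β γ b c)ᵀ * (JS ε r δ).map (Int.castRingHom K) +
      (JS ε r δ).map (Int.castRingHom K) * JxC_Y r δ i₀ s β γ b c = 0 := by
    ext x y
    rcases h with ⟨rfl, rfl⟩ | ⟨rfl, rfl, rfl, rfl⟩
    · rcases x with i | i | i
      · rcases y with j | j | j
        · simp [JxC_Y, JS, Matrix.mul_apply, Matrix.one_apply, Fintype.sum_sum_type]
          by_cases hj : j = i₀ <;> by_cases hi : i = i₀ <;> simp [hj, hi]
        · simp [JxC_Y, JS, Matrix.mul_apply, Matrix.one_apply, Fintype.sum_sum_type]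
          by_cases hj : i = j
          · simp [hj]
          · simp [hj, Ne.symm hj]
        · exact j.elim0
      · rcases y with j | j | j
        · simp [JxC_Y, JS, Matrix.mul_apply, Matrix.one_apply, Fintype.sum_sum_type]
          by_cases hj : i = j
          · simp [hj]
          · simp [hj, Ne.symm hj]
        · simp [JxC_Y, JS, Matrix.mul_apply, Matrix.one_apply, Fintype.sum_sum_type]
          by_cases hj : j = i₀ <;> by_cases hi : i = i₀ <;> simp [hj, hi]
        · exact j.elim0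
      · exact i.elim0
    · rcases x with i | i | i
      · rcases y with j | j | j
        · simp [JxC_Y, JS, Matrix.mul_apply, Matrix.one_apply, Fintype.sum_sum_type]
        · simp [JxC_Y, JS, Matrix.mul_apply, Matrix.one_apply, Fintype.sum_sum_type]
          by_cases hj : i = j
          · simp [hj]
          · simp [hj, Ne.symm hj]
        · have hj0 : j = 0 := Subsingleton.elim _ _
          simp [JxC_Y, JS, Matrix.mul_apply, Matrix.one_apply, Fintype.sum_sum_type]
          by_cases hi : i = i₀ <;> simp [hi, hj0]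
      · rcases y with j | j | j
        · simp [JxC_Y, JS, Matrix.mul_apply, Matrix.one_apply, Fintype.sum_sum_type]
          by_cases hj : i = j
          · simp [hj]
          · simp [hj, Ne.symm hj]
        · simp [JxC_Y, JS, Matrix.mul_apply, Matrix.one_apply, Fintype.sum_sum_type]
        · have hj0 : j = 0 := Subsingleton.elim _ _
          simp [JxC_Y, JS, Matrix.mul_apply, Matrix.one_apply, Fintype.sum_sum_type]
          by_cases hi : i = i₀ <;> simp [hi, hj0]
      · have hi0 : i = 0 := Subsingleton.elim _ _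
        rcases y with j | j | j
        · simp [JxC_Y, JS, Matrix.mul_apply, Matrix.one_apply, Fintype.sum_sum_type]
          by_cases hj : j = i₀ <;> simp [hj, hi0]
        · simp [JxC_Y, JS, Matrix.mul_apply, Matrix.one_apply, Fintype.sum_sum_type]
          by_cases hj : j = i₀ <;> simp [hj, hi0]
        · simp [JxC_Y, JS, Matrix.mul_apply, Matrix.one_apply, Fintype.sum_sum_type]
  rw [hJ]
  simp only [Matrix.reindex_apply, Matrix.transpose_submatrix]
  rw [Matrix.submatrix_mul_equiv, Matrix.submatrix_mul_equiv]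
  have h2 := congrArg (fun M => M.submatrix (eJ r δ).symm (eJ r δ).symm) key
  simpa [Matrix.submatrix_add] using h2

private def JxC_b {r : ℕ} (δ : ℕ) (i₀ : Fin r) : Fin r ⊕ (Fin r ⊕ Fin δ) → Fin r
  | Sum.inl i => i
  | Sum.inr (Sum.inl i) => i
  | Sum.inr (Sum.inr _) => i₀

private theorem JxC_off {K : Type*} [CommRing K] {r δ : ℕ} (i₀ : Fin r) (s : Fin r → K) (β γ b c : K)
    (x y : Fin r ⊕ (Fin r ⊕ Fin δ)) (h : JxC_b δ i₀ x ≠ JxC_b δ i₀ y) : JxC_Y r δ i₀ s β γ b c x y = 0 := by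
  rcases x with i | i | i <;> rcases y with j | j | j <;> simp only [JxC_b, ne_eq, not_true_eq_false] at h <;>
    simp [JxC_Y]
  · exact fun h' => absurd h' h
  · rintro rfl rfl
    exact absurd rfl h
  · exact fun h' => absurd h' h
  · rintro rfl rfl
    exact absurd rfl h
  · exact fun h' => absurd h' h
  · exact fun h' => absurd h' h
  · exact fun h' => absurd h'.symm h
  · exact fun h' => absurd h'.symm h

private theorem JxC_two {K : Type*} [CommRing K] {r δ : ℕ} (i₀ : Fin r) (s : Fin r → K) (β γ b c : K) (k : Fin r)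
    (h : k ≠ i₀ ∨ δ = 0) :
    ((charmatrix (JxC_Y r δ i₀ s β γ b c)).toSquareBlock (JxC_b δ i₀) k).det =
      X ^ 2 - C (s k ^ 2) - if k = i₀ then C (β * γ) else 0 := by
  obtain ⟨e, he⟩ : ∃ e : Fin 2 → {x // JxC_b δ i₀ x = k}, e = ![⟨Sum.inl k, rfl⟩, ⟨Sum.inr (Sum.inl k), rfl⟩] := ⟨_, rfl⟩
  have hb : Function.Bijective e := by
    rw [he]
    constructor
    · intro i j hij
      have hij' := congrArg Subtype.val hij
      fin_cases i <;> fin_cases j <;> simp at hij' ⊢
    · rintro ⟨x, hx⟩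
      rcases x with i | i | i
      · change i = k at hx
        subst hx
        exact ⟨0, rfl⟩
      · change i = k at hx
        subst hx
        exact ⟨1, rfl⟩
      · change i₀ = k at hx
        rcases h with h | h
        · exact absurd hx.symm h
        · subst h
          exact i.elim0
  rw [← Matrix.det_submatrix_equiv_self (Equiv.ofBijective e hb), Matrix.det_fin_two]
  simp [he, Matrix.toSquareBlock_def, charmatrix_apply, JxC_Y]
  split_ifs with h1
  · subst h1
    simp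
    ring
  · simp
    ring

private theorem JxC_three {K : Type*} [CommRing K] {r : ℕ} (i₀ : Fin r) (s : Fin r → K) (b c : K) (hs : s i₀ = 0) :
    ((charmatrix (JxC_Y r 1 i₀ s 0 0 b c)).toSquareBlock (JxC_b 1 i₀) i₀).det = X * (X ^ 2 + C (2 * b * c)) := by
  obtain ⟨e, he⟩ : ∃ e : Fin 3 → {x // JxC_b 1 i₀ x = i₀},
    e = ![⟨Sum.inl i₀, rfl⟩, ⟨Sum.inr (Sum.inl i₀), rfl⟩, ⟨Sum.inr (Sum.inr 0), rfl⟩] := ⟨_, rfl⟩
  have hb : Function.Bijective e := by
    rw [he]
    constructor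
    · intro i j hij
      have hij' := congrArg Subtype.val hij
      fin_cases i <;> fin_cases j <;> simp at hij' ⊢
    · rintro ⟨x, hx⟩
      rcases x with i | i | i
      · change i = i₀ at hx
        subst hx
        exact ⟨0, rfl⟩
      · change i = i₀ at hx
        subst hx
        exact ⟨1, rfl⟩
      · have : i = 0 := Subsingleton.elim _ _
        subst this
        exact ⟨2, rfl⟩
  rw [← Matrix.det_submatrix_equiv_self (Equiv.ofBijective e hb), Matrix.det_fin_three]
  have h2 : (C (2 : K) : K[X]) = 2 := map_ofNat C 2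
  simp [he, Matrix.toSquareBlock_def, charmatrix_apply, JxC_Y, hs, h2]
  ring

private theorem JxC_charpoly {K : Type*} [CommRing K] {r δ : ℕ} (i₀ : Fin r) (s : Fin r → K) (β γ b c : K) :
    (Matrix.reindex (eJ r δ) (eJ r δ) (JxC_Y r δ i₀ s β γ b c)).charpoly =
      ∏ k, ((charmatrix (JxC_Y r δ i₀ s β γ b c)).toSquareBlock (JxC_b δ i₀) k).det := by
  rw [Matrix.charpoly_reindex, Matrix.charpoly]
  apply Matrix.BlockTriangular.det_fintype
  intro x y hxy
  rw [charmatrix_apply, JxC_off i₀ s β γ b c x y hxy.ne', Matrix.diagonal_apply_ne]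
  · simp
  · rintro rfl
    exact lt_irrefl _ hxy

/-- Proof. Let `ν` be a nonsquare (`p` odd), `a 0 = ν`, `a i = i ^ 2` for `1 ≤ i < r` (as elements of `ZMod p`; different and nonzero because `p > 2 r`; different from the nonsquare `ν`). In the basis `e_i`, `f_i` (, `e₀`) of `JI`:
`X e_i = i e_i`, `X f_i = -i f_i` for `i ≥ 1`.
Type `C` (`ε = -1`, `δ = 0`): `X e_0 = f_0`, `X f_0 = ν e_0` (in block form `X = [[A, B], [C, -Aᵀ]]` with `A = diag(0, 1, …, r - 1)`, `B = ν E_00`, `C = E_00` symmetric). So `X² e_0 = ν e_0`.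
Type `B` (`ε = 1`, `δ = 1`), with `z` the last basis vector and `b c = - ν / 2`, for instance `b = 1`, `c = - ν / 2`: `X z = b e_0 + c f_0`, `X e_0 = - c z`, `X f_0 = - b z`; on the span of `e_0, f_0, z` the characteristic polynomial is `U (U ^ 2 + 2 b c) = U (U ^ 2 - ν)`.
The characteristic polynomial is the product over the blocks `{e_i, f_i}` (compute after reindexing to a block diagonal matrix, or determine `charpoly` by block triangular determinants). -/
theorem exists_one_nonsquare {ε : ℤ} {r δ : ℕ} (h : (ε = -1 ∧ δ = 0) ∨ (ε = 1 ∧ δ = 1)) (hr : 1 ≤ r) (p : ℕ) [Fact p.Prime] (hp : 2 * r + 2 < p) :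
    ∃ (X₁ : Matrix (Fin (r + (r + δ))) (Fin (r + (r + δ))) (ZMod p)) (a : Fin r → ZMod p) (i₀ : Fin r),
      X₁ ∈ lieJ (JR (ZMod p) ε r δ) ∧ X₁.charpoly = X ^ δ * (∏ i, (X - C (a i))).comp (X ^ 2) ∧ Function.Injective a ∧ (∀ i, a i ≠ 0) ∧
      ¬ IsSquare (a i₀) ∧ ∀ i, i ≠ i₀ → IsSquare (a i) := by
  have hp2 : p ≠ 2 := by omega
  obtain ⟨ν, hν⟩ : ∃ ν : ZMod p, ¬ IsSquare ν := FiniteField.exists_nonsquare (by rwa [ZMod.ringChar_zmod_n])
  obtain ⟨i₀, hi₀⟩ : ∃ i₀ : Fin r, (i₀ : ℕ) = 0 := ⟨⟨0, by omega⟩, rfl⟩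
  obtain ⟨s, hs⟩ : ∃ s : Fin r → ZMod p, ∀ i, s i = ((i : ℕ) : ZMod p) := ⟨_, fun _ => rfl⟩
  obtain ⟨a, ha⟩ : ∃ a : Fin r → ZMod p, ∀ i, a i = if i = i₀ then ν else s i ^ 2 := ⟨_, fun _ => rfl⟩
  have hs0 : s i₀ = 0 := by rw [hs, hi₀, Nat.cast_zero]
  have hcast : ∀ m : ℕ, m < p → ((m : ℕ) : ZMod p) = 0 → m = 0 := by
    intro m hm h0
    rw [ZMod.natCast_eq_zero_iff] at h0
    exact Nat.eq_zero_of_dvd_of_lt h0 hm
  have hsne : ∀ i, i ≠ i₀ → s i ≠ 0 := by
    intro i hi h0
    rw [hs] at h0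
    have h1 := hcast i (by omega) h0
    exact hi (Fin.ext (by omega))
  have ha1 : ∀ i, i ≠ i₀ → a i = s i ^ 2 := fun i hi => by rw [ha, if_neg hi]
  have ha0 : a i₀ = ν := by rw [ha, if_pos rfl]
  have hν0 : ν ≠ 0 := by
    rintro rfl
    exact hν ⟨0, by simp⟩
  have hsq : ∀ i, i ≠ i₀ → IsSquare (a i) := fun i hi => ⟨s i, by rw [ha1 i hi, sq]⟩
  have hinj : Function.Injective a := by
    intro i j hij
    by_cases hi : i = i₀
    · by_cases hj : j = i₀
      · rw [hi, hj]
      · rw [hi, ha0] at hij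
        exact absurd (hij ▸ hsq j hj) hν
    · by_cases hj : j = i₀
      · rw [hj, ha0] at hij
        exact absurd (hij ▸ hsq i hi) hν
      · rw [ha1 i hi, ha1 j hj, sq_eq_sq_iff_eq_or_eq_neg] at hij
        rcases hij with h1 | h1
        · rw [hs, hs, ZMod.natCast_eq_natCast_iff'] at h1
          rw [Nat.mod_eq_of_lt (by omega), Nat.mod_eq_of_lt (by omega)] at h1
          exact Fin.ext h1
        · exfalso
          have h2 : (((i : ℕ) + (j : ℕ) : ℕ) : ZMod p) = 0 := by
            rw [Nat.cast_add, ← hs, ← hs, h1]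
            ring
          have h3 := hcast _ (by omega) h2
          exact hi (Fin.ext (by omega))
  have hane : ∀ i, a i ≠ 0 := by
    intro i
    by_cases hi : i = i₀
    · rw [hi, ha0]
      exact hν0
    · rw [ha1 i hi]
      exact pow_ne_zero 2 (hsne i hi)
  have hcomp : (∏ i, (X - C (a i))).comp (X ^ 2) = (X ^ 2 - C ν) * ∏ i ∈ Finset.univ.erase i₀, (X ^ 2 - C (s i ^ 2)) := by
    rw [Polynomial.prod_comp, ← Finset.mul_prod_erase Finset.univ _ (Finset.mem_univ i₀), ha0]
    simp only [sub_comp, X_comp, C_comp]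
    congr 1
    refine Finset.prod_congr rfl fun i hi => ?_
    rw [ha1 i (Finset.ne_of_mem_erase hi)]
  rcases h with ⟨rfl, rfl⟩ | ⟨rfl, rfl⟩
  · refine ⟨Matrix.reindex (eJ r 0) (eJ r 0) (JxC_Y r 0 i₀ s ν 1 0 0), a, i₀, JxC_mem i₀ s ν 1 0 0 (Or.inl ⟨rfl, rfl⟩),
      ?_, hinj, hane, by rwa [ha0], hsq⟩
    rw [JxC_charpoly, hcomp, pow_zero, one_mul, ← Finset.mul_prod_erase Finset.univ _ (Finset.mem_univ i₀)]
    congr 1
    · rw [JxC_two i₀ s ν 1 0 0 i₀ (Or.inr rfl), if_pos rfl, hs0]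
      simp
    · refine Finset.prod_congr rfl fun i hi => ?_
      rw [JxC_two i₀ s ν 1 0 0 i (Or.inr rfl), if_neg (Finset.ne_of_mem_erase hi), sub_zero]
  · have h2 : (2 : ZMod p) ≠ 0 := by
      intro h0
      have := hcast 2 (by omega) (by exact_mod_cast h0)
      omega
    refine ⟨Matrix.reindex (eJ r 1) (eJ r 1) (JxC_Y r 1 i₀ s 0 0 1 (-ν / 2)), a, i₀,
      JxC_mem i₀ s 0 0 1 (-ν / 2) (Or.inr ⟨rfl, rfl, rfl, rfl⟩), ?_, hinj, hane, by rwa [ha0], hsq⟩
    rw [JxC_charpoly, hcomp, ← Finset.mul_prod_erase Finset.univ _ (Finset.mem_univ i₀),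
      JxC_three i₀ s 1 (-ν / 2) hs0, pow_one]
    have h3 : 2 * 1 * (-ν / 2) = - ν := by field_simp
    rw [h3, C_neg, ← sub_eq_add_neg, mul_assoc]
    congr 2
    refine Finset.prod_congr rfl fun i hi => ?_
    rw [JxC_two i₀ s 0 0 1 (-ν / 2) i (Or.inl (Finset.ne_of_mem_erase hi)), if_neg (Finset.ne_of_mem_erase hi), sub_zero]

end WCn
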