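import Pool.Agent.Lib.MP_c2b80f_alD.GDefs

/-!
# Elements with two nonsquares, type `D` (job JxD)
-/

open Matrix Polynomial

namespace WCn

/-- The block on `e_0, e_1, f_0, f_1`. -/
private def JxD_M {K : Type*} [CommRing K] (ν : K) : Matrix (Fin 2 ⊕ Fin 2) (Fin 2 ⊕ Fin 2) K :=
  Matrix.fromBlocks !![0, 1; 4 * ν, 0] !![0, 1; -1, 0] !![0, -ν; ν, 0] !![0, -(4 * ν); -1, 0]

private theorem JxD_charM {K : Type*} [Field K] (ν : K) :
    (JxD_M ν).charpoly = (X ^ 2 - C ν) * (X ^ 2 - C (9 * ν)) := by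
  have h1 : Matrix.reindex finSumFinEquiv finSumFinEquiv (JxD_M ν) =
      (!![0, 1, 0, 1; 4 * ν, 0, -1, 0; 0, -ν, 0, -(4 * ν); ν, 0, -1, 0] : Matrix (Fin 4) (Fin 4) K) := by
    ext i j
    fin_cases i <;> fin_cases j <;> rfl
  rw [← Matrix.charpoly_reindex finSumFinEquiv (JxD_M ν), h1, Matrix.charpoly, Matrix.det_succ_row_zero]
  have h4 : (C 4 : K[X]) = 4 := map_ofNat C 4
  have h9 : (C 9 : K[X]) = 9 := map_ofNat C 9
  simp [Fin.sum_univ_succ, Matrix.det_fin_three, Matrix.charmatrix_apply, Matrix.submatrix_apply, Fin.succAbove]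
  rw [h4, h9]
  ring

/-- The order of the basis. -/
private def JxD_e (s : ℕ) : (Fin 2 ⊕ Fin 2) ⊕ (Fin s ⊕ Fin s) ≃ Fin (2 + s) ⊕ (Fin (2 + s) ⊕ Fin 0) :=
  (Equiv.sumSumSumComm (Fin 2) (Fin 2) (Fin s) (Fin s)).trans
    (Equiv.sumCongr finSumFinEquiv (finSumFinEquiv.trans (Equiv.sumEmpty (Fin (2 + s)) (Fin 0)).symm))

private def JxD_J (K : Type*) [CommRing K] (s : ℕ) : Matrix ((Fin 2 ⊕ Fin 2) ⊕ (Fin s ⊕ Fin s)) ((Fin 2 ⊕ Fin 2) ⊕ (Fin s ⊕ Fin s)) K :=
  Matrix.fromBlocks (Matrix.fromBlocks 0 1 1 0) 0 0 (Matrix.fromBlocks 0 1 1 0)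

private theorem JxD_JR (K : Type*) [CommRing K] (s : ℕ) :
    JR K 1 (2 + s) 0 = Matrix.reindex ((JxD_e s).trans (eJ (2 + s) 0)) ((JxD_e s).trans (eJ (2 + s) 0)) (JxD_J K s) := by
  have h1 : JxD_J K s = ((JS 1 (2 + s) 0).map (Int.castRingHom K)).submatrix (JxD_e s) (JxD_e s) := by
    ext i j
    rcases i with (i | i) | (i | i) <;> rcases j with (j | j) | (j | j) <;>
      simp [JxD_J, JS, JxD_e, Equiv.sumSumSumComm, Matrix.one_apply, Fin.ext_iff]
    all_goals (intro h; exfalso; have h1 := i.isLt; have h2 := j.isLt; omega)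
  rw [h1]
  ext i j
  simp [JR, JI]

private def JxD_N {K : Type*} [CommRing K] (s : ℕ) (ν : K) (d : Fin s → K) :
    Matrix ((Fin 2 ⊕ Fin 2) ⊕ (Fin s ⊕ Fin s)) ((Fin 2 ⊕ Fin 2) ⊕ (Fin s ⊕ Fin s)) K :=
  Matrix.fromBlocks (JxD_M ν) 0 0 (Matrix.fromBlocks (Matrix.diagonal d) 0 0 (Matrix.diagonal (-d)))

private theorem JxD_mem {K : Type*} [CommRing K] (s : ℕ) (ν : K) (d : Fin s → K) :
    (JxD_N s ν d)ᵀ * JxD_J K s + JxD_J K s * JxD_N s ν d = 0 := by
  have h1 : (JxD_M ν)ᵀ * (Matrix.fromBlocks 0 1 1 0 : Matrix (Fin 2 ⊕ Fin 2) (Fin 2 ⊕ Fin 2) K) +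
      (Matrix.fromBlocks 0 1 1 0 : Matrix (Fin 2 ⊕ Fin 2) (Fin 2 ⊕ Fin 2) K) * JxD_M ν = 0 := by
    rw [JxD_M, Matrix.fromBlocks_transpose, Matrix.fromBlocks_multiply, Matrix.fromBlocks_multiply,
      Matrix.fromBlocks_add, ← Matrix.fromBlocks_zero]
    congr 1 <;> ext i j <;> fin_cases i <;> fin_cases j <;> simp
  have h2 : (Matrix.fromBlocks (Matrix.diagonal d) 0 0 (Matrix.diagonal (-d)))ᵀ *
      (Matrix.fromBlocks 0 1 1 0 : Matrix (Fin s ⊕ Fin s) (Fin s ⊕ Fin s) K) +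
      (Matrix.fromBlocks 0 1 1 0 : Matrix (Fin s ⊕ Fin s) (Fin s ⊕ Fin s) K) *
        (Matrix.fromBlocks (Matrix.diagonal d) 0 0 (Matrix.diagonal (-d))) = 0 := by
    rw [Matrix.fromBlocks_transpose, Matrix.fromBlocks_multiply, Matrix.fromBlocks_multiply,
      Matrix.fromBlocks_add, ← Matrix.fromBlocks_zero]
    congr 1 <;> simp
  rw [JxD_N, JxD_J, Matrix.fromBlocks_transpose, Matrix.fromBlocks_multiply, Matrix.fromBlocks_multiply,
    Matrix.fromBlocks_add]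
  simp only [Matrix.transpose_zero, Matrix.zero_mul, Matrix.mul_zero, add_zero, zero_add]
  rw [h1, h2, Matrix.fromBlocks_zero]

private theorem JxD_charN {K : Type*} [Field K] (s : ℕ) (ν : K) (d : Fin s → K) :
    (JxD_N s ν d).charpoly = (X ^ 2 - C ν) * (X ^ 2 - C (9 * ν)) * ∏ i, (X ^ 2 - C (d i ^ 2)) := by
  rw [JxD_N, Matrix.charpoly_fromBlocks_zero₁₂, JxD_charM, Matrix.charpoly_fromBlocks_zero₁₂, Matrix.charpoly_diagonal,
    Matrix.charpoly_diagonal, ← Finset.prod_mul_distrib]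
  congr 1
  refine Finset.prod_congr rfl fun i _ => ?_
  rw [Pi.neg_apply, map_neg, map_pow]
  ring

/-- Proof. Let `ν` be a nonsquare, `a 0 = ν`, `a 1 = 9 ν`, `a i = (i - 1) ^ 2` for `2 ≤ i < r` (different and nonzero because `p > 2 r + 8`; `9 ν ≠ ν`). In the basis `e_i`, `f_i` of `JI 1 r 0` (`e_i · f_i = 1`): `X e_i = (i - 1) e_i`, `X f_i = -(i - 1) f_i` for `i ≥ 2`, and on the span of
`e_0, e_1, f_0, f_1` with `p₁ = 1`, `p₂ = -ν`, `p₃ = 1`, `p₄ = -4 ν`:
`X e_0 = - p₂ f_1 - p₄ e_1`, `X f_0 = - p₁ e_1 - p₃ f_1`, `X e_1 = p₂ f_0 + p₃ e_0`, `X f_1 = p₁ e_0 + p₄ f_0`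
(this is `p₁ X_{e_0,e_1} + p₂ X_{f_0,f_1} + p₃ X_{e_0,f_1} + p₄ X_{f_0,e_1}`, so it is in `lieJ`). On the span of `e_0, f_0` the matrix `X²` is `X² e_0 = -(p₁ p₂ + p₃ p₄) e_0 - 2 p₂ p₄ f_0`, `X² f_0 = - 2 p₁ p₃ e_0 - (p₁ p₂ + p₃ p₄) f_0`, with eigenvalues
`-(p₁ p₂ + p₃ p₄) ± 2 √(p₁ p₂ p₃ p₄) = 5 ν ± 4 ν`; the characteristic polynomial of `X` on the 4-dimensional space is `(U ^ 2 - ν) (U ^ 2 - 9 ν)`. -/
theorem exists_two_nonsquares {r : ℕ} (hr : 3 ≤ r) (p : ℕ) [Fact p.Prime] (hp : 2 * r + 8 < p) :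
    ∃ (X₁ : Matrix (Fin (r + (r + 0))) (Fin (r + (r + 0))) (ZMod p)) (a : Fin r → ZMod p) (i₀ i₁ : Fin r),
      X₁ ∈ lieJ (JR (ZMod p) 1 r 0) ∧ X₁.charpoly = X ^ 0 * (∏ i, (X - C (a i))).comp (X ^ 2) ∧ Function.Injective a ∧ (∀ i, a i ≠ 0) ∧
      i₀ ≠ i₁ ∧ ¬ IsSquare (a i₀) ∧ ¬ IsSquare (a i₁) ∧ ∀ i, i ≠ i₀ → i ≠ i₁ → IsSquare (a i) := by
  classical
  have hp0 : 0 < p := (Fact.out : p.Prime).pos
  obtain ⟨s, rfl⟩ : ∃ s, r = 2 + s := ⟨r - 2, by omega⟩
  have hp2 : ringChar (ZMod p) ≠ 2 := by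
    rw [ZMod.ringChar_zmod_n]
    omega
  obtain ⟨ν, hν⟩ := FiniteField.exists_nonsquare hp2
  have hcast : ∀ k : ℕ, 0 < k → k < p → (k : ZMod p) ≠ 0 := by
    intro k hk hkp h
    rw [ZMod.natCast_eq_zero_iff] at h
    exact absurd (Nat.le_of_dvd hk h) (by omega)
  have hν0 : ν ≠ 0 := by
    rintro rfl
    exact hν IsSquare.zero
  have h3 : (3 : ZMod p) ≠ 0 := by exact_mod_cast hcast 3 (by omega) (by omega)
  have h8 : (8 : ZMod p) ≠ 0 := by exact_mod_cast hcast 8 (by omega) (by omega)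
  have h9ν : ¬ IsSquare (9 * ν) := by
    rintro ⟨t, ht⟩
    refine hν ⟨t / 3, ?_⟩
    field_simp
    linear_combination ht
  have hsq : ∀ k : ℕ, IsSquare ((k : ZMod p) ^ 2) := fun k => IsSquare.sq _
  refine ⟨Matrix.reindex ((JxD_e s).trans (eJ (2 + s) 0)) ((JxD_e s).trans (eJ (2 + s) 0))
    (JxD_N s ν (fun i : Fin s => (((i : ℕ) + 1 : ℕ) : ZMod p))),
    Fin.append ![ν, 9 * ν] (fun i : Fin s => (((i : ℕ) + 1 : ℕ) : ZMod p) ^ 2), Fin.castAdd s 0, Fin.castAdd s 1,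
    ?_, ?_, ?_, ?_, ?_, ?_, ?_, ?_⟩
  · show _ * _ + _ * _ = _
    rw [JxD_JR]
    simp only [Matrix.reindex_apply, Matrix.transpose_submatrix, Matrix.submatrix_mul_equiv]
    exact congrArg (fun M => Matrix.submatrix M ((JxD_e s).trans (eJ (2 + s) 0)).symm ((JxD_e s).trans (eJ (2 + s) 0)).symm)
      (JxD_mem s ν _)
  · rw [Matrix.charpoly_reindex, JxD_charN, pow_zero, one_mul, Fin.prod_univ_add, Fin.prod_univ_two]
    simp only [Fin.append_left, Fin.append_right, Polynomial.mul_comp, Polynomial.prod_comp, Polynomial.sub_comp,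
      Polynomial.X_comp, Polynomial.C_comp]
    rfl
  · intro i j
    refine Fin.addCases (fun i => ?_) (fun i => ?_) i <;> refine Fin.addCases (fun j => ?_) (fun j => ?_) j
    · rw [Fin.append_left, Fin.append_left]
      fin_cases i <;> fin_cases j <;> intro h
      · rfl
      · exfalso
        have h' : ν = 9 * ν := h
        exact mul_ne_zero h8 hν0 (by linear_combination -h')
      · exfalso
        have h' : 9 * ν = ν := h
        exact mul_ne_zero h8 hν0 (by linear_combination h')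
      · rfl
    · rw [Fin.append_left, Fin.append_right]
      intro h
      exfalso
      have h' := hsq (j + 1)
      rw [← h] at h'
      fin_cases i
      · exact hν h'
      · exact h9ν h'
    · rw [Fin.append_left, Fin.append_right]
      intro h
      exfalso
      have h' := hsq (i + 1)
      rw [h] at h'
      fin_cases j
      · exact hν h'
      · exact h9ν h'
    · rw [Fin.append_right, Fin.append_right]
      intro h
      have hi := i.isLt
      have hj := j.isLt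
      rcases sq_eq_sq_iff_eq_or_eq_neg.1 h with h | h
      · have h' := (ZMod.natCast_eq_natCast_iff' _ _ _).1 h
        rw [Nat.mod_eq_of_lt (by omega), Nat.mod_eq_of_lt (by omega)] at h'
        congr 1
        exact Fin.ext (by omega)
      · exfalso
        refine hcast ((i + 1) + (j + 1)) (by omega) (by omega) ?_
        rw [Nat.cast_add, h, neg_add_cancel]
  · intro i
    refine Fin.addCases (fun i => ?_) (fun i => ?_) i
    · rw [Fin.append_left]
      fin_cases i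
      · exact hν0
      · intro h
        have h' : 9 * ν = 0 := h
        rw [h'] at h9ν
        exact h9ν IsSquare.zero
    · rw [Fin.append_right]
      have hi := i.isLt
      exact pow_ne_zero _ (hcast _ (by omega) (by omega))
  · intro h
    have h' := congrArg Fin.val h
    simp at h'
  · rw [Fin.append_left]
    exact hν
  · rw [Fin.append_left]
    exact h9ν
  · intro i
    refine Fin.addCases (fun i => ?_) (fun i => ?_) i
    · fin_cases i
      · intro h _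
        exact absurd rfl h
      · intro _ h
        exact absurd rfl h
    · intro _ _
      rw [Fin.append_right]
      exact IsSquare.sq _

end WCn
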