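import Pool.Agent.Lib.MP_c2b80f_alD.LvDefs
import Pool.Agent.Lib.MP_c2b80f_alC.ReachA
import Pool.Agent.Lib.MP_c2b80f_alC.ReachB

/-!
# All elements of the Lie algebra modulo `p` are reachable (job LvC)
-/

open Matrix

namespace WCn

variable {m : ℕ} {T : Type*} [Group T] [TopologicalSpace T] [IsTopologicalGroup T]
  {ι : Type*} [Fintype ι] [DecidableEq ι] (p : ι → ℕ) [hp : ∀ i, Fact (p i).Prime]
  (φ : ∀ i, T →* SLZ m (p i))

/-- Proof (compare `reach_all` in `MP_c2b80f_alC/ReachC.lean`). Let `X₀ ≠ 0` be reachable at level `k ≥ 1` (`exists_reach`); `X₀ ∈ 𝔏` by `hlev` (applied to one of the elements). So `tr(Z X₀) ≠ 0` for some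
`Z ∈ 𝒮`. By `SpanG`, `Reach.conj`, `Reach.smul`, `Reach.sum` the reduction of every `X ∈ 𝒮` is reachable at level `k`, and these span `𝔏`. -/
theorem reach_allG (hpinj : Function.Injective p) (s : ℕ) (hs : ∀ j (g : SLZ m (p j)), Cong 1 (g ^ s)) (γ₀ : T)
    (h0 : ∀ N : Subgroup T, N.FiniteIndex → γ₀ ∈ closure (N : Set T)) (i : ι) (hne : φ i (γ₀ ^ s) ≠ 1)
    (𝒮 : Finset (Matrix (Fin m) (Fin m) ℤ)) (𝔏 : Submodule (ZMod (p i)) (Matrix (Fin m) (Fin m) (ZMod (p i))))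
    (h𝔏 : 𝔏 = Submodule.span (ZMod (p i)) (toP (p i) '' (𝒮 : Set (Matrix (Fin m) (Fin m) ℤ))))
    (hpair : ∀ X ∈ 𝔏, X ≠ 0 → ∃ Z ∈ 𝒮, (toP (p i) Z * X).trace ≠ 0)
    (hlev : ∀ (γ : T) (k : ℕ) (X : Matrix (Fin m) (Fin m) (ZMod (p i))), 1 ≤ k → Lev k (φ i γ) X → X ∈ 𝔏)
    (hspan : SpanG p φ 𝒮 i 𝔏) :
    ∃ k : ℕ, 1 ≤ k ∧ ∀ X ∈ 𝔏, Reach p φ i k X := by
  obtain ⟨k, X₀, hk, hX₀, hR⟩ := exists_reach p φ hpinj s hs γ₀ h0 i hne
  refine ⟨k, hk, ?_⟩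
  obtain ⟨γ, -, -, hL⟩ := hR Set.univ Filter.univ_mem 0
  have hX₀L : X₀ ∈ 𝔏 := hlev γ k X₀ hk hL
  obtain ⟨Z, hZ, hZX⟩ := hpair X₀ hX₀L hX₀
  have h1 : ∀ X ∈ 𝒮, Reach p φ i k (toP (p i) X) := by
    intro X hX
    obtain ⟨t, c, hc⟩ := hspan X hX Z hZ
    have h2 : Reach p φ i k ((toP (p i) Z * X₀).trace • toP (p i) X) := by
      rw [← hc X₀ hX₀L]
      exact Reach.sum p φ hk t _ fun δ _ => Reach.smul p φ hk (Reach.conj p φ hR δ) (c δ)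
    have h3 := Reach.smul p φ hk h2 ((toP (p i) Z * X₀).trace)⁻¹
    rwa [smul_smul, inv_mul_cancel₀ hZX, one_smul] at h3
  intro X hX
  rw [h𝔏] at hX
  induction hX using Submodule.span_induction with
  | mem x hx =>
    obtain ⟨y, hy, rfl⟩ := hx
    exact h1 y hy
  | zero => exact Reach.zero p φ i k
  | add x y _ _ hx hy => exact Reach.add p φ hk hx hy
  | smul a x _ hx => exact Reach.smul p φ hk hx a

end WCn
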