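import Pool.Agent.Lib.MP_c2b80f_alD.LvDefs

/-!
# Reduction of the span property modulo `p` (job LvS)
-/

open Matrix

namespace WCn

variable {m : ℕ}

private theorem LvS_sum {R S : Type*} [CommRing R] [CommRing S] (f : R →+* S) {κ : Type*} (s : Finset κ) (c : κ → R)
    (g h : κ → Matrix (Fin m) (Fin m) R) (Y : Matrix (Fin m) (Fin m) R) :
    f.mapMatrix (∑ a ∈ s, c a • (g a * Y * h a)) =
      ∑ a ∈ s, f (c a) • (f.mapMatrix (g a) * f.mapMatrix Y * f.mapMatrix (h a)) := by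
  rw [map_sum]
  refine Finset.sum_congr rfl fun a _ => ?_
  rw [← map_mul, ← map_mul]
  exact Matrix.map_smul' f (c a) _ (map_mul f)

private theorem LvS_tr {R S : Type*} [CommRing R] [CommRing S] (f : R →+* S) (X Z Y : Matrix (Fin m) (Fin m) R) :
    f.mapMatrix ((Z * Y).trace • X) = (f.mapMatrix Z * f.mapMatrix Y).trace • f.mapMatrix X := by
  rw [← map_mul]
  have h1 : (f.mapMatrix (Z * Y)).trace = f (Z * Y).trace := by
    simp only [Matrix.trace, Matrix.diag, RingHom.mapMatrix_apply, Matrix.map_apply, map_sum]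
  rw [h1]
  exact Matrix.map_smul' f _ _ (map_mul f)

private theorem LvS_int {R S : Type*} [CommRing R] [CommRing S] (f : R →+* S) (X : Matrix (Fin m) (Fin m) ℤ) :
    f.mapMatrix (X.map (Int.castRingHom R)) = X.map (Int.castRingHom S) := by
  ext a b
  rw [RingHom.mapMatrix_apply, Matrix.map_apply, Matrix.map_apply, Matrix.map_apply, eq_intCast, eq_intCast, map_intCast]

/-- Proof. As `spanP_of_ring` in `MP_c2b80f_alC/GenS.lean`: the identity `∑ c g • (g Y g⁻¹) = tr(Z Y) X` for `Y ∈ 𝒮` is an identity between matrices with entries in `A = Subring.closure A₁`; apply the ring homomorphism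
`PadicInt.toZMod ∘ σ i` (it is the identity on integers): this is the identity of `SpanG` for the reductions of the elements of `𝒮`. Both sides are linear in `Y`, and `𝔏` is spanned by the reductions (`Submodule.span_induction`). -/
theorem spanG_of_ring {T : Type*} [Group T] (ψ : T →* SLC m) {ι : Type*} (p : ι → ℕ) [hp : ∀ i, Fact (p i).Prime]
    (𝒮 : Finset (Matrix (Fin m) (Fin m) ℤ)) (A₁ : Finset ℂ)
    (hA : ∀ g i j, (ψ g).1 i j ∈ Subring.closure (A₁ : Set ℂ))
    (hop : ∀ X ∈ 𝒮, ∀ Z ∈ 𝒮, ∃ (s : Finset (SLC m)) (c : SLC m → ℂ), (∀ g ∈ s, g ∈ ψ.range ∧ c g ∈ A₁) ∧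
      ∀ Y ∈ 𝒮, ∑ g ∈ s, c g • (g.1 * toC Y * (g⁻¹).1) = (toC Z * toC Y).trace • toC X)
    (σ : ∀ i, Subring.closure (A₁ : Set ℂ) →+* ℤ_[p i]) (i : ι)
    (𝔏 : Submodule (ZMod (p i)) (Matrix (Fin m) (Fin m) (ZMod (p i))))
    (h𝔏 : 𝔏 = Submodule.span (ZMod (p i)) (toP (p i) '' (𝒮 : Set (Matrix (Fin m) (Fin m) ℤ)))) :
    SpanG p (fun i => homZ ψ (Subring.closure (A₁ : Set ℂ)) hA (p i) (σ i)) 𝒮 i 𝔏 := by
  classical
  intro X hX Z hZ
  obtain ⟨s, c, hs, hid⟩ := hop X hX Z hZ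
  obtain ⟨τ, hτ⟩ : ∃ τ : Subring.closure (A₁ : Set ℂ) →+* ZMod (p i), τ = (PadicInt.toZMod (p := p i)).comp (σ i) :=
    ⟨_, rfl⟩
  have hsec : ∀ g : SLC m, ∃ γ : T, g ∈ s → ψ γ = g := by
    intro g
    by_cases hg : g ∈ s
    · obtain ⟨γ, hγ⟩ := (hs g hg).1
      exact ⟨γ, fun _ => hγ⟩
    · exact ⟨1, fun h => absurd h hg⟩
  choose sec hsec using hsec
  have hcA : ∀ g : SLC m, ∃ z : Subring.closure (A₁ : Set ℂ), g ∈ s → (z : ℂ) = c g := by
    intro g
    by_cases hg : g ∈ s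
    · exact ⟨⟨c g, Subring.subset_closure (hs g hg).2⟩, fun _ => rfl⟩
    · exact ⟨0, fun h => absurd h hg⟩
  choose cA hcA using hcA
  have hmat : ∀ γ : T, (Subring.closure (A₁ : Set ℂ)).subtype.mapMatrix (matA ψ _ hA γ) = (ψ γ).1 := by
    intro γ
    ext a b
    rfl
  have hred : ∀ γ : T, (red (homZ ψ (Subring.closure (A₁ : Set ℂ)) hA (p i) (σ i) γ)).1 =
      τ.mapMatrix (matA ψ _ hA γ) := by
    intro γ
    ext a b
    rw [hτ]
    change PadicInt.toZMod ((homZ ψ (Subring.closure (A₁ : Set ℂ)) hA (p i) (σ i) γ).1 a b) = _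
    rw [homZ_apply]
    rfl
  have hred' : ∀ γ : T, ((red (homZ ψ (Subring.closure (A₁ : Set ℂ)) hA (p i) (σ i) γ))⁻¹).1 =
      τ.mapMatrix (matA ψ _ hA γ⁻¹) := by
    intro γ
    rw [← hred, map_inv]
    congr 1
    exact (map_inv (Matrix.SpecialLinearGroup.map (PadicInt.toZMod (p := p i))) _).symm
  have hintC : ∀ W : Matrix (Fin m) (Fin m) ℤ, (Subring.closure (A₁ : Set ℂ)).subtype.mapMatrix
      (W.map (Int.castRingHom (Subring.closure (A₁ : Set ℂ)))) = toC W := fun W => LvS_int _ W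
  have hintP : ∀ W : Matrix (Fin m) (Fin m) ℤ, τ.mapMatrix
      (W.map (Int.castRingHom (Subring.closure (A₁ : Set ℂ)))) = toP (p i) W := fun W => LvS_int _ W
  have hidA : ∀ Y ∈ 𝒮,
      ∑ g ∈ s, cA g • (matA ψ _ hA (sec g) * Y.map (Int.castRingHom (Subring.closure (A₁ : Set ℂ))) *
        matA ψ _ hA (sec g)⁻¹) = (Z.map (Int.castRingHom (Subring.closure (A₁ : Set ℂ))) *
          Y.map (Int.castRingHom (Subring.closure (A₁ : Set ℂ)))).trace •
            X.map (Int.castRingHom (Subring.closure (A₁ : Set ℂ))) := by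
    intro Y hY
    have hinj : Function.Injective ((Subring.closure (A₁ : Set ℂ)).subtype.mapMatrix (m := Fin m)) := by
      intro M N hMN
      ext a b
      exact congrFun (congrFun hMN a) b
    apply hinj
    rw [LvS_sum, LvS_tr, hintC, hintC, hintC, ← hid Y hY]
    refine Finset.sum_congr rfl fun g hg => ?_
    rw [hmat, hmat, map_inv, hsec g hg]
    rw [← hcA g hg]
    rfl
  refine ⟨s.image sec, fun γ => τ (cA (ψ γ)), fun Y hY => ?_⟩
  rw [Finset.sum_image (fun g hg g' hg' h => by rw [← hsec g hg, ← hsec g' hg', h])]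
  have key : ∀ Y ∈ 𝒮, ∑ g ∈ s, (fun γ => τ (cA (ψ γ))) (sec g) •
      ((red ((fun i => homZ ψ (Subring.closure (A₁ : Set ℂ)) hA (p i) (σ i)) i (sec g))).1 * toP (p i) Y *
        ((red ((fun i => homZ ψ (Subring.closure (A₁ : Set ℂ)) hA (p i) (σ i)) i (sec g)))⁻¹).1) =
        (toP (p i) Z * toP (p i) Y).trace • toP (p i) X := by
    intro Y hY
    rw [← hintP Y, ← hintP Z, ← hintP X, ← LvS_tr, ← hidA Y hY, LvS_sum]
    refine Finset.sum_congr rfl fun g hg => ?_
    beta_reduce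
    rw [hred, hred', hsec g hg]
  rw [h𝔏] at hY
  induction hY using Submodule.span_induction with
  | mem y hy =>
    obtain ⟨Y, hY, rfl⟩ := hy
    exact key Y hY
  | zero =>
    simp only [mul_zero, zero_mul, smul_zero, Finset.sum_const_zero, Matrix.trace_zero, zero_smul]
  | add x y _ _ hx hy =>
    rw [mul_add, Matrix.trace_add, add_smul, ← hx, ← hy, ← Finset.sum_add_distrib]
    refine Finset.sum_congr rfl fun g _ => ?_
    rw [mul_add, add_mul, smul_add]
  | smul a x _ hx =>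
    rw [Matrix.mul_smul, Matrix.trace_smul, smul_eq_mul, mul_smul, ← hx, Finset.smul_sum]
    refine Finset.sum_congr rfl fun g _ => ?_
    rw [Matrix.mul_smul, Matrix.smul_mul, smul_comm]

end WCn
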