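import Pool.Agent.Lib.MP_c2b80f_alD.LvR
import Pool.Agent.Lib.MP_c2b80f_alD.LvS
import Pool.Agent.Lib.MP_c2b80f_alD.LvC
import Pool.Agent.Lib.MP_c2b80f_alC.ReachS
import Pool.Agent.Lib.MP_c2b80f_alC.EmbC

/-!
# Existence of elements with prescribed levels (job LvE)
-/

open Matrix

namespace WCn

variable {m : ℕ}

/-- Proof (compare `generic_core` in `MP_c2b80f_alC/GenB.lean`). Take `A₁` from `exists_ringG` (for `Γ = ψ.range`), `A' = Subring.closure A₁`. By `exists_padic_embedding` (three times) there are primes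
`max P₀ N₀ < p 0 < p 1 < p 2` and injective `σ i : A' → ℤ_{p i}`. Let `φ i = homZ ψ A' _ (p i) (σ i)` (injective). Let `s > 0` with `Cong 1 (g ^ s)` for all `g` in all `SL_m(ℤ_{p i})` (product of the
numbers of `exists_expo`) and `γ₀` from `h0`. By `spanG_of_ring` and `reach_allG` there are `k i ≥ 1` such that all `X ∈ 𝔏 (p i)` are reachable at level `k i`. Let `K = ∑ k i + 1` and let `N ≤ T` be the subgroup of finite
index of all `γ` with `Cong K (φ i γ)` for all `i` (`congSub`); choose `δ ∈ U ∩ N`. The set `{v | δ v ∈ U}` is a neighbourhood of `1`; `Reach.simultaneous` gives `v` in it with the levels `X i`; put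
`γ = δ v` (`Lev (k i) (φ i δ) 0`, `Lev.mul`). -/
theorem exists_levels {G : Subgroup (SLC m)} {𝒮 : Finset (Matrix (Fin m) (Fin m) ℤ)}
    {𝔏 : ∀ p : ℕ, Submodule (ZMod p) (Matrix (Fin m) (Fin m) (ZMod p))} {N₀ : ℕ} (hL : LevData G 𝒮 𝔏 N₀)
    (T : Type) [Group T] [TopologicalSpace T] [IsTopologicalGroup T] (ψ : T →* SLC m) (hψ : Function.Injective ψ)
    (hz : ZDenseIn G ψ.range) (A₀ : Finset ℂ) (hA : ∀ g i j, (ψ g).1 i j ∈ Subring.closure (A₀ : Set ℂ))
    (h0 : ∀ s : ℕ, 0 < s → ∃ γ₀ : T, γ₀ ^ s ≠ 1 ∧ ∀ N : Subgroup T, N.FiniteIndex → γ₀ ∈ closure (N : Set T))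
    (U : Set T) (hUo : IsOpen U) (hU : ∀ N : Subgroup T, N.FiniteIndex → ∃ δ ∈ U, δ ∈ N) (P₀ : ℕ) :
    ∃ (A' : Subring ℂ) (_ : Subring.closure (A₀ : Set ℂ) ≤ A') (hA' : ∀ g i j, (ψ g).1 i j ∈ A') (p : Fin 3 → ℕ)
      (_ : ∀ i, Fact (p i).Prime) (σ : ∀ i, A' →+* ℤ_[p i]), (∀ i, P₀ < p i) ∧ (∀ i, Function.Injective (σ i)) ∧
      ∀ X : ∀ i, Matrix (Fin m) (Fin m) (ZMod (p i)), (∀ i, X i ∈ 𝔏 (p i)) →
        ∃ k : Fin 3 → ℕ, (∀ i, 1 ≤ k i) ∧ ∃ γ ∈ U, ∀ i, Lev (k i) (homZ ψ A' hA' (p i) (σ i) γ) (X i) := by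
  classical
  obtain ⟨A₁, hA01, hop⟩ := exists_ringG hz 𝒮 hL.op A₀
  have hsub : Subring.closure (A₀ : Set ℂ) ≤ Subring.closure (A₁ : Set ℂ) :=
    Subring.closure_mono fun a ha => hA01 ha
  have hA' : ∀ g i j, (ψ g).1 i j ∈ Subring.closure (A₁ : Set ℂ) := fun g i j => hsub (hA g i j)
  choose pr hpr hgt σ hσ using exists_padic_embedding A₁
  obtain ⟨q, hq0, hq1⟩ : ∃ q : ℕ → ℕ, q 0 = max P₀ N₀ ∧ ∀ n, q (n + 1) = pr (q n) :=
    ⟨fun n => Nat.rec (max P₀ N₀) (fun _ x => pr x) n, rfl, fun _ => rfl⟩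
  have hqm : StrictMono q := strictMono_nat_of_lt_succ fun n => by
    rw [hq1]
    exact hgt (q n)
  have hqge : ∀ n, max P₀ N₀ ≤ q n := fun n => by
    rw [← hq0]
    exact hqm.monotone (Nat.zero_le n)
  have hF : ∀ i : Fin 3, Fact (pr (q i)).Prime := fun i => hpr (q i)
  have hpP : ∀ i : Fin 3, P₀ < pr (q i) := fun i =>
    ((le_max_left _ _).trans (hqge i)).trans_lt (hgt (q i))
  have hpN : ∀ i : Fin 3, N₀ < pr (q i) := fun i =>
    ((le_max_right _ _).trans (hqge i)).trans_lt (hgt (q i))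
  have hinj : Function.Injective (fun i : Fin 3 => pr (q i)) := fun i j hij => by
    have h1 : q (i + 1) = q (j + 1) := by
      rw [hq1, hq1]
      exact hij
    have h2 := hqm.injective h1
    exact Fin.ext (by omega)
  refine ⟨Subring.closure (A₁ : Set ℂ), hsub, hA', fun i => pr (q i), fun i => hpr (q i), fun i => σ (q i), hpP,
    fun i => hσ (q i), ?_⟩
  intro X hX
  choose e he0 he using fun i : Fin 3 => exists_expo m (pr (q i))
  have hspos : 0 < ∏ i, e i := Finset.prod_pos fun i _ => he0 i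
  obtain ⟨γ₀, hγs, hγN⟩ := h0 (∏ i, e i) hspos
  have hs : ∀ (j : Fin 3) (g : SLZ m (pr (q j))), Cong 1 (g ^ (∏ i, e i)) := fun j g => by
    obtain ⟨t, ht⟩ : e j ∣ ∏ i, e i := Finset.dvd_prod_of_mem e (Finset.mem_univ j)
    rw [ht, mul_comm, pow_mul]
    exact he j _
  have hreach : ∀ i : Fin 3, ∃ k : ℕ, 1 ≤ k ∧ ∀ Y ∈ 𝔏 (pr (q i)),
      Reach (fun i : Fin 3 => pr (q i)) (fun i => homZ ψ (Subring.closure (A₁ : Set ℂ)) hA' (pr (q i)) (σ (q i))) i k Y :=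
    fun i => by
      refine reach_allG (fun i : Fin 3 => pr (q i))
        (fun i => homZ ψ (Subring.closure (A₁ : Set ℂ)) hA' (pr (q i)) (σ (q i))) hinj (∏ i, e i) hs γ₀ hγN i ?_ 𝒮
        (𝔏 (pr (q i))) (hL.span _ (hF i).out (hpN i)) (hL.pair _ (hF i).out (hpN i)) ?_
        (spanG_of_ring ψ (fun i : Fin 3 => pr (q i)) 𝒮 A₁ hA' hop (fun i => σ (q i)) i (𝔏 (pr (q i)))
          (hL.span _ (hF i).out (hpN i)))
      · intro h
        refine hγs (homZ_injective ψ hψ _ hA' (pr (q i)) (σ (q i)) (hσ (q i)) ?_)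
        rw [map_one]
        exact h
      · intro γ k Y hk hY
        exact hL.lev T ψ hz.1 (Subring.closure (A₁ : Set ℂ)) hA' (pr (q i)) (σ (q i)) (hpN i) γ k Y hk hY
  choose k hk hR using hreach
  have hfin : ∀ i : Fin 3, ((congSub m (pr (q i)) (k i + 1)).comap
      (homZ ψ (Subring.closure (A₁ : Set ℂ)) hA' (pr (q i)) (σ (q i)))).FiniteIndex := fun i => by
    have h1 := congSub_finiteIndex (m := m) (p := pr (q i)) (k i + 1)
    rw [Subgroup.finiteIndex_iff, Subgroup.index_comap]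
    exact fun h => h1.index_ne_zero (Subgroup.index_eq_zero_of_relIndex_eq_zero h)
  obtain ⟨δ, hδU, hδN⟩ := hU (⨅ i : Fin 3, (congSub m (pr (q i)) (k i + 1)).comap
      (homZ ψ (Subring.closure (A₁ : Set ℂ)) hA' (pr (q i)) (σ (q i)))) (Subgroup.finiteIndex_iInf hfin)
  have hnh : {v : T | δ * v ∈ U} ∈ nhds (1 : T) := by
    have h1 : Continuous fun v : T => δ * v := continuous_const.mul continuous_id
    refine (hUo.preimage h1).mem_nhds ?_
    change δ * 1 ∈ U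
    rw [mul_one]
    exact hδU
  obtain ⟨v, hv, hlv⟩ := Reach.simultaneous (fun i : Fin 3 => pr (q i))
    (fun i => homZ ψ (Subring.closure (A₁ : Set ℂ)) hA' (pr (q i)) (σ (q i))) k hk X
    (fun i => hR i (X i) (hX i)) {v : T | δ * v ∈ U} hnh
  refine ⟨k, hk, δ * v, hv, fun i => ?_⟩
  have h1 : Lev (k i) (homZ ψ (Subring.closure (A₁ : Set ℂ)) hA' (pr (q i)) (σ (q i)) δ) 0 := by
    apply lev_of_cong
    rw [← mem_congSub]
    have h2 := (Subgroup.mem_iInf.1 hδN) i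
    exact Subgroup.mem_comap.1 h2
  have h3 := Lev.mul (hk i) h1 (hlv i)
  rw [zero_add] at h3
  rw [map_mul]
  exact h3

end WCn
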