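import Pool.Agent.Lib.MP_c2b80f_alD.GjA
import Pool.Agent.Lib.MP_c2b80f_alD.GjD
import Pool.Agent.Lib.MP_c2b80f_alD.JaI
import Pool.Agent.Lib.MP_c2b80f_alD.LvE
import Pool.Agent.Lib.MP_c2b80f_alD.JxA
import Pool.Agent.Lib.MP_c2b80f_alD.JxB
import Pool.Agent.Lib.MP_c2b80f_alD.JxC
import Pool.Agent.Lib.MP_c2b80f_alD.JxD

/-!
# Existence of generic elements, standard forms (job GjH)
-/

open Matrix Polynomial

namespace WCn

theorem GjH_fin3 {α : Fin 3 → Type} (P : ∀ i, α i → Prop) (a0 : α 0) (a1 : α 1) (a2 : α 2)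
    (h0 : P 0 a0) (h1 : P 1 a1) (h2 : P 2 a2) :
    ∃ X : ∀ i, α i, X 0 = a0 ∧ X 1 = a1 ∧ X 2 = a2 ∧ ∀ i, P i (X i) := by
  refine ⟨Fin.cons a0 (Fin.cons a1 (Fin.cons a2 finZeroElim)), rfl, rfl, rfl, ?_⟩
  intro i
  fin_cases i
  · exact h0
  · exact h1
  · exact h2

/-- `exists_levels` for `levData_J`, `P₀ = 2 r + 10`. Types `C`, `B`: `X 0 = dA r δ A` with `A` from `exists_sq_irreducible` (`dA_mem`, `dA_charpoly`), `X 1` from `exists_one_nonsquare`, `X 2 = 0`; `genEl_CB`. Type `D`: `X 0` as before, `X 1 = dA r 0 A` with `A` from `exists_sq_root_irreducible`, `X 2` from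
`exists_two_nonsquares`; `genEl_D`. -/
theorem hasGen_J {ε : ℤ} {r δ : ℕ} (h : OkTy ε r δ) : HasGen r (GJ (JR ℂ ε r δ)) := by
  intro T _ _ _ ψ hψ hz A₀ hA h0 U hUo hU
  obtain ⟨A', hAA, hA', p, hp, σ, hP, hσ, hlev⟩ :=
    exists_levels (levData_J h) T ψ hψ hz A₀ hA h0 U hUo hU (2 * r + 10)
  have hp0 : (p 0) ≠ 2 := by have := hP 0; omega
  have hp1 : (p 1) ≠ 2 := by have := hP 1; omega
  have hp2 : (p 2) ≠ 2 := by have := hP 2; omega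
  have hCB : ((ε = -1 ∧ δ = 0 ∧ 2 ≤ r) ∨ (ε = 1 ∧ δ = 1 ∧ 2 ≤ r)) →
      ∃ γ ∈ U, GenEl r (Subring.closure (A₀ : Set ℂ)) (ψ γ) := by
    intro hty
    have hr2 : 2 ≤ r := by
      rcases hty with h1 | h1
      · exact h1.2.2
      · exact h1.2.2
    obtain ⟨A, hAirr⟩ := exists_sq_irreducible (p 0) hp0 r (by omega)
    obtain ⟨X₁, a, i₀, hX1, hch, hinj, ha, hi0, hi⟩ :=
      exists_one_nonsquare (ε := ε) (r := r) (δ := δ)
        (by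
          rcases hty with h1 | h1
          · exact Or.inl ⟨h1.1, h1.2.1⟩
          · exact Or.inr ⟨h1.1, h1.2.1⟩) (by omega) (p 1) (by have := hP 1; omega)
    obtain ⟨Xf, e0, e1, _, hX⟩ := GjH_fin3
      (α := fun i => Matrix (Fin (r + (r + δ))) (Fin (r + (r + δ))) (ZMod (p i)))
      (fun i X => X ∈ lieJ (JR (ZMod (p i)) ε r δ)) (dA r δ A) X₁ 0
      (dA_mem ε r δ A) hX1 (Submodule.zero_mem _)
    obtain ⟨k, hk, γ, hγ, hγlev⟩ := hlev Xf hX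
    have l0 := hγlev 0
    rw [e0] at l0
    have l1 := hγlev 1
    rw [e1] at l1
    exact ⟨γ, hγ, genEl_CB hty ψ hψ hz.1 _ A' hAA hA' (p 0) (p 1) hp0 hp1 (σ 0) (hσ 0) (σ 1) (hσ 1) γ
      (k 0) (k 1) (hk 0) (hk 1) (dA r δ A) l0 _ hAirr (dA_charpoly r δ A) X₁ l1 a i₀ hch hinj ha hi0 hi⟩
  rcases h with h1 | h1 | ⟨rfl, rfl, hr3⟩
  · exact hCB (Or.inl h1)
  · exact hCB (Or.inr h1)
  · obtain ⟨A, hAirr⟩ := exists_sq_irreducible (p 0) hp0 r (by omega)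
    obtain ⟨B, b, H', hB, hH', hb⟩ := exists_sq_root_irreducible (p 1) hp1 r hr3
    obtain ⟨X₂, a, i₀, i₁, hX2, hch, hinj, ha, hne, hi0, hi1, hi⟩ :=
      exists_two_nonsquares (r := r) hr3 (p 2) (by have := hP 2; omega)
    obtain ⟨Xf, e0, e1, e2, hX⟩ := GjH_fin3
      (α := fun i => Matrix (Fin (r + (r + 0))) (Fin (r + (r + 0))) (ZMod (p i)))
      (fun i X => X ∈ lieJ (JR (ZMod (p i)) 1 r 0)) (dA r 0 A) (dA r 0 B) X₂
      (dA_mem 1 r 0 A) (dA_mem 1 r 0 B) hX2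
    obtain ⟨k, hk, γ, hγ, hγlev⟩ := hlev Xf hX
    have l0 := hγlev 0
    rw [e0] at l0
    have l1 := hγlev 1
    rw [e1] at l1
    have l2 := hγlev 2
    rw [e2] at l2
    have hchB : (dA r 0 B).charpoly = X ^ 0 * ((X - C b) * H').comp (X ^ 2) := by
      rw [dA_charpoly, hB]
    exact ⟨γ, hγ, genEl_D hr3 ψ hψ hz.1 _ A' hAA hA' (p 0) (p 1) (p 2) hp0 hp2 (σ 0) (hσ 0) (σ 1) (hσ 1) (σ 2) (hσ 2) γ
      (k 0) (k 1) (k 2) (hk 0) (hk 1) (hk 2) (dA r 0 A) l0 _ hAirr (dA_charpoly r 0 A) (dA r 0 B) l1 b H' hH' hb hchB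
      X₂ l2 a i₀ i₁ hne hch hinj ha hi0 hi1 hi⟩

end WCn
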