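import Pool.Agent.Lib.MP_c2b80f_alD.PaA

/-!
# The polynomial of `y + 1/y` for elements of given level (job PaB)
-/

open Matrix Polynomial

namespace WCn

variable {p : ℕ} [Fact p.Prime]

private theorem paB_inner {S : Type*} [CommRing S] (A B : S) (t : S) (r j : ℕ) (hj : j ≤ r) :
    ∑ i ∈ Finset.range (r + 1), (t ^ (j - i) * (j.choose i : S)) * A ^ i * B ^ (r - i) = (A + t * B) ^ j * B ^ (r - j) := by
  have h1 : ∑ i ∈ Finset.range (r + 1), (t ^ (j - i) * (j.choose i : S)) * A ^ i * B ^ (r - i) =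
      ∑ i ∈ Finset.range (j + 1), (t ^ (j - i) * (j.choose i : S)) * A ^ i * B ^ (r - i) := by
    refine (Finset.sum_subset ?_ ?_).symm
    · intro i hi
      rw [Finset.mem_range] at hi ⊢
      omega
    · intro i _ hi
      rw [Finset.mem_range, not_lt] at hi
      rw [Nat.choose_eq_zero_of_lt (by omega), Nat.cast_zero, mul_zero, zero_mul, zero_mul]
  rw [h1, add_pow, Finset.sum_mul]
  refine Finset.sum_congr rfl fun i hi => ?_
  rw [Finset.mem_range] at hi
  have h2 : r - i = (j - i) + (r - j) := by omega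
  rw [h2, pow_add, mul_pow]
  ring

private theorem paB_coeff {R : Type*} [CommRing R] (r : ℕ) (c : R[X]) (hc : c.natDegree ≤ r) (t : R) (i : ℕ) :
    (c.comp (C t + X)).coeff i = ∑ j ∈ Finset.range (r + 1), c.coeff j * (t ^ (j - i) * (j.choose i : R)) := by
  have h1 : c.comp (C t + X) = ∑ j ∈ Finset.range (r + 1), C (c.coeff j) * (X + C t) ^ j := by
    rw [Polynomial.comp, Polynomial.eval₂_eq_sum_range' C (Nat.lt_succ_of_le hc)]
    refine Finset.sum_congr rfl fun j _ => ?_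
    rw [add_comm (C t) X]
  rw [h1, Polynomial.finsetSum_coeff]
  refine Finset.sum_congr rfl fun j _ => ?_
  rw [Polynomial.coeff_C_mul, Polynomial.coeff_X_add_C_pow]

private theorem paB_hom {R S : Type*} [CommRing R] [CommRing S] (f : R →+* S) (r : ℕ) (c : R[X]) (hc : c.natDegree ≤ r) (t : R)
    (A B : S) :
    ∑ i ∈ Finset.range (r + 1), f ((c.comp (C t + X)).coeff i) * A ^ i * B ^ (r - i) =
      ∑ j ∈ Finset.range (r + 1), f (c.coeff j) * (A + f t * B) ^ j * B ^ (r - j) := by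
  have h1 : ∀ i ∈ Finset.range (r + 1), f ((c.comp (C t + X)).coeff i) * A ^ i * B ^ (r - i) =
      ∑ j ∈ Finset.range (r + 1), f (c.coeff j) * ((f t ^ (j - i) * (j.choose i : S)) * A ^ i * B ^ (r - i)) := by
    intro i _
    rw [paB_coeff r c hc, map_sum, Finset.sum_mul, Finset.sum_mul]
    refine Finset.sum_congr rfl fun j _ => ?_
    rw [map_mul, map_mul, map_pow, map_natCast]
    ring
  rw [Finset.sum_congr rfl h1, Finset.sum_comm]
  refine Finset.sum_congr rfl fun j hj => ?_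
  rw [← Finset.mul_sum, paB_inner A B (f t) r j (by rw [Finset.mem_range] at hj; omega)]
  ring

/-- The identity behind the next theorem. Let `c(2 + S) = ∑ d_i S ^ i`. With `T = 1 + q U` we have `T ^ 2 + 1 = 2 T + q ^ 2 U ^ 2`, so `pal r c (T) = ∑_i d_i (q ^ 2 U ^ 2) ^ i T ^ (r - i)`. -/
theorem pal_comp {R : Type*} [CommRing R] (r : ℕ) (c : R[X]) (hc : c.natDegree ≤ r) (q : R) :
    (pal r c).comp (1 + C q * X) = ∑ i ∈ Finset.range (r + 1), C ((c.comp (C 2 + X)).coeff i) * (C (q ^ 2) * X ^ 2) ^ i * (1 + C q * X) ^ (r - i) := by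
  have h1 := paB_hom (C : R →+* R[X]) r c hc 2 (C (q ^ 2) * X ^ 2) (1 + C q * X)
  rw [h1]
  unfold pal
  rw [Polynomial.sum_comp]
  refine Finset.sum_congr rfl fun i _ => ?_
  have h2 : (C (q ^ 2) * X ^ 2 + C 2 * (1 + C q * X) : R[X]) = (1 + C q * X) ^ 2 + 1 := by
    have h3 : (C 2 : R[X]) = 2 := rfl
    rw [h3, C_pow]
    ring
  rw [h2]
  simp only [mul_comp, C_comp, pow_comp, X_comp, add_comp, one_comp]
  ring

private theorem paB_charpoly {m : ℕ} (Y : Matrix (Fin m) (Fin m) ℤ_[p]) (c : ℤ_[p]) :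
    ((1 + c • Y).charpoly).comp (1 + C c * X) = C (c ^ m) * Y.charpoly := by
  have hinf : Infinite ℤ_[p] := Infinite.of_injective (Nat.cast : ℕ → ℤ_[p]) Nat.cast_injective
  refine Polynomial.funext fun s => ?_
  rw [eval_comp, Matrix.eval_charpoly, eval_mul, eval_C, Matrix.eval_charpoly]
  have h1 : Polynomial.eval s (1 + C c * Polynomial.X) = 1 + c * s := by
    rw [eval_add, eval_one, eval_mul, eval_C, eval_X]
  rw [h1]
  have h2 : Matrix.scalar (Fin m) (1 + c * s) - (1 + c • Y) = c • (Matrix.scalar (Fin m) s - Y) := by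
    ext i j
    by_cases hij : i = j
    · subst hij
      simp [Matrix.scalar_apply, Matrix.diagonal_apply_eq]
      ring
    · simp [Matrix.scalar_apply, Matrix.diagonal_apply_ne _ hij, Matrix.one_apply_ne hij]
  rw [h2, Matrix.det_smul, Fintype.card_fin]

private theorem paB_lin_coeff {R : Type*} [CommRing R] (a : R) (n m : ℕ) :
    ((1 + C a * X : R[X]) ^ n).coeff m = (n.choose m : R) * a ^ m := by
  have h1 : (1 + C a * X : R[X]) ^ n = ((1 + X) ^ n).comp (C a * X) := by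
    rw [pow_comp, add_comp, one_comp, X_comp]
  rw [h1, Polynomial.comp_C_mul_X_coeff, Polynomial.coeff_one_add_X_pow]

/-- Proof. Over `ℚ_p`, `charpoly (1 + p ^ k Y) (1 + p ^ k U) = p ^ (k m) charpoly Y (U)` (also over `ℤ_p`; compare `charpoly_comp` in `MP_c2b80f_alC/PolyS.lean`), `m = 2 r + δ`. If `δ = 1`, `p ^ k U pal r c (1 + p ^ k U) = p ^ (k m) charpoly Y (U)`, so
`charpoly Y = U P₀`. In both cases `charpoly Y = U ^ δ P₀`, `pal r c (1 + p ^ k U) = p ^ (2 k r) P₀(U)`, and modulo `p`: `P₀ = h(U ^ 2)`. Let `c(2 + S) = ∑ d_i S ^ i` (`d_r = 1`), `q_i = d_i p ^ (- 2 k (r - i)) ∈ ℚ_p`. By `pal_comp`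
`∑ q_i U ^ (2 i) (1 + p ^ k U) ^ (r - i) = P₀(U)`. Comparing coefficients of `U ^ (2 i)` one sees by induction on `i` that `q_i ∈ ℤ_p` (`q_i = (P₀)_{2 i} - ∑_{l < i} q_l binom (r - l) (2 (i - l)) p ^ (…)`). Put `Q = ∑ q_i S ^ i`; then `c(2 + p ^ (2 k) S) = p ^ (2 k r) Q(S)`, and modulo `p` (`k ≥ 1`)
`Q(U ^ 2) = P₀(U) = h(U ^ 2)`. -/
theorem pal_level (r δ k : ℕ) (hδ : δ ≤ 1) (hk : 1 ≤ k) (Y : Matrix (Fin (r + (r + δ))) (Fin (r + (r + δ))) ℤ_[p])
    (c : ℤ_[p][X]) (hc : c.Monic) (hr : c.natDegree = r)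
    (hch : (1 + (p : ℤ_[p]) ^ k • Y).charpoly = (X - 1) ^ δ * pal r c) (h : (ZMod p)[X])
    (hY : (Y.map PadicInt.toZMod).charpoly = X ^ δ * h.comp (X ^ 2)) :
    ∃ Q : ℤ_[p][X], Q.Monic ∧ Q.natDegree = r ∧ c.comp (C 2 + C ((p : ℤ_[p]) ^ (2 * k)) * X) = C ((p : ℤ_[p]) ^ (2 * k * r)) * Q ∧
      Q.map PadicInt.toZMod = h := by
  obtain ⟨a, ha⟩ : ∃ a : ℤ_[p], a = (p : ℤ_[p]) ^ k := ⟨_, rfl⟩
  have hp0 : (p : ℤ_[p]) ≠ 0 := by
    exact_mod_cast (Fact.out : p.Prime).ne_zero
  have ha0 : a ≠ 0 := by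
    rw [ha]
    exact pow_ne_zero _ hp0
  have haq : PadicInt.toZMod a = 0 := by
    rw [ha, map_pow, map_natCast, ZMod.natCast_self, zero_pow (by omega)]
  -- the basic identity
  have e1 : (C a * X) ^ δ * (pal r c).comp (1 + C a * X) = C (a ^ (r + (r + δ))) * Y.charpoly := by
    rw [← paB_charpoly Y a, ha, hch, mul_comp, pow_comp, sub_comp, X_comp, one_comp, add_sub_cancel_left]
  have e2 : X ^ δ * (pal r c).comp (1 + C a * X) = C (a ^ (2 * r)) * Y.charpoly := by
    have hCa : (C (a ^ δ) : ℤ_[p][X]) ≠ 0 := by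
      rw [Ne, C_eq_zero]
      exact pow_ne_zero _ ha0
    refine mul_left_cancel₀ hCa ?_
    have h1 : a ^ (r + (r + δ)) = a ^ δ * a ^ (2 * r) := by
      rw [← pow_add]
      congr 1
      ring
    rw [h1, C_mul, mul_pow, ← C_pow, mul_assoc, mul_assoc] at e1
    exact e1
  have hdvd : (X : ℤ_[p][X]) ^ δ ∣ Y.charpoly := by
    rw [X_pow_dvd_iff]
    intro d hd
    have h1 : (X ^ δ * (pal r c).comp (1 + C a * X)).coeff d = (C (a ^ (2 * r)) * Y.charpoly).coeff d := by
      rw [e2]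
    rw [coeff_C_mul] at h1
    have h2 : (X ^ δ * (pal r c).comp (1 + C a * X)).coeff d = 0 := by
      rw [X_pow_mul, coeff_mul_X_pow', if_neg (by omega)]
    rw [h2] at h1
    rcases mul_eq_zero.1 h1.symm with h3 | h3
    · exact absurd h3 (pow_ne_zero _ ha0)
    · exact h3
  obtain ⟨P, hP⟩ := hdvd
  have e3 : (pal r c).comp (1 + C a * X) = C (a ^ (2 * r)) * P := by
    have hX : (X : ℤ_[p][X]) ^ δ ≠ 0 := pow_ne_zero _ X_ne_zero
    refine mul_left_cancel₀ hX ?_
    rw [e2, hP]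
    ring
  have e4 : P.map PadicInt.toZMod = h.comp (X ^ 2) := by
    have hX : (X : (ZMod p)[X]) ^ δ ≠ 0 := pow_ne_zero _ X_ne_zero
    refine mul_left_cancel₀ hX ?_
    have h1 : Y.charpoly.map PadicInt.toZMod = (Y.map PadicInt.toZMod).charpoly := (Matrix.charpoly_map Y PadicInt.toZMod).symm
    rw [← hY, ← h1, hP, Polynomial.map_mul, Polynomial.map_pow, map_X]
  -- the coefficients
  obtain ⟨d, hd⟩ : ∃ d : ℤ_[p][X], d = c.comp (C 2 + X) := ⟨_, rfl⟩
  have hd2 : d.natDegree = r := by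
    rw [hd, natDegree_comp, add_comm (C 2) X, natDegree_X_add_C, mul_one, hr]
  have hdm : d.Monic := by
    rw [hd]
    refine hc.comp ?_ ?_
    · rw [add_comm]
      exact monic_X_add_C 2
    · rw [add_comm, natDegree_X_add_C]
      exact one_ne_zero
  have e5 : ∑ i ∈ Finset.range (r + 1), C (d.coeff i) * (C (a ^ 2) * X ^ 2) ^ i * (1 + C a * X) ^ (r - i) = C (a ^ (2 * r)) * P := by
    rw [← e3, pal_comp r c hr.le a, hd]
  have e6 : ∀ i ≤ r, ∑ l ∈ Finset.range (i + 1), d.coeff l * ((r - l).choose (2 * (i - l)) : ℤ_[p]) = a ^ (2 * (r - i)) * P.coeff (2 * i) := by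
    intro i hi
    have h1 : (∑ i ∈ Finset.range (r + 1), C (d.coeff i) * (C (a ^ 2) * X ^ 2) ^ i * (1 + C a * X) ^ (r - i)).coeff (2 * i) =
        (C (a ^ (2 * r)) * P).coeff (2 * i) := by
      rw [e5]
    rw [finsetSum_coeff, coeff_C_mul] at h1
    have h2 : ∀ l ∈ Finset.range (r + 1), (C (d.coeff l) * (C (a ^ 2) * X ^ 2) ^ l * (1 + C a * X) ^ (r - l)).coeff (2 * i) =
        if l ≤ i then a ^ (2 * i) * (d.coeff l * ((r - l).choose (2 * (i - l)) : ℤ_[p])) else 0 := by
      intro l _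
      have h3 : C (d.coeff l) * (C (a ^ 2) * X ^ 2) ^ l * (1 + C a * X) ^ (r - l) =
          C (d.coeff l * a ^ (2 * l)) * ((1 + C a * X) ^ (r - l) * X ^ (2 * l)) := by
        rw [mul_pow, ← C_pow, ← pow_mul, ← pow_mul, C_mul]
        ring
      rw [h3, coeff_C_mul, coeff_mul_X_pow']
      by_cases hl : l ≤ i
      · rw [if_pos (by omega), if_pos hl, paB_lin_coeff]
        have h4 : 2 * i - 2 * l = 2 * (i - l) := by omega
        have h5 : a ^ (2 * i) = a ^ (2 * l) * a ^ (2 * (i - l)) := by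
          rw [← pow_add]
          congr 1
          omega
        rw [h4, h5]
        ring
      · rw [if_neg (by omega), if_neg hl, mul_zero]
    rw [Finset.sum_congr rfl h2, ← Finset.sum_filter] at h1
    have h3 : (Finset.range (r + 1)).filter (fun l => l ≤ i) = Finset.range (i + 1) := by
      ext l
      simp only [Finset.mem_filter, Finset.mem_range]
      omega
    rw [h3, ← Finset.mul_sum] at h1
    have h4 : a ^ (2 * r) = a ^ (2 * i) * a ^ (2 * (r - i)) := by
      rw [← pow_add]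
      congr 1
      omega
    rw [h4, mul_assoc] at h1
    exact mul_left_cancel₀ (pow_ne_zero _ ha0) h1
  have e7 : ∀ i ≤ r, a ^ (2 * (r - i)) ∣ d.coeff i := by
    intro i
    induction i using Nat.strong_induction_on with
    | _ i ih =>
      intro hi
      have h1 := e6 i hi
      rw [Finset.sum_range_succ, Nat.sub_self, Nat.mul_zero, Nat.choose_zero_right, Nat.cast_one, mul_one] at h1
      have h2 : a ^ (2 * (r - i)) ∣ ∑ l ∈ Finset.range i, d.coeff l * ((r - l).choose (2 * (i - l)) : ℤ_[p]) := by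
        refine Finset.dvd_sum fun l hl => ?_
        rw [Finset.mem_range] at hl
        refine Dvd.dvd.mul_right (dvd_trans (pow_dvd_pow a ?_) (ih l hl (by omega))) _
        omega
      have h3 : d.coeff i = a ^ (2 * (r - i)) * P.coeff (2 * i) - ∑ l ∈ Finset.range i, d.coeff l * ((r - l).choose (2 * (i - l)) : ℤ_[p]) := by
        rw [← h1]
        ring
      rw [h3]
      exact dvd_sub (Dvd.intro _ rfl) h2
  have e8 : ∀ i, ∃ q : ℤ_[p], i ≤ r → d.coeff i = a ^ (2 * (r - i)) * q := by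
    intro i
    by_cases hi : i ≤ r
    · obtain ⟨q, hq⟩ := e7 i hi
      exact ⟨q, fun _ => hq⟩
    · exact ⟨0, fun h => absurd h hi⟩
  choose q hq using e8
  obtain ⟨Q, hQ⟩ : ∃ Q : ℤ_[p][X], Q = ∑ i ∈ Finset.range (r + 1), C (q i) * X ^ i := ⟨_, rfl⟩
  have hqr : q r = 1 := by
    have h1 := hq r le_rfl
    rw [Nat.sub_self, Nat.mul_zero, pow_zero, one_mul] at h1
    rw [← h1]
    have h2 := hdm.coeff_natDegree
    rw [hd2] at h2
    exact h2
  have hQc : ∀ i ≤ r, Q.coeff i = q i := by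
    intro i hi
    rw [hQ, finsetSum_coeff]
    simp only [coeff_C_mul, coeff_X_pow, mul_ite, mul_one, mul_zero]
    rw [Finset.sum_ite_eq, if_pos (Finset.mem_range.2 (by omega))]
  have hQd : Q.natDegree ≤ r := by
    rw [hQ]
    refine natDegree_sum_le_of_forall_le _ _ fun i hi => ?_
    rw [Finset.mem_range] at hi
    exact (natDegree_C_mul_X_pow_le _ _).trans (by omega)
  have hQm : Q.Monic := monic_of_natDegree_le_of_coeff_eq_one r hQd (by rw [hQc r le_rfl, hqr])
  have hQn : Q.natDegree = r := by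
    refine le_antisymm hQd (le_natDegree_of_ne_zero ?_)
    rw [hQc r le_rfl, hqr]
    exact one_ne_zero
  refine ⟨Q, hQm, hQn, ?_, ?_⟩
  · have h1 : c.comp (C 2 + C ((p : ℤ_[p]) ^ (2 * k)) * X) = d.comp (C (a ^ 2) * X) := by
      have h2 : (p : ℤ_[p]) ^ (2 * k) = a ^ 2 := by
        rw [ha, ← pow_mul, mul_comm]
      rw [hd, comp_assoc, add_comp, C_comp, X_comp, h2]
    have h3 : (p : ℤ_[p]) ^ (2 * k * r) = a ^ (2 * r) := by
      rw [ha, ← pow_mul]
      congr 1
      ring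
    rw [h1, h3, Polynomial.comp, Polynomial.eval₂_eq_sum_range, hd2, hQ, Finset.mul_sum]
    refine Finset.sum_congr rfl fun i hi => ?_
    rw [Finset.mem_range] at hi
    rw [hq i (by omega), mul_pow, ← C_pow]
    have h4 : a ^ (2 * r) = a ^ (2 * (r - i)) * (a ^ 2) ^ i := by
      rw [← pow_mul, ← pow_add]
      congr 1
      omega
    rw [h4, C_mul, C_mul]
    ring
  · have h1 : ∑ i ∈ Finset.range (r + 1), C (q i) * (X ^ 2) ^ i * (1 + C a * X) ^ (r - i) = P := by
      have h2 : (C (a ^ (2 * r)) : ℤ_[p][X]) ≠ 0 := by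
        rw [Ne, C_eq_zero]
        exact pow_ne_zero _ ha0
      refine mul_left_cancel₀ h2 ?_
      rw [← e5, Finset.mul_sum]
      refine Finset.sum_congr rfl fun i hi => ?_
      rw [Finset.mem_range] at hi
      rw [hq i (by omega), mul_pow (C (a ^ 2)), ← C_pow]
      have h4 : a ^ (2 * r) = a ^ (2 * (r - i)) * (a ^ 2) ^ i := by
        rw [← pow_mul, ← pow_add]
        congr 1
        omega
      rw [h4, C_mul, C_mul]
      ring
    have h2 := congrArg (Polynomial.map PadicInt.toZMod) h1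
    rw [e4, Polynomial.map_sum] at h2
    have h3 : ∀ i ∈ Finset.range (r + 1), Polynomial.map PadicInt.toZMod (C (q i) * (X ^ 2) ^ i * (1 + C a * X) ^ (r - i)) =
        C (PadicInt.toZMod (q i)) * (X ^ 2) ^ i := by
      intro i _
      simp only [Polynomial.map_mul, Polynomial.map_pow, Polynomial.map_add, Polynomial.map_one, map_C, map_X, haq, C_0,
        zero_mul, add_zero, one_pow, mul_one]
    rw [Finset.sum_congr rfl h3] at h2
    have h4 : (Q.map PadicInt.toZMod).comp (X ^ 2) = h.comp (X ^ 2) := by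
      rw [← h2, hQ, Polynomial.map_sum, Polynomial.sum_comp]
      refine Finset.sum_congr rfl fun i _ => ?_
      simp only [Polynomial.map_mul, Polynomial.map_pow, map_C, map_X, mul_comp, C_comp, pow_comp, X_comp]
    rw [← expand_eq_comp_X_pow, ← expand_eq_comp_X_pow] at h4
    exact expand_injective (by norm_num) h4

end WCn
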