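import Pool.Agent.Lib.MP_c2b80f_alD.PaE

/-!
# Characteristic polynomials of isometries (job PaC)
-/

open Matrix Polynomial

namespace WCn

/-- The characteristic polynomial of an isometry of determinant one is, up to sign, the reversed polynomial. -/
private theorem PaC_rev {R : Type*} [CommRing R] {m : ℕ}
    (J J' g : Matrix (Fin m) (Fin m) R) (hJ : J * J' = 1) (hg : gᵀ * J * g = J) (hdet : g.det = 1) :
    g.charpoly = (-1) ^ m * g.charpoly.reverse := by
  have hJ' : J' * J = 1 := mul_eq_one_comm.1 hJ
  have hinv : g⁻¹ = J' * gᵀ * J := by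
    apply Matrix.inv_eq_left_inv
    calc J' * gᵀ * J * g = J' * (gᵀ * J * g) := by simp only [Matrix.mul_assoc]
      _ = 1 := by rw [hg, hJ']
  have h1 : (g⁻¹).charpoly = g.charpoly := by
    rw [hinv, Matrix.charpoly_mul_comm, ← Matrix.mul_assoc, hJ, Matrix.one_mul, Matrix.charpoly_transpose]
  have hu : IsUnit g := by
    rw [Matrix.isUnit_iff_isUnit_det, hdet]
    exact isUnit_one
  have h2 := Matrix.charpoly_inv g hu
  rw [h1, hdet, Ring.inverse_one, map_one, mul_one, ← Matrix.reverse_charpoly, Fintype.card_fin] at h2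
  exact h2

/-- Proof. `g⁻¹ = J⁻¹ gᵀ J`, so `g⁻¹` and `g` have the same characteristic polynomial `F`; and `charpoly (g⁻¹) (T) = det (T - g⁻¹) = det (T g - 1) = (-1) ^ m det (1 - T g) = (-1) ^ m charpolyRev g` (`det g = 1`; `Matrix.reverse_charpoly`), the
reversed polynomial of `F` up to sign. For `δ = 0` (`m = 2 r`) `F` is palindromic: `exists_pal`. For `δ = 1` `F(T) = - T ^ m F(1/T)`, so `F(1) = - F(1)`, `F(1) = 0`, `F = (X - 1) F₀`, and `F₀` is palindromic for the degree `2 r` (compare coefficients, or cancel `X - 1`). Monic: `monic_of_pal`. -/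
theorem charpoly_isometry {R : Type*} [CommRing R] [IsDomain R] [CharZero R] (r δ : ℕ) (hδ : δ ≤ 1)
    (J J' g : Matrix (Fin (r + (r + δ))) (Fin (r + (r + δ))) R) (hJ : J * J' = 1) (hg : gᵀ * J * g = J) (hdet : g.det = 1) :
    ∃ c : R[X], c.Monic ∧ c.natDegree = r ∧ g.charpoly = (X - 1) ^ δ * pal r c := by
  have hrev := PaC_rev J J' g hJ hg hdet
  have hmon := Matrix.charpoly_monic g
  have hdeg : g.charpoly.natDegree = r + (r + δ) := by
    rw [Matrix.charpoly_natDegree_eq_dim, Fintype.card_fin]
  generalize g.charpoly = F at hrev hmon hdeg ⊢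
  -- a polynomial equal to its reversed polynomial
  have key : ∀ P : R[X], P.Monic → P.natDegree = 2 * r → P.reverse = P → ∃ c : R[X], c.Monic ∧ c.natDegree = r ∧ P = pal r c := by
    intro P hP hPd hPr
    obtain ⟨c, hc, hPc⟩ := exists_pal r P hPd.le (by
      intro i hi
      conv_lhs => rw [← hPr]
      rw [Polynomial.coeff_reverse, hPd, Polynomial.revAt_le hi])
    obtain ⟨h1, h2⟩ := monic_of_pal hc (hPc ▸ hP) (by rw [← hPc, hPd])
    exact ⟨c, h1, h2, hPc⟩
  rcases Nat.le_one_iff_eq_zero_or_eq_one.1 hδ with rfl | rfl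
  · have h1 : F.reverse = F := by
      have h2 : ((-1 : R[X])) ^ (r + (r + 0)) = 1 := by
        rw [show r + (r + 0) = 2 * r by ring, pow_mul, neg_one_sq, one_pow]
      rw [h2, one_mul] at hrev
      exact hrev.symm
    obtain ⟨c, h3, h4, h5⟩ := key F hmon (by omega) h1
    exact ⟨c, h3, h4, by rw [pow_zero, one_mul, h5]⟩
  · have h2 : ((-1 : R[X])) ^ (r + (r + 1)) = -1 := by
      rw [show r + (r + 1) = 2 * r + 1 by ring, pow_succ, pow_mul, neg_one_sq, one_pow, one_mul]
    rw [h2, neg_one_mul] at hrev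
    -- `F(1) = 0`
    have hF1 : F.eval 1 = 0 := by
      have h3 : F.reverse.eval 1 = F.eval 1 := by
        let _ : Invertible (1 : R) := invertibleOne
        have h4 := Polynomial.eval₂_reverse_mul_pow (RingHom.id R) (1 : R) F
        have h6 : (⅟ (1 : R)) = 1 := invOf_one
        rw [h6, one_pow, mul_one] at h4
        exact h4
      have h4 : F.eval 1 = - F.eval 1 := by
        conv_lhs => rw [hrev]
        rw [Polynomial.eval_neg, h3]
      have h5 : (2 : R) * F.eval 1 = 0 := by linear_combination h4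
      rcases mul_eq_zero.1 h5 with h6 | h6
      · exact absurd h6 two_ne_zero
      · exact h6
    obtain ⟨F₀, hF₀⟩ := Polynomial.dvd_iff_isRoot.2 hF1
    have hX : (X - C (1 : R)).Monic := Polynomial.monic_X_sub_C 1
    have hmon0 : F₀.Monic := by
      rw [hF₀] at hmon
      exact hX.of_mul_monic_left hmon
    have hdeg0 : F₀.natDegree = 2 * r := by
      have h3 := hdeg
      rw [hF₀, hX.natDegree_mul hmon0, Polynomial.natDegree_X_sub_C] at h3
      omega
    have hXr : (X - C (1 : R)).reverse = - (X - C (1 : R)) := by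
      ext i
      rw [Polynomial.coeff_reverse, Polynomial.natDegree_X_sub_C, Polynomial.coeff_neg]
      rcases Nat.lt_or_ge i 2 with h | h
      · interval_cases i
        · rw [Polynomial.revAt_le (by norm_num)]
          simp [Polynomial.coeff_one]
        · rw [Polynomial.revAt_le (by norm_num)]
          simp [Polynomial.coeff_one]
      · rw [Polynomial.revAt_eq_self_of_lt (by omega)]
        have h3 : (X - C (1 : R)).coeff i = 0 := by
          apply Polynomial.coeff_eq_zero_of_natDegree_lt
          rw [Polynomial.natDegree_X_sub_C]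
          omega
        rw [h3, neg_zero]
    have hr0 : F₀.reverse = F₀ := by
      have h3 : F.reverse = -(X - C (1 : R)) * F₀.reverse := by
        rw [hF₀, Polynomial.reverse_mul_of_domain, hXr]
      have h4 : F.reverse = - F := by
        rw [eq_neg_iff_add_eq_zero]
        nth_rewrite 2 [hrev]
        ring
      rw [h4, hF₀, neg_mul, neg_inj] at h3
      exact (mul_left_cancel₀ hX.ne_zero h3).symm
    obtain ⟨c, h3, h4, h5⟩ := key F₀ hmon0 hdeg0 hr0
    refine ⟨c, h3, h4, ?_⟩
    rw [pow_one, ← h5, hF₀, map_one]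

end WCn
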