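import Pool.Agent.Lib.MP_c2b80f_alD.JaH
import Pool.Agent.Lib.MP_c2b80f_alD.PaC
import Pool.Agent.Lib.MP_c2b80f_alD.PaB

/-!
# The polynomial of `y + 1/y` over `A` and its reductions (job GjP)
-/

open Matrix Polynomial

namespace WCn

/-- `charpoly_isometry` for `R = A` (a domain of characteristic zero), `matA_isometry`, `JR_inv`. -/
theorem exists_cpoly {ε : ℤ} {r δ : ℕ} (h : OkTy ε r δ) {T : Type} [Group T] (ψ : T →* SLC (r + (r + δ))) (hG : ψ.range ≤ GJ (JR ℂ ε r δ))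
    (A : Subring ℂ) (hA : ∀ g i j, (ψ g).1 i j ∈ A) (γ : T) :
    ∃ c : A[X], c.Monic ∧ c.natDegree = r ∧ (matA ψ A hA γ).charpoly = (X - 1) ^ δ * pal r c := by
  have hδ : δ ≤ 1 := by
    rcases h with h | h | h
    · omega
    · omega
    · omega
  have hε : ε = 1 ∨ ε = -1 := by
    rcases h with h | h | h
    · exact Or.inr h.1
    · exact Or.inl h.1
    · exact Or.inl h.1
  obtain ⟨h1, h2⟩ := matA_isometry ψ hG A hA γ
  obtain ⟨J', hJ, _⟩ := JR_inv A ε r δ hε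
  exact charpoly_isometry r δ hδ (JR A ε r δ) J' (matA ψ A hA γ) hJ h1 h2

/-- Map the identity of `exists_cpoly` by `σ` (`pal_map`; the matrix of `homZ` is `(matA ..).map σ`, its characteristic polynomial is the image) and apply `pal_level`. -/
theorem cpoly_level {ε : ℤ} {r δ : ℕ} (h : OkTy ε r δ) {T : Type} [Group T] (ψ : T →* SLC (r + (r + δ)))
    (A : Subring ℂ) (hA : ∀ g i j, (ψ g).1 i j ∈ A) (γ : T) (c : A[X]) (hc : c.Monic) (hr : c.natDegree = r)
    (hch : (matA ψ A hA γ).charpoly = (X - 1) ^ δ * pal r c) (p : ℕ) [Fact p.Prime] (σ : A →+* ℤ_[p]) (k : ℕ) (hk : 1 ≤ k)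
    (X₁ : Matrix (Fin (r + (r + δ))) (Fin (r + (r + δ))) (ZMod p)) (h₁ : Lev k (homZ ψ A hA p σ γ) X₁) (H : (ZMod p)[X])
    (hX₁ : X₁.charpoly = X ^ δ * H.comp (X ^ 2)) :
    ∃ Q : ℤ_[p][X], Q.Monic ∧ Q.natDegree = r ∧
      (c.map σ).comp (C 2 + C ((p : ℤ_[p]) ^ (2 * k)) * X) = C ((p : ℤ_[p]) ^ (2 * k * r)) * Q ∧ Q.map PadicInt.toZMod = H := by
  have hδ : δ ≤ 1 := by
    rcases h with h | h | h
    · omega
    · omega
    · omega
  obtain ⟨Y, hY1, hY2⟩ := h₁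
  have hm : (c.map σ).Monic := hc.map σ
  have hd : (c.map σ).natDegree = r := by
    rw [hc.natDegree_map σ, hr]
  have h3 : (1 + (p : ℤ_[p]) ^ k • Y).charpoly = (X - 1) ^ δ * pal r (c.map σ) := by
    rw [← hY1]
    have h4 : (homZ ψ A hA p σ γ).1 = (matA ψ A hA γ).map σ := rfl
    rw [h4, Matrix.charpoly_map, hch, Polynomial.map_mul, Polynomial.map_pow, Polynomial.map_sub, Polynomial.map_X,
      Polynomial.map_one, pal_map]
  have h5 : (Y.map PadicInt.toZMod).charpoly = X ^ δ * H.comp (X ^ 2) := by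
    rw [hY2]
    exact hX₁
  exact pal_level r δ k hδ hk Y (c.map σ) hm hd h3 H h5

end WCn
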