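import Pool.Agent.Lib.MP_c2b80f_alD.JaDefs

/-!
# Identities for the elements `XJ` (job JaA)
-/

open Matrix

namespace WCn

variable {m : ℕ} {ε : ℂ} {J : Matrix (Fin m) (Fin m) ℂ}

private theorem jaA_dot (M : Matrix (Fin m) (Fin m) ℂ) (u v : Fin m → ℂ) : u ⬝ᵥ (M *ᵥ v) = v ⬝ᵥ (Mᵀ *ᵥ u) := by
  rw [dotProduct_mulVec, dotProduct_comm, ← mulVec_transpose]

theorem bil_symm (hJ : Jᵀ = ε • J) (u v : Fin m → ℂ) : bil J u v = ε * bil J v u := by
  unfold bil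
  rw [jaA_dot, hJ, smul_mulVec, dotProduct_smul, smul_eq_mul]

theorem bil_add_left (u u' v : Fin m → ℂ) : bil J (u + u') v = bil J u v + bil J u' v := by
  unfold bil
  rw [add_dotProduct]

theorem bil_add_right (u v v' : Fin m → ℂ) : bil J u (v + v') = bil J u v + bil J u v' := by
  unfold bil
  rw [mulVec_add, dotProduct_add]

theorem bil_smul_left (c : ℂ) (u v : Fin m → ℂ) : bil J (c • u) v = c * bil J u v := by
  unfold bil
  rw [smul_dotProduct, smul_eq_mul]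

theorem bil_smul_right (c : ℂ) (u v : Fin m → ℂ) : bil J u (c • v) = c * bil J u v := by
  unfold bil
  rw [mulVec_smul, dotProduct_smul, smul_eq_mul]

theorem XJ_mem (hε : ε * ε = 1) (hJ : Jᵀ = ε • J) (u v : Fin m → ℂ) : XJ ε J u v ∈ lieJ J := by
  show (XJ ε J u v)ᵀ * J + J * XJ ε J u v = 0
  unfold XJ
  rw [transpose_mul, hJ, transpose_sub, transpose_smul, transpose_vecMulVec, transpose_vecMulVec]
  have h1 : ε • J * (vecMulVec v u - ε • vecMulVec u v) = -(J * (vecMulVec u v - ε • vecMulVec v u)) := by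
    rw [Matrix.smul_mul, Matrix.mul_sub, Matrix.mul_sub, Matrix.mul_smul, Matrix.mul_smul, smul_sub, smul_smul, hε, one_smul]
    abel
  rw [h1, Matrix.neg_mul, Matrix.mul_assoc, neg_add_cancel]

theorem XJ_swap (hε : ε * ε = 1) (u v : Fin m → ℂ) : XJ ε J v u = (-ε) • XJ ε J u v := by
  unfold XJ
  rw [← Matrix.smul_mul]
  congr 1
  rw [smul_sub, smul_smul, neg_mul, hε, neg_smul, neg_smul, one_smul]
  abel

theorem XJ_add_left (u u' v : Fin m → ℂ) : XJ ε J (u + u') v = XJ ε J u v + XJ ε J u' v := by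
  unfold XJ
  rw [← Matrix.add_mul, add_vecMulVec, vecMulVec_add, smul_add]
  congr 1
  abel

theorem XJ_add_right (u v v' : Fin m → ℂ) : XJ ε J u (v + v') = XJ ε J u v + XJ ε J u v' := by
  unfold XJ
  rw [← Matrix.add_mul, add_vecMulVec, vecMulVec_add, smul_add]
  congr 1
  abel

theorem XJ_smul_left (c : ℂ) (u v : Fin m → ℂ) : XJ ε J (c • u) v = c • XJ ε J u v := by
  unfold XJ
  rw [← Matrix.smul_mul, smul_vecMulVec, vecMulVec_smul, smul_sub, smul_comm ε c]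

theorem XJ_smul_right (c : ℂ) (u v : Fin m → ℂ) : XJ ε J u (c • v) = c • XJ ε J u v := by
  unfold XJ
  rw [← Matrix.smul_mul, smul_vecMulVec, vecMulVec_smul, smul_sub, smul_comm ε c]

private theorem jaA_vmv (u v w : Fin m → ℂ) : vecMulVec u v *ᵥ w = (v ⬝ᵥ w) • u := by
  rw [vecMulVec_mulVec]
  ext i
  simp [mul_comm]

/-- `(u vᵀ - ε v uᵀ) J w = (v · w) u - ε (u · w) v`. -/
theorem XJ_mulVec (u v w : Fin m → ℂ) : XJ ε J u v *ᵥ w = bil J v w • u - (ε * bil J u w) • v := by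
  unfold XJ bil
  rw [← mulVec_mulVec, sub_mulVec, smul_mulVec, jaA_vmv, jaA_vmv, smul_smul]

/-- `[M, X_{w,z}] = X_{Mw,z} + X_{w,Mz}` for `Mᵀ J + J M = 0`: use `J M = - Mᵀ J`. -/
theorem XJ_bracket {M : Matrix (Fin m) (Fin m) ℂ} (hM : M ∈ lieJ J) (w z : Fin m → ℂ) :
    M * XJ ε J w z - XJ ε J w z * M = XJ ε J (M *ᵥ w) z + XJ ε J w (M *ᵥ z) := by
  have h0 : Mᵀ * J + J * M = 0 := hM
  have h1 : J * M = -(Mᵀ * J) := by
    rw [eq_neg_iff_add_eq_zero, add_comm]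
    exact h0
  have h2 : ∀ a b : Fin m → ℂ, vecMulVec a b * Mᵀ = vecMulVec a (M *ᵥ b) := by
    intro a b
    rw [vecMulVec_mul, vecMul_transpose]
  unfold XJ
  rw [Matrix.mul_assoc (vecMulVec w z - ε • vecMulVec z w) J M, h1, Matrix.mul_neg, sub_neg_eq_add, ← Matrix.mul_assoc,
    ← Matrix.mul_assoc, ← Matrix.add_mul, ← Matrix.add_mul, Matrix.mul_sub, Matrix.mul_smul, mul_vecMulVec, mul_vecMulVec,
    Matrix.sub_mul, Matrix.smul_mul, h2, h2]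
  congr 1
  abel

/-- `g X_{u,v} g⁻¹ = X_{gu,gv}`: `J g⁻¹ = gᵀ J`. -/
theorem XJ_conj {g : SLC m} (hg : g ∈ GJ J) (u v : Fin m → ℂ) : g.1 * XJ ε J u v * (g⁻¹).1 = XJ ε J (g.1 *ᵥ u) (g.1 *ᵥ v) := by
  have h0 : g.1ᵀ * J * g.1 = J := hg
  have hgi : g.1 * (g⁻¹).1 = 1 := by
    rw [← Matrix.SpecialLinearGroup.coe_mul, mul_inv_cancel]
    rfl
  have h1 : J * (g⁻¹).1 = g.1ᵀ * J := by
    calc J * (g⁻¹).1 = g.1ᵀ * J * g.1 * (g⁻¹).1 := by rw [h0]
      _ = g.1ᵀ * J := by rw [Matrix.mul_assoc, hgi, Matrix.mul_one]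
  have h2 : ∀ a b : Fin m → ℂ, vecMulVec a b * g.1ᵀ = vecMulVec a (g.1 *ᵥ b) := by
    intro a b
    rw [vecMulVec_mul, vecMul_transpose]
  unfold XJ
  rw [Matrix.mul_assoc, Matrix.mul_assoc (vecMulVec u v - ε • vecMulVec v u) J (g⁻¹).1, h1, ← Matrix.mul_assoc, ← Matrix.mul_assoc]
  congr 1
  rw [Matrix.mul_sub, Matrix.mul_smul, mul_vecMulVec, mul_vecMulVec, Matrix.sub_mul, Matrix.smul_mul, h2, h2]

/-- For `X ∈ lieJ J`: `u · X v = - (X u) · v`. -/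
private theorem jaA_lie {X : Matrix (Fin m) (Fin m) ℂ} (hX : X ∈ lieJ J) (u v : Fin m → ℂ) : bil J u (X *ᵥ v) = - bil J (X *ᵥ u) v := by
  have h0 : Xᵀ * J + J * X = 0 := hX
  have h1 : J * X = -(Xᵀ * J) := by
    rw [eq_neg_iff_add_eq_zero, add_comm]
    exact h0
  unfold bil
  rw [mulVec_mulVec, h1, neg_mulVec, dotProduct_neg, ← mulVec_mulVec, dotProduct_mulVec u Xᵀ, vecMul_transpose]

/-- `tr(X_{u,v} X) = vᵀ J X u - ε uᵀ J X v = 2 vᵀ J X u` for `Xᵀ J + J X = 0` (`J X` is `(-ε)`-symmetric). -/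
theorem XJ_trace (hε : ε * ε = 1) (hJ : Jᵀ = ε • J) {X : Matrix (Fin m) (Fin m) ℂ} (hX : X ∈ lieJ J) (u v : Fin m → ℂ) :
    (XJ ε J u v * X).trace = 2 * bil J v (X *ᵥ u) := by
  have h1 : ∀ a b : Fin m → ℂ, (vecMulVec a b * (J * X)).trace = bil J b (X *ᵥ a) := by
    intro a b
    unfold bil
    rw [vecMulVec_mul, trace_vecMulVec, dotProduct_comm, ← dotProduct_mulVec, mulVec_mulVec]
  unfold XJ
  rw [Matrix.mul_assoc, Matrix.sub_mul, Matrix.smul_mul, trace_sub, trace_smul, h1, h1, jaA_lie hX u v,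
    bil_symm hJ (X *ᵥ u) v, smul_eq_mul]
  linear_combination (bil J v (X *ᵥ u)) * hε

/-- For `X ∈ lieJ J`: `u · X v = - (X u) · v`. -/
theorem bil_lie {X : Matrix (Fin m) (Fin m) ℂ} (hX : X ∈ lieJ J) (u v : Fin m → ℂ) : bil J u (X *ᵥ v) = - bil J (X *ᵥ u) v :=
  jaA_lie hX u v

end WCn
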