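import Pool.Agent.Lib.MP_c2b80f_alD.GDefs

/-!
# Elements of the Lie algebra of a form: definitions
-/

open Matrix

namespace WCn

variable {m : ℕ}

/-- The matrix `(u vᵀ - ε v uᵀ) J`. -/
noncomputable def XJ (ε : ℂ) (J : Matrix (Fin m) (Fin m) ℂ) (u v : Fin m → ℂ) : Matrix (Fin m) (Fin m) ℂ :=
  (Matrix.vecMulVec u v - ε • Matrix.vecMulVec v u) * J

/-- The bilinear form `uᵀ J v`. -/
noncomputable def bil (J : Matrix (Fin m) (Fin m) ℂ) (u v : Fin m → ℂ) : ℂ := u ⬝ᵥ (J *ᵥ v)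

/-- The span of the conjugates `g N g⁻¹`, `g ∈ G_J`. -/
noncomputable def NJ (J N : Matrix (Fin m) (Fin m) ℂ) : Submodule ℂ (Matrix (Fin m) (Fin m) ℂ) :=
  Submodule.span ℂ {X | ∃ g ∈ GJ J, X = g.1 * N * (g⁻¹).1}

/-- The standard basis vectors, indexed by `Fin r ⊕ (Fin r ⊕ Fin δ)`. -/
noncomputable def bs (r δ : ℕ) (a : Fin r ⊕ (Fin r ⊕ Fin δ)) : Fin (r + (r + δ)) → ℂ := Pi.single (eJ r δ a) 1

/-- The integral matrices `(E_ij - ε E_ji) J`, `J = JI ε r δ`. -/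
noncomputable def SJ (ε : ℤ) (r δ : ℕ) : Finset (Matrix (Fin (r + (r + δ))) (Fin (r + (r + δ))) ℤ) :=
  Finset.univ.image fun ij : Fin (r + (r + δ)) × Fin (r + (r + δ)) =>
    (Matrix.single ij.1 ij.2 1 - ε • Matrix.single ij.2 ij.1 1) * JI ε r δ

end WCn
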