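import Mathlib
import Pool.Agent.Lib.MP_c2b80f_alD.JaDefs

/-!
# Root elements (job JaB)
-/

open Matrix

namespace WCn

variable {m : ℕ} {J : Matrix (Fin m) (Fin m) ℂ}

private theorem JaB_det {N : Matrix (Fin m) (Fin m) ℂ} (hN2 : N * N = 0) : (1 + N).det = 1 := by
  have hnil : IsNilpotent (-N) := ⟨2, by rw [pow_two, neg_mul_neg, hN2]⟩
  have h1 := Matrix.isNilpotent_charpoly_sub_pow_of_isNilpotent hnil
  have h2 : (-N).charpoly = Polynomial.X ^ Fintype.card (Fin m) := sub_eq_zero.mp h1.eq_zero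
  have h3 := Matrix.eval_charpoly (-N) 1
  rw [h2, Polynomial.eval_pow, Polynomial.eval_X, one_pow] at h3
  rw [h3]
  congr 1
  rw [sub_neg_eq_add, map_one]

/-- `(1 + N)ᵀ J (1 + N) = J + (Nᵀ J + J N) + Nᵀ J N = J - J N N = J`. `det (1 + N) = 1` because `N` is nilpotent (for instance `det (1 + t N)` is a polynomial in `t` without zeros, as `(1 + t N) (1 - t N) = 1`; or
`Matrix.isNilpotent...`/`charpoly` of a nilpotent matrix is `X ^ m`). -/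
theorem exists_one_add {N : Matrix (Fin m) (Fin m) ℂ} (hN : N ∈ lieJ J) (hN2 : N * N = 0) :
    ∃ g ∈ GJ J, g.1 = 1 + N ∧ (g⁻¹).1 = 1 - N := by
  have hN' : Nᵀ * J + J * N = 0 := hN
  obtain ⟨g, hg⟩ : ∃ g : SLC m, g.1 = 1 + N := ⟨⟨1 + N, JaB_det hN2⟩, rfl⟩
  refine ⟨g, ?_, hg, ?_⟩
  · show g.1ᵀ * J * g.1 = J
    rw [hg, Matrix.transpose_add, Matrix.transpose_one]
    have h1 : Nᵀ * J = -(J * N) := eq_neg_of_add_eq_zero_left hN'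
    calc (1 + Nᵀ) * J * (1 + N) = J + (Nᵀ * J + J * N) + Nᵀ * J * N := by noncomm_ring
      _ = J := by rw [hN', h1, neg_mul, Matrix.mul_assoc, hN2]; simp
  · have h1 : g.1 * (g⁻¹).1 = 1 := by
      rw [← Matrix.SpecialLinearGroup.coe_mul, mul_inv_cancel]; rfl
    rw [hg] at h1
    have h2 : (1 - N) * (1 + N) = 1 := by
      calc (1 - N) * (1 + N) = 1 - N * N := by noncomm_ring
        _ = 1 := by rw [hN2, sub_zero]
    calc (g⁻¹).1 = ((1 - N) * (1 + N)) * (g⁻¹).1 := by rw [h2, Matrix.one_mul]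
      _ = (1 - N) * ((1 + N) * (g⁻¹).1) := by rw [Matrix.mul_assoc]
      _ = 1 - N := by rw [h1, Matrix.mul_one]

private theorem JaB_conj {N : Matrix (Fin m) (Fin m) ℂ} {g : SLC m} (hg : g ∈ GJ J)
    {Y : Matrix (Fin m) (Fin m) ℂ} (hY : Y ∈ NJ J N) : g.1 * Y * (g⁻¹).1 ∈ NJ J N := by
  have h1 : NJ J N ≤ (NJ J N).comap (Ad g) := by
    refine Submodule.span_le.mpr ?_
    rintro X ⟨h, hh, rfl⟩
    show Ad g (h.1 * N * (h⁻¹).1) ∈ NJ J N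
    refine Submodule.subset_span ⟨g * h, (GJ J).mul_mem hg hh, ?_⟩
    show g.1 * (h.1 * N * (h⁻¹).1) * (g⁻¹).1 = (g * h).1 * N * ((g * h)⁻¹).1
    rw [_root_.mul_inv_rev, Matrix.SpecialLinearGroup.coe_mul, Matrix.SpecialLinearGroup.coe_mul]
    simp only [Matrix.mul_assoc]
  exact h1 hY

/-- `NJ J N` is stable under conjugation by `G_J`, and `2 (M Y - Y M) = (1 + M) Y (1 - M) - (1 - M) Y (1 + M)`; use `exists_one_add` for `M` and `-M`. -/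
theorem NJ_bracket {N M : Matrix (Fin m) (Fin m) ℂ} (hM : M ∈ lieJ J) (hM2 : M * M = 0) {Y : Matrix (Fin m) (Fin m) ℂ}
    (hY : Y ∈ NJ J N) : M * Y - Y * M ∈ NJ J N := by
  obtain ⟨g, hg, hg1, hg2⟩ := exists_one_add hM hM2
  have h1 := JaB_conj hg hY
  have h2 := JaB_conj ((GJ J).inv_mem hg) hY
  rw [inv_inv, hg1, hg2] at h2
  rw [hg1, hg2] at h1
  have h3 : M * Y - Y * M = (2 : ℂ)⁻¹ • ((1 + M) * Y * (1 - M) - (1 - M) * Y * (1 + M)) := by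
    have h4 : (1 + M) * Y * (1 - M) - (1 - M) * Y * (1 + M) = (2 : ℂ) • (M * Y - Y * M) := by
      rw [two_smul]
      noncomm_ring
    rw [h4, smul_smul, inv_mul_cancel₀ two_ne_zero, one_smul]
  rw [h3]
  exact Submodule.smul_mem _ _ (Submodule.sub_mem _ h1 h2)

private theorem JaB_lie {g : SLC m} (hg : g ∈ GJ J) {Y : Matrix (Fin m) (Fin m) ℂ} (hY : Y ∈ lieJ J) :
    (g⁻¹).1 * Y * g.1 ∈ lieJ J := by
  have hg' : g.1ᵀ * J * g.1 = J := hg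
  have hY' : Yᵀ * J + J * Y = 0 := hY
  have h1 : g.1 * (g⁻¹).1 = 1 := by
    rw [← Matrix.SpecialLinearGroup.coe_mul, mul_inv_cancel]; rfl
  have h1' : (g⁻¹).1 * g.1 = 1 := by
    rw [← Matrix.SpecialLinearGroup.coe_mul, inv_mul_cancel]; rfl
  have h2 : (g⁻¹).1ᵀ * g.1ᵀ = 1 := by
    rw [← Matrix.transpose_mul, h1, Matrix.transpose_one]
  have h3 : (g⁻¹).1ᵀ * J = J * g.1 := by
    calc (g⁻¹).1ᵀ * J = (g⁻¹).1ᵀ * (g.1ᵀ * J * g.1) := by rw [hg']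
      _ = ((g⁻¹).1ᵀ * g.1ᵀ) * (J * g.1) := by simp only [Matrix.mul_assoc]
      _ = J * g.1 := by rw [h2, Matrix.one_mul]
  have h4 : J * (g⁻¹).1 = g.1ᵀ * J := by
    calc J * (g⁻¹).1 = (g.1ᵀ * J * g.1) * (g⁻¹).1 := by rw [hg']
      _ = g.1ᵀ * J * (g.1 * (g⁻¹).1) := by simp only [Matrix.mul_assoc]
      _ = g.1ᵀ * J := by rw [h1, Matrix.mul_one]
  show ((g⁻¹).1 * Y * g.1)ᵀ * J + J * ((g⁻¹).1 * Y * g.1) = 0
  rw [Matrix.transpose_mul, Matrix.transpose_mul]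
  calc g.1ᵀ * (Yᵀ * (g⁻¹).1ᵀ) * J + J * ((g⁻¹).1 * Y * g.1)
      = g.1ᵀ * (Yᵀ * ((g⁻¹).1ᵀ * J)) + (J * (g⁻¹).1) * Y * g.1 := by simp only [Matrix.mul_assoc]
    _ = g.1ᵀ * (Yᵀ * J + J * Y) * g.1 := by
        rw [h3, h4, Matrix.mul_add, Matrix.add_mul]
        simp only [Matrix.mul_assoc]
    _ = 0 := by rw [hY', Matrix.mul_zero, Matrix.zero_mul]

private theorem JaB_gen {N : Matrix (Fin m) (Fin m) ℂ} (hN : N ∈ lieJ J) (hN2 : N * N = 0) {κ : ℂ} (hκ : κ ≠ 0)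
    (hroot : ∀ Y ∈ lieJ J, N * Y * N = (κ * (N * Y).trace) • N) {g h : SLC m} (hg : g ∈ GJ J) (hh : h ∈ GJ J) :
    ∃ T ∈ AdS (GJ J : Set (SLC m)), ∀ Y ∈ lieJ J,
      T Y = ((h.1 * N * (h⁻¹).1) * Y).trace • (g.1 * N * (g⁻¹).1) := by
  obtain ⟨u, hu, hu1, hu2⟩ := exists_one_add hN hN2
  have hmem : ∀ w ∈ GJ J, Ad w ∈ AdS (GJ J : Set (SLC m)) := fun w hw =>
    Submodule.subset_span ⟨w, hw, rfl⟩
  refine ⟨(-(2 * κ)⁻¹) • (Ad (g * u * h⁻¹) + Ad (g * u⁻¹ * h⁻¹) - (2 : ℂ) • Ad (g * h⁻¹)), ?_, ?_⟩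
  · refine Submodule.smul_mem _ _ (Submodule.sub_mem _ (Submodule.add_mem _ (hmem _ ?_) (hmem _ ?_))
      (Submodule.smul_mem _ _ (hmem _ ?_)))
    · exact (GJ J).mul_mem ((GJ J).mul_mem hg hu) ((GJ J).inv_mem hh)
    · exact (GJ J).mul_mem ((GJ J).mul_mem hg ((GJ J).inv_mem hu)) ((GJ J).inv_mem hh)
    · exact (GJ J).mul_mem hg ((GJ J).inv_mem hh)
  · intro Y hY
    have hY1 := JaB_lie hh hY
    have h1 := hroot _ hY1
    have e1 : Ad (g * u * h⁻¹) Y = g.1 * ((1 + N) * ((h⁻¹).1 * Y * h.1) * (1 - N)) * (g⁻¹).1 := by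
      show (g * u * h⁻¹).1 * Y * ((g * u * h⁻¹)⁻¹).1 = _
      rw [_root_.mul_inv_rev, _root_.mul_inv_rev, inv_inv]
      simp only [Matrix.SpecialLinearGroup.coe_mul]
      rw [hu1, hu2]
      simp only [Matrix.mul_assoc]
    have e2 : Ad (g * u⁻¹ * h⁻¹) Y = g.1 * ((1 - N) * ((h⁻¹).1 * Y * h.1) * (1 + N)) * (g⁻¹).1 := by
      show (g * u⁻¹ * h⁻¹).1 * Y * ((g * u⁻¹ * h⁻¹)⁻¹).1 = _
      rw [_root_.mul_inv_rev, _root_.mul_inv_rev, inv_inv, inv_inv]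
      simp only [Matrix.SpecialLinearGroup.coe_mul]
      rw [hu1, hu2]
      simp only [Matrix.mul_assoc]
    have e3 : Ad (g * h⁻¹) Y = g.1 * ((h⁻¹).1 * Y * h.1) * (g⁻¹).1 := by
      show (g * h⁻¹).1 * Y * ((g * h⁻¹)⁻¹).1 = _
      rw [_root_.mul_inv_rev, inv_inv]
      simp only [Matrix.SpecialLinearGroup.coe_mul]
      simp only [Matrix.mul_assoc]
    have ht : (N * ((h⁻¹).1 * Y * h.1)).trace = ((h.1 * N * (h⁻¹).1) * Y).trace := by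
      calc (N * ((h⁻¹).1 * Y * h.1)).trace = ((N * (h⁻¹).1 * Y) * h.1).trace := by simp only [Matrix.mul_assoc]
        _ = (h.1 * (N * (h⁻¹).1 * Y)).trace := Matrix.trace_mul_comm _ _
        _ = ((h.1 * N * (h⁻¹).1) * Y).trace := by simp only [Matrix.mul_assoc]
    rw [LinearMap.smul_apply, LinearMap.sub_apply, LinearMap.add_apply, LinearMap.smul_apply, e1, e2, e3, ← ht]
    generalize (h⁻¹).1 * Y * h.1 = Z at h1
    have e4 : g.1 * ((1 + N) * Z * (1 - N)) * (g⁻¹).1 + g.1 * ((1 - N) * Z * (1 + N)) * (g⁻¹).1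
        - (2 : ℂ) • (g.1 * Z * (g⁻¹).1) = -((2 : ℂ) • (g.1 * (N * Z * N) * (g⁻¹).1)) := by
      rw [two_smul, two_smul]
      noncomm_ring
    rw [e4, h1, Matrix.mul_smul, Matrix.smul_mul, smul_neg, neg_smul, neg_neg, smul_smul, smul_smul]
    congr 1
    field_simp

/-- Let `N` be a root element: `N² = 0`, `N Y N = κ tr(N Y) N` for `Y ∈ lieJ J`. Proof: `Ad (1 + N) + Ad (1 - N) - 2 Ad 1` is `Y ↦ -2 N Y N = -2 κ tr(N Y) N` on `lieJ J`. Composing with `Ad g`, `Ad h` (`h⁻¹ Y h ∈ lieJ J`), all `Y ↦ tr(h N h⁻¹ Y) g N g⁻¹` are restrictions of elements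
of `AdS (GJ J)`, and by linearity in `X` and `Z` (`Submodule.span_induction` twice) the claim follows. -/
theorem op_of_root {N : Matrix (Fin m) (Fin m) ℂ} (hN : N ∈ lieJ J) (hN2 : N * N = 0) {κ : ℂ} (hκ : κ ≠ 0)
    (hroot : ∀ Y ∈ lieJ J, N * Y * N = (κ * (N * Y).trace) • N) (X Z : Matrix (Fin m) (Fin m) ℂ) (hX : X ∈ NJ J N) (hZ : Z ∈ NJ J N) :
    ∃ T ∈ AdS (GJ J : Set (SLC m)), ∀ Y ∈ lieJ J, T Y = (Z * Y).trace • X := by
  refine Submodule.span_induction (p := fun X _ => ∃ T ∈ AdS (GJ J : Set (SLC m)), ∀ Y ∈ lieJ J,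
    T Y = (Z * Y).trace • X) ?_ ?_ ?_ ?_ hX
  · rintro X ⟨g, hg, rfl⟩
    refine Submodule.span_induction (p := fun Z _ => ∃ T ∈ AdS (GJ J : Set (SLC m)), ∀ Y ∈ lieJ J,
      T Y = (Z * Y).trace • (g.1 * N * (g⁻¹).1)) ?_ ?_ ?_ ?_ hZ
    · rintro Z ⟨h, hh, rfl⟩
      exact JaB_gen hN hN2 hκ hroot hg hh
    · refine ⟨0, Submodule.zero_mem _, fun Y _ => ?_⟩
      rw [Matrix.zero_mul, Matrix.trace_zero, zero_smul, LinearMap.zero_apply]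
    · rintro Z1 Z2 _ _ ⟨T1, hT1, h1⟩ ⟨T2, hT2, h2⟩
      refine ⟨T1 + T2, Submodule.add_mem _ hT1 hT2, fun Y hY => ?_⟩
      rw [LinearMap.add_apply, h1 Y hY, h2 Y hY, Matrix.add_mul, Matrix.trace_add, add_smul]
    · rintro c Z1 _ ⟨T1, hT1, h1⟩
      refine ⟨c • T1, Submodule.smul_mem _ _ hT1, fun Y hY => ?_⟩
      rw [LinearMap.smul_apply, h1 Y hY, Matrix.smul_mul, Matrix.trace_smul, smul_smul, smul_eq_mul]
  · refine ⟨0, Submodule.zero_mem _, fun Y _ => ?_⟩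
    rw [smul_zero, LinearMap.zero_apply]
  · rintro X1 X2 _ _ ⟨T1, hT1, h1⟩ ⟨T2, hT2, h2⟩
    refine ⟨T1 + T2, Submodule.add_mem _ hT1 hT2, fun Y hY => ?_⟩
    rw [LinearMap.add_apply, h1 Y hY, h2 Y hY, smul_add]
  · rintro c X1 _ ⟨T1, hT1, h1⟩
    refine ⟨c • T1, Submodule.smul_mem _ _ hT1, fun Y hY => ?_⟩
    rw [LinearMap.smul_apply, h1 Y hY, smul_comm]

end WCn
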