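import Pool.Agent.Lib.MP_c2b80f_alD.JaA
import Pool.Agent.Lib.MP_c2b80f_alD.JaB

/-!
# The symplectic Lie algebra is spanned by conjugates of a root element (job JaC)
-/

open Matrix

namespace WCn

variable {m : ℕ} {J : Matrix (Fin m) (Fin m) ℂ}

private theorem JaC_mid (M : Matrix (Fin m) (Fin m) ℂ) (u v w z : Fin m → ℂ) :
    vecMulVec u v * M * vecMulVec w z = (v ⬝ᵥ (M *ᵥ w)) • vecMulVec u z := by
  rw [Matrix.mul_assoc, Matrix.mul_vecMulVec, Matrix.vecMulVec_mul_vecMulVec, Matrix.vecMulVec_smul]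

private theorem JaC_tr (M : Matrix (Fin m) (Fin m) ℂ) (u v : Fin m → ℂ) :
    (vecMulVec u v * M).trace = v ⬝ᵥ (M *ᵥ u) := by
  rw [Matrix.vecMulVec_mul, Matrix.trace_vecMulVec, dotProduct_comm, Matrix.dotProduct_mulVec]

private theorem JaC_anti (hJ : Jᵀ = -J) (u v : Fin m → ℂ) : bil J u v = - bil J v u := by
  have h := bil_symm (ε := -1) (J := J) (by rw [hJ, neg_smul, one_smul]) u v
  rw [h, neg_one_mul]

private theorem JaC_self (hJ : Jᵀ = -J) (v : Fin m → ℂ) : bil J v v = 0 := by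
  have h := JaC_anti hJ v v
  have h2 : (2 : ℂ) * bil J v v = 0 := by linear_combination h
  rcases mul_eq_zero.1 h2 with h3 | h3
  · exact absurd h3 two_ne_zero
  · exact h3

private theorem JaC_mem (hJ : Jᵀ = -J) (v : Fin m → ℂ) : vecMulVec v v * J ∈ lieJ J := by
  show (vecMulVec v v * J)ᵀ * J + J * (vecMulVec v v * J) = 0
  rw [Matrix.transpose_mul, Matrix.transpose_vecMulVec, hJ, Matrix.neg_mul, Matrix.neg_mul, Matrix.mul_assoc,
    neg_add_cancel]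

private theorem JaC_step (hJ : Jᵀ = -J) {N : Matrix (Fin m) (Fin m) ℂ} {v w : Fin m → ℂ}
    (hv : vecMulVec v v * J ∈ NJ J N) (hb : bil J v w ≠ 0) : vecMulVec w w * J ∈ NJ J N := by
  have hM := JaC_mem hJ w
  have hM2 : (vecMulVec w w * J) * (vecMulVec w w * J) = 0 := by
    rw [← Matrix.mul_assoc, JaC_mid, show w ⬝ᵥ (J *ᵥ w) = bil J w w from rfl, JaC_self hJ, zero_smul, Matrix.zero_mul]
  have h1 := NJ_bracket hM hM2 (NJ_bracket hM hM2 hv)
  have h2 : (vecMulVec w w * J) * ((vecMulVec w w * J) * (vecMulVec v v * J) - (vecMulVec v v * J) * (vecMulVec w w * J)) -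
      ((vecMulVec w w * J) * (vecMulVec v v * J) - (vecMulVec v v * J) * (vecMulVec w w * J)) * (vecMulVec w w * J) =
      (2 * bil J v w ^ 2) • (vecMulVec w w * J) := by
    have h3 : (vecMulVec w w * J) * (vecMulVec v v * J) * (vecMulVec w w * J) =
        (-(bil J v w ^ 2)) • (vecMulVec w w * J) := by
      have e1 : (vecMulVec w w * J) * (vecMulVec v v * J) = bil J w v • (vecMulVec w v * J) := by
        rw [← Matrix.mul_assoc, JaC_mid, Matrix.smul_mul]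
        rfl
      have e2 : (vecMulVec w v * J) * (vecMulVec w w * J) = bil J v w • (vecMulVec w w * J) := by
        rw [← Matrix.mul_assoc, JaC_mid, Matrix.smul_mul]
        rfl
      rw [e1, Matrix.smul_mul, e2, smul_smul, JaC_anti hJ w v]
      congr 1
      ring
    rw [Matrix.mul_sub, Matrix.sub_mul, ← Matrix.mul_assoc, hM2, Matrix.zero_mul, zero_sub,
      Matrix.mul_assoc (vecMulVec v v * J) (vecMulVec w w * J) (vecMulVec w w * J), hM2, Matrix.mul_zero, sub_zero,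
      ← Matrix.mul_assoc, h3, ← neg_smul, ← sub_smul]
    congr 1
    ring
  rw [h2] at h1
  have h4 : (2 * bil J v w ^ 2) ≠ 0 := mul_ne_zero two_ne_zero (pow_ne_zero 2 hb)
  have h5 := (NJ J N).smul_mem (2 * bil J v w ^ 2)⁻¹ h1
  rwa [smul_smul, inv_mul_cancel₀ h4, one_smul] at h5

/-- For `Jᵀ = -J` and `N = v vᵀ J`: `N ∈ lieJ J`, `N² = (v · v) N = 0`, `N Y N = (vᵀ J Y v) N`, `tr(N Y) = vᵀ J Y v`. -/
theorem symp_root (hJ : Jᵀ = -J) (v : Fin m → ℂ) :
    vecMulVec v v * J ∈ lieJ J ∧ (vecMulVec v v * J) * (vecMulVec v v * J) = 0 ∧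
    ∀ Y ∈ lieJ J, (vecMulVec v v * J) * Y * (vecMulVec v v * J) = (1 * (vecMulVec v v * J * Y).trace) • (vecMulVec v v * J) := by
  refine ⟨JaC_mem hJ v, ?_, fun Y _ => ?_⟩
  · rw [← Matrix.mul_assoc, JaC_mid, show v ⬝ᵥ (J *ᵥ v) = bil J v v from rfl, JaC_self hJ, zero_smul, Matrix.zero_mul]
  · rw [one_mul, Matrix.mul_assoc (vecMulVec v v) J Y, JaC_tr, ← Matrix.mul_assoc, JaC_mid, Matrix.smul_mul]

/-- Let `N_v = v vᵀ J` (`Jᵀ = -J`, `det J ≠ 0`, so `v · w = vᵀ J w` is nondegenerate), `v₀ ≠ 0`. All `N_w` are in `NJ J N_{v₀}`.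
Proof. Let `𝒩 = NJ J N_{v₀}`. Step: if `N_v ∈ 𝒩` and `v · w ≠ 0` then `N_w ∈ 𝒩`: with `M = N_w` (`M² = 0`), `M N_v - N_v M = (w · v) (w vᵀ + v wᵀ) J =: (w · v) S`, so `S ∈ 𝒩` by `NJ_bracket`, and `M S - S M = (w·v) N_w - (v·w) N_w = 2 (w · v) N_w`. (Signs: `v · w = - w · v`.)
For `w` with `v₀ · w = 0` choose `w'` with `v₀ · w' ≠ 0` and `w' · w ≠ 0` (`w ≠ 0`; a vector outside two hyperplanes). -/
theorem symp_span (hJ : Jᵀ = -J) (hdet : J.det ≠ 0) (v₀ : Fin m → ℂ) (hv₀ : v₀ ≠ 0) (w : Fin m → ℂ) :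
    vecMulVec w w * J ∈ NJ J (vecMulVec v₀ v₀ * J) := by
  have h0 : vecMulVec v₀ v₀ * J ∈ NJ J (vecMulVec v₀ v₀ * J) := by
    refine Submodule.subset_span ⟨1, (GJ J).one_mem, ?_⟩
    simp
  rcases eq_or_ne w 0 with rfl | hw
  · rw [Matrix.zero_vecMulVec, Matrix.zero_mul]
    exact Submodule.zero_mem _
  have hnd : ∀ v : Fin m → ℂ, v ≠ 0 → ∃ a, bil J v a ≠ 0 := fun v hv =>
    (Matrix.nondegenerate_of_det_ne_zero hdet).exists_not_ortho_of_ne_zero hv
  obtain ⟨a, ha⟩ := hnd v₀ hv₀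
  obtain ⟨c, hc'⟩ := hnd w hw
  have hc : bil J c w ≠ 0 := by
    rw [JaC_anti hJ]
    exact neg_ne_zero.2 hc'
  have key : ∀ w' : Fin m → ℂ, bil J v₀ w' ≠ 0 → bil J w' w ≠ 0 → vecMulVec w w * J ∈ NJ J (vecMulVec v₀ v₀ * J) :=
    fun w' h1 h2 => JaC_step hJ (JaC_step hJ h0 h1) h2
  rcases eq_or_ne (bil J a w) 0 with h1 | h1
  · rcases eq_or_ne (bil J v₀ c) 0 with h2 | h2
    · refine key (a + c) ?_ ?_
      · rw [bil_add_right, h2, add_zero]
        exact ha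
      · rw [bil_add_left, h1, zero_add]
        exact hc
    · exact key c h2 hc
  · exact key a ha h1

/-- `X_{u,v} = (u vᵀ + v uᵀ) J = N_{u+v} - N_u - N_v` (`ε = -1`); combine `symp_root`, `symp_span`, `op_of_root`. (`m = 0`: trivial, all matrices are zero.) -/
theorem op_symp (hJ : Jᵀ = -J) (hdet : J.det ≠ 0) (u v u' v' : Fin m → ℂ) :
    ∃ T ∈ AdS (GJ J : Set (SLC m)), ∀ Y ∈ lieJ J, T Y = (XJ (-1) J u' v' * Y).trace • XJ (-1) J u v := by
  rcases Nat.eq_zero_or_pos m with hm | hm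
  · subst hm
    refine ⟨0, Submodule.zero_mem _, fun Y _ => ?_⟩
    exact Subsingleton.elim _ _
  have hv₀ : (fun _ => 1 : Fin m → ℂ) ≠ 0 := by
    intro h
    have h1 := congrFun h ⟨0, hm⟩
    exact one_ne_zero h1
  obtain ⟨h1, h2, h3⟩ := symp_root hJ (fun _ => 1 : Fin m → ℂ)
  have hX : ∀ a b : Fin m → ℂ, XJ (-1) J a b ∈ NJ J (vecMulVec (fun _ => 1) (fun _ => 1) * J) := by
    intro a b
    have h4 : XJ (-1) J a b = vecMulVec (a + b) (a + b) * J - vecMulVec a a * J - vecMulVec b b * J := by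
      unfold XJ
      rw [Matrix.add_vecMulVec, Matrix.vecMulVec_add, Matrix.vecMulVec_add, Matrix.add_mul, Matrix.add_mul,
        Matrix.add_mul, neg_smul, one_smul, sub_neg_eq_add, Matrix.add_mul]
      abel
    rw [h4]
    exact Submodule.sub_mem _ (Submodule.sub_mem _ (symp_span hJ hdet _ hv₀ _) (symp_span hJ hdet _ hv₀ _))
      (symp_span hJ hdet _ hv₀ _)
  exact op_of_root h1 h2 one_ne_zero h3 _ _ (hX u v) (hX u' v')

end WCn
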