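import Pool.Agent.Lib.MP_c2b80f_alD.JaA
import Pool.Agent.Lib.MP_c2b80f_alD.JaB

/-!
# Root elements of orthogonal Lie algebras (job JaD)
-/

open Matrix

namespace WCn

variable {m : ℕ} {J : Matrix (Fin m) (Fin m) ℂ}

private theorem jaD_ext {A B : Matrix (Fin m) (Fin m) ℂ} (h : ∀ w : Fin m → ℂ, A *ᵥ w = B *ᵥ w) : A = B := by
  ext i j
  have h1 := congrFun (h (Pi.single j 1)) i
  rwa [Matrix.mulVec_single_one, Matrix.mulVec_single_one] at h1

/-- Let `Jᵀ = J` and `u · u = v · v = u · v = 0`, `N = X_{u,v} = (u vᵀ - v uᵀ) J`. Then `N² = 0`, and for `Y ∈ lieJ J`: `J Y` is antisymmetric, so `u · Y u = v · Y v = 0`, `s := v · Y u = - u · Y v`, and `N Y N = s N`, `tr(N Y) = 2 s`. -/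
theorem orth_root (hJ : Jᵀ = J) (u v : Fin m → ℂ) (huu : bil J u u = 0) (hvv : bil J v v = 0) (huv : bil J u v = 0) :
    XJ 1 J u v ∈ lieJ J ∧ XJ 1 J u v * XJ 1 J u v = 0 ∧
    ∀ Y ∈ lieJ J, XJ 1 J u v * Y * XJ 1 J u v = ((1 / 2 : ℂ) * (XJ 1 J u v * Y).trace) • XJ 1 J u v := by
  have hε : (1 : ℂ) * 1 = 1 := one_mul 1
  have hJ1 : Jᵀ = (1 : ℂ) • J := by rw [one_smul]; exact hJ
  have hsymm : ∀ a b : Fin m → ℂ, bil J a b = bil J b a := fun a b => by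
    rw [bil_symm hJ1 a b, one_mul]
  have hNw : ∀ w : Fin m → ℂ, XJ 1 J u v *ᵥ w = bil J v w • u - bil J u w • v := fun w => by
    rw [XJ_mulVec, one_mul]
  have hNu : XJ 1 J u v *ᵥ u = 0 := by
    rw [hNw, hsymm v u, huv, huu, zero_smul, zero_smul, sub_zero]
  have hNv : XJ 1 J u v *ᵥ v = 0 := by
    rw [hNw, hvv, huv, zero_smul, zero_smul, sub_zero]
  refine ⟨XJ_mem hε hJ1 u v, ?_, ?_⟩
  · refine jaD_ext fun w => ?_
    rw [← Matrix.mulVec_mulVec, hNw w, Matrix.mulVec_sub, Matrix.mulVec_smul, Matrix.mulVec_smul, hNu, hNv, smul_zero,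
      smul_zero, sub_zero, Matrix.zero_mulVec]
  · intro Y hY
    have hanti : ∀ a : Fin m → ℂ, bil J a (Y *ᵥ a) = 0 := fun a => by
      have h1 := bil_lie hY a a
      rw [hsymm (Y *ᵥ a) a] at h1
      linear_combination (1 / 2 : ℂ) * h1
    have hs : bil J u (Y *ᵥ v) = - bil J v (Y *ᵥ u) := by
      rw [bil_lie hY u v, hsymm (Y *ᵥ u) v]
    have e1 : XJ 1 J u v *ᵥ (Y *ᵥ u) = bil J v (Y *ᵥ u) • u := by
      rw [hNw, hanti u, zero_smul, sub_zero]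
    have e2 : XJ 1 J u v *ᵥ (Y *ᵥ v) = bil J v (Y *ᵥ u) • v := by
      rw [hNw, hanti v, zero_smul, hs, neg_smul, zero_sub, neg_neg]
    have ht : (1 / 2 : ℂ) * (XJ 1 J u v * Y).trace = bil J v (Y *ᵥ u) := by
      rw [XJ_trace hε hJ1 hY u v]
      ring
    rw [ht]
    refine jaD_ext fun w => ?_
    rw [← Matrix.mulVec_mulVec, ← Matrix.mulVec_mulVec, hNw w, Matrix.mulVec_sub, Matrix.mulVec_smul, Matrix.mulVec_smul,
      Matrix.mulVec_sub, Matrix.mulVec_smul, Matrix.mulVec_smul, e1, e2, Matrix.smul_mulVec, hNw w, smul_sub, smul_smul,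
      smul_smul, smul_smul, smul_smul, mul_comm (bil J v w), mul_comm (bil J u w)]

end WCn
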