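import Pool.Agent.Lib.MP_c2b80f_alD.JsA
import Pool.Agent.Lib.MP_c2b80f_alD.JaD

/-!
# Type `D_r`: brackets with root elements generate everything (job JaE)
-/

open Matrix

namespace WCn

/-- The block of a basis vector. -/
private def jaE_blk {r : ℕ} : Fin r ⊕ (Fin r ⊕ Fin 0) → Fin r
  | Sum.inl i => i
  | Sum.inr (Sum.inl i) => i
  | Sum.inr (Sum.inr z) => z.elim0

/-- The partner of a basis vector. -/
private def jaE_pt {r : ℕ} : Fin r ⊕ (Fin r ⊕ Fin 0) → Fin r ⊕ (Fin r ⊕ Fin 0)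
  | Sum.inl i => Sum.inr (Sum.inl i)
  | Sum.inr (Sum.inl i) => Sum.inl i
  | Sum.inr (Sum.inr z) => z.elim0

private theorem jaE_J (r : ℕ) : (JR ℂ 1 r 0)ᵀ = JR ℂ 1 r 0 := by
  have h := JR_transpose ℂ 1 r 0 (Or.inl rfl)
  rwa [Int.cast_one, one_smul] at h

private theorem jaE_J' (r : ℕ) : (JR ℂ 1 r 0)ᵀ = (1 : ℂ) • JR ℂ 1 r 0 := by
  rw [one_smul]
  exact jaE_J r

private theorem jaE_bil {r : ℕ} (a b : Fin r ⊕ (Fin r ⊕ Fin 0)) :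
    bil (JR ℂ 1 r 0) (bs r 0 a) (bs r 0 b) = if b = jaE_pt a then 1 else 0 := by
  rcases a with i | i | z
  · rcases b with j | j | z
    · rw [bil_ee, if_neg (by simp [jaE_pt])]
    · rw [bil_ef]
      by_cases h : i = j
      · rw [if_pos h, h, if_pos (by simp [jaE_pt])]
      · rw [if_neg h, if_neg (by simpa [jaE_pt] using fun h' => h h'.symm)]
    · exact z.elim0
  · rcases b with j | j | z
    · rw [bil_symm (jaE_J' r), one_mul, bil_ef]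
      by_cases h : j = i
      · rw [if_pos h, h, if_pos (by simp [jaE_pt])]
      · rw [if_neg h, if_neg (by simpa [jaE_pt] using h)]
    · rw [bil_ff, if_neg (by simp [jaE_pt])]
    · exact z.elim0
  · exact z.elim0

private theorem jaE_ptpt {r : ℕ} (a : Fin r ⊕ (Fin r ⊕ Fin 0)) : jaE_pt (jaE_pt a) = a := by
  rcases a with i | i | z
  · rfl
  · rfl
  · exact z.elim0

private theorem jaE_blk_pt {r : ℕ} (a : Fin r ⊕ (Fin r ⊕ Fin 0)) : jaE_blk (jaE_pt a) = jaE_blk a := by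
  rcases a with i | i | z
  · rfl
  · rfl
  · exact z.elim0

private theorem jaE_bil0 {r : ℕ} {a b : Fin r ⊕ (Fin r ⊕ Fin 0)} (h : jaE_blk a ≠ jaE_blk b) :
    bil (JR ℂ 1 r 0) (bs r 0 a) (bs r 0 b) = 0 := by
  rw [jaE_bil, if_neg]
  rintro rfl
  exact h (jaE_blk_pt a).symm

private theorem jaE_bil1 {r : ℕ} (a : Fin r ⊕ (Fin r ⊕ Fin 0)) :
    bil (JR ℂ 1 r 0) (bs r 0 a) (bs r 0 (jaE_pt a)) = 1 := by
  rw [jaE_bil, if_pos rfl]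

private theorem jaE_bil1' {r : ℕ} (a : Fin r ⊕ (Fin r ⊕ Fin 0)) :
    bil (JR ℂ 1 r 0) (bs r 0 (jaE_pt a)) (bs r 0 a) = 1 := by
  rw [jaE_bil, if_pos (jaE_ptpt a).symm]

private theorem jaE_bilself {r : ℕ} (a : Fin r ⊕ (Fin r ⊕ Fin 0)) :
    bil (JR ℂ 1 r 0) (bs r 0 a) (bs r 0 a) = 0 := by
  rw [jaE_bil, if_neg]
  rcases a with i | i | z
  · simp [jaE_pt]
  · simp [jaE_pt]
  · exact z.elim0

private theorem jaE_swap {r : ℕ} (u v : Fin (r + (r + 0)) → ℂ) :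
    XJ 1 (JR ℂ 1 r 0) v u = - XJ 1 (JR ℂ 1 r 0) u v := by
  have h := XJ_swap (ε := 1) (J := JR ℂ 1 r 0) (one_mul 1) u v
  rw [h, neg_smul, one_smul]

/-- The bracket with a root element. -/
private theorem jaE_bracket {r : ℕ} (𝒩 : Submodule ℂ (Matrix (Fin (r + (r + 0))) (Fin (r + (r + 0))) ℂ))
    (hst : ∀ M ∈ lieJ (JR ℂ 1 r 0), M * M = 0 → ∀ Y ∈ 𝒩, M * Y - Y * M ∈ 𝒩) {x y w z : Fin r ⊕ (Fin r ⊕ Fin 0)}
    (hxy : jaE_blk x ≠ jaE_blk y) (h : XJ 1 (JR ℂ 1 r 0) (bs r 0 w) (bs r 0 z) ∈ 𝒩) :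
    XJ 1 (JR ℂ 1 r 0) (XJ 1 (JR ℂ 1 r 0) (bs r 0 x) (bs r 0 y) *ᵥ (bs r 0 w)) (bs r 0 z) +
      XJ 1 (JR ℂ 1 r 0) (bs r 0 w) (XJ 1 (JR ℂ 1 r 0) (bs r 0 x) (bs r 0 y) *ᵥ (bs r 0 z)) ∈ 𝒩 := by
  obtain ⟨h1, h2, -⟩ := orth_root (jaE_J r) (bs r 0 x) (bs r 0 y) (jaE_bilself x) (jaE_bilself y) (jaE_bil0 hxy)
  have h3 := hst _ h1 h2 _ h
  rwa [XJ_bracket h1] at h3

private theorem jaE_step {r : ℕ} (𝒩 : Submodule ℂ (Matrix (Fin (r + (r + 0))) (Fin (r + (r + 0))) ℂ))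
    (hst : ∀ M ∈ lieJ (JR ℂ 1 r 0), M * M = 0 → ∀ Y ∈ 𝒩, M * Y - Y * M ∈ 𝒩) {w z x : Fin r ⊕ (Fin r ⊕ Fin 0)}
    (hwz : jaE_blk w ≠ jaE_blk z) (hxw : jaE_blk x ≠ jaE_blk w) (hxz : jaE_blk x ≠ jaE_blk z)
    (h : XJ 1 (JR ℂ 1 r 0) (bs r 0 w) (bs r 0 z) ∈ 𝒩) : XJ 1 (JR ℂ 1 r 0) (bs r 0 w) (bs r 0 x) ∈ 𝒩 := by
  have hz' : jaE_blk x ≠ jaE_blk (jaE_pt z) := by rwa [jaE_blk_pt]
  have h1 := jaE_bracket 𝒩 hst hz' h
  rw [XJ_mulVec, XJ_mulVec, jaE_bil0 (a := jaE_pt z) (b := w) (by rw [jaE_blk_pt]; exact hwz.symm),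
    jaE_bil0 hxw, jaE_bil1', jaE_bil0 hxz, zero_smul, mul_zero, zero_smul, sub_zero, one_smul] at h1
  have e : XJ 1 (JR ℂ 1 r 0) 0 (bs r 0 z) = 0 := by
    have := XJ_smul_left (ε := 1) (J := JR ℂ 1 r 0) 0 (0 : Fin (r + (r + 0)) → ℂ) (bs r 0 z)
    rwa [smul_zero, zero_smul] at this
  rwa [e, zero_add, sub_zero] at h1

private theorem jaE_third {r : ℕ} (hr : 3 ≤ r) (i j : Fin r) : ∃ k : Fin r, k ≠ i ∧ k ≠ j := by
  by_contra hcon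
  push Not at hcon
  have h1 : (Finset.univ : Finset (Fin r)) ⊆ {i, j} := by
    intro k _
    rw [Finset.mem_insert, Finset.mem_singleton]
    by_cases hk : k = i
    · exact Or.inl hk
    · exact Or.inr (hcon k hk)
  have h2 := Finset.card_le_card h1
  rw [Finset.card_univ, Fintype.card_fin] at h2
  have h3 := Finset.card_le_two (a := i) (b := j)
  omega

private theorem jaE_all {r : ℕ} (hr : 3 ≤ r) (P : Fin r ⊕ (Fin r ⊕ Fin 0) → Fin r ⊕ (Fin r ⊕ Fin 0) → Prop)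
    (h0 : P (Sum.inl ⟨0, by omega⟩) (Sum.inl ⟨1, by omega⟩)) (hs : ∀ w z, P w z → P z w)
    (h1 : ∀ w z x, jaE_blk w ≠ jaE_blk z → jaE_blk x ≠ jaE_blk w → jaE_blk x ≠ jaE_blk z → P w z → P w x)
    (w z : Fin r ⊕ (Fin r ⊕ Fin 0)) (hwz : jaE_blk w ≠ jaE_blk z) : P w z := by
  let o : Fin r := ⟨0, by omega⟩
  let l : Fin r := ⟨1, by omega⟩
  have hol : o ≠ l := by
    intro h
    have := congrArg Fin.val h
    simp [o, l] at this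
  have hA1 : ∀ y, jaE_blk y ≠ o → jaE_blk y ≠ l → P (Sum.inl o) y := fun y hy hy' =>
    h1 (Sum.inl o) (Sum.inl l) y hol hy hy' h0
  have hA : ∀ y, jaE_blk y ≠ o → P (Sum.inl o) y := by
    intro y hy
    by_cases hy' : jaE_blk y = l
    · obtain ⟨k, hk1, hk2⟩ := jaE_third hr o l
      exact h1 (Sum.inl o) (Sum.inl k) y (Ne.symm hk1) hy (by rw [hy']; exact Ne.symm hk2) (hA1 (Sum.inl k) hk1 hk2)
    · exact hA1 y hy hy'
  have hB : ∀ y x, jaE_blk y ≠ o → jaE_blk x ≠ o → jaE_blk x ≠ jaE_blk y → P y x := fun y x hy hx hxy =>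
    h1 y (Sum.inl o) x hy hxy hx (hs _ _ (hA y hy))
  have hC : ∀ y x, jaE_blk y ≠ o → jaE_blk x = o → P y x := by
    intro y x hy hx
    obtain ⟨k, hk1, hk2⟩ := jaE_third hr o (jaE_blk y)
    exact h1 y (Sum.inl k) x (Ne.symm hk2) (by rw [hx]; exact Ne.symm hy) (by rw [hx]; exact Ne.symm hk1)
      (hB y (Sum.inl k) hy hk1 hk2)
  by_cases hw : jaE_blk w = o
  · exact hs _ _ (hC z w (fun h => hwz (hw.trans h.symm)) hw)
  · by_cases hz : jaE_blk z = o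
    · exact hC w z hw hz
    · exact hB w z hw hz (Ne.symm hwz)

private theorem jaE_diag {r : ℕ} (𝒩 : Submodule ℂ (Matrix (Fin (r + (r + 0))) (Fin (r + (r + 0))) ℂ))
    (hst : ∀ M ∈ lieJ (JR ℂ 1 r 0), M * M = 0 → ∀ Y ∈ 𝒩, M * Y - Y * M ∈ 𝒩) {a x : Fin r ⊕ (Fin r ⊕ Fin 0)}
    (hax : jaE_blk a ≠ jaE_blk x)
    (h : XJ 1 (JR ℂ 1 r 0) (bs r 0 (jaE_pt x)) (bs r 0 (jaE_pt a)) ∈ 𝒩) :
    XJ 1 (JR ℂ 1 r 0) (bs r 0 a) (bs r 0 (jaE_pt a)) + XJ 1 (JR ℂ 1 r 0) (bs r 0 x) (bs r 0 (jaE_pt x)) ∈ 𝒩 := by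
  have h1 := jaE_bracket 𝒩 hst hax h
  rw [XJ_mulVec, XJ_mulVec, jaE_bil1, jaE_bil0 (a := a) (b := jaE_pt x) (by rw [jaE_blk_pt]; exact hax),
    jaE_bil0 (a := x) (b := jaE_pt a) (by rw [jaE_blk_pt]; exact hax.symm), jaE_bil1, mul_zero, zero_smul, one_smul,
    mul_one, one_smul, sub_zero, zero_smul, zero_sub] at h1
  have e : XJ 1 (JR ℂ 1 r 0) (bs r 0 (jaE_pt x)) (-bs r 0 x) = XJ 1 (JR ℂ 1 r 0) (bs r 0 x) (bs r 0 (jaE_pt x)) := by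
    have h2 := XJ_smul_right (ε := 1) (J := JR ℂ 1 r 0) (-1) (bs r 0 (jaE_pt x)) (bs r 0 x)
    rw [neg_smul, one_smul, neg_smul, one_smul, ← jaE_swap] at h2
    exact h2
  rwa [e] at h1

/-- Basis vectors `b a`, `a : Fin r ⊕ (Fin r ⊕ Fin 0)`; write `a'` for the partner of `a` (`inl i ↔ inr (inl i)`), `b a · b a' = 1`, all other products are zero. `𝒩` is stable under brackets `M Y - Y M` with all `M ∈ lieJ J`, `M² = 0`, in particular with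
`M = X_{b x, b y}`, `y ≠ x'` (`orth_root`).
Step 1: if `X_{w,z} ∈ 𝒩` with `w ≠ z, z'` and `x ∉ {w, w', z, z'}`, then `X_{w,x} ∈ 𝒩`: bracket with `M = X_{x,z'}` (`M w = 0`, `M z = x`, by `XJ_mulVec`, `XJ_bracket`). With `XJ_swap` the first index can be changed in the same way. As `r ≥ 3` all `X_{w,z}` with `z ≠ w, w'` are reached from
`X_{e_0,e_1}` (to change `z` to `z'` go through a third block).
Step 2: `[X_{e_i,x}, X_{x',f_i}] = X_{e_i,f_i} + X_{x',-x}`, `x` in another block: so `X_{e_i,f_i} + X_{x,x'} ∈ 𝒩` (`X_{x',-x} = X_{x,x'}`); for `x = e_j` and `x = f_j` the second term has opposite signs, so `X_{e_i,f_i} ∈ 𝒩`. `X_{b a, b a} = 0` and `X_{f_i,e_i} = - X_{e_i,f_i}`. -/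
theorem all_of_root_D (r : ℕ) (hr : 3 ≤ r) (𝒩 : Submodule ℂ (Matrix (Fin (r + (r + 0))) (Fin (r + (r + 0))) ℂ))
    (h0 : XJ 1 (JR ℂ 1 r 0) (bs r 0 (Sum.inl ⟨0, by omega⟩)) (bs r 0 (Sum.inl ⟨1, by omega⟩)) ∈ 𝒩)
    (hst : ∀ M ∈ lieJ (JR ℂ 1 r 0), M * M = 0 → ∀ Y ∈ 𝒩, M * Y - Y * M ∈ 𝒩) (a b : Fin r ⊕ (Fin r ⊕ Fin 0)) :
    XJ 1 (JR ℂ 1 r 0) (bs r 0 a) (bs r 0 b) ∈ 𝒩 := by
  have hall : ∀ w z : Fin r ⊕ (Fin r ⊕ Fin 0), jaE_blk w ≠ jaE_blk z →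
      XJ 1 (JR ℂ 1 r 0) (bs r 0 w) (bs r 0 z) ∈ 𝒩 := by
    refine jaE_all hr (fun w z => XJ 1 (JR ℂ 1 r 0) (bs r 0 w) (bs r 0 z) ∈ 𝒩) h0 ?_ ?_
    · intro w z h
      rw [jaE_swap]
      exact 𝒩.neg_mem h
    · intro w z x h1 h2 h3 h4
      exact jaE_step 𝒩 hst h1 h2 h3 h4
  have hdiag : ∀ a : Fin r ⊕ (Fin r ⊕ Fin 0), XJ 1 (JR ℂ 1 r 0) (bs r 0 a) (bs r 0 (jaE_pt a)) ∈ 𝒩 := by
    intro a
    obtain ⟨k, hk, -⟩ := jaE_third hr (jaE_blk a) (jaE_blk a)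
    have h1 := jaE_diag 𝒩 hst (a := a) (x := Sum.inl k) (Ne.symm hk)
      (hall _ _ (by rw [jaE_blk_pt, jaE_blk_pt]; exact hk))
    have h2 := jaE_diag 𝒩 hst (a := a) (x := Sum.inr (Sum.inl k)) (Ne.symm hk)
      (hall _ _ (by rw [jaE_blk_pt, jaE_blk_pt]; exact hk))
    have e : XJ 1 (JR ℂ 1 r 0) (bs r 0 (Sum.inr (Sum.inl k))) (bs r 0 (jaE_pt (Sum.inr (Sum.inl k)))) =
        - XJ 1 (JR ℂ 1 r 0) (bs r 0 (Sum.inl k)) (bs r 0 (jaE_pt (Sum.inl k))) := jaE_swap _ _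
    rw [e] at h2
    have h3 := 𝒩.smul_mem (1 / 2 : ℂ) (𝒩.add_mem h1 h2)
    have e2 : ∀ A B : Matrix (Fin (r + (r + 0))) (Fin (r + (r + 0))) ℂ, (1 / 2 : ℂ) • (A + B + (A + -B)) = A := by
      intro A B
      have : A + B + (A + -B) = (2 : ℂ) • A := by
        rw [two_smul]
        abel
      rw [this, smul_smul]
      norm_num
    rwa [e2] at h3
  by_cases hab : jaE_blk a = jaE_blk b
  swap
  · exact hall a b hab
  have hself : ∀ c : Fin r ⊕ (Fin r ⊕ Fin 0), XJ 1 (JR ℂ 1 r 0) (bs r 0 c) (bs r 0 c) ∈ 𝒩 := by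
    intro c
    have : XJ 1 (JR ℂ 1 r 0) (bs r 0 c) (bs r 0 c) = 0 := by
      unfold XJ
      rw [one_smul, sub_self, Matrix.zero_mul]
    rw [this]
    exact 𝒩.zero_mem
  rcases a with i | i | z
  · rcases b with j | j | z
    · have h1 : i = j := hab
      rw [h1]
      exact hself _
    · have h1 : i = j := hab
      rw [← h1]
      exact hdiag (Sum.inl i)
    · exact z.elim0
  · rcases b with j | j | z
    · have h1 : i = j := hab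
      rw [← h1]
      exact hdiag (Sum.inr (Sum.inl i))
    · have h1 : i = j := hab
      rw [h1]
      exact hself _
    · exact z.elim0
  · exact z.elim0

end WCn
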