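import Pool.Agent.Lib.MP_c2b80f_alD.JsA
import Pool.Agent.Lib.MP_c2b80f_alD.JaD

/-!
# Type `B_r`: brackets with root elements generate everything (job JaF)
-/

open Matrix

namespace WCn

/-- The bracket of `X_{u,v}` (`u`, `v` isotropic and orthogonal) with `X_{w,z}`, expanded. -/
private theorem JaF_bracket {m : ℕ} {J : Matrix (Fin m) (Fin m) ℂ} (hJ : Jᵀ = J)
    (𝒩 : Submodule ℂ (Matrix (Fin m) (Fin m) ℂ))
    (hst : ∀ M ∈ lieJ J, M * M = 0 → ∀ Y ∈ 𝒩, M * Y - Y * M ∈ 𝒩) {u v w z : Fin m → ℂ}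
    (huu : bil J u u = 0) (hvv : bil J v v = 0) (huv : bil J u v = 0) (hY : XJ 1 J w z ∈ 𝒩) :
    (bil J v w) • XJ 1 J u z - (bil J u w) • XJ 1 J v z +
      ((bil J v z) • XJ 1 J w u - (bil J u z) • XJ 1 J w v) ∈ 𝒩 := by
  obtain ⟨hM, hM2, -⟩ := orth_root hJ u v huu hvv huv
  have h := hst _ hM hM2 _ hY
  rw [XJ_bracket hM, XJ_mulVec, XJ_mulVec, sub_eq_add_neg, sub_eq_add_neg, ← neg_smul, ← neg_smul,
    XJ_add_left, XJ_add_right, XJ_smul_left, XJ_smul_left, XJ_smul_right, XJ_smul_right, one_mul,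
    one_mul, neg_smul, neg_smul, ← sub_eq_add_neg, ← sub_eq_add_neg] at h
  exact h

/-- Step (a) of the proof. -/
private theorem JaF_a {m r : ℕ} {J : Matrix (Fin m) (Fin m) ℂ} (hJ : Jᵀ = J)
    (𝒩 : Submodule ℂ (Matrix (Fin m) (Fin m) ℂ))
    (hst : ∀ M ∈ lieJ J, M * M = 0 → ∀ Y ∈ 𝒩, M * Y - Y * M ∈ 𝒩)
    (g : Fin r → Bool → (Fin m → ℂ)) (c : Fin m → ℂ)
    (hgg : ∀ i j s t, bil J (g i s) (g j t) = if i = j ∧ s ≠ t then 1 else 0)
    (hgc : ∀ i s, bil J (g i s) c = 0) (hcg : ∀ i s, bil J c (g i s) = 0) (hcc : bil J c c = 1)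
    (i j : Fin r) (hij : i ≠ j) (s t : Bool) (h : XJ 1 J (g i s) (g j t) ∈ 𝒩) :
    XJ 1 J c (g j t) ∈ 𝒩 := by
  have hji : j ≠ i := hij.symm
  have key : ∀ σ : ℂ, σ * σ = 1 →
      (bil J (g j false + (-1 / 2 : ℂ) • g j true) (g j t)) • XJ 1 J (g i s) (g i (!s)) -
        (σ • XJ 1 J c (g j t) + XJ 1 J (g j false + (-1 / 2 : ℂ) • g j true) (g j t)) ∈ 𝒩 := by
    intro σ hσ
    have h1 := JaF_bracket hJ 𝒩 hst (u := g i (!s)) (v := σ • c + (g j false + (-1 / 2 : ℂ) • g j true))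
      (by rw [hgg]; simp)
      (by
        simp only [bil_add_left, bil_add_right, bil_smul_left, bil_smul_right, hgg, hgc, hcg, hcc]
        simp
        linear_combination hσ)
      (by
        simp only [bil_add_left, bil_add_right, bil_smul_left, bil_smul_right, hgg, hgc, hcg, hcc]
        simp [hij, hji])
      h
    have e1 : bil J (σ • c + (g j false + (-1 / 2 : ℂ) • g j true)) (g i s) = 0 := by
      simp only [bil_add_left, bil_add_right, bil_smul_left, bil_smul_right, hgg, hgc, hcg, hcc]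
      simp [hij, hji]
    have e2 : bil J (g i (!s)) (g i s) = 1 := by
      rw [hgg]; simp
    have e3 : bil J (σ • c + (g j false + (-1 / 2 : ℂ) • g j true)) (g j t) =
        bil J (g j false + (-1 / 2 : ℂ) • g j true) (g j t) := by
      rw [bil_add_left, bil_smul_left, hcg]; ring
    have e4 : bil J (g i (!s)) (g j t) = 0 := by
      rw [hgg]; simp [hij]
    rw [e1, e2, e3, e4, zero_smul, one_smul, zero_smul, XJ_add_left, XJ_smul_left] at h1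
    have e5 : (bil J (g j false + (-1 / 2 : ℂ) • g j true) (g j t)) • XJ 1 J (g i s) (g i (!s)) -
        (σ • XJ 1 J c (g j t) + XJ 1 J (g j false + (-1 / 2 : ℂ) • g j true) (g j t)) =
        0 - (σ • XJ 1 J c (g j t) + XJ 1 J (g j false + (-1 / 2 : ℂ) • g j true) (g j t)) +
        (bil J (g j false + (-1 / 2 : ℂ) • g j true) (g j t) • XJ 1 J (g i s) (g i !s) - 0) := by
      abel
    rw [e5]
    exact h1
  have h1 := key 1 (by norm_num)
  have h2 := key (-1) (by norm_num)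
  have h3 := 𝒩.smul_mem (1 / 2 : ℂ) (𝒩.sub_mem h2 h1)
  have e : XJ 1 J c (g j t) = (1 / 2 : ℂ) • ((bil J (g j false + (-1 / 2 : ℂ) • g j true) (g j t)) • XJ 1 J (g i s) (g i (!s)) -
        ((-1 : ℂ) • XJ 1 J c (g j t) + XJ 1 J (g j false + (-1 / 2 : ℂ) • g j true) (g j t)) -
        ((bil J (g j false + (-1 / 2 : ℂ) • g j true) (g j t)) • XJ 1 J (g i s) (g i (!s)) -
        ((1 : ℂ) • XJ 1 J c (g j t) + XJ 1 J (g j false + (-1 / 2 : ℂ) • g j true) (g j t)))) := by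
    module
  rw [e]
  exact h3

/-- Step (b) of the proof. -/
private theorem JaF_b {m r : ℕ} {J : Matrix (Fin m) (Fin m) ℂ} (hJ : Jᵀ = J)
    (𝒩 : Submodule ℂ (Matrix (Fin m) (Fin m) ℂ))
    (hst : ∀ M ∈ lieJ J, M * M = 0 → ∀ Y ∈ 𝒩, M * Y - Y * M ∈ 𝒩)
    (g : Fin r → Bool → (Fin m → ℂ)) (c : Fin m → ℂ)
    (hgg : ∀ i j s t, bil J (g i s) (g j t) = if i = j ∧ s ≠ t then 1 else 0)
    (hgc : ∀ i s, bil J (g i s) c = 0) (hcg : ∀ i s, bil J c (g i s) = 0) (hcc : bil J c c = 1)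
    (i j : Fin r) (hij : i ≠ j) (s t : Bool) (h : XJ 1 J c (g j t) ∈ 𝒩) :
    XJ 1 J c (g i s) ∈ 𝒩 ∧ XJ 1 J (g i s) (g j t) ∈ 𝒩 := by
  have hji : j ≠ i := hij.symm
  have key : ∀ σ : ℂ, σ * σ = 1 →
      σ • XJ 1 J (g i s) (g j t) +
        (bil J (g j false + (-1 / 2 : ℂ) • g j true) (g j t)) • XJ 1 J c (g i s) ∈ 𝒩 := by
    intro σ hσ
    have h1 := JaF_bracket hJ 𝒩 hst (u := g i s) (v := σ • c + (g j false + (-1 / 2 : ℂ) • g j true))
      (by rw [hgg]; simp)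
      (by
        simp only [bil_add_left, bil_add_right, bil_smul_left, bil_smul_right, hgg, hgc, hcg, hcc]
        simp
        linear_combination hσ)
      (by
        simp only [bil_add_left, bil_add_right, bil_smul_left, bil_smul_right, hgg, hgc, hcg, hcc]
        simp [hij, hji])
      h
    have e1 : bil J (σ • c + (g j false + (-1 / 2 : ℂ) • g j true)) c = σ := by
      simp only [bil_add_left, bil_add_right, bil_smul_left, bil_smul_right, hgg, hgc, hcg, hcc]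
      ring
    have e3 : bil J (σ • c + (g j false + (-1 / 2 : ℂ) • g j true)) (g j t) =
        bil J (g j false + (-1 / 2 : ℂ) • g j true) (g j t) := by
      rw [bil_add_left, bil_smul_left, hcg]; ring
    have e4 : bil J (g i s) (g j t) = 0 := by
      rw [hgg]; simp [hij]
    rw [e1, hgc, e3, e4, zero_smul, zero_smul, sub_zero, sub_zero] at h1
    exact h1
  have h1 := key 1 (by norm_num)
  have h2 := key (-1) (by norm_num)
  constructor
  · have hne : bil J (g j false + (-1 / 2 : ℂ) • g j true) (g j t) ≠ 0 := by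
      simp only [bil_add_left, bil_add_right, bil_smul_left, bil_smul_right, hgg, hgc, hcg, hcc]
      cases t <;> norm_num
    have h3 := 𝒩.smul_mem (1 / 2 * (bil J (g j false + (-1 / 2 : ℂ) • g j true) (g j t))⁻¹)
      (𝒩.add_mem h1 h2)
    generalize hκ : bil J (g j false + (-1 / 2 : ℂ) • g j true) (g j t) = κ at h3 hne
    have e : XJ 1 J c (g i s) = (1 / 2 * κ⁻¹) •
        ((1 : ℂ) • XJ 1 J (g i s) (g j t) + κ • XJ 1 J c (g i s) +
          ((-1 : ℂ) • XJ 1 J (g i s) (g j t) + κ • XJ 1 J c (g i s))) := by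
      match_scalars
      · field_simp
        ring
      · ring
    rw [e]
    exact h3
  · have h3 := 𝒩.smul_mem (1 / 2 : ℂ) (𝒩.sub_mem h1 h2)
    generalize hκ : bil J (g j false + (-1 / 2 : ℂ) • g j true) (g j t) = κ at h3
    have e : XJ 1 J (g i s) (g j t) = (1 / 2 : ℂ) •
        ((1 : ℂ) • XJ 1 J (g i s) (g j t) + κ • XJ 1 J c (g i s) -
          ((-1 : ℂ) • XJ 1 J (g i s) (g j t) + κ • XJ 1 J c (g i s))) := by
      module
    rw [e]
    exact h3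

/-- The brackets generate everything: abstract version. -/
private theorem JaF_all {m r : ℕ} (hr : 2 ≤ r) {J : Matrix (Fin m) (Fin m) ℂ} (hJ : Jᵀ = J)
    (𝒩 : Submodule ℂ (Matrix (Fin m) (Fin m) ℂ))
    (hst : ∀ M ∈ lieJ J, M * M = 0 → ∀ Y ∈ 𝒩, M * Y - Y * M ∈ 𝒩)
    (g : Fin r → Bool → (Fin m → ℂ)) (c : Fin m → ℂ)
    (hgg : ∀ i j s t, bil J (g i s) (g j t) = if i = j ∧ s ≠ t then 1 else 0)
    (hgc : ∀ i s, bil J (g i s) c = 0) (hcg : ∀ i s, bil J c (g i s) = 0) (hcc : bil J c c = 1)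
    (h0 : XJ 1 J (g ⟨0, by omega⟩ false) (g ⟨1, by omega⟩ false) ∈ 𝒩) :
    (∀ i s, XJ 1 J c (g i s) ∈ 𝒩) ∧ ∀ i s j t, XJ 1 J (g i s) (g j t) ∈ 𝒩 := by
  have h01 : (⟨0, by omega⟩ : Fin r) ≠ ⟨1, by omega⟩ := by
    intro h
    have := congrArg Fin.val h
    simp at this
  have hc1 : XJ 1 J c (g ⟨1, by omega⟩ false) ∈ 𝒩 :=
    JaF_a hJ 𝒩 hst g c hgg hgc hcg hcc _ _ h01 _ _ h0
  have hc0 : XJ 1 J c (g ⟨0, by omega⟩ false) ∈ 𝒩 :=
    (JaF_b hJ 𝒩 hst g c hgg hgc hcg hcc _ _ h01 _ _ hc1).1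
  have hc : ∀ i s, XJ 1 J c (g i s) ∈ 𝒩 := by
    intro i s
    by_cases hi : i = ⟨1, by omega⟩
    · have hi0 : i ≠ ⟨0, by omega⟩ := by
        rw [hi]; exact h01.symm
      exact (JaF_b hJ 𝒩 hst g c hgg hgc hcg hcc i _ hi0 s _ hc0).1
    · exact (JaF_b hJ 𝒩 hst g c hgg hgc hcg hcc i _ hi s _ hc1).1
  have hd : ∀ i s j t, i ≠ j → XJ 1 J (g i s) (g j t) ∈ 𝒩 := fun i s j t hij =>
    (JaF_b hJ 𝒩 hst g c hgg hgc hcg hcc i j hij s t (hc j t)).2
  refine ⟨hc, fun i s j t => ?_⟩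
  by_cases hij : i = j
  swap
  · exact hd i s j t hij
  subst hij
  by_cases hst' : s = t
  · subst hst'
    have : XJ 1 J (g i s) (g i s) = 0 := by
      unfold XJ
      simp
    rw [this]
    exact 𝒩.zero_mem
  have ht : t = !s := by
    cases s <;> cases t <;> simp_all
  subst ht
  obtain ⟨j, hji⟩ : ∃ j : Fin r, j ≠ i := by
    by_cases hi : i = ⟨0, by omega⟩
    · exact ⟨⟨1, by omega⟩, by rw [hi]; exact h01.symm⟩
    · exact ⟨⟨0, by omega⟩, fun h => hi h.symm⟩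
  have hij : i ≠ j := hji.symm
  have key : ∀ σ : Bool, XJ 1 J (g i s) (g i (!s)) - XJ 1 J (g j (!σ)) (g j σ) ∈ 𝒩 := by
    intro σ
    have h1 := JaF_bracket hJ 𝒩 hst (u := g i s) (v := g j σ)
      (by rw [hgg]; simp) (by rw [hgg]; simp) (by rw [hgg]; simp [hij]) (hd j (!σ) i (!s) hji)
    have e1 : bil J (g j σ) (g j (!σ)) = 1 := by rw [hgg]; simp
    have e2 : bil J (g i s) (g j (!σ)) = 0 := by rw [hgg]; simp [hij]
    have e3 : bil J (g j σ) (g i (!s)) = 0 := by rw [hgg]; simp [hji]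
    have e4 : bil J (g i s) (g i (!s)) = 1 := by rw [hgg]; simp
    rw [e1, e2, e3, e4, zero_smul, zero_smul, one_smul, one_smul, sub_zero, zero_sub,
      ← sub_eq_add_neg] at h1
    exact h1
  have k1 := key false
  have k2 := key true
  have hsw : XJ 1 J (g j false) (g j true) = -XJ 1 J (g j true) (g j false) := by
    rw [XJ_swap (by norm_num) (g j true) (g j false)]
    simp
  simp only [Bool.not_false, Bool.not_true] at k1 k2
  have h3 := 𝒩.smul_mem (1 / 2 : ℂ) (𝒩.add_mem k1 k2)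
  have e : XJ 1 J (g i s) (g i (!s)) = (1 / 2 : ℂ) •
      (XJ 1 J (g i s) (g i (!s)) - XJ 1 J (g j true) (g j false) +
        (XJ 1 J (g i s) (g i (!s)) - XJ 1 J (g j false) (g j true))) := by
    rw [hsw]
    module
  rw [e]
  exact h3

/-- Notation as in `JaE`; there is one more basis vector `e₀ = b (inr (inr 0))`, `e₀ · e₀ = 1`, orthogonal to the others. Root elements: `M = X_{x,q}` where `x` is a basis vector of block `i` (`x = e_i` or `f_i`) and `q = s e₀ + e_j - (1/2) f_j`, `j ≠ i`, `s = ± 1` (`q · q = 1 - 1 = 0`, `x · q = 0`).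
By `XJ_mulVec` (`ε = 1`): `M w = (q · w) x - (x · w) q`.
(a) If `Y = X_{x',z} ∈ 𝒩` with `z` a basis vector of block `j`: `[M, Y] = X_{M x',z} + X_{x',M z} = - X_{q,z} + (q · z) X_{x',x}`; the difference for `s = 1` and `s = -1` is `-2 X_{e₀,z}`, so `X_{e₀,z} ∈ 𝒩`.
(b) If `X_{e₀,z} ∈ 𝒩`, `z` in block `j`: `[M, X_{e₀,z}] = s X_{x,z} + (q · z) X_{e₀,x}`; sum and difference for `s = ± 1` give `X_{x,z} ∈ 𝒩` and (as `q · z ≠ 0`) `X_{e₀,x} ∈ 𝒩`, for all `x` in all blocks `i ≠ j`.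
Start: `X_{e_0,e_1} ∈ 𝒩` (indices of `Fin r`) gives `X_{e₀,e_1} ∈ 𝒩` by (a) (`x' = e_0`), then by (b) `X_{e₀,x}` for all `x` in blocks `≠ 1`, then (from block `0`) for `x` in block `1`; so all `X_{e₀,x}` and all `X_{x,z}` in different blocks.
(c) `[X_{e_i,x}, X_{x',f_i}] = X_{e_i,f_i} + X_{x,x'}`, `x` in another block, as in `JaE` Step 2. -/
theorem all_of_root_B (r : ℕ) (hr : 2 ≤ r) (𝒩 : Submodule ℂ (Matrix (Fin (r + (r + 1))) (Fin (r + (r + 1))) ℂ))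
    (h0 : XJ 1 (JR ℂ 1 r 1) (bs r 1 (Sum.inl ⟨0, by omega⟩)) (bs r 1 (Sum.inl ⟨1, by omega⟩)) ∈ 𝒩)
    (hst : ∀ M ∈ lieJ (JR ℂ 1 r 1), M * M = 0 → ∀ Y ∈ 𝒩, M * Y - Y * M ∈ 𝒩) (a b : Fin r ⊕ (Fin r ⊕ Fin 1)) :
    XJ 1 (JR ℂ 1 r 1) (bs r 1 a) (bs r 1 b) ∈ 𝒩 := by
  have hJ1 : (JR ℂ 1 r 1)ᵀ = ((1 : ℤ) : ℂ) • JR ℂ 1 r 1 := JR_transpose ℂ 1 r 1 (Or.inl rfl)
  have hJ2 : (JR ℂ 1 r 1)ᵀ = (1 : ℂ) • JR ℂ 1 r 1 := by rw [hJ1, Int.cast_one]
  have hJ : (JR ℂ 1 r 1)ᵀ = JR ℂ 1 r 1 := by rw [hJ2, one_smul]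
  have hsymm : ∀ u v, bil (JR ℂ 1 r 1) u v = bil (JR ℂ 1 r 1) v u := by
    intro u v
    rw [bil_symm hJ2, one_mul]
  obtain ⟨g, hg⟩ : ∃ g : Fin r → Bool → (Fin (r + (r + 1)) → ℂ), g = fun i s =>
    match s with
    | false => bs r 1 (Sum.inl i)
    | true => bs r 1 (Sum.inr (Sum.inl i)) := ⟨_, rfl⟩
  have hgf : ∀ i, g i false = bs r 1 (Sum.inl i) := fun i => by rw [hg]
  have hgt : ∀ i, g i true = bs r 1 (Sum.inr (Sum.inl i)) := fun i => by rw [hg]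
  have hgg : ∀ i j s t, bil (JR ℂ 1 r 1) (g i s) (g j t) = if i = j ∧ s ≠ t then 1 else 0 := by
    intro i j s t
    cases s <;> cases t
    · rw [hgf, hgf, bil_ee]; simp
    · rw [hgf, hgt, bil_ef]; simp
    · rw [hgf, hgt, hsymm, bil_ef]; simp [eq_comm]
    · rw [hgt, hgt, bil_ff]; simp
  have hgc : ∀ i s, bil (JR ℂ 1 r 1) (g i s) (bs r 1 (Sum.inr (Sum.inr 0))) = 0 := by
    intro i s
    cases s
    · rw [hgf, bil_ez]
    · rw [hgt, bil_fz]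
  have hcg : ∀ i s, bil (JR ℂ 1 r 1) (bs r 1 (Sum.inr (Sum.inr 0))) (g i s) = 0 := by
    intro i s
    rw [hsymm, hgc]
  have hcc : bil (JR ℂ 1 r 1) (bs r 1 (Sum.inr (Sum.inr 0))) (bs r 1 (Sum.inr (Sum.inr 0))) = 1 := by
    rw [bil_zz]; simp
  obtain ⟨hA, hB⟩ := JaF_all hr hJ 𝒩 hst g _ hgg hgc hcg hcc (by rw [hgf, hgf]; exact h0)
  have hsw : ∀ u v, XJ 1 (JR ℂ 1 r 1) u v ∈ 𝒩 → XJ 1 (JR ℂ 1 r 1) v u ∈ 𝒩 := by
    intro u v h
    rw [XJ_swap (by norm_num) u v]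
    exact 𝒩.smul_mem _ h
  have hall : ∀ a : Fin r ⊕ (Fin r ⊕ Fin 1), (∃ i s, bs r 1 a = g i s) ∨
      bs r 1 a = bs r 1 (Sum.inr (Sum.inr 0)) := by
    rintro (i | i | i)
    · exact Or.inl ⟨i, false, (hgf i).symm⟩
    · exact Or.inl ⟨i, true, (hgt i).symm⟩
    · right
      rw [Subsingleton.elim i 0]
  rcases hall a with ⟨i, s, ha⟩ | ha <;> rcases hall b with ⟨j, t, hb⟩ | hb
  · rw [ha, hb]
    exact hB i s j t
  · rw [ha, hb]
    exact hsw _ _ (hA i s)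
  · rw [ha, hb]
    exact hA j t
  · rw [ha, hb]
    have : XJ 1 (JR ℂ 1 r 1) (bs r 1 (Sum.inr (Sum.inr 0))) (bs r 1 (Sum.inr (Sum.inr 0))) = 0 := by
      unfold XJ
      simp
    rw [this]
    exact 𝒩.zero_mem

end WCn
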