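import Pool.Agent.Lib.MP_c2b80f_alD.JaC
import Pool.Agent.Lib.MP_c2b80f_alD.JaE
import Pool.Agent.Lib.MP_c2b80f_alD.JaF
import Pool.Agent.Lib.MP_c2b80f_alD.LvDefs

/-!
# Conjugations span the operators of rank one, types `B`, `C`, `D` (job JaG)
-/

open Matrix

namespace WCn

private theorem JaG_mem {ε : ℤ} {r δ : ℕ} {X : Matrix (Fin (r + (r + δ))) (Fin (r + (r + δ))) ℤ} (hX : X ∈ SJ ε r δ) :
    ∃ a b : Fin r ⊕ (Fin r ⊕ Fin δ), toC X = XJ (ε : ℂ) (JR ℂ ε r δ) (bs r δ a) (bs r δ b) := by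
  unfold SJ at hX
  rw [Finset.mem_image] at hX
  obtain ⟨⟨i, j⟩, _, rfl⟩ := hX
  refine ⟨(eJ r δ).symm i, (eJ r δ).symm j, ?_⟩
  unfold toC bs
  rw [Equiv.apply_symm_apply, Equiv.apply_symm_apply]
  exact SJ_complex ε r δ i j

/-- Orthogonal case: from the generation of everything by brackets. -/
private theorem JaG_orth {r δ : ℕ} (i j : Fin r)
    (hall : ∀ 𝒩 : Submodule ℂ (Matrix (Fin (r + (r + δ))) (Fin (r + (r + δ))) ℂ),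
      XJ 1 (JR ℂ 1 r δ) (bs r δ (Sum.inl i)) (bs r δ (Sum.inl j)) ∈ 𝒩 →
      (∀ M ∈ lieJ (JR ℂ 1 r δ), M * M = 0 → ∀ Y ∈ 𝒩, M * Y - Y * M ∈ 𝒩) →
      ∀ a b : Fin r ⊕ (Fin r ⊕ Fin δ), XJ 1 (JR ℂ 1 r δ) (bs r δ a) (bs r δ b) ∈ 𝒩)
    (a b a' b' : Fin r ⊕ (Fin r ⊕ Fin δ)) :
    ∃ T ∈ AdS (GJ (JR ℂ 1 r δ) : Set (SLC (r + (r + δ)))), ∀ Y ∈ lieJ (JR ℂ 1 r δ),
      T Y = (XJ 1 (JR ℂ 1 r δ) (bs r δ a') (bs r δ b') * Y).trace • XJ 1 (JR ℂ 1 r δ) (bs r δ a) (bs r δ b) := by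
  have hJ : (JR ℂ 1 r δ)ᵀ = JR ℂ 1 r δ := by
    have h1 := JR_transpose ℂ 1 r δ (Or.inl rfl)
    rwa [Int.cast_one, one_smul] at h1
  obtain ⟨hN, hN2, hroot⟩ := orth_root hJ (bs r δ (Sum.inl i)) (bs r δ (Sum.inl j)) (bil_ee 1 r δ i i) (bil_ee 1 r δ j j)
    (bil_ee 1 r δ i j)
  have hmem : ∀ a b : Fin r ⊕ (Fin r ⊕ Fin δ), XJ 1 (JR ℂ 1 r δ) (bs r δ a) (bs r δ b) ∈
      NJ (JR ℂ 1 r δ) (XJ 1 (JR ℂ 1 r δ) (bs r δ (Sum.inl i)) (bs r δ (Sum.inl j))) := by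
    refine hall _ (Submodule.subset_span ⟨1, one_mem _, ?_⟩) fun M hM hM2 Y hY => NJ_bracket hM hM2 hY
    rw [inv_one, Matrix.SpecialLinearGroup.coe_one, Matrix.one_mul, Matrix.mul_one]
  exact op_of_root hN hN2 (κ := 1 / 2) (by norm_num) hroot _ _ (hmem a b) (hmem a' b')

/-- Types `B`, `D`: `N = X_{e_0,e_1}` (`orth_root`, `NJ_bracket`, `all_of_root_D`, `all_of_root_B` for `𝒩 = NJ J N`, `op_of_root`); type `C`: `op_symp`. By `SJ_complex` the elements of `SJ` become `X_{e_i,e_j}`, and `Pi.single i 1 = bs r δ ((eJ r δ).symm i)`. -/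
theorem op_J {ε : ℤ} {r δ : ℕ} (h : OkTy ε r δ) (X Z : Matrix (Fin (r + (r + δ))) (Fin (r + (r + δ))) ℤ) (hX : X ∈ SJ ε r δ) (hZ : Z ∈ SJ ε r δ) :
    ∃ T ∈ AdS (GJ (JR ℂ ε r δ) : Set (SLC (r + (r + δ)))), ∀ Y ∈ lieJ (JR ℂ ε r δ), T Y = (toC Z * Y).trace • toC X := by
  obtain ⟨a, b, hXab⟩ := JaG_mem hX
  obtain ⟨a', b', hZab⟩ := JaG_mem hZ
  rw [hXab, hZab]
  rcases h with ⟨rfl, rfl, hr⟩ | ⟨rfl, rfl, hr⟩ | ⟨rfl, rfl, hr⟩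
  · have hJ : (JR ℂ (-1) r 0)ᵀ = -JR ℂ (-1) r 0 := by
      have h1 := JR_transpose ℂ (-1) r 0 (Or.inr ⟨rfl, rfl⟩)
      rw [h1]
      simp
    have hdet : (JR ℂ (-1) r 0).det ≠ 0 := by
      obtain ⟨J', h1, _⟩ := JR_inv ℂ (-1) r 0 (Or.inr rfl)
      intro h0
      have h2 := congrArg Matrix.det h1
      rw [Matrix.det_mul, h0, zero_mul, Matrix.det_one] at h2
      exact zero_ne_one h2
    have hc : ((-1 : ℤ) : ℂ) = -1 := by norm_num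
    rw [hc]
    exact op_symp hJ hdet _ _ _ _
  · rw [Int.cast_one]
    exact JaG_orth _ _ (fun 𝒩 h0 hst => all_of_root_B r hr 𝒩 h0 hst) a b a' b'
  · rw [Int.cast_one]
    exact JaG_orth _ _ (fun 𝒩 h0 hst => all_of_root_D r hr 𝒩 h0 hst) a b a' b'

end WCn
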