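import Pool.Agent.Lib.MP_c2b80f_alD.JaA

/-!
# The standard forms (job JsA)
-/

open Matrix

namespace WCn

/-- The entries of `JI` are those of `JS`. -/
theorem JI_apply (ε : ℤ) (r δ : ℕ) (a b : Fin r ⊕ (Fin r ⊕ Fin δ)) : JI ε r δ (eJ r δ a) (eJ r δ b) = JS ε r δ a b := by
  simp [JI]

private theorem JsA_transpose (ε : ℤ) (r δ : ℕ) (h : ε = 1 ∨ (ε = -1 ∧ δ = 0)) : (JS ε r δ)ᵀ = ε • JS ε r δ := by
  ext x y
  rcases h with rfl | ⟨rfl, rfl⟩
  · rcases x with i | i | i <;> rcases y with j | j | j <;> simp [JS, Matrix.one_apply, eq_comm]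
  · rcases x with i | i | i <;> rcases y with j | j | j <;>
      first | exact i.elim0 | exact j.elim0 | (simp [JS, Matrix.one_apply, eq_comm]; try (split_ifs <;> simp))

theorem JI_transpose (ε : ℤ) (r δ : ℕ) (h : ε = 1 ∨ (ε = -1 ∧ δ = 0)) : (JI ε r δ)ᵀ = ε • JI ε r δ := by
  rw [JI, Matrix.reindex_apply, Matrix.transpose_submatrix, JsA_transpose ε r δ h]
  rfl

theorem JR_transpose (R : Type*) [CommRing R] (ε : ℤ) (r δ : ℕ) (h : ε = 1 ∨ (ε = -1 ∧ δ = 0)) :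
    (JR R ε r δ)ᵀ = (ε : R) • JR R ε r δ := by
  rw [JR, ← Matrix.transpose_map, JI_transpose ε r δ h]
  ext i j
  rw [Matrix.map_apply, Matrix.smul_apply, Matrix.smul_apply, Matrix.map_apply, smul_eq_mul, smul_eq_mul, map_mul]
  rfl

private theorem JsA_mul (ε : ℤ) (r δ : ℕ) (h : ε = 1 ∨ ε = -1) :
    JS ε r δ * (JS ε r δ)ᵀ = 1 ∧ (JS ε r δ)ᵀ * JS ε r δ = 1 := by
  rcases h with rfl | rfl
  · constructor
    · ext x y
      rcases x with i | i | i <;> rcases y with j | j | j <;>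
        simp [JS, Matrix.mul_apply, Matrix.one_apply, Fintype.sum_sum_type, eq_comm]
    · ext x y
      rcases x with i | i | i <;> rcases y with j | j | j <;>
        simp [JS, Matrix.mul_apply, Matrix.one_apply, Fintype.sum_sum_type, eq_comm]
  · constructor
    · ext x y
      rcases x with i | i | i <;> rcases y with j | j | j <;>
        simp [JS, Matrix.mul_apply, Matrix.one_apply, Fintype.sum_sum_type, eq_comm]
    · ext x y
      rcases x with i | i | i <;> rcases y with j | j | j <;>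
        simp [JS, Matrix.mul_apply, Matrix.one_apply, Fintype.sum_sum_type, eq_comm]

/-- `J² = diag(ε, ε, 1)`, so `J` is invertible over the integers. -/
theorem JI_inv (ε : ℤ) (r δ : ℕ) (h : ε = 1 ∨ ε = -1) : ∃ J' : Matrix (Fin (r + (r + δ))) (Fin (r + (r + δ))) ℤ,
    JI ε r δ * J' = 1 ∧ J' * JI ε r δ = 1 := by
  obtain ⟨h1, h2⟩ := JsA_mul ε r δ h
  refine ⟨Matrix.reindex (eJ r δ) (eJ r δ) (JS ε r δ)ᵀ, ?_, ?_⟩
  · rw [JI, Matrix.reindex_apply, Matrix.reindex_apply, Matrix.submatrix_mul_equiv, h1, Matrix.submatrix_one_equiv]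
  · rw [JI, Matrix.reindex_apply, Matrix.reindex_apply, Matrix.submatrix_mul_equiv, h2, Matrix.submatrix_one_equiv]

theorem JR_inv (R : Type*) [CommRing R] (ε : ℤ) (r δ : ℕ) (h : ε = 1 ∨ ε = -1) :
    ∃ J' : Matrix (Fin (r + (r + δ))) (Fin (r + (r + δ))) R, JR R ε r δ * J' = 1 ∧ J' * JR R ε r δ = 1 := by
  obtain ⟨J', h1, h2⟩ := JI_inv ε r δ h
  refine ⟨J'.map (Int.castRingHom R), ?_, ?_⟩
  · rw [JR, ← Matrix.map_mul, h1, Matrix.map_one _ (map_zero _) (map_one _)]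
  · rw [JR, ← Matrix.map_mul, h2, Matrix.map_one _ (map_zero _) (map_one _)]

/-- The form on the basis vectors. -/
theorem bil_bs (ε : ℤ) (r δ : ℕ) (a b : Fin r ⊕ (Fin r ⊕ Fin δ)) :
    bil (JR ℂ ε r δ) (bs r δ a) (bs r δ b) = ((JS ε r δ a b : ℤ) : ℂ) := by
  rw [← JI_apply]
  simp [bil, bs, JR]

theorem bil_ef (ε : ℤ) (r δ : ℕ) (i j : Fin r) :
    bil (JR ℂ ε r δ) (bs r δ (Sum.inl i)) (bs r δ (Sum.inr (Sum.inl j))) = if i = j then 1 else 0 := by
  rw [bil_bs]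
  simp [JS, Matrix.one_apply]

theorem bil_ee (ε : ℤ) (r δ : ℕ) (i j : Fin r) :
    bil (JR ℂ ε r δ) (bs r δ (Sum.inl i)) (bs r δ (Sum.inl j)) = 0 := by
  rw [bil_bs]
  simp [JS]

theorem bil_ff (ε : ℤ) (r δ : ℕ) (i j : Fin r) :
    bil (JR ℂ ε r δ) (bs r δ (Sum.inr (Sum.inl i))) (bs r δ (Sum.inr (Sum.inl j))) = 0 := by
  rw [bil_bs]
  simp [JS]

theorem bil_zz (ε : ℤ) (r δ : ℕ) (i j : Fin δ) :
    bil (JR ℂ ε r δ) (bs r δ (Sum.inr (Sum.inr i))) (bs r δ (Sum.inr (Sum.inr j))) = if i = j then 1 else 0 := by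
  rw [bil_bs]
  simp [JS, Matrix.one_apply]

theorem bil_ez (ε : ℤ) (r δ : ℕ) (i : Fin r) (j : Fin δ) :
    bil (JR ℂ ε r δ) (bs r δ (Sum.inl i)) (bs r δ (Sum.inr (Sum.inr j))) = 0 := by
  rw [bil_bs]
  simp [JS]

theorem bil_fz (ε : ℤ) (r δ : ℕ) (i : Fin r) (j : Fin δ) :
    bil (JR ℂ ε r δ) (bs r δ (Sum.inr (Sum.inl i))) (bs r δ (Sum.inr (Sum.inr j))) = 0 := by
  rw [bil_bs]
  simp [JS]

/-- The reduction of the elements of `SJ` to `ℂ`: `(E_ij - ε E_ji) J = X_{e_i, e_j}`. -/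
theorem SJ_complex (ε : ℤ) (r δ : ℕ) (i j : Fin (r + (r + δ))) :
    ((Matrix.single i j 1 - ε • Matrix.single j i 1) * JI ε r δ).map (Int.castRingHom ℂ) =
      XJ (ε : ℂ) (JR ℂ ε r δ) (Pi.single i 1) (Pi.single j 1) := by
  rw [Matrix.map_mul, XJ, JR]
  congr 1
  ext a b
  simp only [Matrix.map_apply, Matrix.sub_apply, Matrix.smul_apply, Matrix.single_apply, Matrix.vecMulVec_apply,
    Pi.single_apply]
  have e1 : ∀ (x y : Fin (r + (r + δ))), (if x = y then (1 : ℂ) else 0) = if y = x then 1 else 0 := by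
    intro x y
    by_cases h : x = y
    · rw [if_pos h, if_pos h.symm]
    · rw [if_neg h, if_neg fun h' => h h'.symm]
  rw [e1 a i, e1 b j, e1 a j, e1 b i]
  by_cases h1 : i = a <;> by_cases h2 : j = b <;> by_cases h3 : j = a <;> by_cases h4 : i = b <;>
    simp [h1, h2, h3, h4] <;> by_cases h5 : a = b <;> simp [h5]

end WCn
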