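import Pool.Agent.Lib.MP_c2b80f_alD.LvAd

/-!
# A finite set of coefficients (job LvR)
-/

open Matrix

namespace WCn

variable {m : ℕ}

/-- `T ∈ AdS G = AdS Γ` is a finite sum `∑ c g • Ad g`, `g ∈ Γ`; put the coefficients for all (finitely many) pairs `X Z` into `A₁`. Compare `exists_op_sum`, `exists_ring` in `MP_c2b80f_alC/GenR.lean`. -/
theorem exists_ringG {G Γ : Subgroup (SLC m)} (hz : ZDenseIn G Γ) (𝒮 : Finset (Matrix (Fin m) (Fin m) ℤ))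
    (hop : ∀ X ∈ 𝒮, ∀ Z ∈ 𝒮, ∃ T ∈ AdS (G : Set (SLC m)), ∀ Y ∈ 𝒮, T (toC Y) = (toC Z * toC Y).trace • toC X) (A₀ : Finset ℂ) :
    ∃ A₁ : Finset ℂ, A₀ ⊆ A₁ ∧ ∀ X ∈ 𝒮, ∀ Z ∈ 𝒮, ∃ (s : Finset (SLC m)) (c : SLC m → ℂ), (∀ g ∈ s, g ∈ Γ ∧ c g ∈ A₁) ∧
      ∀ Y ∈ 𝒮, ∑ g ∈ s, c g • (g.1 * toC Y * (g⁻¹).1) = (toC Z * toC Y).trace • toC X := by
  classical
  have hex : ∀ p : Matrix (Fin m) (Fin m) ℤ × Matrix (Fin m) (Fin m) ℤ,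
      ∃ q : Finset (SLC m) × (SLC m → ℂ), p.1 ∈ 𝒮 → p.2 ∈ 𝒮 → (∀ g ∈ q.1, g ∈ Γ) ∧
      ∀ Y ∈ 𝒮, ∑ g ∈ q.1, q.2 g • (g.1 * toC Y * (g⁻¹).1) = (toC p.2 * toC Y).trace • toC p.1 := by
    intro p
    by_cases h1 : p.1 ∈ 𝒮
    · by_cases h2 : p.2 ∈ 𝒮
      · obtain ⟨T, hT, h3⟩ := hop p.1 h1 p.2 h2
        rw [← AdS_of_zDenseIn hz] at hT
        unfold AdS at hT
        rw [Finsupp.mem_span_image_iff_linearCombination] at hT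
        obtain ⟨l, hl, hsum⟩ := hT
        refine ⟨(l.support, l), fun _ _ => ⟨fun g hg => (Finsupp.mem_supported ℂ l).1 hl hg, fun Y hY => ?_⟩⟩
        have h4 := congrArg (fun T : Matrix (Fin m) (Fin m) ℂ →ₗ[ℂ] Matrix (Fin m) (Fin m) ℂ => T (toC Y)) hsum
        simp only [Finsupp.linearCombination_apply, Finsupp.sum, LinearMap.sum_apply, LinearMap.smul_apply] at h4
        rw [h3 Y hY] at h4
        exact h4
      · exact ⟨(∅, 0), fun _ h => absurd h h2⟩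
    · exact ⟨(∅, 0), fun h => absurd h h1⟩
  choose q hq using hex
  refine ⟨A₀ ∪ (𝒮 ×ˢ 𝒮).biUnion (fun p => (q p).1.image (q p).2), Finset.subset_union_left, ?_⟩
  intro X hX Z hZ
  obtain ⟨h1, h2⟩ := hq (X, Z) hX hZ
  refine ⟨(q (X, Z)).1, (q (X, Z)).2, ?_, h2⟩
  intro g hg
  refine ⟨h1 g hg, ?_⟩
  apply Finset.mem_union_right
  rw [Finset.mem_biUnion]
  exact ⟨(X, Z), Finset.mem_product.2 ⟨hX, hZ⟩, Finset.mem_image_of_mem _ hg⟩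

end WCn
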