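import Pool.Agent.Lib.MP_c2b80f_alD.PaDefs

/-!
# Palindromic polynomials: first properties (job PaA)
-/

open Polynomial

namespace WCn

variable {R : Type*} [CommRing R]

theorem pal_map {S : Type*} [CommRing S] (f : R →+* S) (r : ℕ) (c : R[X]) : (pal r c).map f = pal r (c.map f) := by
  unfold pal
  rw [Polynomial.map_sum]
  refine Finset.sum_congr rfl fun i _ => ?_
  simp

/-- Multiply out; `(c d)_k = ∑_{i + j = k} c_i d_j`, and `i ≤ a`, `j ≤ b` for the nonzero terms. -/
theorem pal_mul {a b : ℕ} {c d : R[X]} (hc : c.natDegree ≤ a) (hd : d.natDegree ≤ b) : pal (a + b) (c * d) = pal a c * pal b d := by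
  classical
  unfold pal
  rw [Finset.sum_mul_sum, ← Finset.sum_product']
  rw [← Finset.sum_fiberwise_of_maps_to (s := Finset.range (a + 1) ×ˢ Finset.range (b + 1))
    (t := Finset.range (a + b + 1)) (g := fun x => x.1 + x.2)]
  · refine Finset.sum_congr rfl fun k hk => ?_
    have h1 : (c * d).coeff k = ∑ x ∈ (Finset.range (a + 1) ×ˢ Finset.range (b + 1)).filter (fun x => x.1 + x.2 = k),
        c.coeff x.1 * d.coeff x.2 := by
      rw [coeff_mul]
      symm
      apply Finset.sum_subset
      · intro x hx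
        rw [Finset.HasAntidiagonal.mem_antidiagonal]
        exact (Finset.mem_filter.1 hx).2
      · intro x hx hx'
        rw [Finset.HasAntidiagonal.mem_antidiagonal] at hx
        by_cases h2 : x.1 ≤ a
        · by_cases h3 : x.2 ≤ b
          · exact absurd (Finset.mem_filter.2 ⟨Finset.mem_product.2 ⟨Finset.mem_range.2 (by omega),
              Finset.mem_range.2 (by omega)⟩, hx⟩) hx'
          · rw [coeff_eq_zero_of_natDegree_lt (by omega : d.natDegree < x.2), mul_zero]
        · rw [coeff_eq_zero_of_natDegree_lt (by omega : c.natDegree < x.1), zero_mul]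
    rw [h1, map_sum, Finset.sum_mul, Finset.sum_mul]
    refine Finset.sum_congr rfl fun x hx => ?_
    obtain ⟨hx1, hx2⟩ := Finset.mem_filter.1 hx
    obtain ⟨hx3, hx4⟩ := Finset.mem_product.1 hx1
    rw [Finset.mem_range] at hx3 hx4
    have h4 : a + b - k = (a - x.1) + (b - x.2) := by omega
    rw [h4, ← hx2, C_mul, pow_add, pow_add]
    ring
  · intro x hx
    obtain ⟨hx3, hx4⟩ := Finset.mem_product.1 hx
    rw [Finset.mem_range] at hx3 hx4 ⊢
    omega

theorem pal_linear (t : R) : pal 1 (X - C t) = X ^ 2 - C t * X + 1 := by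
  simp only [pal, Finset.sum_range_succ, Finset.range_zero, Finset.sum_empty, coeff_sub, coeff_X_zero, coeff_C_zero,
    coeff_X_one, Nat.reduceAdd, Nat.sub_self, pow_zero, zero_add, Nat.sub_zero, pow_one, zero_sub, C_neg]
  have h : (C t : R[X]).coeff 1 = 0 := coeff_C_of_ne_zero one_ne_zero
  rw [h, sub_zero, C_1]
  ring

/-- Induction on `r` with `pal_mul`, `pal_linear`. -/
theorem pal_prod {r : ℕ} (t : Fin r → R) : pal r (∏ i, (X - C (t i))) = ∏ i, (X ^ 2 - C (t i) * X + 1) := by
  induction r with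
  | zero => simp [pal]
  | succ r ih =>
    rw [Fin.prod_univ_castSucc, Fin.prod_univ_castSucc, pal_mul, ih, pal_linear]
    · refine (natDegree_prod_le _ _).trans ?_
      refine (Finset.sum_le_card_nsmul _ _ 1 fun i _ => natDegree_X_sub_C_le _).trans ?_
      simp
    · exact natDegree_X_sub_C_le _

private theorem paA_coeff {r k : ℕ} {c : R[X]} (hc : c.natDegree ≤ k) (hk : k ≤ r) : (pal r c).coeff (r + k) = c.coeff k := by
  unfold pal
  rw [finsetSum_coeff, Finset.sum_eq_single k]
  · rw [mul_assoc, coeff_C_mul]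
    have h1 : ((X : R[X]) ^ (r - k) * (X ^ 2 + 1) ^ k).coeff (r + k) = 1 := by
      have h2 : r + k = 2 * k + (r - k) := by omega
      rw [h2, mul_comm, coeff_mul_X_pow]
      have h3 : (X ^ 2 + 1 : R[X]) ^ k = expand R 2 ((X + 1) ^ k) := by simp
      rw [h3, mul_comm 2 k, coeff_expand_mul (by norm_num), coeff_X_add_one_pow, Nat.choose_self, Nat.cast_one]
    rw [h1, mul_one]
  · intro i hi hik
    rw [Finset.mem_range] at hi
    rcases Nat.lt_or_gt_of_ne hik with h | h
    · refine coeff_eq_zero_of_natDegree_lt (lt_of_le_of_lt natDegree_mul_le ?_)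
      have h1 : (C (c.coeff i) * X ^ (r - i)).natDegree ≤ r - i := natDegree_C_mul_X_pow_le _ _
      have h2 : ((X ^ 2 + 1 : R[X]) ^ i).natDegree ≤ i * 2 := by
        refine natDegree_pow_le.trans (Nat.mul_le_mul_left _ ?_)
        compute_degree
      omega
    · rw [coeff_eq_zero_of_natDegree_lt (lt_of_le_of_lt hc h), C_0, zero_mul, zero_mul, coeff_zero]
  · intro h
    exact absurd (Finset.mem_range.2 (by omega)) h

private theorem paA_natDegree {r : ℕ} {c : R[X]} : (pal r c).natDegree ≤ 2 * r := by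
  unfold pal
  refine natDegree_sum_le_of_forall_le _ _ fun i hi => ?_
  rw [Finset.mem_range] at hi
  refine natDegree_mul_le.trans ?_
  have h1 : (C (c.coeff i) * X ^ (r - i)).natDegree ≤ r - i := natDegree_C_mul_X_pow_le _ _
  have h2 : ((X ^ 2 + 1 : R[X]) ^ i).natDegree ≤ i * 2 := by
    refine natDegree_pow_le.trans (Nat.mul_le_mul_left _ ?_)
    compute_degree
  omega

private theorem paA_sub (r : ℕ) (c d : R[X]) : pal r (c - d) = pal r c - pal r d := by
  unfold pal
  rw [← Finset.sum_sub_distrib]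
  refine Finset.sum_congr rfl fun i _ => ?_
  rw [coeff_sub, map_sub]
  ring

/-- The terms `X ^ (r - i) (X ^ 2 + 1) ^ i` have the different degrees `r + i` and leading coefficients one. -/
theorem pal_inj {r : ℕ} {c d : R[X]} (hc : c.natDegree ≤ r) (hd : d.natDegree ≤ r) (h : pal r c = pal r d) : c = d := by
  have h1 : pal r (c - d) = 0 := by rw [paA_sub, h, sub_self]
  have h2 : (c - d).natDegree ≤ r := (natDegree_sub_le c d).trans (max_le hc hd)
  have h3 := paA_coeff (le_refl (c - d).natDegree) h2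
  rw [h1, coeff_zero] at h3
  have h4 : c - d = 0 := leadingCoeff_eq_zero.1 h3.symm
  exact sub_eq_zero.1 h4

theorem pal_monic [Nontrivial R] {r : ℕ} {c : R[X]} (hc : c.Monic) (hr : c.natDegree = r) : (pal r c).Monic ∧ (pal r c).natDegree = 2 * r := by
  have h1 : (pal r c).coeff (2 * r) = 1 := by
    have h2 := paA_coeff (r := r) (k := r) hr.le le_rfl
    rw [← two_mul] at h2
    rw [h2, ← hr]
    exact hc.coeff_natDegree
  have h3 : (pal r c).Monic := monic_of_natDegree_le_of_coeff_eq_one _ paA_natDegree h1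
  refine ⟨h3, le_antisymm paA_natDegree ?_⟩
  refine le_natDegree_of_ne_zero ?_
  rw [h1]
  exact one_ne_zero

theorem monic_of_pal [Nontrivial R] {r : ℕ} {c : R[X]} (hc : c.natDegree ≤ r) (h : (pal r c).Monic) (h2 : (pal r c).natDegree = 2 * r) :
    c.Monic ∧ c.natDegree = r := by
  have h1 : c.coeff r = 1 := by
    rw [← paA_coeff hc le_rfl, ← two_mul, ← h2]
    exact h.coeff_natDegree
  refine ⟨monic_of_natDegree_le_of_coeff_eq_one _ hc h1, le_antisymm hc ?_⟩
  refine le_natDegree_of_ne_zero ?_
  rw [h1]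
  exact one_ne_zero

end WCn
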