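import Mathlib

/-!
# Palindromic polynomials: definition
-/

open Polynomial

namespace WCn

/-- The polynomial `X ^ r c(X + 1/X) = ∑ c_i X ^ (r - i) (X ^ 2 + 1) ^ i` (for `natDegree c ≤ r`). -/
noncomputable def pal {R : Type*} [CommRing R] (r : ℕ) (c : R[X]) : R[X] :=
  ∑ i ∈ Finset.range (r + 1), C (c.coeff i) * X ^ (r - i) * (X ^ 2 + 1) ^ i

end WCn
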