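import Pool.Agent.Lib.MP_c2b80f_alD.PaA

/-!
# Palindromic polynomials are of the form `pal` (job PaE)
-/

open Polynomial

namespace WCn

private theorem paE_add {R : Type*} [CommRing R] (r : ℕ) (c d : R[X]) : pal r (c + d) = pal r c + pal r d := by
  unfold pal
  rw [← Finset.sum_add_distrib]
  refine Finset.sum_congr rfl fun i _ => ?_
  rw [coeff_add, map_add]
  ring

private theorem paE_coeff {R : Type*} [CommRing R] (n i : ℕ) :
    ((X ^ 2 + 1 : R[X]) ^ n).coeff i = if 2 ∣ i then (n.choose (i / 2) : R) else 0 := by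
  have h : (X ^ 2 + 1 : R[X]) ^ n = expand R 2 ((X + 1) ^ n) := by
    simp
  rw [h, coeff_expand (by norm_num), coeff_X_add_one_pow]

private theorem paE_symm {R : Type*} [CommRing R] (n i : ℕ) (hi : i ≤ 2 * n) :
    ((X ^ 2 + 1 : R[X]) ^ n).coeff i = ((X ^ 2 + 1 : R[X]) ^ n).coeff (2 * n - i) := by
  rw [paE_coeff, paE_coeff]
  by_cases h : 2 ∣ i
  · have h' : 2 ∣ 2 * n - i := by omega
    rw [if_pos h, if_pos h']
    have h2 : (2 * n - i) / 2 = n - i / 2 := by omega
    rw [h2, Nat.choose_symm (by omega)]
  · have h' : ¬ 2 ∣ 2 * n - i := by omega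
    rw [if_neg h, if_neg h']

private theorem paE_deg {R : Type*} [CommRing R] (n : ℕ) : ((X ^ 2 + 1 : R[X]) ^ n).natDegree ≤ 2 * n := by
  refine natDegree_pow_le.trans ?_
  have h : (X ^ 2 + 1 : R[X]).natDegree ≤ 2 := by compute_degree
  nlinarith

/-- Induction on `r`. `F - a (X ^ 2 + 1) ^ r`, `a` the coefficient of `X ^ (2 r)` (and of `X ^ 0`), is palindromic for the degree `2 r` with vanishing coefficients at `0` and `2 r`, so it is `X` times a polynomial which is palindromic for the degree `2 (r - 1)`. -/
theorem exists_pal {R : Type*} [CommRing R] (r : ℕ) (F : R[X]) (hd : F.natDegree ≤ 2 * r) (hs : ∀ i ≤ 2 * r, F.coeff i = F.coeff (2 * r - i)) :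
    ∃ c : R[X], c.natDegree ≤ r ∧ F = pal r c := by
  induction r generalizing F with
  | zero =>
    refine ⟨F, by simpa using hd, ?_⟩
    have h0 : F.natDegree ≤ 0 := by simpa using hd
    rw [pal]
    simp only [zero_add, Finset.range_one, Finset.sum_singleton, Nat.sub_self, pow_zero, mul_one]
    exact eq_C_of_natDegree_le_zero h0
  | succ r ih =>
    set a := F.coeff 0 with ha
    set Q : R[X] := (X ^ 2 + 1) ^ (r + 1) with hQ
    set G : R[X] := F - C a * Q with hG
    have hGc : ∀ i, G.coeff i = F.coeff i - a * Q.coeff i := by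
      intro i
      rw [hG, coeff_sub, coeff_C_mul]
    have hQ0 : Q.coeff 0 = 1 := by
      rw [hQ, paE_coeff]
      simp
    have hG0 : G.coeff 0 = 0 := by
      rw [hGc, hQ0, ← ha]
      ring
    have hGs : ∀ i ≤ 2 * (r + 1), G.coeff i = G.coeff (2 * (r + 1) - i) := by
      intro i hi
      rw [hGc, hGc, hs i hi, hQ, paE_symm (r + 1) i hi]
    have hGdeg : ∀ i, 2 * r + 1 < i → G.coeff i = 0 := by
      intro i hi
      rcases Nat.lt_or_ge (2 * (r + 1)) i with h | h
      · rw [hGc, coeff_eq_zero_of_natDegree_lt (lt_of_le_of_lt hd h),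
          coeff_eq_zero_of_natDegree_lt (lt_of_le_of_lt (paE_deg (r + 1)) h)]
        ring
      · have : i = 2 * (r + 1) := by omega
        subst this
        rw [hGs _ le_rfl, Nat.sub_self, hG0]
    set H := G.divX with hH
    have hHc : ∀ i, H.coeff i = G.coeff (i + 1) := fun i => coeff_divX
    have hGX : G = X * H := by
      have := divX_mul_X_add G
      rw [hG0, C_0, add_zero] at this
      rw [mul_comm]
      exact this.symm
    have hHd : H.natDegree ≤ 2 * r := by
      rw [natDegree_le_iff_coeff_eq_zero]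
      intro i hi
      rw [hHc]
      exact hGdeg _ (by omega)
    have hHs : ∀ i ≤ 2 * r, H.coeff i = H.coeff (2 * r - i) := by
      intro i hi
      rw [hHc, hHc, hGs (i + 1) (by omega)]
      congr 1
      omega
    obtain ⟨c, hc, hHp⟩ := ih H hHd hHs
    refine ⟨c + C a * X ^ (r + 1), ?_, ?_⟩
    · refine (natDegree_add_le _ _).trans (max_le (by omega) ?_)
      exact natDegree_C_mul_X_pow_le a (r + 1)
    · rw [paE_add]
      have h1 : pal (r + 1) c = X * pal r c := by
        rw [pal, pal, Finset.sum_range_succ, coeff_eq_zero_of_natDegree_lt (by omega : c.natDegree < r + 1)]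
        simp only [C_0, zero_mul, add_zero, Finset.mul_sum]
        refine Finset.sum_congr rfl fun i hi => ?_
        have h2 : r + 1 - i = (r - i) + 1 := by
          have := Finset.mem_range.1 hi
          omega
        rw [h2, pow_succ]
        ring
      have h3 : pal (r + 1) (C a * X ^ (r + 1)) = C a * Q := by
        rw [pal, Finset.sum_eq_single (r + 1)]
        · simp [hQ]
        · intro b hb hne
          rw [coeff_C_mul_X_pow, if_neg hne]
          simp
        · intro h
          exact absurd (Finset.mem_range.2 (Nat.lt_succ_self _)) h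
      rw [h1, h3, ← hHp, ← hGX, hG]
      ring

end WCn
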