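import Pool.Agent.Lib.MP_c2b80f_alD.GDefs
import Pool.Agent.Lib.MP_c2b80f_alC.RelB
import Pool.Agent.Lib.MP_c2b80f_alC.RelC
import Pool.Agent.Lib.MP_c2b80f_alC.DiagB

/-!
# Weak commensurability of a generic element and another element (job PairG)
-/

open Matrix Polynomial

namespace WCn

variable {n m : ℕ}

/-- Compare `pair` in `MP_c2b80f_alC/Pair.lean`. `γ ∈ SL_m(ℂ)` is generic of rank `r₂`, `h ∈ SL_n(ℂ)` has rank at most `r₁`. Then `r₂ ≤ r₁`, and if `r₁ ≤ r₂` the sums of the squares of the logarithms of the sizes of the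
eigenvalues are proportional.
Proof. Take `S₀` from `GenEl`. Apply `rel_dim`: `finrank P + finrank S₀ = m + finrank R₁` (`htor` is `exists_eig_not_torsion`). As `finrank S₀ = m - r₂` and `finrank R₁ ≥ n - r₁` (`RankLe`), `finrank P ≤ n`:
`r₂ + finrank R₁ = finrank P ≤ n ≤ finrank R₁ + r₁`, so `r₂ ≤ r₁`. If `r₁ ≤ r₂`, then `r₁ = r₂`, `finrank P = n`, so `P = ⊤`, and `finrank R₁ = n - r₂ < n` (`1 ≤ r₂`), so `R₁ ≠ ⊤`. Apply `rel_schur`. -/
theorem pairG {r₁ r₂ : ℕ} (hr : 1 ≤ r₂) (A : Subring ℂ) (γ : SLC m) (hγ : GenEl r₂ A γ) (h : SLC n) (hh : RankLe r₁ h)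
    (hA : ∀ i, h.1.charpoly.coeff i ∈ A) (p : GL (Fin n) ℂ) (x : Fin n → ℂˣ) (q : GL (Fin m) ℂ) (y : Fin m → ℂˣ)
    (hx : DiagBy h p x) (hy : DiagBy γ q y) (a : Fin n → ℤ) (b : Fin m → ℤ)
    (hab : ∏ i, x i ^ a i = ∏ j, y j ^ b j) (hne : ∏ i, x i ^ a i ≠ 1) :
    r₂ ≤ r₁ ∧ (r₁ ≤ r₂ → ∃ β : ℝ, 0 < β ∧ ∀ (u : Fin n → ℝ) (v : Fin m → ℝ), Compat x y u v →
      ∑ i, u i ^ 2 = β * ∑ j, v j ^ 2) := by
  obtain ⟨S₀, hS0, hSrel, hIrr, hSchur⟩ := hγ.2.2 q y hy n x (by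
    intro i
    have h1 := hA i
    rw [diagBy_charpoly hx] at h1
    exact h1)
  have htor := exists_eig_not_torsion hy hγ.2.1
  obtain ⟨hR, hdim⟩ := rel_dim x y S₀ hSrel hIrr htor a b hab hne
  have hR1 := hh p x hx m y
  have hPle : Module.finrank ℚ ((relQ x y).map (LinearMap.fst ℚ (Fin n → ℚ) (Fin m → ℚ))) ≤ n := by
    have h3 := Submodule.finrank_le ((relQ x y).map (LinearMap.fst ℚ (Fin n → ℚ) (Fin m → ℚ)))
    rwa [Module.finrank_fin_fun] at h3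
  refine ⟨by omega, fun hnm => ?_⟩
  have hP : (relQ x y).map (LinearMap.fst ℚ (Fin n → ℚ) (Fin m → ℚ)) = ⊤ := by
    apply Submodule.eq_top_of_finrank_eq
    rw [Module.finrank_fin_fun]
    omega
  refine rel_schur x y S₀ hR hP ?_ hSchur
  intro htop
  rw [htop, finrank_top, Module.finrank_fin_fun] at hdim
  omega

end WCn
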