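import Pool.Agent.Lib.MP_c2b80f_alD.PairG
import Pool.Agent.Lib.MP_c2b80f_alD.ExG
import Pool.Agent.Lib.MP_c2b80f_alC.Entr

/-!
# Rank inequality for weakly commensurable groups (job RankEq)
-/

open Matrix Polynomial

namespace WCn

variable {n m : ℕ}

/-- Take a generic element `γ ∈ Γ` (`exists_genG`), `h ∈ Γ'` weakly commensurable to it, and `pairG`. (Coefficients of the characteristic polynomial of `h` are in `A`: `charpoly_coeff_mem`. Note that in `WComm γ h` the eigenvalues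
of `γ` come first; `WComm.symm`.) -/
theorem rank_le {r r' : ℕ} {G : Subgroup (SLC m)} {𝔤 : Submodule ℂ (Matrix (Fin m) (Fin m) ℂ)} (hG : Cls r G 𝔤)
    (G' : Subgroup (SLC n)) (hG' : ∀ h ∈ G', RankLe r' h) (Γ : Subgroup (SLC m)) (hz : ZDenseIn G Γ) (Γ' : Subgroup (SLC n)) (hΓ' : Γ' ≤ G')
    (A₀ : Finset ℂ) (hA : ∀ g ∈ Γ, ∀ i j, g.1 i j ∈ Subring.closure (A₀ : Set ℂ))
    (hA' : ∀ g ∈ Γ', ∀ i j, g.1 i j ∈ Subring.closure (A₀ : Set ℂ))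
    (hwc : ∀ g ∈ Γ, IsSs g → ¬ IsOfFinOrder g → ∃ h ∈ Γ', IsSs h ∧ ¬ IsOfFinOrder h ∧ WComm g h) :
    r ≤ r' := by
  obtain ⟨γ, hγ, hgen⟩ := exists_genG hG Γ hz A₀ hA
  obtain ⟨h, hh, _, _, hw⟩ := hwc γ hγ hgen.1 hgen.2.1
  obtain ⟨p, t, q, s, a, b, hd1, hd2, hab, hne⟩ := hw
  exact (pairG hG.pos (Subring.closure (A₀ : Set ℂ)) γ hgen h (hG' h (hΓ' hh))
    (fun i => charpoly_coeff_mem _ h.1 (hA' h hh) i) q s p t hd2 hd1 b a hab.symm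
    (fun h1 => hne (hab.trans h1))).1

end WCn
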