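import Pool.Agent.Lib.MP_c2b80f_alD.RjDefs

/-!
# The space `SL e` and the action of symmetries on labels (job RjA)
-/

namespace WCn

variable {n r δ : ℕ} {e : Fin r ⊕ (Fin r ⊕ Fin δ) ≃ Fin (r + (r + δ))}

/-- The map whose kernel is `SL e`. -/
private def RjA_phi (e : Fin r ⊕ (Fin r ⊕ Fin δ) ≃ Fin (r + (r + δ))) : (Fin (r + (r + δ)) → ℚ) →ₗ[ℚ] (Fin r → ℚ) where
  toFun d := fun i => d (e (Sum.inl i)) - d (e (Sum.inr (Sum.inl i)))
  map_add' := by
    intro a b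
    ext i
    simp only [Pi.add_apply]
    ring
  map_smul' := by
    intro c a
    ext i
    simp only [Pi.smul_apply, smul_eq_mul, RingHom.id_apply]
    ring

private theorem RjA_ker (e : Fin r ⊕ (Fin r ⊕ Fin δ) ≃ Fin (r + (r + δ))) : LinearMap.ker (RjA_phi e) = SL e := by
  ext d
  rw [LinearMap.mem_ker]
  constructor
  · intro h i
    have h1 : d (e (Sum.inl i)) - d (e (Sum.inr (Sum.inl i))) = 0 := congrFun h i
    exact sub_eq_zero.1 h1
  · intro h
    ext i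
    have h1 : d (e (Sum.inl i)) = d (e (Sum.inr (Sum.inl i))) := h i
    show d (e (Sum.inl i)) - d (e (Sum.inr (Sum.inl i))) = 0
    rw [h1, sub_self]

private theorem RjA_surj (e : Fin r ⊕ (Fin r ⊕ Fin δ) ≃ Fin (r + (r + δ))) : Function.Surjective (RjA_phi e) := by
  intro c
  refine ⟨fun j => Sum.elim c (fun _ => 0) (e.symm j), ?_⟩
  ext i
  show Sum.elim c (fun _ => 0) (e.symm (e (Sum.inl i))) - Sum.elim c (fun _ => 0) (e.symm (e (Sum.inr (Sum.inl i)))) = c i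
  rw [e.symm_apply_apply, e.symm_apply_apply, Sum.elim_inl, Sum.elim_inr, sub_zero]

/-- `SL e` has dimension `r + δ = m - r`. (Coordinates: `d (e (inl i))`, `d (e (inr (inr i)))`.) -/
theorem finrank_SL (e : Fin r ⊕ (Fin r ⊕ Fin δ) ≃ Fin (r + (r + δ))) : Module.finrank ℚ (SL e) + r = r + (r + δ) := by
  have h1 := LinearMap.finrank_range_add_finrank_ker (RjA_phi e)
  rw [RjA_ker, LinearMap.range_eq_top.2 (RjA_surj e), finrank_top, Module.finrank_fin_fun, Module.finrank_fin_fun] at h1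
  omega

theorem SL_prod {y : Fin (r + (r + δ)) → ℂˣ} (h : Lbl e y) (d : Fin (r + (r + δ)) → ℤ) (hd : (fun j => (d j : ℚ)) ∈ SL e) :
    ∏ j, y j ^ d j = 1 := by
  have h1 : ∀ i, d (e (Sum.inl i)) = d (e (Sum.inr (Sum.inl i))) := by
    intro i
    have h2 : ((d (e (Sum.inl i)) : ℤ) : ℚ) = ((d (e (Sum.inr (Sum.inl i))) : ℤ) : ℚ) := hd i
    exact_mod_cast h2
  rw [← Equiv.prod_comp e, Fintype.prod_sum_type, Fintype.prod_sum_type]
  have h3 : ∀ i : Fin δ, y (e (Sum.inr (Sum.inr i))) ^ d (e (Sum.inr (Sum.inr i))) = 1 := fun i => by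
    rw [h.one, one_zpow]
  rw [Finset.prod_congr rfl fun i _ => h3 i, Finset.prod_const_one, mul_one, ← Finset.prod_mul_distrib]
  refine Finset.prod_eq_one fun i _ => ?_
  rw [h.inv, ← h1 i, inv_zpow, mul_inv_cancel]

private theorem RjA_single {m : ℕ} (z : Fin m → ℂˣ) (a : Fin m) : ∏ j, z j ^ ((Pi.single a 1 : Fin m → ℤ) j) = z a := by
  rw [Finset.prod_eq_single a]
  · rw [Pi.single_eq_same, zpow_one]
  · intro j _ hj
    rw [Pi.single_eq_of_ne hj, zpow_zero]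
  · intro h
    exact absurd (Finset.mem_univ a) h

private theorem RjA_rel {m : ℕ} {x : Fin n → ℂˣ} {y : Fin m → ℂˣ} {π : Equiv.Perm (Fin n)} {ρ : Equiv.Perm (Fin m)}
    (hs : RelSym x y π ρ) (d : Fin m → ℤ) (hd : ∏ j, y j ^ d j = 1) : ∏ j, y (ρ j) ^ d j = 1 := by
  have h1 : MRel x y 0 d := by
    show (∏ i, x i ^ (0 : ℤ)) * ∏ j, y j ^ d j = 1
    simp only [zpow_zero, Finset.prod_const_one, one_mul]
    exact hd
  have h2 := hs 0 d h1
  have h3 : (∏ i, (x ∘ π) i ^ (0 : ℤ)) * ∏ j, (y ∘ ρ) j ^ d j = 1 := h2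
  simp only [zpow_zero, Finset.prod_const_one, one_mul] at h3
  exact h3

/-- Symmetries preserve the relation `y (e (inl i)) y (e (inr (inl i))) = 1`, so (as `y` is injective) they map blocks to blocks. -/
theorem relSym_block {x : Fin n → ℂˣ} {y : Fin (r + (r + δ)) → ℂˣ} (h : Lbl e y) {π : Equiv.Perm (Fin n)} {ρ : Equiv.Perm (Fin (r + (r + δ)))}
    (hs : RelSym x y π ρ) (i l : Fin r) :
    (ρ (e (Sum.inl i)) = e (Sum.inl l) → ρ (e (Sum.inr (Sum.inl i))) = e (Sum.inr (Sum.inl l))) ∧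
    (ρ (e (Sum.inl i)) = e (Sum.inr (Sum.inl l)) → ρ (e (Sum.inr (Sum.inl i))) = e (Sum.inl l)) := by
  have h1 : ∀ z : Fin (r + (r + δ)) → ℂˣ, ∏ j, z j ^ ((Pi.single (e (Sum.inl i)) 1 + Pi.single (e (Sum.inr (Sum.inl i))) 1 :
      Fin (r + (r + δ)) → ℤ) j) = z (e (Sum.inl i)) * z (e (Sum.inr (Sum.inl i))) := by
    intro z
    simp only [Pi.add_apply, zpow_add]
    rw [Finset.prod_mul_distrib, RjA_single, RjA_single]
  have h2 := RjA_rel hs _ ((h1 y).trans (by rw [h.inv, mul_inv_cancel]))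
  rw [h1 fun j => y (ρ j)] at h2
  have h3 : y (ρ (e (Sum.inr (Sum.inl i)))) = (y (ρ (e (Sum.inl i))))⁻¹ := eq_inv_of_mul_eq_one_right h2
  constructor
  · intro h4
    apply h.inj
    rw [h3, h4, h.inv]
  · intro h4
    apply h.inj
    rw [h3, h4, h.inv, inv_inv]

/-- Symmetries fix the labels of the eigenvalue `1` (relation `y j = 1`). -/
theorem relSym_one_label {x : Fin n → ℂˣ} {y : Fin (r + (r + δ)) → ℂˣ} (h : Lbl e y) {π : Equiv.Perm (Fin n)} {ρ : Equiv.Perm (Fin (r + (r + δ)))}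
    (hs : RelSym x y π ρ) (i : Fin δ) : ρ (e (Sum.inr (Sum.inr i))) = e (Sum.inr (Sum.inr i)) := by
  have h2 := RjA_rel hs _ ((RjA_single y (e (Sum.inr (Sum.inr i)))).trans (h.one i))
  rw [RjA_single (fun j => y (ρ j))] at h2
  apply h.inj
  rw [h2, h.one]

/-- Every label `e (inl i)` goes to a label of a block. -/
theorem relSym_inl {x : Fin n → ℂˣ} {y : Fin (r + (r + δ)) → ℂˣ} (h : Lbl e y) {π : Equiv.Perm (Fin n)} {ρ : Equiv.Perm (Fin (r + (r + δ)))}
    (hs : RelSym x y π ρ) (i : Fin r) : ∃ l : Fin r, ρ (e (Sum.inl i)) = e (Sum.inl l) ∨ ρ (e (Sum.inl i)) = e (Sum.inr (Sum.inl l)) := by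
  have h1 : ρ (e (Sum.inl i)) = e (e.symm (ρ (e (Sum.inl i)))) := (e.apply_symm_apply _).symm
  rcases h2 : e.symm (ρ (e (Sum.inl i))) with l | l | l
  · rw [h2] at h1
    exact ⟨l, Or.inl h1⟩
  · rw [h2] at h1
    exact ⟨l, Or.inr h1⟩
  · rw [h2, ← relSym_one_label h hs l] at h1
    have h3 := e.injective (ρ.injective h1)
    cases h3

end WCn
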