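import Mathlib

/-!
# Vectors which are antisymmetric for a permutation (job RkA)
-/

namespace WCn

/-- The space of the `w : Fin m → ℚ` with `w (σ i) = - w i` has dimension at most `m / 2`.
Proof. Let `E` be this space. Consider the orbits of `σ` (`Equiv.Perm.SameCycle`). If `w ∈ E` vanishes at one point of an orbit, it vanishes on the orbit. Call an orbit even if some `w ∈ E` does not vanish on it; then for its chosen representative `a`, `σ a ≠ a` (`w (σ a) = - w a ≠ w a`). So there are at most `m / 2` even orbits (`a`, `σ a` for the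
different even orbits are different elements), and `E` embeds into the functions on the set of even orbits by `w ↦ w(representatives)`. -/
theorem finrank_antisymm {m : ℕ} (σ : Equiv.Perm (Fin m)) (E : Submodule ℚ (Fin m → ℚ)) (hE : ∀ w ∈ E, ∀ i, w (σ i) = - w i) :
    2 * Module.finrank ℚ E ≤ m := by
  classical
  -- the support of the space
  obtain ⟨w₀, hw₀E, hw₀⟩ : ∃ w₀ ∈ E, ∀ i, (∃ w ∈ E, w i ≠ 0) → w₀ i ≠ 0 := by
    obtain ⟨v, hvE, hv⟩ := Module.Dual.exists_forall_mem_ne_zero_of_forall_exists E
      (fun i : {i : Fin m // ∃ w ∈ E, w i ≠ 0} => (LinearMap.proj i.1 : (Fin m → ℚ) →ₗ[ℚ] ℚ))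
      (fun i => i.2)
    exact ⟨v, hvE, fun i hi => hv ⟨i, hi⟩⟩
  -- the invariant vectors
  let F : Submodule ℚ (Fin m → ℚ) :=
    { carrier := {w | ∀ i, w (σ i) = w i}
      add_mem' := fun {a b} ha hb i => by simp [ha i, hb i]
      zero_mem' := fun i => rfl
      smul_mem' := fun c a ha i => by simp [ha i] }
  have hdisj : Disjoint E F := by
    rw [Submodule.disjoint_def]
    intro w hwE hwF
    funext i
    have h1 := hE w hwE i
    have h2 : w (σ i) = w i := hwF i
    have h3 : w i = - w i := h2.symm.trans h1
    have h4 : w i = 0 := by linarith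
    simpa using h4
  -- multiplication by `w₀`
  let M : (Fin m → ℚ) →ₗ[ℚ] (Fin m → ℚ) :=
    { toFun := fun w i => w₀ i * w i
      map_add' := fun a b => by funext i; simp [mul_add]
      map_smul' := fun c a => by funext i; simp; ring }
  have hle : Module.finrank ℚ E ≤ Module.finrank ℚ F := by
    have hmap : ∀ w ∈ E, M w ∈ F := by
      intro w hw i
      show w₀ (σ i) * w (σ i) = w₀ i * w i
      rw [hE w hw i, hE w₀ hw₀E i]
      ring
    refine LinearMap.finrank_le_finrank_of_injective (f := M.restrict hmap) ?_
    rw [← LinearMap.ker_eq_bot, LinearMap.ker_eq_bot']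
    intro w hw
    apply Subtype.ext
    funext i
    have h1 : w₀ i * (w : Fin m → ℚ) i = 0 := by
      have := congrArg (fun z : F => (z : Fin m → ℚ) i) hw
      simpa [M, LinearMap.restrict_apply] using this
    by_contra hne
    have h2 : (w : Fin m → ℚ) i ≠ 0 := by simpa using hne
    exact (mul_ne_zero (hw₀ i ⟨w, w.2, h2⟩) h2) h1
  have hsum : Module.finrank ℚ E + Module.finrank ℚ F ≤ m := by
    have h := Submodule.finrank_add_finrank_le_of_disjoint hdisj
    simpa using h
  omega

end WCn
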